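import Mathlib

set_option autoImplicit false

namespace Pool.Agent.Helper180.QPM

/-- image of a word under a morphism -/
def im (φ : ℕ → List ℕ) (L : List ℕ) : List ℕ := L.flatMap φ

/-- the window of length `n` of the infinite word `x` starting at position `i` -/
def win (x : ℕ → ℕ) (i n : ℕ) : List ℕ := (List.range n).map (fun t => x (i + t))

/-- the length of the image of the first `i` letters of the infinite word `x` -/
def cut (φ : ℕ → List ℕ) (x : ℕ → ℕ) (i : ℕ) : ℕ := (im φ (win x 0 i)).length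

/-- the infinite word `y` is the image of the infinite word `x` under the morphism `φ` -/
def IsIm (φ : ℕ → List ℕ) (x y : ℕ → ℕ) : Prop :=
  ∀ n, im φ (win x 0 n) = win y 0 (cut φ x n)

/-- the `m`-th iterate of the morphism `f` -/
def it (f : ℕ → List ℕ) (m : ℕ) : ℕ → List ℕ := fun c => (im f)^[m] [c]

/-- the infinite word `w` is quasiperiodic -/
def QP (w : ℕ → ℕ) : Prop :=
  ∃ u, ∀ i, ∃ j, j ≤ i ∧ i < j + u ∧ win w j u = win w 0 u

/-- the letter `a` occurs in `w` with bounded gaps -/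
def Synd (a : ℕ) (w : ℕ → ℕ) : Prop := ∃ g, ∀ i, ∃ t, t < g ∧ w (i + t) = a

/-- the infinite word obtained by deleting the first `i` letters -/
def sh (x : ℕ → ℕ) (i : ℕ) : ℕ → ℕ := fun t => x (i + t)

section im

variable (φ ψ : ℕ → List ℕ)

@[simp] theorem im_nil : im φ [] = [] := rfl

@[simp] theorem im_cons (c : ℕ) (L : List ℕ) : im φ (c :: L) = φ c ++ im φ L := by
  simp [im]

@[simp] theorem im_append (L M : List ℕ) : im φ (L ++ M) = im φ L ++ im φ M := by
  simp [im]

theorem im_singleton (c : ℕ) : im φ [c] = φ c := by simp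

theorem mem_im {c : ℕ} {L : List ℕ} : c ∈ im φ L ↔ ∃ b ∈ L, c ∈ φ b := by
  simp [im]

theorem im_comp (L : List ℕ) : im ψ (im φ L) = im (fun c => im ψ (φ c)) L := by
  induction L with
  | nil => rfl
  | cons c L ih => simp [ih]

theorem im_congr {φ ψ : ℕ → List ℕ} {L : List ℕ} (h : ∀ c ∈ L, φ c = ψ c) : im φ L = im ψ L := by
  induction L with
  | nil => rfl
  | cons c L ih =>
    rw [im_cons, im_cons, h c (by simp), ih (fun d hd => h d (by simp [hd]))]

theorem length_im_pos {L : List ℕ} (h : ∀ c ∈ L, 1 ≤ (φ c).length) :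
    L.length ≤ (im φ L).length := by
  induction L with
  | nil => simp
  | cons c L ih =>
    have h1 := h c (by simp)
    have h2 := ih (fun d hd => h d (by simp [hd]))
    simp only [im_cons, List.length_append, List.length_cons]
    omega

theorem im_prefix {L M : List ℕ} (h : L <+: M) : im φ L <+: im φ M := by
  obtain ⟨N, rfl⟩ := h
  exact ⟨im φ N, by simp⟩

end im

section it

variable (f : ℕ → List ℕ)

theorem im_it (m : ℕ) (L : List ℕ) : im (it f m) L = (im f)^[m] L := by
  induction m generalizing L with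
  | zero =>
    induction L with
    | nil => rfl
    | cons c L ih =>
      simp only [Function.iterate_zero, id_eq, im_cons] at ih ⊢
      rw [ih]
      rfl
  | succ m ih =>
    rw [Function.iterate_succ_apply, ← ih, im_comp]
    apply im_congr
    intro c _
    show (im f)^[m + 1] [c] = im (it f m) (f c)
    rw [ih, Function.iterate_succ_apply, im_singleton]

theorem it_zero (c : ℕ) : it f 0 c = [c] := rfl

theorem it_one (c : ℕ) : it f 1 c = f c := by simp [it]

theorem it_succ (m c : ℕ) : it f (m + 1) c = im f (it f m c) := by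
  unfold it
  rw [Function.iterate_succ_apply']

theorem it_succ' (m c : ℕ) : it f (m + 1) c = im (it f m) (f c) := by
  rw [im_it]
  unfold it
  rw [Function.iterate_succ_apply, im_singleton]

theorem it_add (m n c : ℕ) : it f (m + n) c = im (it f m) (it f n c) := by
  rw [im_it]
  unfold it
  rw [Function.iterate_add_apply]

theorem it_it (m n c : ℕ) : it (it f m) n c = it f (m * n) c := by
  induction n with
  | zero => simp [it_zero]
  | succ n ih => rw [it_succ, ih, Nat.mul_succ, Nat.add_comm, it_add]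

end it

section win

variable (x y : ℕ → ℕ)

@[simp] theorem win_length (i n : ℕ) : (win x i n).length = n := by simp [win]

@[simp] theorem win_zero (i : ℕ) : win x i 0 = [] := rfl

theorem win_getElem (i n t : ℕ) (h : t < (win x i n).length) : (win x i n)[t] = x (i + t) := by
  simp [win]

theorem win_getD (i n t : ℕ) (h : t < n) (d : ℕ) : (win x i n).getD t d = x (i + t) := by
  rw [List.getD_eq_getElem _ _ (by simpa using h), win_getElem]

theorem win_add (i n m : ℕ) : win x i (n + m) = win x i n ++ win x (i + n) m := by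
  apply List.ext_getElem
  · simp
  · intro t h1 h2
    rw [win_getElem]
    by_cases h : t < n
    · rw [List.getElem_append_left (by simpa using h), win_getElem]
    · rw [List.getElem_append_right (by simpa using h), win_getElem]
      simp only [win_length]
      congr 1
      omega

theorem win_one (i : ℕ) : win x i 1 = [x i] := by simp [win]

theorem win_succ (i n : ℕ) : win x i (n + 1) = win x i n ++ [x (i + n)] := by
  rw [win_add, win_one]

theorem win_succ' (i n : ℕ) : win x i (n + 1) = x i :: win x (i + 1) n := by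
  rw [Nat.add_comm, win_add, win_one]
  rfl

theorem win_eq_iff {x y : ℕ → ℕ} {i j n : ℕ} :
    win x i n = win y j n ↔ ∀ t < n, x (i + t) = y (j + t) := by
  constructor
  · intro h t ht
    have h1 : (win x i n).getD t 0 = (win y j n).getD t 0 := by rw [h]
    rwa [win_getD _ _ _ _ ht, win_getD _ _ _ _ ht] at h1
  · intro h
    apply List.ext_getElem
    · simp
    · intro t h1 h2
      rw [win_getElem, win_getElem]
      exact h t (by simpa using h1)

theorem take_win (i n m : ℕ) (h : m ≤ n) : (win x i n).take m = win x i m := by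
  obtain ⟨k, rfl⟩ := Nat.exists_eq_add_of_le h
  rw [win_add, List.take_left' (by simp)]

theorem drop_win (i n m : ℕ) : (win x i n).drop m = win x (i + m) (n - m) := by
  by_cases h : m ≤ n
  · obtain ⟨k, rfl⟩ := Nat.exists_eq_add_of_le h
    rw [win_add, List.drop_left' (by simp), Nat.add_sub_cancel_left]
  · rw [List.drop_eq_nil_of_le (by simp; omega), Nat.sub_eq_zero_of_le (by omega)]
    rfl

theorem mem_win {i n c : ℕ} : c ∈ win x i n ↔ ∃ t < n, x (i + t) = c := by
  simp [win]

theorem win_sh (i j n : ℕ) : win (sh x i) j n = win x (i + j) n := by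
  rw [win_eq_iff]
  intro t _
  simp [sh, Nat.add_assoc]

theorem win_prefix (i n m : ℕ) (h : n ≤ m) : win x i n <+: win x i m := by
  obtain ⟨k, rfl⟩ := Nat.exists_eq_add_of_le h
  rw [win_add]
  exact List.prefix_append _ _

theorem prefix_win_iff {L : List ℕ} {i n : ℕ} :
    L <+: win x i n ↔ L.length ≤ n ∧ L = win x i L.length := by
  constructor
  · intro h
    have h1 : L.length ≤ n := by simpa using h.length_le
    refine ⟨h1, ?_⟩
    have h2 := List.prefix_iff_eq_take.1 h
    rw [h2, take_win _ _ _ _ h1]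
    simp
  · rintro ⟨h1, h2⟩
    rw [h2]
    exact win_prefix _ _ _ _ h1

end win

section cut

variable {φ : ℕ → List ℕ} {x y : ℕ → ℕ}

@[simp] theorem cut_zero (φ : ℕ → List ℕ) (x : ℕ → ℕ) : cut φ x 0 = 0 := rfl

theorem cut_add (φ : ℕ → List ℕ) (x : ℕ → ℕ) (i n : ℕ) :
    cut φ x (i + n) = cut φ x i + (im φ (win x i n)).length := by
  unfold cut
  rw [win_add, im_append, List.length_append, Nat.zero_add]

theorem cut_succ (φ : ℕ → List ℕ) (x : ℕ → ℕ) (i : ℕ) :
    cut φ x (i + 1) = cut φ x i + (φ (x i)).length := by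
  rw [cut_add, win_one, im_singleton]

theorem cut_mono (φ : ℕ → List ℕ) (x : ℕ → ℕ) : Monotone (cut φ x) := by
  intro i j h
  obtain ⟨k, rfl⟩ := Nat.exists_eq_add_of_le h
  rw [cut_add]
  omega

theorem cut_strictMono (h : ∀ i, 1 ≤ (φ (x i)).length) : StrictMono (cut φ x) :=
  strictMono_nat_of_lt_succ (fun i => by
    rw [cut_succ]
    have := h i
    omega)

theorem le_cut (h : ∀ i, 1 ≤ (φ (x i)).length) (i : ℕ) : i ≤ cut φ x i :=
  (cut_strictMono h).le_apply

/-- the image of any window is a window -/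
theorem IsIm.imWin (h : IsIm φ x y) (i n : ℕ) :
    im φ (win x i n) = win y (cut φ x i) (im φ (win x i n)).length := by
  have h1 := h (i + n)
  rw [win_add, im_append, h i, cut_add, win_add] at h1
  simp only [Nat.zero_add] at h1
  exact List.append_cancel_left h1

theorem IsIm.letter (h : IsIm φ x y) (i : ℕ) :
    φ (x i) = win y (cut φ x i) (φ (x i)).length := by
  have h1 := h.imWin i 1
  rw [win_one, im_singleton] at h1
  exact h1

/-- every position lies in a block -/
theorem exists_block (hu : ∀ N, ∃ n, N < cut φ x n) (j : ℕ) :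
    ∃ i, cut φ x i ≤ j ∧ j < cut φ x (i + 1) := by
  classical
  have h1 : ∃ n, j < cut φ x n := hu j
  have h2 := Nat.find_spec h1
  have h3 : Nat.find h1 ≠ 0 := by
    intro h
    rw [h] at h2
    simp at h2
  obtain ⟨i, hi⟩ := Nat.exists_eq_succ_of_ne_zero h3
  refine ⟨i, ?_, ?_⟩
  · by_contra hcon
    push Not at hcon
    have := Nat.find_min' h1 hcon
    omega
  · rw [hi] at h2
    exact h2

theorem cut_unbounded (h : ∀ i, 1 ≤ (φ (x i)).length) (N : ℕ) : ∃ n, N < cut φ x n :=
  ⟨N + 1, le_cut h (N + 1)⟩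

theorem cut_comp {ψ : ℕ → List ℕ} (h : IsIm φ x y) (i : ℕ) :
    cut (fun c => im ψ (φ c)) x i = cut ψ y (cut φ x i) := by
  have h1 : cut (fun c => im ψ (φ c)) x i = (im ψ (im φ (win x 0 i))).length := by
    unfold cut
    rw [← im_comp]
  rw [h1, h i]
  rfl

theorem IsIm.comp {ψ : ℕ → List ℕ} {z : ℕ → ℕ} (h : IsIm φ x y) (h' : IsIm ψ y z) :
    IsIm (fun c => im ψ (φ c)) x z := by
  intro n
  rw [← im_comp, h n, h', cut_comp h]

theorem IsIm.iter {f : ℕ → List ℕ} {w : ℕ → ℕ} (h : IsIm f w w) (m : ℕ) : IsIm (it f m) w w := by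
  induction m with
  | zero =>
    have h1 : ∀ L : List ℕ, im (it f 0) L = L := by
      intro L
      rw [im_it]
      rfl
    intro n
    unfold cut
    rw [h1]
    simp
  | succ m ih =>
    have h1 : (it f (m + 1)) = fun c => im f (it f m c) := by
      funext c
      exact it_succ f m c
    rw [h1]
    exact ih.comp h

theorem cut_it_add {f : ℕ → List ℕ} {w : ℕ → ℕ} (h : IsIm f w w) (m n i : ℕ) :
    cut (it f (m + n)) w i = cut (it f m) w (cut (it f n) w i) := by
  have h1 : (it f (m + n)) = fun c => im (it f m) (it f n c) := by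
    funext c
    exact it_add f m n c
  rw [h1, cut_comp (h.iter n)]

theorem IsIm.shift (h : IsIm φ x y) (i : ℕ) : IsIm φ (sh x i) (sh y (cut φ x i)) := by
  intro n
  have h1 := h.imWin i n
  rw [win_sh, Nat.add_zero, h1]
  unfold cut
  rw [win_sh, win_sh, Nat.add_zero, Nat.add_zero]

theorem cut_sh (φ : ℕ → List ℕ) (x : ℕ → ℕ) (i n : ℕ) :
    cut φ x (i + n) = cut φ x i + cut φ (sh x i) n := by
  rw [cut_add]
  unfold cut
  rw [win_sh, Nat.add_zero]

/-- images of infinite words exist -/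
theorem exists_isIm (h : ∀ i, 1 ≤ (φ (x i)).length) : ∃ y, IsIm φ x y := by
  let y : ℕ → ℕ := fun t => (im φ (win x 0 (t + 1))).getD t 0
  refine ⟨y, ?_⟩
  intro n
  apply List.ext_getElem
  · simp [cut]
  · intro t h1 h2
    rw [win_getElem]
    have h3 : t < cut φ x n := h1
    show _ = (im φ (win x 0 (0 + t + 1))).getD (0 + t) 0
    rw [Nat.zero_add]
    have h4 : t < (im φ (win x 0 (t + 1))).length := by
      have := le_cut h (t + 1)
      unfold cut at this
      omega
    rw [List.getD_eq_getElem _ _ h4]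
    rcases le_total n (t + 1) with h5 | h5
    · obtain ⟨N, hN⟩ := im_prefix φ (win_prefix x 0 n (t + 1) h5)
      simp only [← hN]
      rw [List.getElem_append_left h1]
    · obtain ⟨N, hN⟩ := im_prefix φ (win_prefix x 0 (t + 1) n h5)
      simp only [← hN]
      rw [List.getElem_append_left h4]

/-- the image is determined on the image of a common window -/
theorem IsIm.agree {x' y' : ℕ → ℕ} (h : IsIm φ x y) (h' : IsIm φ x' y') {n : ℕ}
    (hw : win x 0 n = win x' 0 n) : win y 0 (cut φ x n) = win y' 0 (cut φ x n) := by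
  rw [← h n, hw, h' n]
  unfold cut
  rw [hw]

end cut


/-! ### marked morphisms -/

/-- a morphism on the alphabet `{0, ..., k-1}` whose cutting points are marked by the words of
`S`, all of length `r` -/
structure Marked (k : ℕ) (φ : ℕ → List ℕ) (r : ℕ) (S : List (List ℕ)) : Prop where
  ne : S ≠ []
  len : ∀ s ∈ S, s.length = r
  pos : ∀ b < k, 1 ≤ (φ b).length
  head : ∀ b < k, ∀ s ∈ S, (φ b ++ s).take r ∈ S
  inner : ∀ b < k, ∀ s ∈ S, ∀ j < (φ b).length, 0 < j → ((φ b ++ s).drop j).take r ∉ S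
  inj : ∀ b < k, ∀ c < k, φ b = φ c → b = c

/-- `phi Θ h n = Θ ∘ h ^ n` -/
def phi (Θ h : ℕ → List ℕ) : ℕ → ℕ → List ℕ
  | 0 => Θ
  | n + 1 => fun b => im (phi Θ h n) (h b)

/-- the finite set of pairs which is closed under the dynamics of the gaps -/
def InvOK (k K : ℕ) (Θ h : ℕ → List ℕ) (Inv : List (List ℕ × List ℕ)) : Prop :=
  ∀ zx ∈ Inv, (∀ c ∈ zx.1, c < k) ∧ (∀ c ∈ zx.2, c < k) ∧ zx.2.length = K ∧ zx.1 ≠ [] ∧
    zx.1.head? ≠ zx.2.head? ∧ ¬ (im Θ zx.1 <+: im Θ zx.2) ∧
    ∃ j < (im h zx.1).length, (im h zx.1).take j = (im h zx.2).take j ∧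
      j + K ≤ (im h zx.2).length ∧
      ((im h zx.1).drop j).head? ≠ ((im h zx.2).drop j).head? ∧
      (K ≤ ((im h zx.1).drop j).length ∨
        ((im h zx.1).drop j, ((im h zx.2).drop j).take K) ∈ Inv)

/-- occurrences in `v` of its prefix of length `l`, followed by a context in `T` -/
def OccT (v : ℕ → ℕ) (l c : ℕ) (T : List ℕ → Prop) (m : ℕ) : Prop :=
  win v m l = win v 0 l ∧ T (win v (m + l) c)

/-- there is a persistent gap between consecutive occurrences -/
def GapOK (K : ℕ) (v : ℕ → ℕ) (Inv : List (List ℕ × List ℕ)) (l : ℕ) (T : List ℕ → Prop) :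
    Prop :=
  ∃ m1 m2, m1 + l < m2 ∧ OccT v l (2 * K) T m1 ∧ OccT v l (2 * K) T m2 ∧
    (∀ m, m1 < m → m < m2 → ¬ OccT v l (2 * K) T m) ∧
    (K ≤ m2 - (m1 + l) ∨ ∃ x, T x ∧ ∃ j < m2 - (m1 + l), win v (m1 + l) j = x.take j ∧
      (win v (m1 + l + j) (m2 - (m1 + l + j)), (x.drop j).take K) ∈ Inv)

/-- the prefix of length `u` covers `w` -/
def Cov (w : ℕ → ℕ) (u : ℕ) : Prop := ∀ i, ∃ j, j ≤ i ∧ i < j + u ∧ win w j u = win w 0 u

/-! ### finite certificates -/

/-- the morphism given by a list of words -/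
def mor (F : List (List ℕ)) : ℕ → List ℕ := fun c => F.getD c []

/-- all words of length `n` over the alphabet `{0, ..., k-1}` -/
def words (k : ℕ) : ℕ → List (List ℕ)
  | 0 => [[]]
  | n + 1 => (words k n).flatMap (fun L => (List.range k).map (fun c => c :: L))

/-- all sublists -/
def subs (l : List (List ℕ)) : List (List (List ℕ)) :=
  l.foldr (fun x acc => acc ++ acc.map (fun T => x :: T)) [[]]

/-- finite version of `OccT` -/
def OccV (V : List ℕ) (l c : ℕ) (T : List (List ℕ)) (m : ℕ) : Prop :=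
  (V.drop m).take l = V.take l ∧ (V.drop (m + l)).take c ∈ T

/-- finite version of `GapOK` -/
def GapV (K N : ℕ) (V : List ℕ) (Inv : List (List ℕ × List ℕ)) (l : ℕ) (T : List (List ℕ)) :
    Prop :=
  ∃ m1 < N, ∃ m2 < N, m1 + l < m2 ∧ OccV V l (2 * K) T m1 ∧ OccV V l (2 * K) T m2 ∧
    (∀ m < m2, m1 < m → ¬ OccV V l (2 * K) T m) ∧
    (K ≤ m2 - (m1 + l) ∨ ∃ x ∈ T, ∃ j < m2 - (m1 + l), (V.drop (m1 + l)).take j = x.take j ∧
      ((V.drop (m1 + l + j)).take (m2 - (m1 + l + j)), (x.drop j).take K) ∈ Inv)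

/-- certificate that the fixed point of `f` is not quasiperiodic, `a` being syndetic -/
structure CertN (f : ℕ → List ℕ) (a m N : ℕ) (Θ h : List (List ℕ)) (p : List ℕ) (r : ℕ)
    (S : List (List ℕ)) (K : ℕ) (Inv : List (List ℕ × List ℕ)) : Prop where
  mpos : 1 ≤ m
  kpos : 0 < Θ.length
  hlen : h.length = Θ.length
  conj : ∀ b < Θ.length, (im f)^[m] (mor Θ b) = im (mor Θ) (mor h b)
  th0 : (mor Θ 0).head? = some a
  h0 : (mor h 0).head? = some 0
  val : ∀ b < Θ.length, ∀ c ∈ mor h b, c < Θ.length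
  mth : Marked Θ.length (mor Θ) p.length [p]
  mh : Marked Θ.length (mor h) r S
  two : ∀ b < Θ.length, 2 ≤ (mor h b).length
  Kp : p.length + 1 ≤ K
  Kr : r + 1 ≤ K
  inv : InvOK Θ.length K (mor Θ) (mor h) Inv
  long : N + r + 2 * K ≤ ((im (mor h))^[N] [0]).length
  gap : ∀ l < r, ∀ T ∈ subs (words Θ.length (2 * K)),
    (((im (mor h))^[N] [0]).drop l).take (2 * K) ∈ T →
    (∃ x ∈ T, x.head? ≠ ((((im (mor h))^[N] [0]).drop l).take (2 * K)).head?) →
    GapV K N ((im (mor h))^[N] [0]) Inv l T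

/-- certificate that the fixed point of `f` is quasiperiodic -/
structure CertQ (f : ℕ → List ℕ) (a N : ℕ) (Θ h : List (List ℕ)) (u K : ℕ)
    (Fac : List (List ℕ)) : Prop where
  kpos : 0 < Θ.length
  hlen : h.length = Θ.length
  conj : ∀ b < Θ.length, im f (mor Θ b) = im (mor Θ) (mor h b)
  th0 : (mor Θ 0).head? = some a
  h0 : (mor h 0).head? = some 0
  val : ∀ b < Θ.length, ∀ c ∈ mor h b, c < Θ.length
  posΘ : ∀ b < Θ.length, 1 ≤ (mor Θ b).length
  posh : ∀ b < Θ.length, 1 ≤ (mor h b).length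
  two : 2 ≤ (mor h 0).length
  Ku : 2 * u + 1 ≤ K
  long : K ≤ ((im (mor h))^[N] [0]).length
  start : ((im (mor h))^[N] [0]).take K ∈ Fac
  closed : ∀ x ∈ Fac, ∀ j < (mor h x.headI).length, ((im (mor h) x).drop j).take K ∈ Fac
  cov0 : ∀ t < (im (mor Θ) (((im (mor h))^[N] [0]).take K)).length,
    t + u ≤ (im (mor Θ) (((im (mor h))^[N] [0]).take K)).length →
    ∃ j < t + 1, t < j + u ∧
      ((im (mor Θ) (((im (mor h))^[N] [0]).take K)).drop j).take u =
        (im (mor Θ) (((im (mor h))^[N] [0]).take K)).take u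
  cov : ∀ x ∈ Fac, ∀ t < (im (mor Θ) x).length, u ≤ t → t + u ≤ (im (mor Θ) x).length →
    ∃ j < t + 1, t < j + u ∧
      ((im (mor Θ) x).drop j).take u = (im (mor Θ) (((im (mor h))^[N] [0]).take K)).take u

/-- certificate that the letter `a` does not occur with bounded gaps -/
structure CertA (f : ℕ → List ℕ) (a N c m : ℕ) (x s D I : List ℕ) : Prop where
  mem : c ∈ (im f)^[N] [a]
  mpos : 1 ≤ m
  eq : (im f)^[m] [c] = x ++ c :: s
  aD : a ∉ D
  closed : ∀ b ∈ D, ∀ e ∈ f b, e ∈ D
  imm : ∀ b ∈ I, ∃ e ∈ f b, e ∈ I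
  side : ((∀ e ∈ s, e ∈ D) ∧ ∃ e ∈ s, e ∈ I) ∨ ((∀ e ∈ x, e ∈ D) ∧ ∃ e ∈ x, e ∈ I)

/-- the infinite word `w` over `{0, ..., k-1}` is the fixed point of `f` starting with `a` -/
structure Ctx (f : ℕ → List ℕ) (w : ℕ → ℕ) (a k : ℕ) : Prop where
  fix : IsIm f w w
  w0 : w 0 = a
  alph : ∀ i, w i < k
  grow : ∀ N, ∃ n, N < (it f n a).length

/-- the return words to the prefix of length `L` of `w` -/
def Ret (w : ℕ → ℕ) (L : ℕ) : Set (List ℕ) :=
  {x | ∃ j j', j < j' ∧ win w j L = win w 0 L ∧ win w j' L = win w 0 L ∧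
    (∀ t, j < t → t < j' → win w t L ≠ win w 0 L) ∧ x = win w j (j' - j)}

/-- the coding of `w` by the return words to its prefix of length `L` -/
structure Coding (w : ℕ → ℕ) (g : ℕ → List ℕ) (L : ℕ) (Θ h : List (List ℕ)) (v : ℕ → ℕ) :
    Prop where
  kpos : 0 < Θ.length
  hlen : h.length = Θ.length
  v0 : v 0 = 0
  vlt : ∀ i, v i < Θ.length
  onto : ∀ b < Θ.length, ∃ i, v i = b
  ret : ∀ b < Θ.length, mor Θ b ∈ Ret w L
  imΘ : IsIm (mor Θ) v w
  mΘ : Marked Θ.length (mor Θ) L [win w 0 L]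
  val : ∀ b < Θ.length, ∀ c ∈ mor h b, c < Θ.length
  posh : ∀ b < Θ.length, 1 ≤ (mor h b).length
  conj : ∀ b < Θ.length, im g (mor Θ b) = im (mor Θ) (mor h b)
  imh : IsIm (mor h) v v
  occ : ∀ j, win w j L = win w 0 L ↔ ∃ i, j = cut (mor Θ) v i

/-- the synchronisation property of the prefix of length `L` -/
def Sync (w : ℕ → ℕ) (g : ℕ → List ℕ) (L L' : ℕ) : Prop :=
  ∀ j, win w j L' = win w 0 L' → ∃ j0, win w j0 L = win w 0 L ∧ j = cut g w j0

end Pool.Agent.Helper180.QPM
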