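import Mathlib
import Pool.Agent.Helper180.QPM.Base

set_option autoImplicit false

namespace Pool.Agent.Helper180.QPM

theorem synd_of_QP {w : ℕ → ℕ} (hq : QP w) : Synd (w 0) w := by
  obtain ⟨u, hu⟩ := hq
  refine ⟨u + 1, fun i => ?_⟩
  obtain ⟨j, hj1, hj2, hj3⟩ := hu (i + u)
  refine ⟨j - i, by omega, ?_⟩
  have h1 := win_eq_iff.1 hj3 0 (by omega)
  have h2 : i + (j - i) = j + 0 := by omega
  rw [h2, h1]

end Pool.Agent.Helper180.QPM
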