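import Mathlib
import Pool.Agent.Helper180.QPM.Base

set_option autoImplicit false

namespace Pool.Agent.Helper180.QPM


theorem length_im_le {φ : ℕ → List ℕ} {B : ℕ} {L : List ℕ} (h : ∀ c ∈ L, (φ c).length ≤ B) :
    (im φ L).length ≤ L.length * B := by
  induction L with
  | nil => simp
  | cons c L ih =>
    have h1 := h c (by simp)
    have h2 := ih (fun d hd => h d (by simp [hd]))
    simp only [im_cons, List.length_append, List.length_cons]
    rw [Nat.add_mul, Nat.one_mul]
    omega

theorem le_length_im {φ : ℕ → List ℕ} {c : ℕ} {L : List ℕ} (h : c ∈ L) :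
    (φ c).length ≤ (im φ L).length := by
  induction L with
  | nil => simp at h
  | cons d L ih =>
    simp only [im_cons, List.length_append]
    rcases List.mem_cons.mp h with h | h
    · rw [h]; omega
    · have := ih h
      omega

theorem factors_finite_aux {w : ℕ → ℕ} {kA : ℕ} (h : ∀ i, w i < kA) (n : ℕ) :
    ∃ N, ∀ i, ∃ j < N, win w j n = win w i n := by
  classical
  let g : ℕ → (Fin n → Fin kA) := fun i t => ⟨w (i + t), h _⟩
  let c : (Fin n → Fin kA) → ℕ := fun v => if h : ∃ i, g i = v then Nat.find h else 0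
  refine ⟨Finset.univ.sup c + 1, fun i => ⟨c (g i), ?_, ?_⟩⟩
  · have := Finset.le_sup (f := c) (Finset.mem_univ (g i))
    omega
  · have h1 : ∃ j, g j = g i := ⟨i, rfl⟩
    have h2 : g (c (g i)) = g i := by
      show g (if h : ∃ j, g j = g i then Nat.find h else 0) = g i
      rw [dif_pos h1]
      exact Nat.find_spec h1
    rw [win_eq_iff]
    intro t ht
    have h3 := congrFun h2 ⟨t, ht⟩
    have h4 := congrArg Fin.val h3
    exact h4

theorem Ctx.it_a {f : ℕ → List ℕ} {w : ℕ → ℕ} {a kA : ℕ} (hw : Ctx f w a kA) (n : ℕ) :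
    it f n a = win w 0 (it f n a).length := by
  have h1 := (hw.fix.iter n).letter 0
  rw [hw.w0, cut_zero] at h1
  exact h1

theorem Ctx.len_mono {f : ℕ → List ℕ} {w : ℕ → ℕ} {a kA : ℕ} (hw : Ctx f w a kA) :
    Monotone fun n => (it f n a).length := by
  have h0 : (f a).length ≠ 0 := by
    intro h0
    have h1 : f a = [] := List.length_eq_zero_iff.mp h0
    obtain ⟨n, hn⟩ := hw.grow 1
    cases n with
    | zero => simp [it_zero] at hn
    | succ n =>
      rw [it_succ', h1] at hn
      simp at hn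
  have h1 := hw.fix.letter 0
  rw [hw.w0, cut_zero] at h1
  obtain ⟨l, hl⟩ := Nat.exists_eq_succ_of_ne_zero h0
  rw [hl, Nat.succ_eq_add_one, win_succ', hw.w0] at h1
  apply monotone_nat_of_le_succ
  intro n
  show (it f n a).length ≤ (it f (n + 1) a).length
  rw [it_succ', h1, im_cons, List.length_append]
  omega

theorem Ctx.len_pos {f : ℕ → List ℕ} {w : ℕ → ℕ} {a kA : ℕ} (hw : Ctx f w a kA) (n : ℕ) :
    1 ≤ (it f n a).length := by
  have := hw.len_mono (Nat.zero_le n)
  simpa [it_zero] using this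

theorem Ctx.mem_it {f : ℕ → List ℕ} {w : ℕ → ℕ} {a kA : ℕ} (hw : Ctx f w a kA) (n i : ℕ)
    {c : ℕ} (hc : c ∈ it f n (w i)) : ∃ j, c = w j := by
  rw [(hw.fix.iter n).letter i, mem_win] at hc
  obtain ⟨t, _, ht⟩ := hc
  exact ⟨_, ht.symm⟩

theorem mu_bound {f : ℕ → List ℕ} {w : ℕ → ℕ} {a kA : ℕ} (hw : Ctx f w a kA) :
    ∃ C, ∀ n i, (it f n (w i)).length ≤ C * (it f n a).length := by
  obtain ⟨N, hN⟩ := factors_finite_aux hw.alph 1
  have hN' : ∀ i, ∃ j < N, w j = w i := by
    intro i
    obtain ⟨j, hj, h⟩ := hN i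
    rw [win_one, win_one] at h
    exact ⟨j, hj, by simpa using h⟩
  obtain ⟨s, hs⟩ := hw.grow N
  -- every letter occurs in `it f s a`
  have hocc : ∀ i, w i ∈ it f s a := by
    intro i
    obtain ⟨j, hj, h⟩ := hN' i
    rw [hw.it_a s, mem_win]
    exact ⟨j, by omega, by rw [Nat.zero_add, h]⟩
  -- bound on the images of the letters
  obtain ⟨W, hW1, hW⟩ : ∃ W, 1 ≤ W ∧ ∀ i, (f (w i)).length ≤ W := by
    refine ⟨(Finset.range N).sup (fun j => (f (w j)).length) + 1, by omega, fun i => ?_⟩
    obtain ⟨j, hj, h⟩ := hN' i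
    have := Finset.le_sup (f := fun j => (f (w j)).length) (Finset.mem_range.mpr hj)
    rw [h] at this
    omega
  have hpow : ∀ m i, (it f m (w i)).length ≤ W ^ m := by
    intro m
    induction m with
    | zero => intro i; simp [it_zero]
    | succ m ih =>
      intro i
      rw [it_succ']
      have h1 : ∀ c ∈ f (w i), (it f m c).length ≤ W ^ m := by
        intro c hc
        have hc' : c ∈ it f 1 (w i) := by rw [it_one]; exact hc
        obtain ⟨j, rfl⟩ := hw.mem_it 1 i hc'
        exact ih j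
      calc (im (it f m) (f (w i))).length ≤ (f (w i)).length * W ^ m := length_im_le h1
        _ ≤ W * W ^ m := Nat.mul_le_mul_right _ (hW i)
        _ = W ^ (m + 1) := by rw [pow_succ, Nat.mul_comm]
  refine ⟨W ^ s, fun n i => ?_⟩
  rcases le_total n s with h | h
  · calc (it f n (w i)).length ≤ W ^ n := hpow n i
      _ ≤ W ^ s := Nat.pow_le_pow_right hW1 h
      _ = W ^ s * 1 := by rw [Nat.mul_one]
      _ ≤ W ^ s * (it f n a).length := Nat.mul_le_mul_left _ (hw.len_pos n)
  · obtain ⟨d, rfl⟩ := Nat.exists_eq_add_of_le' h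
    rw [it_add f d s (w i)]
    have h1 : ∀ c ∈ it f s (w i), (it f d c).length ≤ (it f (d + s) a).length := by
      intro c hc
      obtain ⟨j, rfl⟩ := hw.mem_it s i hc
      rw [it_add f d s a]
      exact le_length_im (hocc j)
    calc (im (it f d) (it f s (w i))).length
        ≤ (it f s (w i)).length * (it f (d + s) a).length := length_im_le h1
      _ ≤ W ^ s * (it f (d + s) a).length := Nat.mul_le_mul_right _ (hpow s i)

theorem factors_finite {w : ℕ → ℕ} {kA : ℕ} (h : ∀ i, w i < kA) (n : ℕ) :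
    ∃ N, ∀ i, ∃ j < N, win w j n = win w i n :=
  factors_finite_aux h n

theorem synd_win {f : ℕ → List ℕ} {w : ℕ → ℕ} {a kA : ℕ} (hw : Ctx f w a kA)
    (hs : Synd a w) (L : ℕ) : ∃ G, ∀ i, ∃ t, t < G ∧ win w (i + t) L = win w 0 L := by
  obtain ⟨g, hg⟩ := hs
  obtain ⟨n, hn⟩ := hw.grow L
  obtain ⟨C, hC⟩ := mu_bound hw
  have hM : ∀ i, (it f n (w i)).length ≤ C * (it f n a).length := hC n
  set M := C * (it f n a).length with hMdef
  have him := hw.fix.iter n
  have hunb : ∀ K, ∃ m, K ≤ cut (it f n) w m := by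
    intro K
    induction K with
    | zero => exact ⟨0, Nat.zero_le _⟩
    | succ K ih =>
      obtain ⟨m, hm⟩ := ih
      obtain ⟨t, _, ht⟩ := hg m
      refine ⟨m + t + 1, ?_⟩
      rw [cut_succ, ht]
      have h1 := cut_mono (it f n) w (Nat.le_add_right m t)
      have h2 := hw.len_pos n
      omega
  have hunb' : ∀ K, ∃ m, K < cut (it f n) w m := by
    intro K
    obtain ⟨m, hm⟩ := hunb (K + 1)
    exact ⟨m, by omega⟩
  refine ⟨g * M + 1, fun i => ?_⟩
  obtain ⟨i', h1, h2⟩ := exists_block hunb' i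
  obtain ⟨t, htg, ht⟩ := hg (i' + 1)
  have h3 : cut (it f n) w (i' + 1) ≤ cut (it f n) w (i' + 1 + t) :=
    cut_mono (it f n) w (Nat.le_add_right _ _)
  have h4 : cut (it f n) w (i' + 1 + t) ≤ cut (it f n) w i' + g * M := by
    have h5 : i' + 1 + t = i' + (1 + t) := by omega
    rw [h5, cut_add]
    have h6 : (im (it f n) (win w i' (1 + t))).length ≤ (win w i' (1 + t)).length * M := by
      apply length_im_le
      intro c hc
      rw [mem_win] at hc
      obtain ⟨u, _, rfl⟩ := hc
      exact hM _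
    rw [win_length] at h6
    have h7 : (1 + t) * M ≤ g * M := Nat.mul_le_mul_right _ (by omega)
    omega
  refine ⟨cut (it f n) w (i' + 1 + t) - i, by omega, ?_⟩
  have h5 : i + (cut (it f n) w (i' + 1 + t) - i) = cut (it f n) w (i' + 1 + t) := by omega
  rw [h5]
  have h6 := him.letter (i' + 1 + t)
  rw [ht] at h6
  have h7 := hw.it_a n
  have h8 : win w (cut (it f n) w (i' + 1 + t)) (it f n a).length = win w 0 (it f n a).length := by
    rw [← h6, ← h7]
  rw [← take_win w (cut (it f n) w (i' + 1 + t)) (it f n a).length L (by omega), h8,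
    take_win w 0 (it f n a).length L (by omega)]

end Pool.Agent.Helper180.QPM
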