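import Mathlib
import Pool.Agent.Helper180.QPM.Base

set_option autoImplicit false

namespace Pool.Agent.Helper180.QPM


theorem enum_occ {w : ℕ → ℕ} {L : ℕ}
    (hs : ∃ G, ∀ i, ∃ t, t < G ∧ win w (i + t) L = win w 0 L) :
    ∃ (o : ℕ → ℕ) (G : ℕ), o 0 = 0 ∧ StrictMono o ∧
      (∀ j, win w j L = win w 0 L ↔ ∃ i, j = o i) ∧ ∀ i, o (i + 1) ≤ o i + G := by
  classical
  obtain ⟨G, hG⟩ := hs
  set P : ℕ → Prop := fun j => win w j L = win w 0 L with hP
  have hinf : (setOf P).Infinite := by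
    rw [Set.infinite_iff_exists_gt]
    intro a
    obtain ⟨t, -, ht⟩ := hG (a + 1)
    exact ⟨a + 1 + t, ht, by omega⟩
  have hmono : StrictMono (Nat.nth P) := Nat.nth_strictMono hinf
  have hrange : ∀ j, P j ↔ ∃ i, j = Nat.nth P i := by
    intro j
    constructor
    · intro h
      have h1 : j ∈ Set.range (Nat.nth P) := by
        rw [Nat.range_nth_of_infinite hinf]
        exact h
      obtain ⟨i, hi⟩ := h1
      exact ⟨i, hi.symm⟩
    · rintro ⟨i, rfl⟩
      exact Nat.nth_mem_of_infinite hinf i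
  refine ⟨Nat.nth P, G + 1, Nat.nth_zero_of_zero rfl, hmono, hrange, fun i => ?_⟩
  obtain ⟨t, ht, ht'⟩ := hG (Nat.nth P i + 1)
  obtain ⟨m, hm⟩ := (hrange _).1 ht'
  have h1 : i < m := by
    rw [← hmono.lt_iff_lt, ← hm]
    omega
  have h2 : Nat.nth P (i + 1) ≤ Nat.nth P m := hmono.monotone h1
  omega

theorem finite_lists_aux (G kA : ℕ) :
    {l : List ℕ | l.length ≤ G ∧ ∀ c ∈ l, c < kA}.Finite := by
  induction G with
  | zero =>
    refine (Set.finite_singleton ([] : List ℕ)).subset ?_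
    rintro l ⟨h, -⟩
    exact List.length_eq_zero_iff.1 (Nat.le_zero.1 h)
  | succ n ih =>
    refine ((Set.finite_singleton ([] : List ℕ)).union
      ((Set.finite_Iio kA).image2 (fun x l => x :: l) ih)).subset ?_
    rintro b ⟨h, h'⟩
    cases b with
    | nil => exact Or.inl rfl
    | cons x l =>
      refine Or.inr ⟨x, h' x (List.mem_cons_self ..), l, ⟨?_, ?_⟩, rfl⟩
      · simpa using h
      · exact fun y hy => h' y (List.mem_cons_of_mem _ hy)

theorem numbering {ρ : ℕ → List ℕ} {G kA : ℕ} (h1 : ∀ i, (ρ i).length ≤ G)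
    (h2 : ∀ i, ∀ c ∈ ρ i, c < kA) :
    ∃ (Θ : List (List ℕ)) (v : ℕ → ℕ), v 0 = 0 ∧ (∀ i, v i < Θ.length) ∧
      (∀ i, mor Θ (v i) = ρ i) ∧ (∀ b < Θ.length, ∃ i, v i = b) ∧
      ∀ b < Θ.length, ∀ c < Θ.length, mor Θ b = mor Θ c → b = c := by
  classical
  have hfin : (Set.range ρ).Finite := by
    refine (finite_lists_aux G kA).subset ?_
    rintro _ ⟨i, rfl⟩
    exact ⟨h1 i, h2 i⟩
  set Θ : List (List ℕ) := ρ 0 :: (hfin.toFinset.erase (ρ 0)).toList with hΘ
  have hnd : Θ.Nodup := by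
    rw [hΘ, List.nodup_cons]
    refine ⟨?_, Finset.nodup_toList _⟩
    rw [Finset.mem_toList]
    exact Finset.notMem_erase _ _
  have hmem : ∀ x, x ∈ Θ ↔ x ∈ Set.range ρ := by
    intro x
    rw [hΘ, List.mem_cons, Finset.mem_toList, Finset.mem_erase, Set.Finite.mem_toFinset]
    constructor
    · rintro (rfl | h)
      · exact ⟨0, rfl⟩
      · exact h.2
    · intro h
      by_cases hx : x = ρ 0
      · exact Or.inl hx
      · exact Or.inr ⟨hx, h⟩
  have hlt : ∀ i, Θ.idxOf (ρ i) < Θ.length := fun i =>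
    List.idxOf_lt_length_iff.2 ((hmem _).2 ⟨i, rfl⟩)
  have hget : ∀ b (hb : b < Θ.length), mor Θ b = Θ[b] := by
    intro b hb
    simp [mor, hb]
  refine ⟨Θ, fun i => Θ.idxOf (ρ i), ?_, hlt, ?_, ?_, ?_⟩
  · show Θ.idxOf (ρ 0) = 0
    rw [hΘ, List.idxOf_cons_self]
  · intro i
    rw [hget _ (hlt i), List.getElem_idxOf]
  · intro b hb
    obtain ⟨i, hi⟩ := (hmem _).1 (List.getElem_mem hb)
    refine ⟨i, ?_⟩
    show Θ.idxOf (ρ i) = b
    rw [hi]
    exact hnd.idxOf_getElem b hb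
  · intro b hb c hc h
    rw [hget b hb, hget c hc] at h
    exact (hnd.getElem_inj_iff).1 h

end Pool.Agent.Helper180.QPM
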