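import Mathlib
import Pool.Agent.Helper180.QPM.Base

set_option autoImplicit false

namespace Pool.Agent.Helper180.QPM



theorem QPM1_take_append {r : ℕ} (A B : List ℕ) : (A ++ B).take r = (A ++ B.take r).take r := by
  rw [List.take_append, List.take_append, List.take_take]
  congr 2
  omega

theorem QPM1_im {k r : ℕ} {φ : ℕ → List ℕ} {S : List (List ℕ)} (hM : Marked k φ r S)
    (L : List ℕ) (hL : ∀ c ∈ L, c < k) {s : List ℕ} (hs : s ∈ S) : (im φ L ++ s).take r ∈ S := by
  induction L with
  | nil =>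
    rw [im_nil, List.nil_append, List.take_of_length_le (le_of_eq (hM.len s hs))]
    exact hs
  | cons b L ih =>
    rw [im_cons, List.append_assoc, QPM1_take_append]
    exact hM.head b (hL b (by simp)) _ (ih (fun c hc => hL c (by simp [hc])))

theorem QPM1_start0 {k r : ℕ} {φ : ℕ → List ℕ} {S : List (List ℕ)} (hM : Marked k φ r S)
    {x y : ℕ → ℕ} (hx : ∀ i, x i < k) (h : IsIm φ x y) : win y 0 r ∈ S := by
  obtain ⟨s, hs⟩ := List.exists_mem_of_ne_nil _ hM.ne
  have hr : r ≤ cut φ x r := le_cut (fun i => hM.pos _ (hx i)) r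
  have h1 : win y 0 r = (im φ (win x 0 r) ++ s).take r := by
    rw [h r, List.take_append_of_le_length (by simpa using hr), take_win _ _ _ _ hr]
  rw [h1]
  apply QPM1_im hM _ _ hs
  intro c hc
  obtain ⟨t, _, rfl⟩ := (mem_win _).mp hc
  exact hx _

theorem Marked.start {k r : ℕ} {φ : ℕ → List ℕ} {S : List (List ℕ)} (hM : Marked k φ r S)
    {x y : ℕ → ℕ} (hx : ∀ i, x i < k) (h : IsIm φ x y) (i : ℕ) : win y (cut φ x i) r ∈ S := by
  have h1 := QPM1_start0 hM (fun j => hx (i + j)) (h.shift i)
  rw [win_sh, Nat.add_zero] at h1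
  exact h1

theorem Marked.cuts {k r : ℕ} {φ : ℕ → List ℕ} {S : List (List ℕ)} (hM : Marked k φ r S)
    {x y : ℕ → ℕ} (hx : ∀ i, x i < k) (h : IsIm φ x y) {j : ℕ} (hj : win y j r ∈ S) :
    ∃ i, j = cut φ x i := by
  have hpos : ∀ i, 1 ≤ (φ (x i)).length := fun i => hM.pos _ (hx i)
  obtain ⟨i, hi1, hi2⟩ := exists_block (cut_unbounded hpos) j
  rcases hi1.eq_or_lt with h0 | h0
  · exact ⟨i, h0.symm⟩
  · exfalso
    rw [cut_succ] at hi2
    have hs := hM.start hx h (i + 1)
    have h1 := hM.inner (x i) (hx i) _ hs (j - cut φ x i) (by omega) (by omega)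
    apply h1
    have h2 : φ (x i) ++ win y (cut φ x (i + 1)) r =
        win y (cut φ x i) ((φ (x i)).length + r) := by
      rw [win_add, cut_succ]
      congr 1
      exact h.letter i
    rw [h2, drop_win, take_win _ _ _ _ (by omega)]
    have h3 : cut φ x i + (j - cut φ x i) = j := by omega
    rw [h3]
    exact hj

theorem Marked.diverge {k r : ℕ} {φ : ℕ → List ℕ} {S : List (List ℕ)} (hM : Marked k φ r S)
    {x y x' y' : ℕ → ℕ} (hx : ∀ i, x i < k) (h : IsIm φ x y) (hx' : ∀ i, x' i < k)
    (h' : IsIm φ x' y') (h0 : x 0 ≠ x' 0) : ∃ t < (φ (x 0)).length + r, y t ≠ y' t := by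
  by_contra hcon
  push Not at hcon
  have hpos : 1 ≤ (φ (x 0)).length := hM.pos _ (hx 0)
  have hpos' : 1 ≤ (φ (x' 0)).length := hM.pos _ (hx' 0)
  have hc1 : cut φ x 1 = (φ (x 0)).length := by
    have := cut_succ φ x 0
    rw [cut_zero, Nat.zero_add, Nat.zero_add] at this
    exact this
  have hc1' : cut φ x' 1 = (φ (x' 0)).length := by
    have := cut_succ φ x' 0
    rw [cut_zero, Nat.zero_add, Nat.zero_add] at this
    exact this
  have hle : (φ (x' 0)).length ≤ (φ (x 0)).length := by
    have h1 := hM.start hx h 1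
    rw [hc1] at h1
    have h2 : win y (φ (x 0)).length r = win y' (φ (x 0)).length r := by
      rw [win_eq_iff]
      intro t ht
      exact hcon _ (by omega)
    rw [h2] at h1
    obtain ⟨i, hi⟩ := hM.cuts hx' h' h1
    have hi0 : 1 ≤ i := by
      by_contra hc
      have : i = 0 := by omega
      rw [this, cut_zero] at hi
      omega
    rw [← hc1', hi]
    exact cut_mono φ x' hi0
  have hge : (φ (x 0)).length ≤ (φ (x' 0)).length := by
    have h1 := hM.start hx' h' 1
    rw [hc1'] at h1
    have h2 : win y (φ (x' 0)).length r = win y' (φ (x' 0)).length r := by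
      rw [win_eq_iff]
      intro t ht
      exact hcon _ (by omega)
    rw [← h2] at h1
    obtain ⟨i, hi⟩ := hM.cuts hx h h1
    have hi0 : 1 ≤ i := by
      by_contra hc
      have : i = 0 := by omega
      rw [this, cut_zero] at hi
      omega
    rw [← hc1, hi]
    exact cut_mono φ x hi0
  have hl : (φ (x 0)).length = (φ (x' 0)).length := le_antisymm hge hle
  apply h0
  apply hM.inj _ (hx 0) _ (hx' 0)
  rw [h.letter 0, h'.letter 0, ← hl, cut_zero, cut_zero, win_eq_iff]
  intro t ht
  exact hcon _ (by omega)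

theorem Marked.decode {k r : ℕ} {φ : ℕ → List ℕ} {S : List (List ℕ)} (hM : Marked k φ r S)
    {x y x' y' : ℕ → ℕ} (hx : ∀ i, x i < k) (h : IsIm φ x y) (hx' : ∀ i, x' i < k)
    (h' : IsIm φ x' y') (n : ℕ) (hn : win y 0 (cut φ x n + r) = win y' 0 (cut φ x n + r)) :
    win x 0 n = win x' 0 n := by
  induction n with
  | zero => rfl
  | succ n ih =>
    have hmono : cut φ x n ≤ cut φ x (n + 1) := cut_mono φ x (Nat.le_succ n)
    rw [win_eq_iff] at hn
    have ih' := ih (by
      rw [win_eq_iff]
      intro t ht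
      exact hn t (by omega))
    rw [win_succ, win_succ, ih']
    congr 2
    rw [Nat.zero_add]
    by_contra hne
    have hcut : cut φ x' n = cut φ x n := by
      unfold cut
      rw [ih']
    have hs' := h'.shift n
    rw [hcut] at hs'
    obtain ⟨t, ht, hty⟩ := hM.diverge (fun j => hx (n + j)) (h.shift n) (fun j => hx' (n + j)) hs' hne
    apply hty
    have h1 := hn (cut φ x n + t) (by
      have ht' : t < (φ (x n)).length + r := ht
      rw [cut_succ]
      omega)
    rw [Nat.zero_add] at h1
    exact h1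

end Pool.Agent.Helper180.QPM
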