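import Mathlib
import Pool.Agent.Helper180.QPM.Base
import Pool.Agent.Helper180.QPM.JEnum
import Pool.Agent.Helper180.QPM.JMarked

set_option autoImplicit false

namespace Pool.Agent.Helper180.QPM


theorem coding {w : ℕ → ℕ} {g : ℕ → List ℕ} {kA L : ℕ} (hA : ∀ i, w i < kA)
    (hg : IsIm g w w) (hL : 1 ≤ L) (hLg : L ≤ cut g w L) (hg0 : 1 ≤ (g (w 0)).length)
    (hs : ∃ G, ∀ i, ∃ t, t < G ∧ win w (i + t) L = win w 0 L) :
    ∃ (Θ h : List (List ℕ)) (v : ℕ → ℕ), Coding w g L Θ h v := by
  obtain ⟨o, G, o0, omono, occ, ogap⟩ := enum_occ hs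
  have hlt : ∀ i, o i < o (i + 1) := fun i => omono (Nat.lt_succ_self i)
  have hp : ∀ i, win w (o i) L = win w 0 L := fun i => (occ _).2 ⟨i, rfl⟩
  obtain ⟨Θ, v, v0, vlt, hρ, onto, inj⟩ := numbering
    (ρ := fun i => win w (o i) (o (i + 1) - o i)) (G := G) (kA := kA)
    (by
      intro i
      rw [win_length]
      have := ogap i
      omega)
    (by
      intro i c hc
      obtain ⟨t, _, rfl⟩ := (mem_win _).1 hc
      exact hA _)
  have hφ : ∀ i, mor Θ (v i) = win w (o i) (o (i + 1) - o i) := hρ
  have hφl : ∀ i, (mor Θ (v i)).length = o (i + 1) - o i := by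
    intro i; rw [hφ, win_length]
  have hcut : ∀ i, cut (mor Θ) v i = o i := by
    intro i
    induction i with
    | zero => rw [cut_zero, o0]
    | succ i ih =>
      rw [cut_succ, ih, hφl]
      have := hlt i
      omega
  have hpos : ∀ b < Θ.length, 1 ≤ (mor Θ b).length := by
    intro b hb
    obtain ⟨i, rfl⟩ := onto b hb
    rw [hφl]
    have := hlt i
    omega
  have hIm : IsIm (mor Θ) v w := by
    intro n
    rw [hcut]
    induction n with
    | zero => rw [o0]; rfl
    | succ n ih =>
      rw [win_succ, im_append, im_singleton, ih, Nat.zero_add, hφ]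
      have h1 : o (n + 1) = o n + (o (n + 1) - o n) := by
        have := hlt n
        omega
      conv_rhs => rw [h1, win_add, Nat.zero_add]
  have hret : ∀ b < Θ.length, mor Θ b ∈ Ret w L := by
    intro b hb
    obtain ⟨i, rfl⟩ := onto b hb
    refine ⟨o i, o (i + 1), hlt i, hp i, hp (i + 1), ?_, hφ i⟩
    intro t h1 h2 h3
    obtain ⟨k, rfl⟩ := (occ t).1 h3
    have h4 := omono.lt_iff_lt.1 h1
    have h5 := omono.lt_iff_lt.1 h2
    omega
  have happ : ∀ i, mor Θ (v i) ++ win w 0 L = win w (o i) ((o (i + 1) - o i) + L) := by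
    intro i
    rw [win_add, hφ]
    have h1 : o i + (o (i + 1) - o i) = o (i + 1) := by
      have := hlt i
      omega
    rw [h1, hp (i + 1)]
  have hM : Marked Θ.length (mor Θ) L [win w 0 L] := by
    refine ⟨by simp, ?_, hpos, ?_, ?_, inj⟩
    · intro s hs
      rw [List.mem_singleton] at hs
      rw [hs, win_length]
    · intro b hb s hs
      rw [List.mem_singleton] at hs
      subst hs
      obtain ⟨i, rfl⟩ := onto b hb
      rw [happ, take_win _ _ _ _ (by omega), hp, List.mem_singleton]
    · intro b hb s hs j hj hj0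
      rw [List.mem_singleton] at hs
      subst hs
      obtain ⟨i, rfl⟩ := onto b hb
      rw [hφl] at hj
      rw [happ, drop_win, take_win _ _ _ _ (by omega), List.mem_singleton]
      intro h3
      obtain ⟨k, hk⟩ := (occ _).1 h3
      have h1 : o i < o k := by omega
      have h2 : o k < o (i + 1) := by omega
      have h4 := omono.lt_iff_lt.1 h1
      have h5 := omono.lt_iff_lt.1 h2
      omega
  have hex : ∀ i, ∃ k, cut g w (o i) = o k := by
    intro i
    apply (occ _).1
    have h1 := hg.imWin (o i) L
    rw [hp i, hg L, win_length] at h1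
    have h2 : (win w 0 (cut g w L)).take L = (win w (cut g w (o i)) (cut g w L)).take L := by
      rw [← h1]
    rw [take_win _ _ _ _ hLg, take_win _ _ _ _ hLg] at h2
    exact h2.symm
  choose hc hhc using hex
  have hc0 : hc 0 = 0 := by
    apply omono.injective
    rw [← hhc 0, o0, cut_zero]
  have hcmono : ∀ i, hc i < hc (i + 1) := by
    intro i
    rw [← omono.lt_iff_lt, ← hhc, ← hhc]
    have h1 : w (o i) = w 0 := by
      have := (win_eq_iff.1 (hp i)) 0 (by omega)
      simpa using this
    have h2 : cut g w (o i + 1) ≤ cut g w (o (i + 1)) := cut_mono g w (hlt i)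
    rw [cut_succ, h1] at h2
    omega
  have hohc : ∀ i, o (hc i) < o (hc (i + 1)) := fun i => omono (hcmono i)
  -- images
  have hE : ∀ i, im (mor Θ) (win v (hc i) (hc (i + 1) - hc i)) =
      win w (o (hc i)) (o (hc (i + 1)) - o (hc i)) := by
    intro i
    have h1 := hIm.imWin (hc i) (hc (i + 1) - hc i)
    have h2 := cut_add (mor Θ) v (hc i) (hc (i + 1) - hc i)
    have h3 : hc i + (hc (i + 1) - hc i) = hc (i + 1) := by
      have := hcmono i
      omega
    rw [h3, hcut, hcut] at h2
    have h4 : (im (mor Θ) (win v (hc i) (hc (i + 1) - hc i))).length =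
        o (hc (i + 1)) - o (hc i) := by omega
    rw [h4, hcut] at h1
    exact h1
  have hE' : ∀ i, im g (mor Θ (v i)) = win w (o (hc i)) (o (hc (i + 1)) - o (hc i)) := by
    intro i
    rw [hφ]
    have h1 := hg.imWin (o i) (o (i + 1) - o i)
    have h2 := cut_add g w (o i) (o (i + 1) - o i)
    have h3 : o i + (o (i + 1) - o i) = o (i + 1) := by
      have := hlt i
      omega
    rw [h3, hhc, hhc] at h2
    have h4 : (im g (win w (o i) (o (i + 1) - o i))).length =
        o (hc (i + 1)) - o (hc i) := by omega
    rw [h4, hhc] at h1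
    exact h1
  have hkey : ∀ i i', v i = v i' →
      win v (hc i) (hc (i + 1) - hc i) = win v (hc i') (hc (i' + 1) - hc i') := by
    intro i i' hii
    have h1 := hE' i
    have h1' := hE' i'
    rw [hii, h1'] at h1
    have hD : o (hc (i' + 1)) - o (hc i') = o (hc (i + 1)) - o (hc i) := by
      have := congrArg List.length h1
      simpa using this
    rw [hD] at h1
    have h2 : win w (o (hc i)) ((o (hc (i + 1)) - o (hc i)) + L) =
        win w (o (hc i')) ((o (hc (i + 1)) - o (hc i)) + L) := by
      rw [win_add, win_add, ← h1]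
      congr 1
      have h3 : o (hc i) + (o (hc (i + 1)) - o (hc i)) = o (hc (i + 1)) := by
        have := hohc i
        omega
      have h3' : o (hc i') + (o (hc (i + 1)) - o (hc i)) = o (hc (i' + 1)) := by
        have := hohc i'
        omega
      rw [h3, h3', hp, hp]
    have h4 := cut_sh (mor Θ) v (hc i) (hc (i + 1) - hc i)
    have h5 : hc i + (hc (i + 1) - hc i) = hc (i + 1) := by
      have := hcmono i
      omega
    rw [h5, hcut, hcut] at h4
    have h6 : cut (mor Θ) (sh v (hc i)) (hc (i + 1) - hc i) = o (hc (i + 1)) - o (hc i) := by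
      omega
    have hsh := hIm.shift (hc i)
    have hsh' := hIm.shift (hc i')
    rw [hcut] at hsh hsh'
    have h7 := hM.decode (x := sh v (hc i)) (x' := sh v (hc i')) (fun j => vlt _) hsh
      (fun j => vlt _) hsh' (hc (i + 1) - hc i) (by
        rw [h6, win_sh, win_sh, Nat.add_zero, Nat.add_zero]
        exact h2)
    simp only [win_sh, Nat.add_zero] at h7
    have h8 : hc (i + 1) - hc i = hc (i' + 1) - hc i' := by
      have h9 := cut_add (mor Θ) v (hc i') (hc (i + 1) - hc i)
      rw [← h7, hE, win_length, hcut, hcut] at h9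
      have h10 : o (hc i') + (o (hc (i + 1)) - o (hc i)) = o (hc (i' + 1)) := by
        have := hohc i'
        omega
      rw [h10] at h9
      have h11 := omono.injective h9
      omega
    rw [h7, h8]
  choose! r hr using onto
  let h : List (List ℕ) := (List.range Θ.length).map
    (fun b => win v (hc (r b)) (hc (r b + 1) - hc (r b)))
  have hhlen : h.length = Θ.length := by simp [h]
  have hmor : ∀ b < Θ.length, mor h b = win v (hc (r b)) (hc (r b + 1) - hc (r b)) := by
    intro b hb
    unfold mor
    rw [List.getD_eq_getElem _ _ (by rw [hhlen]; exact hb)]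
    simp [h]
  have hmorv : ∀ i, mor h (v i) = win v (hc i) (hc (i + 1) - hc i) := by
    intro i
    rw [hmor _ (vlt i)]
    exact hkey _ _ (hr _ (vlt i))
  have hcuth : ∀ i, cut (mor h) v i = hc i := by
    intro i
    induction i with
    | zero => rw [cut_zero, hc0]
    | succ i ih =>
      rw [cut_succ, ih, hmorv, win_length]
      have := hcmono i
      omega
  refine ⟨Θ, h, v, ?_⟩
  refine
    { kpos := ?_
      hlen := hhlen
      v0 := v0
      vlt := vlt
      onto := fun b hb => ⟨r b, hr b hb⟩
      ret := hret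
      imΘ := hIm
      mΘ := hM
      val := ?_
      posh := ?_
      conj := ?_
      imh := ?_
      occ := ?_ }
  · have := vlt 0
    omega
  · intro b hb c hcm
    rw [hmor b hb] at hcm
    obtain ⟨t, _, rfl⟩ := (mem_win _).1 hcm
    exact vlt _
  · intro b hb
    rw [hmor b hb, win_length]
    have := hcmono (r b)
    omega
  · intro b hb
    rw [hmor b hb, hE, ← hE', hr b hb]
  · intro n
    rw [hcuth]
    induction n with
    | zero => rw [hc0]; rfl
    | succ n ih =>
      rw [win_succ, im_append, im_singleton, ih, Nat.zero_add, hmorv]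
      have h1 : hc (n + 1) = hc n + (hc (n + 1) - hc n) := by
        have := hcmono n
        omega
      conv_rhs => rw [h1, win_add, Nat.zero_add]
  · intro j
    rw [occ]
    constructor
    · rintro ⟨i, rfl⟩
      exact ⟨i, (hcut i).symm⟩
    · rintro ⟨i, rfl⟩
      exact ⟨i, hcut i⟩

end Pool.Agent.Helper180.QPM
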