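import Mathlib
import Pool.Agent.Helper180.QPM.Base

set_option autoImplicit false

namespace Pool.Agent.Helper180.QPM


section pow

theorem first_unique {D : List ℕ} {c c' : ℕ} {l l' r r' : List ℕ}
    (h : l ++ c :: r = l' ++ c' :: r') (hl : ∀ e ∈ l, e ∈ D) (hl' : ∀ e ∈ l', e ∈ D)
    (hc : c ∉ D) (hc' : c' ∉ D) : c = c' := by
  induction l generalizing l' with
  | nil =>
    cases l' with
    | nil =>
      simp only [List.nil_append, List.cons.injEq] at h
      exact h.1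
    | cons b l' =>
      simp only [List.nil_append, List.cons_append, List.cons.injEq] at h
      exact absurd (h.1 ▸ hl' b (by simp)) hc
  | cons b l ih =>
    cases l' with
    | nil =>
      simp only [List.nil_append, List.cons_append, List.cons.injEq] at h
      exact absurd (h.1 ▸ hl b (by simp)) hc'
    | cons b' l' =>
      simp only [List.cons_append, List.cons.injEq] at h
      exact ih h.2 (fun e he => hl e (by simp [he])) (fun e he => hl' e (by simp [he]))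

theorem last_unique {D : List ℕ} {c c' : ℕ} {l l' r r' : List ℕ}
    (h : l ++ c :: r = l' ++ c' :: r') (hr : ∀ e ∈ r, e ∈ D) (hr' : ∀ e ∈ r', e ∈ D)
    (hc : c ∉ D) (hc' : c' ∉ D) : c = c' := by
  have h1 := congrArg List.reverse h
  simp only [List.reverse_append, List.reverse_cons, List.append_assoc, List.singleton_append] at h1
  exact first_unique h1 (by simpa using hr) (by simpa using hr') hc hc'

theorem exists_first {D L : List ℕ} {b : ℕ} (hb : b ∈ L) (hbD : b ∉ D) :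
    ∃ x c s, L = x ++ c :: s ∧ c ∉ D ∧ ∀ e ∈ x, e ∈ D := by
  induction L with
  | nil => simp at hb
  | cons d L ih =>
    by_cases hd : d ∈ D
    · have hb' : b ∈ L := by
        rcases List.mem_cons.1 hb with h | h
        · exact absurd (h ▸ hd) hbD
        · exact h
      obtain ⟨x, c, s, h1, h2, h3⟩ := ih hb'
      refine ⟨d :: x, c, s, by rw [h1]; rfl, h2, ?_⟩
      intro e he
      rcases List.mem_cons.1 he with h | h
      · exact h ▸ hd
      · exact h3 e h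
    · exact ⟨[], d, L, rfl, hd, by simp⟩

theorem exists_last {D L : List ℕ} {b : ℕ} (hb : b ∈ L) (hbD : b ∉ D) :
    ∃ x c s, L = x ++ c :: s ∧ c ∉ D ∧ ∀ e ∈ s, e ∈ D := by
  obtain ⟨x, c, s, h1, h2, h3⟩ := exists_first (List.mem_reverse.2 hb) hbD
  refine ⟨s.reverse, c, x.reverse, ?_, h2, by simpa using h3⟩
  have h4 := congrArg List.reverse h1
  rw [List.reverse_reverse] at h4
  rw [h4]
  simp

/-- letters of `w` -/
def Alph (w : ℕ → ℕ) (c : ℕ) : Prop := ∃ i, w i = c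

theorem alph_it {f : ℕ → List ℕ} {w : ℕ → ℕ} {a kA : ℕ} (hw : Ctx f w a kA) {n c e : ℕ}
    (hc : Alph w c) (he : e ∈ it f n c) : Alph w e := by
  obtain ⟨i, rfl⟩ := hc
  have h := (hw.fix.iter n).letter i
  rw [h, mem_win] at he
  obtain ⟨t, -, ht⟩ := he
  exact ⟨_, ht⟩

theorem rel_power {w : ℕ → ℕ} {kA : ℕ} (hlt : ∀ i, w i < kA)
    (T : Fin 3 → ℕ → ℕ → ℕ → Prop)
    (hT : ∀ k m n c e, Alph w c → (T k (m + n) c e ↔ ∃ d, Alph w d ∧ T k n c d ∧ T k m d e))
    (N : ℕ) : ∃ m, N ≤ m ∧ 1 ≤ m ∧ ∀ k c e, Alph w c → Alph w e →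
      (T k (m + m) c e ↔ T k m c e) := by
  classical
  let S := {c : Fin kA // Alph w c}
  let σ : ℕ → Fin 3 → S → S → Prop := fun n k c e => T k n c.1 e.1
  have hstep : ∀ i j, σ i = σ j → σ (i + 1) = σ (j + 1) := by
    intro i j h
    funext k c e
    apply propext
    show T k (i + 1) c.1 e.1 ↔ T k (j + 1) c.1 e.1
    rw [Nat.add_comm i 1, Nat.add_comm j 1, hT k 1 i _ _ c.2, hT k 1 j _ _ c.2]
    have h2 : ∀ d, Alph w d → (T k i c.1 d ↔ T k j c.1 d) := by
      intro d hd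
      obtain ⟨t, rfl⟩ := hd
      have := congrFun (congrFun (congrFun h k) c) (⟨⟨w t, hlt t⟩, ⟨t, rfl⟩⟩ : S)
      exact Iff.of_eq this
    constructor
    · rintro ⟨d, hd, h3, h4⟩
      exact ⟨d, hd, (h2 d hd).1 h3, h4⟩
    · rintro ⟨d, hd, h3, h4⟩
      exact ⟨d, hd, (h2 d hd).2 h3, h4⟩
  have hstep' : ∀ t i j, σ i = σ j → σ (i + t) = σ (j + t) := by
    intro t
    induction t with
    | zero => exact fun i j h => h
    | succ t ih => exact fun i j h => hstep _ _ (ih i j h)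
  obtain ⟨i, j, hij, h⟩ : ∃ i j, i < j ∧ σ i = σ j := by
    obtain ⟨i, j, hne, h⟩ := Finite.exists_ne_map_eq_of_infinite σ
    rcases lt_or_gt_of_ne hne with h1 | h1
    · exact ⟨i, j, h1, h⟩
    · exact ⟨j, i, h1, h.symm⟩
  obtain ⟨d, hd⟩ : ∃ d, j = i + d := ⟨j - i, by omega⟩
  have hd0 : 1 ≤ d := by omega
  have hper : ∀ n, i ≤ n → σ (n + d) = σ n := by
    intro n hn
    obtain ⟨t, rfl⟩ : ∃ t, n = i + t := ⟨n - i, by omega⟩
    have := hstep' t i j h
    rw [this, hd]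
    congr 1
    omega
  have hper' : ∀ q n, i ≤ n → σ (n + q * d) = σ n := by
    intro q
    induction q with
    | zero => intro n _; simp
    | succ q ih =>
      intro n hn
      have e : n + (q + 1) * d = (n + q * d) + d := by ring
      rw [e, hper _ (by omega), ih n hn]
  have hm : N + i + 1 ≤ (N + i + 1) * d := Nat.le_mul_of_pos_right _ hd0
  refine ⟨(N + i + 1) * d, by omega, by omega, fun k c e hc he => ?_⟩
  have h1 := hper' (N + i + 1) ((N + i + 1) * d) (by omega)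
  obtain ⟨c', rfl⟩ := hc
  obtain ⟨e', rfl⟩ := he
  have := congrFun (congrFun (congrFun h1 k) (⟨⟨w c', hlt c'⟩, ⟨c', rfl⟩⟩ : S))
    (⟨⟨w e', hlt e'⟩, ⟨e', rfl⟩⟩ : S)
  exact Iff.of_eq this

end pow

theorem exists_power {f : ℕ → List ℕ} {w : ℕ → ℕ} {a kA : ℕ} (hw : Ctx f w a kA)
    {D I : List ℕ} (hD : ∀ i, w i ∈ D ↔ ∀ n, a ∉ it f n (w i))
    (hI : ∀ i, w i ∈ I ↔ ∀ n, it f n (w i) ≠ []) :
    ∃ m, 1 ≤ m ∧ (∀ i, w i ∉ I → it f m (w i) = []) ∧ (∀ i, w i ∉ D → a ∈ it f m (w i)) ∧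
      (∀ i, ∀ c, c ∈ it f m (w i) ↔ ∃ d ∈ it f m (w i), c ∈ it f m d) ∧
      (∀ i x c s, it f m (w i) = x ++ c :: s → c ∉ D → (∀ e ∈ s, e ∈ D) →
        ∃ x' s', it f m c = x' ++ c :: s' ∧ ∀ e ∈ s', e ∈ D) ∧
      (∀ i x c s, it f m (w i) = x ++ c :: s → c ∉ D → (∀ e ∈ x, e ∈ D) →
        ∃ x' s', it f m c = x' ++ c :: s' ∧ ∀ e ∈ x', e ∈ D) := by
  classical
  have halph : ∀ n c, Alph w c → ∀ e ∈ it f n c, Alph w e := fun n c hc e he =>
    alph_it hw hc he
  have hD' : ∀ c, Alph w c → (c ∈ D ↔ ∀ n, a ∉ it f n c) := by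
    rintro _ ⟨i, rfl⟩; exact hD i
  have hI' : ∀ c, Alph w c → (c ∈ I ↔ ∀ n, it f n c ≠ []) := by
    rintro _ ⟨i, rfl⟩; exact hI i
  have haA : Alph w a := ⟨0, hw.w0⟩
  -- `a` is a letter of `f a`
  have hfa : f a ≠ [] := by
    intro h
    obtain ⟨n, hn⟩ := hw.grow 1
    cases n with
    | zero => simp [it_zero] at hn
    | succ n => rw [it_succ', h] at hn; simp at hn
  have haf : a ∈ f a := by
    have h := hw.fix.letter 0
    rw [hw.w0, cut_zero] at h
    have h1 : 0 < (f a).length := List.length_pos_iff.2 hfa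
    rw [h, mem_win]
    exact ⟨0, h1, hw.w0⟩
  have hapers1 : ∀ n c, a ∈ it f n c → a ∈ it f (n + 1) c := by
    intro n c h
    rw [it_succ, mem_im]
    exact ⟨a, h, haf⟩
  have hapers : ∀ t n c, a ∈ it f n c → a ∈ it f (n + t) c := by
    intro t
    induction t with
    | zero => exact fun n c h => h
    | succ t ih => exact fun n c h => hapers1 _ _ (ih n c h)
  have hmort1 : ∀ n c, it f n c = [] → it f (n + 1) c = [] := by
    intro n c h
    rw [it_succ, h, im_nil]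
  have hmort : ∀ t n c, it f n c = [] → it f (n + t) c = [] := by
    intro t
    induction t with
    | zero => exact fun n c h => h
    | succ t ih => exact fun n c h => hmort1 _ _ (ih n c h)
  have haD : a ∉ D := by
    rw [hD' a haA]
    push Not
    exact ⟨0, by simp [it_zero]⟩
  have hcl : ∀ n c, Alph w c → c ∈ D → ∀ e ∈ it f n c, e ∈ D := by
    intro n c hc hcD e he
    rw [hD' e (halph n c hc e he)]
    intro m hm
    refine (hD' c hc).1 hcD (m + n) ?_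
    rw [it_add, mem_im]
    exact ⟨e, he, hm⟩
  have hper : ∀ n c, Alph w c → c ∉ D → ∃ e ∈ it f n c, e ∉ D := by
    intro n c hc hcD
    rw [hD' c hc] at hcD
    push Not at hcD
    obtain ⟨n0, hn0⟩ := hcD
    rcases le_total n n0 with h | h
    · obtain ⟨t, rfl⟩ : ∃ t, n0 = t + n := ⟨n0 - n, by omega⟩
      rw [it_add, mem_im] at hn0
      obtain ⟨e, he, hae⟩ := hn0
      refine ⟨e, he, ?_⟩
      rw [hD' e (halph n c hc e he)]
      push Not
      exact ⟨t, hae⟩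
    · obtain ⟨t, rfl⟩ : ∃ t, n = n0 + t := ⟨n - n0, by omega⟩
      exact ⟨a, hapers t n0 c hn0, haD⟩
  -- the three relations
  let TP : ℕ → ℕ → ℕ → Prop := fun n c e => e ∈ it f n c
  let TR : ℕ → ℕ → ℕ → Prop := fun n c e => e ∉ D ∧ ∃ x s, it f n c = x ++ e :: s ∧ ∀ b ∈ s, b ∈ D
  let TL : ℕ → ℕ → ℕ → Prop := fun n c e => e ∉ D ∧ ∃ x s, it f n c = x ++ e :: s ∧ ∀ b ∈ x, b ∈ D
  have hTP : ∀ m n c e, Alph w c → (TP (m + n) c e ↔ ∃ d, Alph w d ∧ TP n c d ∧ TP m d e) := by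
    intro m n c e hc
    simp only [TP]
    rw [it_add, mem_im]
    constructor
    · rintro ⟨d, hd, he⟩
      exact ⟨d, halph n c hc d hd, hd, he⟩
    · rintro ⟨d, _, hd, he⟩
      exact ⟨d, hd, he⟩
  have hsubD : ∀ m (s : List ℕ), (∀ b ∈ s, Alph w b) → (∀ b ∈ s, b ∈ D) →
      ∀ b ∈ im (it f m) s, b ∈ D := by
    intro m s h1 h2 b hb
    rw [mem_im] at hb
    obtain ⟨d, hd, hb⟩ := hb
    exact hcl m d (h1 d hd) (h2 d hd) b hb
  have hTRb : ∀ m n c d e, Alph w c → TR n c d → TR m d e → TR (m + n) c e := by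
    rintro m n c d e hc ⟨hd, x, s, h1, h2⟩ ⟨he, x', s', h3, h4⟩
    refine ⟨he, im (it f m) x ++ x', s' ++ im (it f m) s, ?_, ?_⟩
    · rw [it_add, h1, im_append, im_cons, h3]
      simp
    · intro b hb
      rcases List.mem_append.1 hb with h | h
      · exact h4 b h
      · exact hsubD m s (fun b hb => halph n c hc b (by rw [h1]; simp [hb])) h2 b h
  have hTLb : ∀ m n c d e, Alph w c → TL n c d → TL m d e → TL (m + n) c e := by
    rintro m n c d e hc ⟨hd, x, s, h1, h2⟩ ⟨he, x', s', h3, h4⟩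
    refine ⟨he, im (it f m) x ++ x', s' ++ im (it f m) s, ?_, ?_⟩
    · rw [it_add, h1, im_append, im_cons, h3]
      simp
    · intro b hb
      rcases List.mem_append.1 hb with h | h
      · exact hsubD m x (fun b hb => halph n c hc b (by rw [h1]; simp [hb])) h2 b h
      · exact h4 b h
  have hTRu : ∀ n c e e', TR n c e → TR n c e' → e = e' := by
    rintro n c e e' ⟨h1, x, s, h2, h3⟩ ⟨h1', x', s', h2', h3'⟩
    exact last_unique (h2.symm.trans h2') h3 h3' h1 h1'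
  have hTLu : ∀ n c e e', TL n c e → TL n c e' → e = e' := by
    rintro n c e e' ⟨h1, x, s, h2, h3⟩ ⟨h1', x', s', h2', h3'⟩
    exact first_unique (h2.symm.trans h2') h3 h3' h1 h1'
  have hTRe : ∀ n c, Alph w c → c ∉ D → ∃ e, Alph w e ∧ e ∉ D ∧ TR n c e := by
    intro n c hc hcD
    obtain ⟨b, hb, hbD⟩ := hper n c hc hcD
    obtain ⟨x, e, s, h1, h2, h3⟩ := exists_last hb hbD
    exact ⟨e, halph n c hc e (by rw [h1]; simp), h2, h2, x, s, h1, h3⟩
  have hTLe : ∀ n c, Alph w c → c ∉ D → ∃ e, Alph w e ∧ e ∉ D ∧ TL n c e := by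
    intro n c hc hcD
    obtain ⟨b, hb, hbD⟩ := hper n c hc hcD
    obtain ⟨x, e, s, h1, h2, h3⟩ := exists_first hb hbD
    exact ⟨e, halph n c hc e (by rw [h1]; simp), h2, h2, x, s, h1, h3⟩
  have hTR : ∀ m n c e, Alph w c → (TR (m + n) c e ↔ ∃ d, Alph w d ∧ TR n c d ∧ TR m d e) := by
    intro m n c e hc
    constructor
    · intro h
      have hcD : c ∉ D := by
        intro hcD
        obtain ⟨he, x, s, h1, -⟩ := h
        exact he (hcl (m + n) c hc hcD e (by rw [h1]; simp))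
      obtain ⟨d, hdA, hdD, hd⟩ := hTRe n c hc hcD
      obtain ⟨e', heA, heD, he'⟩ := hTRe m d hdA hdD
      have h2 := hTRb m n c d e' hc hd he'
      rw [hTRu _ _ _ _ h h2]
      exact ⟨d, hdA, hd, he'⟩
    · rintro ⟨d, _, hd, he⟩
      exact hTRb m n c d e hc hd he
  have hTL : ∀ m n c e, Alph w c → (TL (m + n) c e ↔ ∃ d, Alph w d ∧ TL n c d ∧ TL m d e) := by
    intro m n c e hc
    constructor
    · intro h
      have hcD : c ∉ D := by
        intro hcD
        obtain ⟨he, x, s, h1, -⟩ := h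
        exact he (hcl (m + n) c hc hcD e (by rw [h1]; simp))
      obtain ⟨d, hdA, hdD, hd⟩ := hTLe n c hc hcD
      obtain ⟨e', heA, heD, he'⟩ := hTLe m d hdA hdD
      have h2 := hTLb m n c d e' hc hd he'
      rw [hTLu _ _ _ _ h h2]
      exact ⟨d, hdA, hd, he'⟩
    · rintro ⟨d, _, hd, he⟩
      exact hTLb m n c d e hc hd he
  -- bounds for the times
  have hN1 : ∃ N, ∀ c, Alph w c → c ∉ I → ∀ n, N ≤ n → it f n c = [] := by
    have h1 : ∀ c : ℕ, ∃ N, Alph w c → c ∉ I → ∀ n, N ≤ n → it f n c = [] := by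
      intro c
      by_cases hc : Alph w c ∧ c ∉ I
      · have h2 := hc.2
        rw [hI' c hc.1] at h2
        push Not at h2
        obtain ⟨N, hN⟩ := h2
        refine ⟨N, fun _ _ n hn => ?_⟩
        obtain ⟨t, rfl⟩ : ∃ t, n = N + t := ⟨n - N, by omega⟩
        exact hmort t N c hN
      · exact ⟨0, fun h3 h4 => absurd ⟨h3, h4⟩ hc⟩
    choose g hg using h1
    refine ⟨(Finset.range kA).sup g, fun c hc hcI n hn => ?_⟩
    have hcl : c < kA := by obtain ⟨i, rfl⟩ := hc; exact hw.alph i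
    exact hg c hc hcI n ((Finset.le_sup (f := g) (Finset.mem_range.2 hcl)).trans hn)
  have hN2 : ∃ N, ∀ c, Alph w c → c ∉ D → ∀ n, N ≤ n → a ∈ it f n c := by
    have h1 : ∀ c : ℕ, ∃ N, Alph w c → c ∉ D → ∀ n, N ≤ n → a ∈ it f n c := by
      intro c
      by_cases hc : Alph w c ∧ c ∉ D
      · have h2 := hc.2
        rw [hD' c hc.1] at h2
        push Not at h2
        obtain ⟨N, hN⟩ := h2
        refine ⟨N, fun _ _ n hn => ?_⟩
        obtain ⟨t, rfl⟩ : ∃ t, n = N + t := ⟨n - N, by omega⟩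
        exact hapers t N c hN
      · exact ⟨0, fun h3 h4 => absurd ⟨h3, h4⟩ hc⟩
    choose g hg using h1
    refine ⟨(Finset.range kA).sup g, fun c hc hcI n hn => ?_⟩
    have hcl : c < kA := by obtain ⟨i, rfl⟩ := hc; exact hw.alph i
    exact hg c hc hcI n ((Finset.le_sup (f := g) (Finset.mem_range.2 hcl)).trans hn)
  obtain ⟨N1, hN1⟩ := hN1
  obtain ⟨N2, hN2⟩ := hN2
  obtain ⟨m, hm1, hm2, hm3⟩ := rel_power hw.alph (![TP, TR, TL]) (by
    intro k
    fin_cases k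
    · exact hTP
    · exact hTR
    · exact hTL) (max N1 N2)
  have mP : ∀ c e, Alph w c → Alph w e → (TP (m + m) c e ↔ TP m c e) := hm3 0
  have mR : ∀ c e, Alph w c → Alph w e → (TR (m + m) c e ↔ TR m c e) := hm3 1
  have mL : ∀ c e, Alph w c → Alph w e → (TL (m + m) c e ↔ TL m c e) := hm3 2
  refine ⟨m, hm2, ?_, ?_, ?_, ?_, ?_⟩
  · intro i hi
    exact hN1 _ ⟨i, rfl⟩ hi m (by omega)
  · intro i hi
    exact hN2 _ ⟨i, rfl⟩ hi m (by omega)
  · intro i c
    constructor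
    · intro hc
      have h1 := (mP (w i) c ⟨i, rfl⟩ (halph m _ ⟨i, rfl⟩ c hc)).2 hc
      obtain ⟨d, _, h2, h3⟩ := (hTP m m (w i) c ⟨i, rfl⟩).1 h1
      exact ⟨d, h2, h3⟩
    · rintro ⟨d, hd, hc⟩
      have hdA := halph m _ ⟨i, rfl⟩ d hd
      have h1 : TP (m + m) (w i) c := (hTP m m (w i) c ⟨i, rfl⟩).2 ⟨d, hdA, hd, hc⟩
      exact (mP (w i) c ⟨i, rfl⟩ (halph m _ hdA c hc)).1 h1
  · intro i x c s h1 hc hs
    have hcA : Alph w c := halph m _ ⟨i, rfl⟩ c (by rw [h1]; simp)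
    have h2 : TR m (w i) c := ⟨hc, x, s, h1, hs⟩
    have h3 := (mR (w i) c ⟨i, rfl⟩ hcA).2 h2
    obtain ⟨d, _, h4, h5⟩ := (hTR m m (w i) c ⟨i, rfl⟩).1 h3
    rw [hTRu _ _ _ _ h4 h2] at h5
    obtain ⟨-, x', s', h6, h7⟩ := h5
    exact ⟨x', s', h6, h7⟩
  · intro i x c s h1 hc hs
    have hcA : Alph w c := halph m _ ⟨i, rfl⟩ c (by rw [h1]; simp)
    have h2 : TL m (w i) c := ⟨hc, x, s, h1, hs⟩
    have h3 := (mL (w i) c ⟨i, rfl⟩ hcA).2 h2
    obtain ⟨d, _, h4, h5⟩ := (hTL m m (w i) c ⟨i, rfl⟩).1 h3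
    rw [hTLu _ _ _ _ h4 h2] at h5
    obtain ⟨-, x', s', h6, h7⟩ := h5
    exact ⟨x', s', h6, h7⟩

end Pool.Agent.Helper180.QPM
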