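import Mathlib
import Pool.Agent.Helper180.QPM.Base

set_option autoImplicit false

namespace Pool.Agent.Helper180.QPM


/-- all hypotheses of `synd_of_power` -/
structure SH (g : ℕ → List ℕ) (w : ℕ → ℕ) (a kA : ℕ) (D I : List ℕ) : Prop where
  hA : ∀ i, w i < kA
  hg : IsIm g w w
  w0 : w 0 = a
  hgrow : ∀ i, 1 ≤ i → i < cut g w i
  haD : a ∉ D
  hD : ∀ i, w i ∈ D → ∀ e ∈ g (w i), e ∈ D
  hD' : ∀ i, w i ∉ D → a ∈ g (w i)
  hI : ∀ i, w i ∉ I → g (w i) = []
  hI' : ∀ i, w i ∈ I → ∃ e ∈ g (w i), e ∈ I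
  hE : ∀ i, ∀ c, c ∈ g (w i) ↔ ∃ d ∈ g (w i), c ∈ g d
  hR : ∀ i x c s, g (w i) = x ++ c :: s → c ∉ D → (∀ e ∈ s, e ∈ D) →
      ∃ x' s', g c = x' ++ c :: s' ∧ ∀ e ∈ s', e ∈ D
  hL : ∀ i x c s, g (w i) = x ++ c :: s → c ∉ D → (∀ e ∈ x, e ∈ D) →
      ∃ x' s', g c = x' ++ c :: s' ∧ ∀ e ∈ x', e ∈ D
  H : ∀ i x s, g (w i) = x ++ w i :: s → ((∀ e ∈ s, e ∈ D) → ∀ e ∈ s, e ∉ I) ∧
      ((∀ e ∈ x, e ∈ D) → ∀ e ∈ x, e ∉ I)

/-- number of immortal letters -/
def nI (I L : List ℕ) : ℕ := L.countP (fun c => decide (c ∈ I))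

theorem nI_append (I L M : List ℕ) : nI I (L ++ M) = nI I L + nI I M := List.countP_append

theorem nI_zero {I L : List ℕ} (h : ∀ e ∈ L, e ∉ I) : nI I L = 0 := by
  unfold nI
  rw [List.countP_eq_zero]
  intro e he
  simpa using h e he

theorem nI_le (I L : List ℕ) : nI I L ≤ L.length := List.countP_le_length

theorem nI_cons_mem {I L : List ℕ} {c : ℕ} (h : c ∈ I) : nI I (c :: L) = nI I L + 1 := by
  simp [nI, h]

theorem nI_cons_not {I L : List ℕ} {c : ℕ} (h : c ∉ I) : nI I (c :: L) = nI I L := by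
  simp [nI, h]

theorem nI_pos {I L : List ℕ} {c : ℕ} (hc : c ∈ L) (h : c ∈ I) : 1 ≤ nI I L := by
  unfold nI
  rw [Nat.one_le_iff_ne_zero, Ne, List.countP_eq_zero]
  intro h1
  exact h1 c hc (by simpa using h)

/-- number of immortal letters of the image of a window -/
def VV (g : ℕ → List ℕ) (w : ℕ → ℕ) (I : List ℕ) (i n : ℕ) : ℕ := nI I (im g (win w i n))

theorem VV_add (g : ℕ → List ℕ) (w : ℕ → ℕ) (I : List ℕ) (i n m : ℕ) :
    VV g w I i (n + m) = VV g w I i n + VV g w I (i + n) m := by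
  unfold VV
  rw [win_add, im_append, nI_append]

theorem VV_mono (g : ℕ → List ℕ) (w : ℕ → ℕ) (I : List ℕ) (i : ℕ) {n m : ℕ} (h : n ≤ m) :
    VV g w I i n ≤ VV g w I i m := by
  obtain ⟨k, rfl⟩ := Nat.exists_eq_add_of_le h
  rw [VV_add]
  omega

theorem im_win_len {g : ℕ → List ℕ} {w : ℕ → ℕ} {W : ℕ} (hW : ∀ i, (g (w i)).length ≤ W) (i n : ℕ) :
    (im g (win w i n)).length ≤ W * n := by
  induction n with
  | zero => simp
  | succ n ih =>
    rw [win_succ, im_append, List.length_append, im_singleton, Nat.mul_succ]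
    have := hW (i + n)
    omega

theorem VV_le {g : ℕ → List ℕ} {w : ℕ → ℕ} {W : ℕ} (hW : ∀ i, (g (w i)).length ≤ W) (I : List ℕ) (i n : ℕ) :
    VV g w I i n ≤ W * n := (nI_le _ _).trans (im_win_len hW i n)

theorem VV_le' {g : ℕ → List ℕ} {w : ℕ → ℕ} {W : ℕ} (hW : ∀ i, (g (w i)).length ≤ W) (I : List ℕ) {i n : ℕ}
    (hn : n ≤ W) : VV g w I i n ≤ W * W :=
  (VV_le hW I i n).trans (Nat.mul_le_mul_left W hn)

theorem block_split {g : ℕ → List ℕ} {w : ℕ → ℕ} (hg : IsIm g w w) {j p : ℕ} (h1 : cut g w j ≤ p)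
    (h2 : p < cut g w (j + 1)) :
    g (w j) = win w (cut g w j) (p - cut g w j) ++ w p :: win w (p + 1) (cut g w (j + 1) - p - 1) := by
  have h3 := hg.letter j
  have h4 := cut_succ g w j
  have h5 : (g (w j)).length = (p - cut g w j) + ((cut g w (j + 1) - p - 1) + 1) := by omega
  have h6 : cut g w j + (p - cut g w j) = p := by omega
  calc g (w j) = win w (cut g w j) (g (w j)).length := h3
    _ = _ := by rw [h5, win_add, win_succ', h6]

theorem uniq_last {D x s y t : List ℕ} {c d : ℕ} (h : x ++ c :: s = y ++ d :: t) (hc : c ∉ D) (hd : d ∉ D)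
    (hs : ∀ e ∈ s, e ∈ D) (ht : ∀ e ∈ t, e ∈ D) : s = t := by
  rcases List.append_eq_append_iff.mp h with ⟨z, h1, h2⟩ | ⟨z, h1, h2⟩
  · cases z with
    | nil => simpa using (List.cons.inj h2).2
    | cons z0 z =>
      have h3 := (List.cons.inj h2).2
      exfalso
      apply hd
      apply hs
      rw [h3]
      simp
  · cases z with
    | nil => simpa using (List.cons.inj h2).2.symm
    | cons z0 z =>
      have h3 := (List.cons.inj h2).2
      exfalso
      apply hc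
      apply ht
      rw [h3]
      simp

theorem prefix_first {D t r x s : List ℕ} {c : ℕ} (h : t ++ r = x ++ c :: s) (hc : c ∉ D)
    (ht : ∀ e ∈ t, e ∈ D) : ∀ e ∈ t, e ∈ x := by
  rcases List.append_eq_append_iff.mp h with ⟨z, h1, _⟩ | ⟨z, h1, h2⟩
  · intro e he
    rw [h1]
    simp [he]
  · cases z with
    | nil =>
      intro e he
      rw [h1] at he
      simpa using he
    | cons z0 z =>
      have h3 := (List.cons.inj h2).1
      exfalso
      apply hc
      apply ht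
      rw [h1, h3]
      simp

theorem SH.letter {g : ℕ → List ℕ} {w : ℕ → ℕ} {a kA : ℕ} {D I : List ℕ} (h : SH g w a kA D I) {i c : ℕ}
    (hc : c ∈ g (w i)) : ∃ q, q < (g (w i)).length ∧ w (cut g w i + q) = c := by
  rw [h.hg.letter i] at hc
  exact (mem_win w).mp hc

theorem SH.interp {g : ℕ → List ℕ} {w : ℕ → ℕ} {a kA : ℕ} {D I : List ℕ} (h : SH g w a kA D I) {i c : ℕ}
    (hc : c ∈ g (w i)) : ∃ d, d ∈ g (w i) ∧ d ∈ g d ∧ c ∈ g d := by
  by_contra hno
  push Not at hno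
  let r : Fin kA → Fin kA → Prop := fun x y =>
    (y : ℕ) ∈ g x ∧ (x : ℕ) ∈ g (w i) ∧ c ∈ g x ∧ (y : ℕ) ∈ g (w i) ∧ c ∈ g y
  have htr : IsTrans (Fin kA) r := ⟨fun x y z h1 h2 => by
    obtain ⟨q, _, hw⟩ := h.letter h1.2.1
    refine ⟨?_, h1.2.1, h1.2.2.1, h2.2.2.2.1, h2.2.2.2.2⟩
    rw [← hw]
    exact (h.hE _ _).2 ⟨y, by rw [hw]; exact h1.1, h2.1⟩⟩
  have hir : Std.Irrefl r := ⟨fun x h1 => hno x h1.2.1 h1.1 h1.2.2.1⟩
  have wf : WellFounded r := Finite.wellFounded_of_trans_of_irrefl r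
  obtain ⟨d0, hd0, hc0⟩ := (h.hE i c).1 hc
  obtain ⟨q, hq, hw⟩ := h.letter hd0
  have hlt : d0 < kA := hw ▸ h.hA _
  obtain ⟨m, ⟨hm1, hm2⟩, hmin⟩ := wf.has_min {x : Fin kA | (x : ℕ) ∈ g (w i) ∧ c ∈ g x} ⟨⟨d0, hlt⟩, hd0, hc0⟩
  obtain ⟨d', hd', hd''⟩ := (h.hE i m).1 hm1
  obtain ⟨q', hq', hw'⟩ := h.letter hd'
  have hlt' : d' < kA := hw' ▸ h.hA _
  have hcd' : c ∈ g d' := by
    rw [← hw']
    exact (h.hE _ c).2 ⟨m, by rw [hw']; exact hd'', hm2⟩
  exact hmin ⟨d', hlt'⟩ ⟨hd', hcd'⟩ ⟨hd'', hd', hcd', hm1, hm2⟩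

theorem SH.one {g : ℕ → List ℕ} {w : ℕ → ℕ} {a kA : ℕ} {D I : List ℕ} (h : SH g w a kA D I) {i c : ℕ}
    (hi : w i ∈ D) (hc : c ∈ g (w i)) (hcI : c ∈ I) : nI I (g c) = 1 := by
  obtain ⟨d, hd1, hd2, hd3⟩ := h.interp hc
  obtain ⟨q, _, hw⟩ := h.letter hd1
  have hdD : d ∈ D := h.hD i hi d hd1
  obtain ⟨x, s, hxs⟩ := List.append_of_mem hd2
  have hgD : ∀ e ∈ g d, e ∈ D := by
    have h1 := h.hD (cut g w i + q) (by rw [hw]; exact hdD)
    rw [hw] at h1
    exact h1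
  have hH := h.H (cut g w i + q) x s (by rw [hw]; exact hxs)
  have hs := hH.1 (fun e he => hgD e (by rw [hxs]; simp [he]))
  have hx := hH.2 (fun e he => hgD e (by rw [hxs]; simp [he]))
  have hcd : c = d := by
    rw [hxs, List.mem_append, List.mem_cons] at hd3
    rcases hd3 with h1 | h1 | h1
    · exact absurd hcI (hx c h1)
    · exact h1
    · exact absurd hcI (hs c h1)
  subst hcd
  rw [hxs, nI_append, nI_cons_mem hcI, nI_zero hx, nI_zero hs]

theorem SH.stab1 {g : ℕ → List ℕ} {w : ℕ → ℕ} {a kA : ℕ} {D I : List ℕ} (h : SH g w a kA D I) {i : ℕ}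
    (hi : w i ∈ D) : nI I (im g (g (w i))) = nI I (g (w i)) := by
  have key : ∀ L : List ℕ, (∀ c ∈ L, c ∈ g (w i)) → nI I (im g L) = nI I L := by
    intro L
    induction L with
    | nil => intro _; rfl
    | cons c L ih =>
      intro hL
      rw [im_cons, nI_append, ih (fun d hd => hL d (by simp [hd]))]
      have hcL := hL c (by simp)
      by_cases hcI : c ∈ I
      · rw [h.one hi hcL hcI, nI_cons_mem hcI]; omega
      · rw [nI_cons_not hcI]
        have h1 : g c = [] := by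
          obtain ⟨q, _, hw⟩ := h.letter hcL
          have h2 := h.hI (cut g w i + q) (by rw [hw]; exact hcI)
          rw [hw] at h2
          exact h2
        rw [h1]
        simp [nI]
  exact key _ (fun c hc => hc)

theorem SH.stab {g : ℕ → List ℕ} {w : ℕ → ℕ} {a kA : ℕ} {D I : List ℕ} (h : SH g w a kA D I) (n : ℕ) :
    ∀ i, (∀ t < n, w (i + t) ∈ D) → nI I (im g (im g (win w i n))) = nI I (im g (win w i n)) := by
  induction n with
  | zero => intro i _; simp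
  | succ n ih =>
    intro i hi
    rw [win_succ w i n, im_append, im_append, nI_append, nI_append, ih i (fun t ht => hi t (by omega)),
      im_singleton, h.stab1 (hi n (by omega))]

theorem SH.bound {g : ℕ → List ℕ} {w : ℕ → ℕ} {a kA : ℕ} {D I : List ℕ} (h : SH g w a kA D I) :
    ∃ W, 1 ≤ W ∧ ∀ i, (g (w i)).length ≤ W := by
  refine ⟨1 + ∑ c ∈ Finset.range kA, (g c).length, by omega, fun i => ?_⟩
  have h1 : (g (w i)).length ≤ ∑ c ∈ Finset.range kA, (g c).length :=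
    Finset.single_le_sum (f := fun c => (g c).length) (fun _ _ => Nat.zero_le _) (Finset.mem_range.mpr (h.hA i))
  omega

theorem SH.unb {g : ℕ → List ℕ} {w : ℕ → ℕ} {a kA : ℕ} {D I : List ℕ} (h : SH g w a kA D I) :
    ∀ N, ∃ n, N < cut g w n := fun N => ⟨N + 1, by have := h.hgrow (N + 1) (by omega); omega⟩

theorem SH.im_nil {g : ℕ → List ℕ} {w : ℕ → ℕ} {a kA : ℕ} {D I : List ℕ} (h : SH g w a kA D I) (i n : ℕ)
    (hn : ∀ t < n, w (i + t) ∉ I) : im g (win w i n) = [] := by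
  induction n with
  | zero => rfl
  | succ n ih =>
    rw [win_succ, im_append, ih (fun t ht => hn t (by omega)), im_singleton, h.hI _ (hn n (by omega))]
    rfl

theorem SH.nI_le_VV {g : ℕ → List ℕ} {w : ℕ → ℕ} {a kA : ℕ} {D I : List ℕ} (h : SH g w a kA D I) (i n : ℕ) :
    nI I (win w i n) ≤ VV g w I i n := by
  unfold VV
  induction n with
  | zero => simp [nI]
  | succ n ih =>
    rw [win_succ, im_append, nI_append, nI_append, im_singleton]
    apply Nat.add_le_add ih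
    by_cases hI : w (i + n) ∈ I
    · obtain ⟨e, he, heI⟩ := h.hI' _ hI
      have h1 := nI_pos he heI
      have h2 := nI_le I [w (i + n)]
      simp only [List.length_singleton] at h2
      omega
    · rw [nI_cons_not hI]
      simp [nI]

theorem SH.im_le {g : ℕ → List ℕ} {w : ℕ → ℕ} {a kA : ℕ} {D I : List ℕ} (h : SH g w a kA D I) {W : ℕ}
    (hW : ∀ i, (g (w i)).length ≤ W) (i n : ℕ) : (im g (win w i n)).length ≤ W * nI I (win w i n) := by
  induction n with
  | zero => simp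
  | succ n ih =>
    rw [win_succ, im_append, List.length_append, nI_append, im_singleton, Nat.mul_add]
    apply Nat.add_le_add ih
    by_cases hI : w (i + n) ∈ I
    · rw [nI_cons_mem hI]
      have := hW (i + n)
      simp [nI]
      exact this
    · rw [h.hI _ hI]
      simp

theorem SH.notD {g : ℕ → List ℕ} {w : ℕ → ℕ} {a kA : ℕ} {D I : List ℕ} (h : SH g w a kA D I) {j p : ℕ}
    (h1 : cut g w j ≤ p) (h2 : p < cut g w (j + 1)) (hp : w p ∉ D) : w j ∉ D := by
  intro hc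
  apply hp
  apply h.hD j hc
  rw [block_split h.hg h1 h2]
  simp

theorem SH.decomp {g : ℕ → List ℕ} {w : ℕ → ℕ} {a kA : ℕ} {D I : List ℕ} (h : SH g w a kA D I) {i n i1 : ℕ}
    (hi : 1 ≤ i) (hi1' : i - 1 < cut g w (i1 + 1)) (hn : ∀ t < n, w (i + t) ∈ D)
    (hM : cut g w (i1 + 1) < i + n) :
    ∃ n1, (∀ t < n1, w (i1 + 1 + t) ∈ D) ∧ (i + n ≤ cut g w (i1 + 1 + n1) ∨
      (cut g w (i1 + 1 + n1) < i + n ∧ i + n ≤ cut g w (i1 + 1 + n1 + 1) ∧ w (i1 + 1 + n1) ∉ D)) := by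
  obtain ⟨i2, h1, h2⟩ := exists_block h.unb (i + n - 1)
  have h3 : i1 + 1 ≤ i2 := by
    by_contra hlt
    have : cut g w (i2 + 1) ≤ cut g w (i1 + 1) := cut_mono g w (by omega)
    omega
  have hmid : ∀ t, i1 < t → t < i2 → w t ∈ D := by
    intro t ht1 ht2
    by_contra hnot
    obtain ⟨q, hq, hw⟩ := h.letter (h.hD' t hnot)
    have e1 : cut g w (i1 + 1) ≤ cut g w t := cut_mono g w (by omega)
    have e2 : cut g w (t + 1) ≤ cut g w i2 := cut_mono g w (by omega)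
    have e3 := cut_succ g w t
    have e4 := hn (cut g w t + q - i) (by omega)
    rw [show i + (cut g w t + q - i) = cut g w t + q by omega, hw] at e4
    exact h.haD e4
  by_cases hD : w i2 ∈ D
  · refine ⟨i2 - i1, ?_, Or.inl ?_⟩
    · intro t ht
      by_cases ht2 : i1 + 1 + t = i2
      · rw [ht2]; exact hD
      · exact hmid _ (by omega) (by omega)
    · rw [show i1 + 1 + (i2 - i1) = i2 + 1 by omega]; omega
  · refine ⟨i2 - i1 - 1, ?_, Or.inr ?_⟩
    · intro t ht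
      exact hmid _ (by omega) (by omega)
    · rw [show i1 + 1 + (i2 - i1 - 1) = i2 by omega]
      exact ⟨by omega, by omega, hD⟩

theorem SH.i1_lt {g : ℕ → List ℕ} {w : ℕ → ℕ} {a kA : ℕ} {D I : List ℕ} (h : SH g w a kA D I) {i n i1 : ℕ}
    (hi : 1 ≤ i) (hi1 : cut g w i1 ≤ i - 1) (hi1' : i - 1 < cut g w (i1 + 1)) (hn : ∀ t < n, w (i + t) ∈ D)
    (hM : cut g w (i1 + 1) < i + n) : i1 + 1 < i := by
  by_contra hlt
  have h0 : i1 = 0 := by
    by_contra hne
    have := h.hgrow i1 (by omega)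
    omega
  subst h0
  have hi' : i = 1 := by omega
  subst hi'
  have hs := block_split h.hg (j := 0) (p := 0) (by simp) (by simpa using hi1')
  simp only [cut_zero, Nat.sub_zero, win_zero, List.nil_append, Nat.zero_add] at hs
  have hM0 : 0 < cut g w 1 := by simpa using hi1'
  have hM1 : 1 ≤ cut g w 1 := hM0
  have h1 := (h.H 0 [] _ hs).1 (by
    intro e he
    obtain ⟨t, ht, hw⟩ := (mem_win w).mp he
    rw [← hw]
    have hM' : cut g w 1 < 1 + n := by simpa using hM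
    exact hn t (by omega))
  have h2 : im g (win w 1 (cut g w 1 - 1)) = [] := by
    apply h.im_nil
    intro t ht
    apply h1
    exact (mem_win w).mpr ⟨t, ht, rfl⟩
  have h3 := cut_add g w 1 (cut g w 1 - 1)
  rw [h2, List.length_nil, Nat.add_zero, show 1 + (cut g w 1 - 1) = cut g w 1 by omega] at h3
  have := h.hgrow (cut g w 1) hM1
  omega

theorem SH.mid {g : ℕ → List ℕ} {w : ℕ → ℕ} {a kA : ℕ} {D I : List ℕ} (h : SH g w a kA D I) {j n : ℕ}
    (hn : ∀ t < n, w (j + t) ∈ D) :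
    VV g w I (cut g w j) (cut g w (j + n) - cut g w j) = VV g w I j n := by
  have h1 := h.hg.imWin j n
  have h2 := cut_add g w j n
  have h3 : cut g w (j + n) - cut g w j = (im g (win w j n)).length := by omega
  unfold VV
  rw [h3, ← h1, h.stab n j hn]

theorem SH.right0 {g : ℕ → List ℕ} {w : ℕ → ℕ} {a kA : ℕ} {D I : List ℕ} (h : SH g w a kA D I)
    {i n i1 n1 j : ℕ} (hi : 1 ≤ i) (hi1 : cut g w i1 ≤ i - 1) (hi1' : i - 1 < cut g w (i1 + 1))
    (hw : w (i - 1) ∉ D) (hn : ∀ t < n, w (i + t) ∈ D) (hM : cut g w (i1 + 1) < i + n)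
    (hn1 : ∀ t < n1, w (i1 + 1 + t) ∈ D) (hj : cut g w j ≤ i1) (hj' : i1 < cut g w (j + 1))
    (hb : cut g w (j + 1) ≤ i1 + 1 + n1) : VV g w I i (cut g w (i1 + 1) - i) = 0 := by
  have hwi1 := h.notD hi1 hi1' hw
  have e1 := block_split h.hg hj hj'
  obtain ⟨x', s', hc, hs'⟩ := h.hR j _ _ _ e1 hwi1 (by
    intro e he
    obtain ⟨t, ht, hwt⟩ := (mem_win w).mp he
    rw [← hwt]
    exact hn1 t (by omega))
  have H1 := (h.H i1 x' s' hc).1 hs'
  have e2 := block_split h.hg hi1 hi1'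
  rw [e2, show i - 1 + 1 = i by omega, show cut g w (i1 + 1) - (i - 1) - 1 = cut g w (i1 + 1) - i by omega] at hc
  have e3 := uniq_last hc hw hwi1 (by
    intro e he
    obtain ⟨t, ht, hwt⟩ := (mem_win w).mp he
    rw [← hwt]
    exact hn t (by omega)) hs'
  unfold VV
  rw [h.im_nil i _ (by
    intro t ht
    apply H1
    rw [← e3]
    exact (mem_win w).mpr ⟨t, ht, rfl⟩)]
  rfl

theorem SH.left0 {g : ℕ → List ℕ} {w : ℕ → ℕ} {a kA : ℕ} {D I : List ℕ} (h : SH g w a kA D I)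
    {i n i1 n1 j : ℕ} (hii : i ≤ cut g w (i1 + 1)) (hn : ∀ t < n, w (i + t) ∈ D)
    (hn1 : ∀ t < n1, w (i1 + 1 + t) ∈ D) (hj' : i1 < cut g w (j + 1))
    (hb : cut g w (j + 1) ≤ i1 + 1 + n1)
    (h2 : i + n ≤ cut g w (i1 + 1 + n1 + 1)) (hwd : w (i1 + 1 + n1) ∉ D) :
    VV g w I (cut g w (i1 + 1 + n1)) (i + n - cut g w (i1 + 1 + n1)) = 0 := by
  obtain ⟨k, hk, hk'⟩ := exists_block h.unb (i1 + 1 + n1)
  have hjk : j + 1 ≤ k := by
    by_contra hlt
    have : cut g w (k + 1) ≤ cut g w (j + 1) := cut_mono g w (by omega)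
    omega
  have hck : cut g w (j + 1) ≤ cut g w k := cut_mono g w hjk
  have e1 := block_split h.hg hk hk'
  obtain ⟨x', s', hc, hx'⟩ := h.hL k _ _ _ e1 hwd (by
    intro e he
    obtain ⟨t, ht, hwt⟩ := (mem_win w).mp he
    rw [← hwt]
    have := hn1 (cut g w k + t - (i1 + 1)) (by omega)
    rwa [show i1 + 1 + (cut g w k + t - (i1 + 1)) = cut g w k + t by omega] at this)
  have H1 := (h.H (i1 + 1 + n1) x' s' hc).2 hx'
  have h4 := cut_succ g w (i1 + 1 + n1)
  have hlow : cut g w (i1 + 1) ≤ cut g w (i1 + 1 + n1) := cut_mono g w (by omega)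
  set T := i + n - cut g w (i1 + 1 + n1) with hT
  have h5 : (g (w (i1 + 1 + n1))).length = T + ((g (w (i1 + 1 + n1))).length - T) := by omega
  have e3 : g (w (i1 + 1 + n1)) = win w (cut g w (i1 + 1 + n1)) T ++
      win w (cut g w (i1 + 1 + n1) + T) ((g (w (i1 + 1 + n1))).length - T) := by
    rw [← win_add, ← h5]
    exact h.hg.letter _
  rw [e3] at hc
  have e4 := prefix_first hc hwd (by
    intro e he
    obtain ⟨t, ht, hwt⟩ := (mem_win w).mp he
    rw [← hwt]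
    have := hn (cut g w (i1 + 1 + n1) + t - i) (by omega)
    rwa [show i + (cut g w (i1 + 1 + n1) + t - i) = cut g w (i1 + 1 + n1) + t by omega] at this)
  unfold VV
  rw [h.im_nil _ _ (by
    intro t ht
    apply H1
    apply e4
    exact (mem_win w).mpr ⟨t, ht, rfl⟩)]
  rfl

theorem SH.claim {g : ℕ → List ℕ} {w : ℕ → ℕ} {a kA : ℕ} {D I : List ℕ} (h : SH g w a kA D I) {W : ℕ}
    (hW : ∀ i, (g (w i)).length ≤ W) (i : ℕ) :
    ∀ n, 1 ≤ i → w (i - 1) ∉ D → (∀ t < n, w (i + t) ∈ D) → VV g w I i n ≤ 4 * (W * W) := by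
  induction i using Nat.strong_induction_on with
  | _ i ih =>
    intro n hi hw hn
    obtain ⟨i1, hi1, hi1'⟩ := exists_block h.unb (i - 1)
    have hlen1 := cut_succ g w i1
    have hW1 := hW i1
    by_cases hM : i + n ≤ cut g w (i1 + 1)
    · have := VV_le' hW I (i := i) (n := n) (by omega)
      omega
    · push Not at hM
      have hlt := h.i1_lt hi hi1 hi1' hn hM
      have hwi1 := h.notD hi1 hi1' hw
      obtain ⟨n1, hn1, hcase⟩ := h.decomp hi hi1' hn hM
      have IH := ih (i1 + 1) hlt n1 (by omega) (by simpa using hwi1) hn1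
      have hmid := h.mid hn1
      have hmono : cut g w (i1 + 1) ≤ cut g w (i1 + 1 + n1) := cut_mono g w (by omega)
      have hsum : VV g w I i n ≤ VV g w I i (cut g w (i1 + 1) - i) + VV g w I (i1 + 1) n1 +
          VV g w I (cut g w (i1 + 1 + n1)) (i + n - cut g w (i1 + 1 + n1)) := by
        have e1 : VV g w I i n ≤ VV g w I i ((cut g w (i1 + 1) - i) + (cut g w (i1 + 1 + n1) - cut g w (i1 + 1)) +
            (i + n - cut g w (i1 + 1 + n1))) := VV_mono g w I i (by omega)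
        rw [VV_add, VV_add, show i + (cut g w (i1 + 1) - i) = cut g w (i1 + 1) by omega, hmid,
          show i + (cut g w (i1 + 1) - i + (cut g w (i1 + 1 + n1) - cut g w (i1 + 1))) = cut g w (i1 + 1 + n1) by omega] at e1
        exact e1
      have hs1 : VV g w I i (cut g w (i1 + 1) - i) ≤ W * W := VV_le' hW I (by omega)
      have hlen2 := cut_succ g w (i1 + 1 + n1)
      have hW2 := hW (i1 + 1 + n1)
      have ht1 : VV g w I (cut g w (i1 + 1 + n1)) (i + n - cut g w (i1 + 1 + n1)) ≤ W * W :=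
        VV_le' hW I (by omega)
      obtain ⟨j, hj, hj'⟩ := exists_block h.unb i1
      have hlen3 := cut_succ g w j
      have hW3 := hW j
      by_cases hb : i1 + 1 + n1 < cut g w (j + 1)
      · have hz := VV_le' hW I (i := i1 + 1) (n := n1) (by omega)
        omega
      · push Not at hb
        have hr := h.right0 hi hi1 hi1' hw hn hM hn1 hj hj' hb
        have hl : VV g w I (cut g w (i1 + 1 + n1)) (i + n - cut g w (i1 + 1 + n1)) = 0 := by
          rcases hcase with hA | ⟨_, h2, hwd⟩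
          · rw [Nat.sub_eq_zero_of_le hA]
            rfl
          · exact h.left0 (by omega) hn hn1 hj' hb h2 hwd
        omega

theorem SH.len_bound {g : ℕ → List ℕ} {w : ℕ → ℕ} {a kA : ℕ} {D I : List ℕ} (h : SH g w a kA D I) {W : ℕ}
    (hW : ∀ i, (g (w i)).length ≤ W) {i n : ℕ} (hi : 1 ≤ i) (hw : w (i - 1) ∉ D) (hn : ∀ t < n, w (i + t) ∈ D) :
    n ≤ 2 * W + W * (4 * (W * W)) := by
  obtain ⟨i1, hi1, hi1'⟩ := exists_block h.unb (i - 1)
  have hlen1 := cut_succ g w i1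
  have hW1 := hW i1
  by_cases hM : i + n ≤ cut g w (i1 + 1)
  · omega
  · push Not at hM
    have hwi1 := h.notD hi1 hi1' hw
    obtain ⟨n1, hn1, hcase⟩ := h.decomp hi hi1' hn hM
    have h1 := h.claim hW (i1 + 1) n1 (by omega) (by simpa using hwi1) hn1
    have h2 := h.im_le hW (i1 + 1) n1
    have h3 := h.nI_le_VV (i1 + 1) n1
    have h4 := cut_add g w (i1 + 1) n1
    have h5 : W * nI I (win w (i1 + 1) n1) ≤ W * (4 * (W * W)) := Nat.mul_le_mul_left W (h3.trans h1)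
    have hlen2 := cut_succ g w (i1 + 1 + n1)
    have hW2 := hW (i1 + 1 + n1)
    rcases hcase with hA | ⟨_, hB, _⟩
    · omega
    · omega

theorem synd_of_power {g : ℕ → List ℕ} {w : ℕ → ℕ} {a kA : ℕ} (hA : ∀ i, w i < kA)
    (hg : IsIm g w w) (w0 : w 0 = a) (hgrow : ∀ i, 1 ≤ i → i < cut g w i) {D I : List ℕ}
    (haD : a ∉ D) (hD : ∀ i, w i ∈ D → ∀ e ∈ g (w i), e ∈ D)
    (hD' : ∀ i, w i ∉ D → a ∈ g (w i))
    (hI : ∀ i, w i ∉ I → g (w i) = []) (hI' : ∀ i, w i ∈ I → ∃ e ∈ g (w i), e ∈ I)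
    (hE : ∀ i, ∀ c, c ∈ g (w i) ↔ ∃ d ∈ g (w i), c ∈ g d)
    (hR : ∀ i x c s, g (w i) = x ++ c :: s → c ∉ D → (∀ e ∈ s, e ∈ D) →
      ∃ x' s', g c = x' ++ c :: s' ∧ ∀ e ∈ s', e ∈ D)
    (hL : ∀ i x c s, g (w i) = x ++ c :: s → c ∉ D → (∀ e ∈ x, e ∈ D) →
      ∃ x' s', g c = x' ++ c :: s' ∧ ∀ e ∈ x', e ∈ D)
    (H : ∀ i x s, g (w i) = x ++ w i :: s → ((∀ e ∈ s, e ∈ D) → ∀ e ∈ s, e ∉ I) ∧
      ((∀ e ∈ x, e ∈ D) → ∀ e ∈ x, e ∉ I)) : Synd a w := by
  have h : SH g w a kA D I := ⟨hA, hg, w0, hgrow, haD, hD, hD', hI, hI', hE, hR, hL, H⟩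
  obtain ⟨W, hW1, hW⟩ := h.bound
  set N0 : ℕ := 2 * W + W * (4 * (W * W)) + 1 with hN0
  have hwin : ∀ i, ∃ t < N0, w (i + t) ∉ D := by
    intro i
    by_contra hno
    push Not at hno
    -- last position not in D
    have hex : ∃ p ≤ i, w p ∉ D ∧ ∀ t, p < t → t ≤ i → w t ∈ D := by
      have hfin : ∀ m, m ≤ i → (∃ p ≤ m, w p ∉ D ∧ ∀ t, p < t → t ≤ m → w t ∈ D) := by
        intro m
        induction m with
        | zero => intro _; exact ⟨0, le_rfl, by rw [w0]; exact haD, fun t h1 h2 => by omega⟩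
        | succ m ih =>
          intro hm
          by_cases hc : w (m + 1) ∈ D
          · obtain ⟨p, hp, h1, h2⟩ := ih (by omega)
            refine ⟨p, by omega, h1, fun t ht1 ht2 => ?_⟩
            by_cases ht : t = m + 1
            · rw [ht]; exact hc
            · exact h2 t ht1 (by omega)
          · exact ⟨m + 1, le_rfl, hc, fun t h1 h2 => by omega⟩
      exact hfin i le_rfl
    obtain ⟨p, hp, h1, h2⟩ := hex
    have h3 := h.len_bound hW (i := p + 1) (n := i + N0 - (p + 1)) (by omega) (by simpa using h1) (by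
      intro t ht
      by_cases ht2 : p + 1 + t ≤ i
      · exact h2 _ (by omega) ht2
      · have := hno (p + 1 + t - i) (by omega)
        rwa [show i + (p + 1 + t - i) = p + 1 + t by omega] at this)
    have h4 : p ≠ i := by
      intro hpi
      have := hno 0 (by omega)
      rw [Nat.add_zero, ← hpi] at this
      exact h1 this
    omega
  refine ⟨W * (N0 + 2), ?_⟩
  intro i
  obtain ⟨i', h1, h2⟩ := exists_block h.unb i
  obtain ⟨t, ht, hwt⟩ := hwin (i' + 1)
  obtain ⟨q, hq, hwq⟩ := h.letter (hD' _ hwt)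
  have h3 : cut g w (i' + 1) ≤ cut g w (i' + 1 + t) := cut_mono g w (by omega)
  have h4 := cut_succ g w (i' + 1 + t)
  have h5 := cut_add g w i' (1 + t + 1)
  have h6 := im_win_len hW i' (1 + t + 1)
  have h7 : W * (1 + t + 1) ≤ W * (N0 + 1) := Nat.mul_le_mul_left W (by omega)
  have h8 : W * (N0 + 2) = W * (N0 + 1) + W := by ring
  rw [show i' + (1 + t + 1) = i' + 1 + t + 1 by omega] at h5
  refine ⟨cut g w (i' + 1 + t) + q - i, by omega, ?_⟩
  rw [show i + (cut g w (i' + 1 + t) + q - i) = cut g w (i' + 1 + t) + q by omega]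
  exact hwq

end Pool.Agent.Helper180.QPM
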