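import Mathlib
import Pool.Agent.Helper180.QPM.Base
import Pool.Agent.Helper180.QPM.JEpow
import Pool.Agent.Helper180.QPM.JSyndp

set_option autoImplicit false

namespace Pool.Agent.Helper180.QPM


theorem complA_dead {f : ℕ → List ℕ} (L : List ℕ) (h : ∀ e ∈ L, ∃ n, it f n e = []) :
    ∃ n, im (it f n) L = [] := by
  have hnil : ∀ n, (im f)^[n] [] = [] := by
    intro n
    induction n with
    | zero => rfl
    | succ n ih => rw [Function.iterate_succ_apply', ih, im_nil]
  induction L with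
  | nil => exact ⟨0, rfl⟩
  | cons e L ih =>
    obtain ⟨n1, h1⟩ := h e (by simp)
    obtain ⟨n2, h2⟩ := ih (fun d hd => h d (by simp [hd]))
    refine ⟨n1 + n2, ?_⟩
    rw [im_cons, List.append_eq_nil_iff]
    constructor
    · rw [Nat.add_comm, it_add, h1, im_nil]
    · rw [im_it] at h2 ⊢
      rw [Function.iterate_add_apply, h2, hnil]

theorem complA_letter {φ : ℕ → List ℕ} {w : ℕ → ℕ} (h : IsIm φ w w) (i : ℕ) {e : ℕ}
    (he : e ∈ φ (w i)) : ∃ j, w j = e := by
  rw [h.letter i, mem_win] at he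
  obtain ⟨t, _, ht⟩ := he
  exact ⟨_, ht⟩

theorem complA_prefix {f : ℕ → List ℕ} {w : ℕ → ℕ} {a kA : ℕ} (hw : Ctx f w a kA) (n : ℕ) :
    it f n a = win w 0 (it f n a).length := by
  have h1 := (hw.fix.iter n).letter 0
  rw [hw.w0, cut_zero] at h1
  exact h1

theorem complA_mono {f : ℕ → List ℕ} {w : ℕ → ℕ} {a kA : ℕ} (hw : Ctx f w a kA) :
    Monotone (fun n => (it f n a).length) := by
  have hfa : f a ≠ [] := by
    intro h0
    obtain ⟨n, hn⟩ := hw.grow 1
    cases n with
    | zero => simp [it_zero] at hn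
    | succ n =>
      rw [it_succ', h0, im_nil] at hn
      simp at hn
  obtain ⟨b, L, hL⟩ : ∃ b L, f a = b :: L := by
    cases h : f a with
    | nil => exact absurd h hfa
    | cons b L => exact ⟨b, L, rfl⟩
  have hb : b = a := by
    have h1 := complA_prefix hw 1
    rw [it_one, hL] at h1
    rw [List.length_cons, win_succ', hw.w0] at h1
    exact (List.cons_eq_cons.1 h1).1
  refine monotone_nat_of_le_succ (fun n => ?_)
  show (it f n a).length ≤ (it f (n + 1) a).length
  rw [it_succ', hL, im_cons, hb, List.length_append]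
  omega

theorem complA {f : ℕ → List ℕ} {w : ℕ → ℕ} {a kA : ℕ} (hw : Ctx f w a kA)
    (hs : ¬ Synd a w) : ∃ N c m x s D I, CertA f a N c m x s D I := by
  classical
  by_contra hno
  have hno' : ∀ N c m x s D I, ¬ CertA f a N c m x s D I := by
    intro N c m x s D I hc
    exact hno ⟨N, c, m, x, s, D, I, hc⟩
  set D : List ℕ := (List.range kA).filter
    (fun c => decide ((∃ i, w i = c) ∧ ∀ n, a ∉ it f n c)) with hDdef
  set I : List ℕ := (List.range kA).filter
    (fun c => decide ((∃ i, w i = c) ∧ ∀ n, it f n c ≠ [])) with hIdef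
  have memD : ∀ c, c ∈ D ↔ (∃ i, w i = c) ∧ ∀ n, a ∉ it f n c := by
    intro c
    rw [hDdef, List.mem_filter, List.mem_range, decide_eq_true_eq]
    constructor
    · exact fun h => h.2
    · intro h
      refine ⟨?_, h⟩
      obtain ⟨i, rfl⟩ := h.1
      exact hw.alph i
  have memI : ∀ c, c ∈ I ↔ (∃ i, w i = c) ∧ ∀ n, it f n c ≠ [] := by
    intro c
    rw [hIdef, List.mem_filter, List.mem_range, decide_eq_true_eq]
    constructor
    · exact fun h => h.2
    · intro h
      refine ⟨?_, h⟩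
      obtain ⟨i, rfl⟩ := h.1
      exact hw.alph i
  have hD : ∀ i, w i ∈ D ↔ ∀ n, a ∉ it f n (w i) := by
    intro i
    rw [memD]
    exact ⟨fun h => h.2, fun h => ⟨⟨i, rfl⟩, h⟩⟩
  have hI : ∀ i, w i ∈ I ↔ ∀ n, it f n (w i) ≠ [] := by
    intro i
    rw [memI]
    exact ⟨fun h => h.2, fun h => ⟨⟨i, rfl⟩, h⟩⟩
  obtain ⟨m, hm1, hdead, hDa, hE, hR, hL⟩ := exists_power hw hD hI
  have hg : IsIm (it f m) w w := hw.fix.iter m
  have haD : a ∉ D := by
    rw [← hw.w0, hD 0]
    push Not
    refine ⟨0, ?_⟩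
    rw [it_zero, hw.w0]
    simp
  have hclD : ∀ b ∈ D, ∀ e ∈ f b, e ∈ D := by
    intro b hb e he
    rw [memD] at hb
    obtain ⟨⟨i, rfl⟩, hb2⟩ := hb
    obtain ⟨j, rfl⟩ := complA_letter hw.fix i he
    rw [hD]
    intro n hn
    apply hb2 (n + 1)
    rw [it_succ', mem_im]
    exact ⟨w j, he, hn⟩
  have hclD' : ∀ i, w i ∈ D → ∀ e ∈ it f m (w i), e ∈ D := by
    intro i hi e he
    rw [hD] at hi
    obtain ⟨j, rfl⟩ := complA_letter hg i he
    rw [hD]
    intro n hn
    apply hi (n + m)
    rw [it_add, mem_im]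
    exact ⟨w j, he, hn⟩
  have himm : ∀ b ∈ I, ∃ e ∈ f b, e ∈ I := by
    intro b hb
    rw [memI] at hb
    obtain ⟨⟨i, rfl⟩, hb2⟩ := hb
    by_contra hcon
    push Not at hcon
    obtain ⟨n, hn⟩ := complA_dead (f := f) (f (w i)) (by
      intro e he
      have h1 := hcon e he
      obtain ⟨j, rfl⟩ := complA_letter hw.fix i he
      rw [hI] at h1
      push Not at h1
      exact h1)
    apply hb2 (n + 1)
    rw [it_succ', hn]
  have himm' : ∀ i, w i ∈ I → ∃ e ∈ it f m (w i), e ∈ I := by
    intro i hi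
    rw [hI] at hi
    by_contra hcon
    push Not at hcon
    obtain ⟨n, hn⟩ := complA_dead (f := f) (it f m (w i)) (by
      intro e he
      have h1 := hcon e he
      obtain ⟨j, rfl⟩ := complA_letter hg i he
      rw [hI] at h1
      push Not at h1
      exact h1)
    apply hi (n + m)
    rw [it_add, hn]
  have hgrow : ∀ i, 1 ≤ i → i < cut (it f m) w i := by
    intro i hi
    by_contra hcon
    rw [not_lt] at hcon
    have hcut : ∀ n, cut (it f (m * n)) w i ≤ i := by
      intro n
      induction n with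
      | zero =>
        have h1 : im (it f 0) (win w 0 i) = win w 0 i := by
          rw [im_it]; rfl
        rw [Nat.mul_zero]
        unfold cut
        rw [h1]
        simp
      | succ n ih =>
        rw [Nat.mul_succ, cut_it_add hw.fix]
        exact (cut_mono _ _ hcon).trans ih
    obtain ⟨n, hn⟩ := hw.grow i
    have h1 : (it f (m * n) a).length ≤ cut (it f (m * n)) w i := by
      have h2 : cut (it f (m * n)) w 1 ≤ cut (it f (m * n)) w i := cut_mono _ _ hi
      have h3 : cut (it f (m * n)) w 1 = (it f (m * n) a).length := by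
        unfold cut
        rw [win_one, im_singleton, hw.w0]
      omega
    have h4 : (it f n a).length ≤ (it f (m * n) a).length :=
      complA_mono hw (Nat.le_mul_of_pos_left n hm1)
    have h5 := hcut n
    omega
  have hN : ∀ i, ∃ N, w i ∈ (im f)^[N] [a] := by
    intro i
    obtain ⟨n, hn⟩ := hw.grow i
    refine ⟨n, ?_⟩
    show w i ∈ it f n a
    rw [complA_prefix hw n, mem_win]
    exact ⟨i, hn, by rw [Nat.zero_add]⟩
  refine hs (synd_of_power hw.alph hg hw.w0 hgrow haD hclD' hDa hdead himm' hE hR hL ?_)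
  intro i x s hxs
  obtain ⟨N, hN⟩ := hN i
  constructor
  · intro hsD e he heI
    exact hno' N (w i) m x s D I ⟨hN, hm1, hxs, haD, hclD, himm, Or.inl ⟨hsD, e, he, heI⟩⟩
  · intro hsD e he heI
    exact hno' N (w i) m x s D I ⟨hN, hm1, hxs, haD, hclD, himm, Or.inr ⟨hsD, e, he, heI⟩⟩

end Pool.Agent.Helper180.QPM
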