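import Mathlib
import Pool.Agent.Helper180.QPM.Base
import Pool.Agent.Helper180.QPM.JMarked

set_option autoImplicit false

namespace Pool.Agent.Helper180.QPM


theorem phi_pos_aux {k : ℕ} {Θ h : ℕ → List ℕ} (hΘ : ∀ b < k, 1 ≤ (Θ b).length)
    (hh : ∀ b < k, 1 ≤ (h b).length) (hval : ∀ b < k, ∀ c ∈ h b, c < k) (n : ℕ) :
    ∀ b < k, 1 ≤ (phi Θ h n b).length := by
  induction n with
  | zero => exact hΘ
  | succ n ih =>
    intro b hb
    show 1 ≤ (im (phi Θ h n) (h b)).length
    have h1 := length_im_pos (phi Θ h n) (L := h b) (fun c hc => ih c (hval b hb c hc))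
    have h2 := hh b hb
    omega

theorem isIm_factor_aux {ψ h : ℕ → List ℕ} {x X y : ℕ → ℕ} (hpos : ∀ i, 1 ≤ (h (x i)).length)
    (hX : IsIm h x X) (hy : IsIm (fun c => im ψ (h c)) x y) : IsIm ψ X y := by
  intro j
  have h1 : j ≤ cut h x j := le_cut hpos j
  have h2 : im ψ (win X 0 (cut h x j)) = win y 0 (cut (fun c => im ψ (h c)) x j) := by
    rw [← hX j, im_comp, hy j]
  have h3 : im ψ (win X 0 j) <+: win y 0 (cut (fun c => im ψ (h c)) x j) := by
    rw [← h2]
    exact im_prefix ψ (win_prefix X 0 j _ h1)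
  exact ((prefix_win_iff _).1 h3).2

theorem letters_lt_aux {k : ℕ} {h : ℕ → List ℕ} {x X : ℕ → ℕ} (hx : ∀ i, x i < k)
    (hpos : ∀ i, 1 ≤ (h (x i)).length) (hval : ∀ b < k, ∀ c ∈ h b, c < k)
    (hX : IsIm h x X) (j : ℕ) : X j < k := by
  obtain ⟨i, hi1, hi2⟩ := exists_block (cut_unbounded hpos) j
  rw [cut_succ] at hi2
  have h1 := hX.letter i
  have h2 : X j ∈ h (x i) := by
    rw [h1, mem_win]
    exact ⟨j - cut h x i, by omega, by congr 1; omega⟩
  exact hval _ (hx i) _ h2

theorem length_im_two_aux (φ : ℕ → List ℕ) {L : List ℕ} (h : ∀ c ∈ L, 2 ≤ (φ c).length) :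
    2 * L.length ≤ (im φ L).length := by
  induction L with
  | nil => simp
  | cons c L ih =>
    have h1 := h c (by simp)
    have h2 := ih (fun d hd => h d (by simp [hd]))
    simp only [im_cons, List.length_append, List.length_cons]
    omega

theorem lemC {k K r q : ℕ} {Θ h : ℕ → List ℕ} {P S : List (List ℕ)}
    (hΘ : Marked k Θ q P) (hh : Marked k h r S) (hval : ∀ b < k, ∀ c ∈ h b, c < k)
    (h2 : ∀ b < k, 2 ≤ (h b).length) (hq : q + 1 ≤ K) (hr : r + 1 ≤ K) (n : ℕ)
    {x x' y y' : ℕ → ℕ} (hx : ∀ i, x i < k) (hx' : ∀ i, x' i < k)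
    (hy : IsIm (phi Θ h n) x y) (hy' : IsIm (phi Θ h n) x' y') (h0 : x 0 ≠ x' 0) :
    ∃ t < cut (phi Θ h n) x K, y t ≠ y' t := by
  classical
  induction n generalizing x x' y y' with
  | zero =>
    obtain ⟨t, ht, hne⟩ := Marked.diverge hΘ hx hy hx' hy' h0
    refine ⟨t, ?_, hne⟩
    show t < cut Θ x K
    have h3 : cut Θ x (1 + q) ≤ cut Θ x K := cut_mono Θ x (by omega)
    have h4 := cut_add Θ x 1 q
    have h5 : cut Θ x 1 = (Θ (x 0)).length := by
      have := cut_succ Θ x 0
      simpa using this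
    have h6 := length_im_pos Θ (L := win x 1 q) (by
      intro c hc
      obtain ⟨s, _, rfl⟩ := (mem_win _).1 hc
      exact hΘ.pos _ (hx _))
    rw [win_length] at h6
    omega
  | succ n ih =>
    have hpx : ∀ i, 1 ≤ (h (x i)).length := fun i => hh.pos _ (hx i)
    have hpx' : ∀ i, 1 ≤ (h (x' i)).length := fun i => hh.pos _ (hx' i)
    obtain ⟨X, hX⟩ := exists_isIm (φ := h) (x := x) hpx
    obtain ⟨X', hX'⟩ := exists_isIm (φ := h) (x := x') hpx'
    have hXk : ∀ j, X j < k := letters_lt_aux hx hpx hval hX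
    have hXk' : ∀ j, X' j < k := letters_lt_aux hx' hpx' hval hX'
    have hXy : IsIm (phi Θ h n) X y := isIm_factor_aux hpx hX hy
    have hXy' : IsIm (phi Θ h n) X' y' := isIm_factor_aux hpx' hX' hy'
    obtain ⟨t1, ht1, hne1⟩ := Marked.diverge hh hx hX hx' hX' h0
    have hex : ∃ t, X t ≠ X' t := ⟨t1, hne1⟩
    have hf1 := Nat.find_spec hex
    have hf2 : Nat.find hex ≤ t1 := Nat.find_min' hex hne1
    have hf3 : win X 0 (Nat.find hex) = win X' 0 (Nat.find hex) := by
      rw [win_eq_iff]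
      intro t ht
      have := Nat.find_min hex ht
      push Not at this
      simpa using this
    generalize Nat.find hex = t0 at hf1 hf2 hf3
    have hcc : cut (phi Θ h n) X t0 = cut (phi Θ h n) X' t0 := by
      unfold cut
      rw [hf3]
    have hs1 := hXy.shift t0
    have hs2 := hXy'.shift t0
    rw [← hcc] at hs2
    obtain ⟨t, ht, hne⟩ := ih (x := sh X t0) (x' := sh X' t0) (fun i => hXk _)
      (fun i => hXk' _) hs1 hs2 (by simpa [sh] using hf1)
    refine ⟨cut (phi Θ h n) X t0 + t, ?_, by simpa [sh] using hne⟩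
    have h3 := cut_sh (phi Θ h n) X t0 K
    have h4 : cut (phi Θ h (n + 1)) x K = cut (phi Θ h n) X (cut h x K) := cut_comp hX K
    have h5 : t0 + K ≤ cut h x K := by
      have e1 := cut_add h x 1 (K - 1)
      have e2 : 1 + (K - 1) = K := by omega
      rw [e2] at e1
      have e3 : cut h x 1 = (h (x 0)).length := by
        have := cut_succ h x 0
        simpa using this
      have e4 := length_im_two_aux h (L := win x 1 (K - 1)) (by
        intro c hc
        obtain ⟨s, _, rfl⟩ := (mem_win _).1 hc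
        exact h2 _ (hx _))
      rw [win_length] at e4
      omega
    have h6 := cut_mono (phi Θ h n) X h5
    omega

end Pool.Agent.Helper180.QPM
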