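import Mathlib
import Pool.Agent.Helper180.QPM.Base
import Pool.Agent.Helper180.QPM.JLemC
import Pool.Agent.Helper180.QPM.JMarked

set_option autoImplicit false

namespace Pool.Agent.Helper180.QPM


theorem j4211_pos {k q : ℕ} {Θ h : ℕ → List ℕ} {P : List (List ℕ)}
    (hΘ : Marked k Θ q P) (hval : ∀ b < k, ∀ c ∈ h b, c < k)
    (h2 : ∀ b < k, 2 ≤ (h b).length) : ∀ n, ∀ b < k, 1 ≤ (phi Θ h n b).length := by
  intro n
  induction n with
  | zero => exact hΘ.pos
  | succ n ih =>
    intro b hb
    have := length_im_pos (φ := phi Θ h n) (L := h b) (fun c hc => ih c (hval b hb c hc))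
    have h3 := h2 b hb
    show 1 ≤ (im (phi Θ h n) (h b)).length
    omega

theorem j4211_getD {k : ℕ} (hk : 0 < k) {z : List ℕ} (hz : ∀ c ∈ z, c < k) (i : ℕ) :
    z.getD i 0 < k := by
  by_cases hi : i < z.length
  · rw [List.getD_eq_getElem _ _ hi]
    exact hz _ (List.getElem_mem hi)
  · rw [List.getD_eq_default _ _ (by omega)]
    exact hk

theorem j4211_win (z : List ℕ) : win (fun t => z.getD t 0) 0 z.length = z := by
  apply List.ext_getElem
  · simp
  · intro t h1 h2
    rw [win_getElem, Nat.zero_add]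
    exact List.getD_eq_getElem _ _ h2

theorem lemC_list {k K r q : ℕ} {Θ h : ℕ → List ℕ} {P S : List (List ℕ)}
    (hΘ : Marked k Θ q P) (hh : Marked k h r S) (hval : ∀ b < k, ∀ c ∈ h b, c < k)
    (h2 : ∀ b < k, 2 ≤ (h b).length) (hq : q + 1 ≤ K) (hr : r + 1 ≤ K) (n : ℕ)
    {z x M : List ℕ} (hz : ∀ c ∈ z, c < k) (hx : ∀ c ∈ x, c < k) (hz0 : z ≠ [])
    (hxK : K ≤ x.length) (hh0 : z.head? ≠ x.head?) (h1 : M <+: im (phi Θ h n) z)
    (h1' : M <+: im (phi Θ h n) x) : M.length < (im (phi Θ h n) (x.take K)).length := by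
  have hk : 0 < k := by
    obtain ⟨a, ha⟩ := List.exists_mem_of_ne_nil z hz0
    exact lt_of_le_of_lt (Nat.zero_le _) (hz a ha)
  have hpos : ∀ n, ∀ b < k, 1 ≤ (phi Θ h n b).length := j4211_pos hΘ hval h2
  set ξ : ℕ → ℕ := fun t => z.getD t 0 with hξ
  set ξ' : ℕ → ℕ := fun t => x.getD t 0 with hξ'
  have hξk : ∀ i, ξ i < k := j4211_getD hk hz
  have hξk' : ∀ i, ξ' i < k := j4211_getD hk hx
  have hwz : win ξ 0 z.length = z := j4211_win z
  have hwx : win ξ' 0 x.length = x := j4211_win x
  obtain ⟨y, hy⟩ := exists_isIm (φ := phi Θ h n) (x := ξ) (fun i => hpos n _ (hξk i))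
  obtain ⟨y', hy'⟩ := exists_isIm (φ := phi Θ h n) (x := ξ') (fun i => hpos n _ (hξk' i))
  have hne : ξ' 0 ≠ ξ 0 := by
    intro he
    apply hh0
    cases z with
    | nil => exact absurd rfl hz0
    | cons a z' =>
      cases x with
      | nil => simp at hxK; omega
      | cons b x' =>
        have : b = a := by simpa [hξ, hξ'] using he
        simp [this]
  obtain ⟨t, ht, hty⟩ := lemC hΘ hh hval h2 hq hr n hξk' hξk hy' hy hne
  have hM1 : M = win y 0 M.length := by
    rw [← hwz, hy z.length] at h1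
    exact ((prefix_win_iff _).1 h1).2
  have hM2 : M = win y' 0 M.length := by
    rw [← hwx, hy' x.length] at h1'
    exact ((prefix_win_iff _).1 h1').2
  have hag : ∀ t < M.length, y (0 + t) = y' (0 + t) := by
    apply win_eq_iff.1
    rw [← hM1, ← hM2]
  have hle : M.length ≤ t := by
    by_contra hcon
    push Not at hcon
    have := hag t hcon
    rw [Nat.zero_add] at this
    exact hty this.symm
  have htake : x.take K = win ξ' 0 K := by
    conv_lhs => rw [← hwx]
    exact take_win _ _ _ _ hxK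
  rw [htake]
  exact lt_of_le_of_lt hle ht

theorem imm {k K r q : ℕ} {Θ h : ℕ → List ℕ} {P S : List (List ℕ)}
    {Inv : List (List ℕ × List ℕ)}
    (hΘ : Marked k Θ q P) (hh : Marked k h r S) (hval : ∀ b < k, ∀ c ∈ h b, c < k)
    (h2 : ∀ b < k, 2 ≤ (h b).length) (hq : q + 1 ≤ K) (hr : r + 1 ≤ K)
    (hInv : InvOK k K Θ h Inv) (n : ℕ) :
    ∀ zx ∈ Inv, ¬ (im (phi Θ h n) zx.1 <+: im (phi Θ h n) zx.2) := by
  induction n with
  | zero =>
    intro zx hzx
    exact (hInv zx hzx).2.2.2.2.2.1
  | succ n ih =>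
    intro zx hzx hpre
    obtain ⟨hz, hx, hxl, hz0, hhd, hT, j, hj, htk, hjK, hhd2, hcase⟩ := hInv zx hzx
    set l := (im h zx.1).take j with hl
    set z' := (im h zx.1).drop j with hz'
    set X := (im h zx.2).drop j with hX
    have e1 : im h zx.1 = l ++ z' := (List.take_append_drop j _).symm
    have e2 : im h zx.2 = l ++ X := by
      rw [htk]
      exact (List.take_append_drop j _).symm
    have c1 : im (phi Θ h (n + 1)) zx.1 = im (phi Θ h n) (im h zx.1) := by
      rw [im_comp]
      rfl
    have c2 : im (phi Θ h (n + 1)) zx.2 = im (phi Θ h n) (im h zx.2) := by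
      rw [im_comp]
      rfl
    rw [c1, c2, e1, e2, im_append, im_append, List.prefix_append_right_inj] at hpre
    have hz'0 : z' ≠ [] := by
      intro h0
      have : z'.length = 0 := by rw [h0]; rfl
      rw [hz', List.length_drop] at this
      omega
    have hXl : K ≤ X.length := by
      rw [hX, List.length_drop]
      omega
    have hz'k : ∀ c ∈ z', c < k := by
      intro c hc
      have hc1 : c ∈ im h zx.1 := List.mem_of_mem_drop hc
      obtain ⟨b, hb, hcb⟩ := (mem_im h).1 hc1
      exact hval b (hz b hb) c hcb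
    have hXk : ∀ c ∈ X, c < k := by
      intro c hc
      have hc1 : c ∈ im h zx.2 := List.mem_of_mem_drop hc
      obtain ⟨b, hb, hcb⟩ := (mem_im h).1 hc1
      exact hval b (hx b hb) c hcb
    have hlt := lemC_list hΘ hh hval h2 hq hr n hz'k hXk hz'0 hXl hhd2 (List.prefix_refl _) hpre
    rcases hcase with hc | hc
    · -- long gap
      have hX0 : X ≠ [] := by
        intro h0
        rw [h0] at hXl
        simp at hXl
        omega
      have hlt2 := lemC_list hΘ hh hval h2 hq hr n hXk hz'k hX0 hc hhd2.symm hpre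
        (List.prefix_refl _)
      have hle := (im_prefix (phi Θ h n) (List.take_prefix K z')).length_le
      omega
    · refine ih _ hc ?_
      show im (phi Θ h n) z' <+: im (phi Θ h n) (X.take K)
      have hp2 := im_prefix (phi Θ h n) (List.take_prefix K X)
      exact List.prefix_of_prefix_length_le hpre hp2 hlt.le

end Pool.Agent.Helper180.QPM
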