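import Mathlib
import Pool.Agent.Helper180.QPM.Base
import Pool.Agent.Helper180.QPM.JList
import Pool.Agent.Helper180.QPM.JMarked

set_option autoImplicit false

namespace Pool.Agent.Helper180.QPM


theorem finite_words_aux (k n : ℕ) : {L : List ℕ | (∀ c ∈ L, c < k) ∧ L.length = n}.Finite := by
  induction n with
  | zero =>
    apply (Set.finite_singleton ([] : List ℕ)).subset
    rintro L ⟨_, hL⟩
    exact List.length_eq_zero_iff.1 hL
  | succ n ih =>
    apply ((Set.finite_Iio k).image2 List.cons ih).subset
    rintro L ⟨h1, h2⟩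
    cases L with
    | nil => simp at h2
    | cons c L =>
      refine ⟨c, h1 c (by simp), L, ⟨fun d hd => h1 d (by simp [hd]), by simpa using h2⟩, rfl⟩

theorem finite_words_aux' (k K : ℕ) : {L : List ℕ | (∀ c ∈ L, c < k) ∧ L.length ≤ K}.Finite := by
  have h : {L : List ℕ | (∀ c ∈ L, c < k) ∧ L.length ≤ K} ⊆
      ⋃ n ∈ Set.Iic K, {L : List ℕ | (∀ c ∈ L, c < k) ∧ L.length = n} := by
    rintro L ⟨h1, h2⟩
    exact Set.mem_biUnion (show L.length ∈ Set.Iic K from h2) ⟨h1, rfl⟩
  exact ((Set.finite_Iic K).biUnion fun n _ => finite_words_aux k n).subset h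

theorem im_phi_succ (Θ h : ℕ → List ℕ) (n : ℕ) (L : List ℕ) :
    im (phi Θ h (n + 1)) L = im (phi Θ h n) (im h L) := by
  rw [im_comp]
  rfl

theorem win_getD_self (z : List ℕ) : win (fun t => z.getD t 0) 0 z.length = z := by
  apply List.ext_getElem
  · simp
  · intro t h1 h2
    rw [win_getElem, Nat.zero_add]
    exact List.getD_eq_getElem _ _ h2

theorem head_win (x : ℕ → ℕ) (i n : ℕ) (hn : 0 < n) : (win x i n).head? = some (x i) := by
  obtain ⟨m, rfl⟩ : ∃ m, n = m + 1 := ⟨n - 1, by omega⟩
  rw [win_succ']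
  rfl

theorem two_im {h : ℕ → List ℕ} {k : ℕ} (h2 : ∀ b < k, 2 ≤ (h b).length) (L : List ℕ)
    (hL : ∀ c ∈ L, c < k) : 2 * L.length ≤ (im h L).length := by
  induction L with
  | nil => simp
  | cons c L ih =>
    have h1 := h2 c (hL c (by simp))
    have h3 := ih (fun d hd => hL d (by simp [hd]))
    simp only [im_cons, List.length_append, List.length_cons]
    omega

theorem exists_inv {k K r q : ℕ} {Θ h : ℕ → List ℕ} {P S : List (List ℕ)}
    (hΘ : Marked k Θ q P) (hh : Marked k h r S) (hval : ∀ b < k, ∀ c ∈ h b, c < k)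
    (h2 : ∀ b < k, 2 ≤ (h b).length) (hq : q + 1 ≤ K) (hr : r + 1 ≤ K) :
    ∃ Inv, InvOK k K Θ h Inv ∧ ∀ z x : List ℕ, (∀ c ∈ z, c < k) → (∀ c ∈ x, c < k) → z ≠ [] →
      z.length < K → x.length = K → z.head? ≠ x.head? →
      (∀ n, ¬ (im (phi Θ h n) z <+: im (phi Θ h n) x)) → (z, x) ∈ Inv := by
  classical
  set A : Set (List ℕ × List ℕ) := {zx | (∀ c ∈ zx.1, c < k) ∧ (∀ c ∈ zx.2, c < k) ∧ zx.1 ≠ [] ∧
    zx.1.length < K ∧ zx.2.length = K ∧ zx.1.head? ≠ zx.2.head? ∧
    ∀ n, ¬ (im (phi Θ h n) zx.1 <+: im (phi Θ h n) zx.2)} with hA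
  have hfin : A.Finite := by
    apply ((finite_words_aux' k K).prod (finite_words_aux' k K)).subset
    rintro ⟨z, x⟩ ⟨a1, a2, a3, a4, a5, a6, a7⟩
    exact ⟨⟨a1, le_of_lt a4⟩, ⟨a2, le_of_eq a5⟩⟩
  have hmem : ∀ zx, zx ∈ hfin.toFinset.toList ↔ zx ∈ A := fun zx => by
    rw [Finset.mem_toList, Set.Finite.mem_toFinset]
  refine ⟨hfin.toFinset.toList, ?_, ?_⟩
  · rintro ⟨z, x⟩ hzx
    obtain ⟨a1, a2, a3, a4, a5, a6, a7⟩ := (hmem _).1 hzx
    simp only at a1 a2 a3 a4 a5 a6 a7
    refine ⟨a1, a2, a5, a3, a6, a7 0, ?_⟩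
    simp only
    have hzpos : 0 < z.length := List.length_pos_iff.2 a3
    have hkpos : 0 < k := by
      obtain ⟨c, hc⟩ := List.exists_mem_of_ne_nil z a3
      exact lt_of_le_of_lt (Nat.zero_le _) (a1 c hc)
    set ξ : ℕ → ℕ := fun t => z.getD t 0 with hξ
    set ξ' : ℕ → ℕ := fun t => x.getD t 0 with hξ'
    have hget : ∀ (L : List ℕ), (∀ c ∈ L, c < k) → ∀ t, L.getD t 0 < k := by
      intro L hL t
      by_cases ht : t < L.length
      · rw [List.getD_eq_getElem _ _ ht]
        exact hL _ (List.getElem_mem ht)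
      · rw [List.getD_eq_default _ _ (not_lt.1 ht)]
        exact hkpos
    have hξk : ∀ i, ξ i < k := hget z a1
    have hξk' : ∀ i, ξ' i < k := hget x a2
    obtain ⟨X, hX⟩ := exists_isIm (φ := h) (x := ξ) fun i => hh.pos _ (hξk i)
    obtain ⟨X', hX'⟩ := exists_isIm (φ := h) (x := ξ') fun i => hh.pos _ (hξk' i)
    have hwz : win ξ 0 z.length = z := win_getD_self z
    have hwx : win ξ' 0 x.length = x := win_getD_self x
    have h0 : ξ' 0 ≠ ξ 0 := by
      intro h0
      apply a6
      rw [← hwz, ← hwx, head_win _ _ _ hzpos, head_win _ _ _ (by omega), h0]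
    obtain ⟨t, ht, htne⟩ := hh.diverge hξk' hX' hξk hX h0
    have hex : ∃ j, X' j ≠ X j := ⟨t, htne⟩
    set j := Nat.find hex with hj
    have hjne : X' j ≠ X j := Nat.find_spec hex
    have hjt : j ≤ t := Nat.find_min' hex htne
    have hjlt : ∀ i < j, X' i = X i := fun i hi => not_not.1 (Nat.find_min hex hi)
    have hzim : im h z = win X 0 (im h z).length := by
      have h3 := hX z.length
      unfold cut at h3
      rw [hwz] at h3
      exact h3
    have hxim : im h x = win X' 0 (im h x).length := by
      have h3 := hX' x.length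
      unfold cut at h3
      rw [hwx] at h3
      exact h3
    have hagree : ∀ n ≤ j, win X 0 n = win X' 0 n := by
      intro n hn
      rw [win_eq_iff]
      intro i hi
      rw [Nat.zero_add]
      exact (hjlt i (by omega)).symm
    have hlenx : j + K ≤ (im h x).length := by
      obtain ⟨c, L, hcL⟩ : ∃ c L, x = c :: L := by
        cases x with
        | nil => simp at a5; omega
        | cons c L => exact ⟨c, L, rfl⟩
      have h3 : ξ' 0 = c := by rw [hξ', hcL]; rfl
      have h4 := two_im h2 L (fun d hd => a2 d (by rw [hcL]; simp [hd]))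
      rw [hcL, im_cons, List.length_append]
      rw [hcL, List.length_cons] at a5
      rw [h3] at ht
      omega
    have hjz : j < (im h z).length := by
      by_contra hcon
      push Not at hcon
      apply a7 1
      rw [im_phi_succ, im_phi_succ]
      apply im_prefix
      rw [hzim, hxim, hagree _ hcon]
      exact win_prefix _ _ _ _ (by omega)
    have htake : (im h z).take j = (im h x).take j := by
      rw [hzim, hxim, take_win _ _ _ _ hjz.le, take_win _ _ _ _ (by omega)]
      exact hagree j le_rfl
    have hheadz : ((im h z).drop j).head? = some (X j) := by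
      rw [hzim, drop_win, head_win _ _ _ (by omega), Nat.zero_add]
    have hheadx : ((im h x).drop j).head? = some (X' j) := by
      rw [hxim, drop_win, head_win _ _ _ (by omega), Nat.zero_add]
    have hheads : ((im h z).drop j).head? ≠ ((im h x).drop j).head? := by
      rw [hheadz, hheadx]
      intro h3
      exact hjne (Option.some.inj h3).symm
    refine ⟨j, hjz, htake, hlenx, hheads, ?_⟩
    by_cases hK : K ≤ ((im h z).drop j).length
    · exact Or.inl hK
    · right
      rw [hmem]
      have hlet : ∀ L : List ℕ, (∀ c ∈ L, c < k) → ∀ c ∈ im h L, c < k := by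
        intro L hL c hc
        obtain ⟨b, hb, hcb⟩ := (mem_im h).1 hc
        exact hval b (hL b hb) c hcb
      refine ⟨?_, ?_, ?_, ?_, ?_, ?_, ?_⟩
      · intro c hc
        exact hlet z a1 c (List.mem_of_mem_drop hc)
      · intro c hc
        exact hlet x a2 c (List.mem_of_mem_drop (List.mem_of_mem_take hc))
      · intro h3
        have h3' : (im h z).drop j = [] := h3
        rw [h3'] at hheadz
        simp at hheadz
      · exact not_le.1 hK
      · show (((im h x).drop j).take K).length = K
        rw [List.length_take, List.length_drop]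
        omega
      · show ((im h z).drop j).head? ≠ (((im h x).drop j).take K).head?
        have h3 : (((im h x).drop j).take K).head? = ((im h x).drop j).head? := by
          rw [hxim, drop_win, take_win _ _ _ _ (by omega), head_win _ _ _ (by omega),
            head_win _ _ _ (by omega)]
        rw [h3]
        exact hheads
      · intro n hn
        have hn' : im (phi Θ h n) ((im h z).drop j) <+: im (phi Θ h n) (((im h x).drop j).take K) := hn
        apply a7 (n + 1)
        rw [im_phi_succ, im_phi_succ]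
        rw [← List.take_append_drop j (im h z), ← List.take_append_drop j (im h x), im_append,
          im_append]
        have h4 : im (phi Θ h n) ((im h z).drop j) <+: im (phi Θ h n) ((im h x).drop j) :=
          hn'.trans (im_prefix _ (List.take_prefix K _))
        rw [htake]
        exact (List.prefix_append_right_inj _).2 h4
  · intro z x b1 b2 b3 b4 b5 b6 b7
    exact (hmem _).2 ⟨b1, b2, b3, b4, b5, b6, b7⟩

end Pool.Agent.Helper180.QPM
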