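import Mathlib
import Pool.Agent.Helper180.QPM.Base
import Pool.Agent.Helper180.QPM.JInv
import Pool.Agent.Helper180.QPM.JList
import Pool.Agent.Helper180.QPM.JMarked

set_option autoImplicit false

namespace Pool.Agent.Helper180.QPM


theorem gc_isIm {Θ h : ℕ → List ℕ} {v w : ℕ → ℕ} (hvv : IsIm h v v) (hvw : IsIm Θ v w) (n : ℕ) :
    IsIm (phi Θ h n) v w := by
  induction n with
  | zero => exact hvw
  | succ n ih => exact hvv.comp ih

theorem gc_pos {k : ℕ} {Θ h : ℕ → List ℕ} (hΘ : ∀ b < k, 1 ≤ (Θ b).length)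
    (hval : ∀ b < k, ∀ c ∈ h b, c < k) (h2 : ∀ b < k, 2 ≤ (h b).length) (n : ℕ) :
    ∀ b < k, 1 ≤ (phi Θ h n b).length := by
  induction n with
  | zero => exact hΘ
  | succ n ih =>
    intro b hb
    show 1 ≤ (im (phi Θ h n) (h b)).length
    have h1 := length_im_pos (phi Θ h n) (L := h b) (fun c hc => ih c (hval b hb c hc))
    have h3 := h2 b hb
    omega

theorem gc_phi_succ (Θ h : ℕ → List ℕ) (n : ℕ) (M : List ℕ) :
    im (phi Θ h (n + 1)) M = im (phi Θ h n) (im h M) :=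
  (im_comp h (phi Θ h n) M).symm

theorem gc_comm {k : ℕ} {Θ h g : ℕ → List ℕ} (hconj : ∀ b < k, im g (Θ b) = im Θ (h b))
    (hval : ∀ b < k, ∀ c ∈ h b, c < k) (n : ℕ) :
    ∀ L : List ℕ, (∀ c ∈ L, c < k) → im g (im (phi Θ h n) L) = im (phi Θ h n) (im h L) := by
  induction n with
  | zero =>
    intro L hL
    show im g (im Θ L) = im Θ (im h L)
    rw [im_comp, im_comp]
    exact im_congr fun c hc => hconj c (hL c hc)
  | succ n ih =>
    intro L hL
    rw [gc_phi_succ, gc_phi_succ]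
    exact ih (im h L) (fun c hc => by
      rw [mem_im] at hc
      obtain ⟨b, hb, hcb⟩ := hc
      exact hval b (hL b hb) c hcb)

theorem gc_mono {k : ℕ} {Θ h g : ℕ → List ℕ} (hconj : ∀ b < k, im g (Θ b) = im Θ (h b))
    (hval : ∀ b < k, ∀ c ∈ h b, c < k) {z x : List ℕ} (hz : ∀ c ∈ z, c < k) (hx : ∀ c ∈ x, c < k)
    {n : ℕ} (hp : im (phi Θ h n) z <+: im (phi Θ h n) x) {N : ℕ} (hN : n ≤ N) :
    im (phi Θ h N) z <+: im (phi Θ h N) x := by
  induction N, hN using Nat.le_induction with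
  | base => exact hp
  | succ N hN ih =>
    rw [gc_phi_succ, gc_phi_succ, ← gc_comm hconj hval N z hz, ← gc_comm hconj hval N x hx]
    exact im_prefix g ih

theorem gc_fin (k n : ℕ) : {L : List ℕ | L.length = n ∧ ∀ c ∈ L, c < k}.Finite := by
  induction n with
  | zero =>
    refine (Set.finite_singleton ([] : List ℕ)).subset ?_
    rintro L ⟨h, _⟩
    exact List.length_eq_zero_iff.1 h
  | succ n ih =>
    refine (Set.Finite.image2 (fun (c : ℕ) (L : List ℕ) => c :: L) (Set.finite_lt_nat k) ih).subset ?_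
    rintro L ⟨h1, h2⟩
    cases L with
    | nil => simp at h1
    | cons c L =>
      exact ⟨c, h2 c (by simp), L, ⟨by simpa using h1, fun d hd => h2 d (by simp [hd])⟩, rfl⟩

theorem gc_fin_lt (k K : ℕ) : {L : List ℕ | L.length < K ∧ ∀ c ∈ L, c < k}.Finite := by
  refine ((Set.finite_lt_nat K).biUnion (fun n _ => gc_fin k n)).subset ?_
  rintro L ⟨h1, h2⟩
  exact Set.mem_biUnion (show L.length ∈ {i | i < K} from h1) ⟨rfl, h2⟩

theorem gc_step1 {k K l : ℕ} {φ : ℕ → List ℕ} {v w : ℕ → ℕ} (hv : ∀ i, v i < k)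
    (hpos : ∀ b < k, 1 ≤ (φ b).length) (hw : IsIm φ v w) (hnc : ∀ u, ¬ Cov w u)
    (T : List ℕ → Prop) (hT0 : T (win v l (2 * K)))
    (hocc : ∀ i, ∃ t, i < t ∧ OccT v l (2 * K) T t) :
    ∃ m1 m2, m1 + l < m2 ∧ OccT v l (2 * K) T m1 ∧ OccT v l (2 * K) T m2 ∧
      (∀ m, m1 < m → m < m2 → ¬ OccT v l (2 * K) T m) ∧
      ∃ x, T x ∧ ¬ (im φ (win v (m1 + l) (m2 - (m1 + l))) <+: im φ x) := by
  classical
  obtain ⟨x0, hx0⟩ : ∃ x0, x0 = win v l (2 * K) := ⟨_, rfl⟩
  obtain ⟨P, hP⟩ : ∃ P : ℕ → Prop, P = fun e => ∀ x, T x → (im φ x0).take e <+: im φ x :=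
    ⟨_, rfl⟩
  have hPiff : ∀ e, P e ↔ ∀ x, T x → (im φ x0).take e <+: im φ x := by
    intro e; rw [hP]
  have hP0 : P 0 := by
    rw [hPiff]
    intro x _
    rw [List.take_zero]
    exact List.nil_prefix
  obtain ⟨e, he⟩ : ∃ e, e = Nat.findGreatest P (im φ x0).length := ⟨_, rfl⟩
  have hPe : P e := by
    rw [he]; exact Nat.findGreatest_spec (m := 0) (Nat.zero_le _) hP0
  have hele : e ≤ (im φ x0).length := by rw [he]; exact Nat.findGreatest_le _
  have hmax : ∀ e', e' ≤ (im φ x0).length → P e' → e' ≤ e := fun e' h1 h2 => by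
    rw [he]; exact Nat.le_findGreatest h1 h2
  have hx0im : im φ x0 = win w (cut φ v l) (im φ x0).length := by
    rw [hx0]; exact hw.imWin l (2 * K)
  have htake : (im φ x0).take e = win w (cut φ v l) e := by
    have h1 := take_win w (cut φ v l) (im φ x0).length e hele
    rw [← hx0im] at h1
    exact h1
  have hcutO : ∀ m, OccT v l (2 * K) T m → cut φ v (m + l) = cut φ v m + cut φ v l := by
    intro m hm
    rw [cut_add, hm.1]
    rfl
  obtain ⟨u, hu⟩ : ∃ u, u = cut φ v l + e := ⟨_, rfl⟩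
  have claim1 : ∀ m, OccT v l (2 * K) T m → win w (cut φ v m) u = win w 0 u := by
    intro m hm
    have h1 : im φ (win v m l) = win w (cut φ v m) (im φ (win v m l)).length := hw.imWin m l
    rw [hm.1] at h1
    have h1' : im φ (win v 0 l) = win w (cut φ v m) (cut φ v l) := h1
    have h2 : im φ (win v 0 l) = win w 0 (cut φ v l) := hw l
    have h3 := hw.imWin (m + l) (2 * K)
    have h4 := (hPiff e).1 hPe _ hm.2
    rw [htake, h3, prefix_win_iff, win_length, hcutO m hm] at h4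
    rw [hu, win_add, win_add, Nat.zero_add, ← h4.2, ← h1', ← h2]
  have hle : ∀ m, m ≤ cut φ v m := fun m => le_cut (fun i => hpos _ (hv i)) m
  have hO0 : OccT v l (2 * K) T 0 := ⟨rfl, by rw [Nat.zero_add]; exact hT0⟩
  have hncu := hnc u
  unfold Cov at hncu
  push Not at hncu
  obtain ⟨i, hi⟩ := hncu
  obtain ⟨m1, hm1⟩ : ∃ m1, m1 = Nat.findGreatest
    (fun m => OccT v l (2 * K) T m ∧ cut φ v m ≤ i) i := ⟨_, rfl⟩
  have hm1s : OccT v l (2 * K) T m1 ∧ cut φ v m1 ≤ i := by
    rw [hm1]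
    exact Nat.findGreatest_spec (P := fun m => OccT v l (2 * K) T m ∧ cut φ v m ≤ i) (m := 0)
      (Nat.zero_le _) ⟨hO0, by rw [cut_zero]; exact Nat.zero_le _⟩
  have hm1m : ∀ m, OccT v l (2 * K) T m → cut φ v m ≤ i → m ≤ m1 := by
    intro m h3 h4
    rw [hm1]
    exact Nat.le_findGreatest ((hle m).trans h4) ⟨h3, h4⟩
  obtain ⟨m2, hm2⟩ : ∃ m2, m2 = Nat.find (hocc m1) := ⟨_, rfl⟩
  have hm2s : m1 < m2 ∧ OccT v l (2 * K) T m2 := by rw [hm2]; exact Nat.find_spec (hocc m1)
  have hm2m : ∀ m, m1 < m → m < m2 → ¬ OccT v l (2 * K) T m := by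
    intro m h3 h4 h5
    rw [hm2] at h4
    exact Nat.find_min (hocc m1) h4 ⟨h3, h5⟩
  have hcut2 : i < cut φ v m2 := by
    by_contra hcon
    push Not at hcon
    have := hm1m m2 hm2s.2 hcon
    omega
  have hcut1 : cut φ v m1 + u ≤ i := by
    by_contra hcon
    push Not at hcon
    exact hi _ hm1s.2 hcon (claim1 m1 hm1s.1)
  have hlt : m1 + l < m2 := by
    by_contra hcon
    push Not at hcon
    have h3 := cut_mono φ v hcon
    rw [hcutO m1 hm1s.1] at h3
    omega
  refine ⟨m1, m2, hlt, hm1s.1, hm2s.2, hm2m, ?_⟩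
  by_contra hcon
  push Not at hcon
  have h5 : cut φ v m2 = cut φ v (m1 + l) +
      (im φ (win v (m1 + l) (m2 - (m1 + l)))).length := by
    rw [← cut_add]
    congr 1
    omega
  rw [hcutO m1 hm1s.1] at h5
  have h6 : e < (im φ (win v (m1 + l) (m2 - (m1 + l)))).length := by omega
  have h7 := hcon x0 (by rw [hx0]; exact hT0)
  have h8 := h7.length_le
  have h9 := hmax _ h8 (by
    rw [hPiff]
    intro x hx
    rw [← List.prefix_iff_eq_take.1 h7]
    exact hcon x hx)
  omega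

theorem gap_complete {k K r q : ℕ} {Θ h g : ℕ → List ℕ} {P S : List (List ℕ)} {v w : ℕ → ℕ}
    (hΘ : Marked k Θ q P) (hh : Marked k h r S) (hconj : ∀ b < k, im g (Θ b) = im Θ (h b))
    (hval : ∀ b < k, ∀ c ∈ h b, c < k) (h2 : ∀ b < k, 2 ≤ (h b).length)
    (hq : q + 1 ≤ K) (hr : r + 1 ≤ K)
    (hv : ∀ i, v i < k) (hvv : IsIm h v v) (hvw : IsIm Θ v w)
    (hrec : ∀ n, ∃ G, ∀ i, ∃ t, t < G ∧ win v (i + t) n = win v 0 n)
    (hnc : ∀ u, ¬ Cov w u) :
    ∃ Inv, InvOK k K Θ h Inv ∧ ∀ l < r, ∀ T : List ℕ → Prop,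
      (∀ x, T x → x.length = 2 * K ∧ ∀ c ∈ x, c < k) →
      T (win v l (2 * K)) → (∃ x, T x ∧ x.head? ≠ (win v l (2 * K)).head?) →
      GapOK K v Inv l T := by
  classical
  obtain ⟨Inv, hInv, hInv2⟩ := exists_inv hΘ hh hval h2 hq hr
  refine ⟨Inv, hInv, ?_⟩
  intro l _ T hT hT0 _
  by_contra hgap
  -- occurrences
  have hocc : ∀ i, ∃ t, i < t ∧ OccT v l (2 * K) T t := by
    intro i
    obtain ⟨G, hG⟩ := hrec (l + 2 * K)
    obtain ⟨t, _, ht⟩ := hG (i + 1)
    refine ⟨i + 1 + t, by omega, ?_, ?_⟩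
    · have h1 := congrArg (List.take l) ht
      rw [take_win _ _ _ _ (by omega), take_win _ _ _ _ (by omega)] at h1
      exact h1
    · have h1 := congrArg (List.drop l) ht
      rw [drop_win, drop_win, Nat.add_sub_cancel_left, Nat.zero_add] at h1
      rw [h1]
      exact hT0
  have hIm := gc_isIm hvv hvw
  have hpos := gc_pos hΘ.pos hval h2
  -- letters
  have hlet : ∀ i n, ∀ c ∈ win v i n, c < k := by
    intro i n c hc
    rw [mem_win] at hc
    obtain ⟨t, _, ht⟩ := hc
    rw [← ht]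
    exact hv _
  -- the finite set of pairs
  obtain ⟨F, hF⟩ : ∃ F : Set (List ℕ × List ℕ), F = {p | (∃ m1 m2, m1 + l < m2 ∧
      OccT v l (2 * K) T m1 ∧ OccT v l (2 * K) T m2 ∧
      (∀ m, m1 < m → m < m2 → ¬ OccT v l (2 * K) T m) ∧
      p.1 = win v (m1 + l) (m2 - (m1 + l))) ∧ T p.2} := ⟨_, rfl⟩
  have hshort : ∀ m1 m2, m1 + l < m2 → OccT v l (2 * K) T m1 → OccT v l (2 * K) T m2 →
      (∀ m, m1 < m → m < m2 → ¬ OccT v l (2 * K) T m) → m2 - (m1 + l) < K := by
    intro m1 m2 a1 a2 a3 a4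
    by_contra hcon
    push Not at hcon
    exact hgap ⟨m1, m2, a1, a2, a3, a4, Or.inl hcon⟩
  have hFfin : F.Finite := by
    refine ((gc_fin_lt k K).prod (gc_fin k (2 * K))).subset ?_
    rintro ⟨z, x⟩ hp
    rw [hF] at hp
    obtain ⟨⟨m1, m2, a1, a2, a3, a4, a5⟩, a6⟩ := hp
    refine ⟨?_, hT x a6⟩
    show z.length < K ∧ ∀ c ∈ z, c < k
    have a5' : z = win v (m1 + l) (m2 - (m1 + l)) := a5
    rw [a5', win_length]
    exact ⟨hshort m1 m2 a1 a2 a3 a4, hlet _ _⟩
  have hex : ∃ p ∈ F, ∀ n, ¬ (im (phi Θ h n) p.1 <+: im (phi Θ h n) p.2) := by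
    by_contra hcon
    push Not at hcon
    have hev : ∀ᶠ n in Filter.atTop, ∀ p ∈ F, im (phi Θ h n) p.1 <+: im (phi Θ h n) p.2 := by
      rw [Filter.eventually_all_finite hFfin]
      intro p hp
      obtain ⟨n, hn⟩ := hcon p hp
      rw [hF] at hp
      obtain ⟨⟨m1, m2, a1, a2, a3, a4, a5⟩, a6⟩ := hp
      filter_upwards [Filter.eventually_ge_atTop n] with N hN
      refine gc_mono hconj hval ?_ (hT _ a6).2 hn hN
      rw [a5]
      exact hlet _ _
    obtain ⟨n, hn⟩ := hev.exists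
    obtain ⟨m1, m2, a1, a2, a3, a4, x, a5, a6⟩ := gc_step1 hv (hpos n) (hIm n) hnc T hT0 hocc
    apply a6
    exact hn (win v (m1 + l) (m2 - (m1 + l)), x) (by
      rw [hF]
      exact ⟨⟨m1, m2, a1, a2, a3, a4, rfl⟩, a5⟩)
  obtain ⟨⟨z, x⟩, hzx, hbad⟩ := hex
  rw [hF] at hzx
  obtain ⟨⟨m1, m2, a1, a2, a3, a4, a5⟩, a6⟩ := hzx
  have hz : z = win v (m1 + l) (m2 - (m1 + l)) := a5
  have hTx : T x := a6
  have hbad' : ∀ n, ¬ (im (phi Θ h n) z <+: im (phi Θ h n) x) := hbad
  have hzlen : z.length = m2 - (m1 + l) := by rw [hz, win_length]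
  have hzK : z.length < K := by rw [hzlen]; exact hshort m1 m2 a1 a2 a3 a4
  have hxlen := (hT x hTx).1
  have hnp : ¬ (z <+: x) := fun hp => hbad' 0 (im_prefix _ hp)
  have hdiff : ∃ t, t < z.length ∧ z.getD t 0 ≠ x.getD t 0 := by
    by_contra hcon
    push Not at hcon
    apply hnp
    rw [List.prefix_iff_eq_take]
    apply List.ext_getElem
    · rw [List.length_take]; omega
    · intro t h3 h4
      have h5 := hcon t h3
      rw [List.getElem_take]
      rw [List.getD_eq_getElem _ _ h3, List.getD_eq_getElem _ _ (by omega)] at h5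
      exact h5
  obtain ⟨j, hj⟩ : ∃ j, j = Nat.find hdiff := ⟨_, rfl⟩
  have hjs : j < z.length ∧ z.getD j 0 ≠ x.getD j 0 := by rw [hj]; exact Nat.find_spec hdiff
  have hjm : ∀ t, t < j → z.getD t 0 = x.getD t 0 := by
    intro t ht
    by_contra hne
    rw [hj] at ht
    refine Nat.find_min hdiff ht ⟨?_, hne⟩
    rw [← hj] at ht
    omega
  have htk : z.take j = x.take j := by
    apply List.ext_getElem
    · rw [List.length_take, List.length_take]; omega
    · intro t h3 h4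
      rw [List.length_take] at h3 h4
      have h5 := hjm t (by omega)
      rw [List.getElem_take, List.getElem_take]
      rw [List.getD_eq_getElem _ _ (by omega), List.getD_eq_getElem _ _ (by omega)] at h5
      exact h5
  have hKpos : 0 < K := by omega
  -- the tails
  have hhead : (z.drop j).head? ≠ ((x.drop j).take K).head? := by
    have hjl : j < z.length := hjs.1
    have e1 : (z.drop j).head? = some (z.getD j 0) := by
      rw [List.head?_drop, List.getElem?_eq_getElem hjl, List.getD_eq_getElem _ _ hjl]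
    have e2 : ((x.drop j).take K).head? = some (x.getD j 0) := by
      rw [List.head?_take, if_neg (by omega), List.head?_drop,
        List.getElem?_eq_getElem (by omega), List.getD_eq_getElem _ _ (by omega)]
    rw [e1, e2]
    intro h3
    exact hjs.2 (Option.some.inj h3)
  have hmem := hInv2 (z.drop j) ((x.drop j).take K)
    (fun c hc => by
      have := List.mem_of_mem_drop hc
      rw [hz] at this
      exact hlet _ _ c this)
    (fun c hc => (hT x hTx).2 c (List.mem_of_mem_drop (List.mem_of_mem_take hc)))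
    (fun h3 => by
      have := congrArg List.length h3
      rw [List.length_drop, List.length_nil] at this
      omega)
    (by rw [List.length_drop]; omega)
    (by rw [List.length_take, List.length_drop]; omega)
    hhead
    (by
      intro n hp
      apply hbad' n
      have e1 : im (phi Θ h n) z = im (phi Θ h n) (x.take j) ++ im (phi Θ h n) (z.drop j) := by
        rw [← htk, ← im_append, List.take_append_drop]
      have e2 : im (phi Θ h n) x = im (phi Θ h n) (x.take j) ++ im (phi Θ h n) (x.drop j) := by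
        rw [← im_append, List.take_append_drop]
      rw [e1, e2]
      exact (List.prefix_append_right_inj _).2 (hp.trans (im_prefix _ (List.take_prefix _ _))))
  apply hgap
  refine ⟨m1, m2, a1, a2, a3, a4, Or.inr ⟨x, hTx, j, by omega, ?_, ?_⟩⟩
  · rw [← htk, hz, take_win _ _ _ _ (by omega)]
  · have e1 : win v (m1 + l + j) (m2 - (m1 + l + j)) = z.drop j := by
      rw [hz, drop_win]
      congr 1
      omega
    rw [e1]
    exact hmem

end Pool.Agent.Helper180.QPM
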