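import Mathlib
import Pool.Agent.Helper180.QPM.Base
import Pool.Agent.Helper180.QPM.JMarked

set_option autoImplicit false

namespace Pool.Agent.Helper180.QPM


theorem marked_of_sync {w : ℕ → ℕ} {g : ℕ → List ℕ} {L : ℕ} {Θ h : List (List ℕ)} {v : ℕ → ℕ}
    (hc : Coding w g L Θ h v) (hg : IsIm g w w) (hL : 1 ≤ L) (hLg : L ≤ cut g w L)
    (hsync : Sync w g L (cut g w L))
    (hinj : ∀ b < Θ.length, ∀ c < Θ.length, im g (mor Θ b) = im g (mor Θ c) → b = c) :
    ∃ r S, Marked Θ.length (mor h) r S := by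
  classical
  have hposΘ : ∀ i, 1 ≤ (mor Θ (v i)).length := fun i => hc.mΘ.pos _ (hc.vlt i)
  have hposH : ∀ i, 1 ≤ (mor h (v i)).length := fun i => hc.posh _ (hc.vlt i)
  have hoSM : StrictMono (cut (mor Θ) v) := cut_strictMono hposΘ
  have hhSM : StrictMono (cut (mor h) v) := cut_strictMono hposH
  -- (1)
  have h1 : ∀ i, cut (mor Θ) v (cut (mor h) v i) = cut g w (cut (mor Θ) v i) := by
    intro i
    rw [← cut_comp hc.imh, ← cut_comp hc.imΘ]
    unfold cut
    congr 1
    apply im_congr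
    intro c hcm
    obtain ⟨t, _, rfl⟩ := (mem_win v).1 hcm
    exact (hc.conj _ (hc.vlt _)).symm
  have hoL : ∀ i, win w (cut (mor Θ) v i) L = win w 0 L := fun i => (hc.occ _).2 ⟨i, rfl⟩
  -- (2)
  have h2 : ∀ i, win w (cut (mor Θ) v (cut (mor h) v i)) (cut g w L) = win w 0 (cut g w L) := by
    intro i
    have e1 := hg.imWin (cut (mor Θ) v i) L
    rw [hoL i] at e1
    have e2 := hg L
    rw [e2] at e1
    rw [h1]
    simpa using e1.symm
  have h2' : ∀ j, win w j (cut g w L) = win w 0 (cut g w L) →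
      ∃ i, j = cut (mor Θ) v (cut (mor h) v i) := by
    intro j hj
    obtain ⟨j0, hj0, rfl⟩ := hsync j hj
    obtain ⟨i, rfl⟩ := (hc.occ _).1 hj0
    exact ⟨i, (h1 i).symm⟩
  -- q
  obtain ⟨q, hq, hq1⟩ : ∃ q, cut (mor Θ) v q + L ≤ cut g w L ∧
      cut g w L < cut (mor Θ) v (q + 1) + L := by
    have hex : ∃ q, cut g w L < cut (mor Θ) v q + L := by
      obtain ⟨n, hn⟩ := cut_unbounded hposΘ (cut g w L)
      exact ⟨n, by omega⟩
    have hs := Nat.find_spec hex
    have h0 : Nat.find hex ≠ 0 := by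
      intro h0
      rw [h0, cut_zero] at hs
      omega
    obtain ⟨q, hq⟩ := Nat.exists_eq_succ_of_ne_zero h0
    refine ⟨q, ?_, ?_⟩
    · have := Nat.find_min hex (m := q) (by omega)
      omega
    · rw [hq] at hs; exact hs
  obtain ⟨Y, hY⟩ : ∃ Y, Y = win v 0 q := ⟨_, rfl⟩
  have hYlen : Y.length = q := by rw [hY, win_length]
  obtain ⟨D, hD⟩ : ∃ D, cut g w L = cut (mor Θ) v q + D := Nat.exists_eq_add_of_le (by omega)
  obtain ⟨P, hP⟩ : ∃ P, P = win w (cut (mor Θ) v q) D := ⟨_, rfl⟩
  have hsplit : win w 0 (cut g w L) = win w 0 (cut (mor Θ) v q) ++ P := by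
    rw [hD, win_add, Nat.zero_add, hP]
  obtain ⟨S, hS⟩ : ∃ S : List (List ℕ), ∀ s, s ∈ S ↔ ∃ c < Θ.length,
      P <+: mor Θ c ++ win w 0 L ∧ Y ++ [c] = s := by
    refine ⟨((List.range Θ.length).filter (fun c => decide (P <+: mor Θ c ++ win w 0 L))).map
      (fun c => Y ++ [c]), fun s => ?_⟩
    rw [List.mem_map]
    constructor
    · rintro ⟨c, hcm, rfl⟩
      rw [List.mem_filter, List.mem_range] at hcm
      exact ⟨c, hcm.1, by simpa using hcm.2, rfl⟩
    · rintro ⟨c, hc1, hc2, rfl⟩
      exact ⟨c, List.mem_filter.2 ⟨List.mem_range.2 hc1, by simpa using hc2⟩, rfl⟩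
  -- w at a block
  have hread : ∀ i, win w (cut (mor Θ) v i) ((mor Θ (v i)).length + L) =
      mor Θ (v i) ++ win w 0 L := by
    intro i
    rw [win_add, ← hc.imΘ.letter i, ← cut_succ, hoL]
  have hcutY : ∀ i, win v i q = Y → cut (mor Θ) v (i + q) = cut (mor Θ) v i + cut (mor Θ) v q := by
    intro i hi
    rw [cut_add, hi, hY]
    rfl
  -- claim
  have hcl1 : ∀ i, win v i (q + 1) ∈ S → ∃ i', i = cut (mor h) v i' := by
    intro i hi
    obtain ⟨c, hck, hpre, hYc⟩ := (hS _).1 hi
    rw [win_succ] at hYc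
    have hYi : win v i q = Y ∧ v (i + q) = c := by
      have := List.append_inj hYc (by rw [hYlen, win_length])
      exact ⟨this.1.symm, by simpa using this.2.symm⟩
    obtain ⟨hYi, hci⟩ := hYi
    have e1 := hcutY i hYi
    have e2 : win w (cut (mor Θ) v i) (cut (mor Θ) v q) = win w 0 (cut (mor Θ) v q) := by
      have e3 := hc.imΘ.imWin i q
      rw [hYi, hY, hc.imΘ q] at e3
      simpa using e3.symm
    have e4 : win w (cut (mor Θ) v i + cut (mor Θ) v q) D = P := by
      have e5 := hread (i + q)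
      rw [hci, e1] at e5
      rw [← e5, prefix_win_iff] at hpre
      have hPl : P.length = D := by rw [hP, win_length]
      rw [hPl] at hpre
      exact hpre.2.symm
    have e6 : win w (cut (mor Θ) v i) (cut g w L) = win w 0 (cut g w L) := by
      rw [hsplit, hD, win_add, e2, e4]
    obtain ⟨i', hi'⟩ := h2' _ e6
    exact ⟨i', hoSM.injective hi'⟩
  have hcl0 : ∀ i', win v (cut (mor h) v i') q = Y := by
    intro i'
    have e1 := h2 i'
    have e2 := hc.mΘ.decode (x := v) (y := w) (x' := sh v (cut (mor h) v i'))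
      (y' := sh w (cut (mor Θ) v (cut (mor h) v i'))) hc.vlt hc.imΘ
      (fun i => hc.vlt _) (hc.imΘ.shift _) q (by
        rw [win_sh, Nat.add_zero]
        have e3 := congrArg (List.take (cut (mor Θ) v q + L)) e1
        rw [take_win _ _ _ _ hq, take_win _ _ _ _ hq] at e3
        exact e3.symm)
    rw [win_sh, Nat.add_zero] at e2
    rw [hY, e2]
  have hcl2 : ∀ i', win v (cut (mor h) v i') (q + 1) ∈ S := by
    intro i'
    obtain ⟨i, hi⟩ : ∃ i, cut (mor h) v i' = i := ⟨_, rfl⟩
    have hYi := hcl0 i'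
    have e1 := h2 i'
    rw [hi] at hYi e1 ⊢
    refine (hS _).2 ⟨v (i + q), hc.vlt _, ?_, ?_⟩
    swap
    · rw [win_succ, hYi]
    have e2 := hcutY i hYi
    have e3 : win w (cut (mor Θ) v i + cut (mor Θ) v q) D = P := by
      have e4 := congrArg (List.drop (cut (mor Θ) v q)) e1
      rw [hsplit, List.drop_left' (by simp), drop_win, hD, Nat.add_sub_cancel_left] at e4
      exact e4
    have e5 := hread (i + q)
    rw [e2] at e5
    rcases le_or_gt D ((mor Θ (v (i + q))).length + L) with hle | hlt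
    · rw [← e5, ← e3]
      exact win_prefix _ _ _ _ hle
    · exfalso
      -- p occurs strictly inside the block at q
      have e6 : win w (cut (mor Θ) v q + (mor Θ (v (i + q))).length) L = win w 0 L := by
        have e7 : win w (cut (mor Θ) v q) ((mor Θ (v (i + q))).length + L) =
            win w (cut (mor Θ) v i + cut (mor Θ) v q) ((mor Θ (v (i + q))).length + L) := by
          have e8 := congrArg (List.take ((mor Θ (v (i + q))).length + L)) e3
          rw [hP, take_win _ _ _ _ hlt.le, take_win _ _ _ _ hlt.le] at e8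
          exact e8.symm
        rw [e5, win_add] at e7
        exact (List.append_inj e7 (by simp)).2
      obtain ⟨i2, hi2⟩ := (hc.occ _).1 e6
      have e9 := hposΘ (i + q)
      have e10 : q < i2 := hoSM.lt_iff_lt.1 (by omega)
      have e11 : cut (mor Θ) v (q + 1) ≤ cut (mor Θ) v i2 := hoSM.monotone e10
      omega
  have hHY : ∀ i, win v (cut (mor h) v i) ((mor h (v i)).length + q) = mor h (v i) ++ Y := by
    intro i
    rw [win_add, ← hc.imh.letter i, ← cut_succ, hcl0]
  have hdrop : ∀ i, ∀ c, ∀ j, j < (mor h (v i)).length →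
      ((mor h (v i) ++ (Y ++ [c])).drop j).take (q + 1) = win v (cut (mor h) v i + j) (q + 1) := by
    intro i c j hj
    rw [← List.append_assoc, ← hHY i, List.drop_append_of_le_length (by simp; omega),
      List.take_append_of_le_length (by simp; omega), drop_win, take_win _ _ _ _ (by omega)]
  refine ⟨q + 1, S, ?_⟩
  constructor
  · intro h0
    have := hcl2 0
    rw [h0] at this
    simp at this
  · intro s hs
    obtain ⟨c, _, _, rfl⟩ := (hS _).1 hs
    simp [hYlen]
  · exact hc.posh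
  · intro b hb s hs
    obtain ⟨c, _, _, rfl⟩ := (hS _).1 hs
    obtain ⟨i, rfl⟩ := hc.onto b hb
    have e1 := hdrop i c 0 (hposH i)
    rw [List.drop_zero, Nat.add_zero] at e1
    rw [e1]
    exact hcl2 i
  · intro b hb s hs j hj hj0 hmem
    obtain ⟨c, _, _, rfl⟩ := (hS _).1 hs
    obtain ⟨i, rfl⟩ := hc.onto b hb
    rw [hdrop i c j hj] at hmem
    obtain ⟨i', hi'⟩ := hcl1 _ hmem
    have e1 : i < i' := hhSM.lt_iff_lt.1 (by omega)
    have e2 : cut (mor h) v (i + 1) ≤ cut (mor h) v i' := hhSM.monotone e1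
    rw [cut_succ] at e2
    omega
  · intro b hb c hc' hbc
    apply hinj b hb c hc'
    rw [hc.conj b hb, hc.conj c hc', hbc]

end Pool.Agent.Helper180.QPM
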