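import Mathlib
import Pool.Agent.Helper180.QPM.Base
import Pool.Agent.Helper180.QPM.JBasic2

set_option autoImplicit false

namespace Pool.Agent.Helper180.QPM


theorem pb_fa {f : ℕ → List ℕ} {w : ℕ → ℕ} {a kA : ℕ} (hw : Ctx f w a kA) :
    ∃ s, f a = a :: s := by
  obtain ⟨n, hn⟩ := hw.grow 1
  have hne : f a ≠ [] := by
    intro h
    cases n with
    | zero => simp [it_zero] at hn
    | succ n =>
      rw [it_succ', h] at hn
      simp at hn
  have h1 := hw.fix.letter 0
  rw [hw.w0] at h1
  obtain ⟨b, s, hbs⟩ := List.exists_cons_of_ne_nil hne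
  refine ⟨s, ?_⟩
  have hlen : (f a).length = s.length + 1 := by rw [hbs]; simp
  rw [hlen, cut_zero, win_succ', hw.w0, hbs, List.cons.injEq] at h1
  rw [hbs, h1.1]

theorem pb_L_mono {f : ℕ → List ℕ} {w : ℕ → ℕ} {a kA : ℕ} (hw : Ctx f w a kA) (n : ℕ) :
    (it f n a).length ≤ (it f (n + 1) a).length := by
  obtain ⟨s, hs⟩ := pb_fa hw
  rw [it_succ', hs, im_cons, List.length_append]
  omega

theorem pb_L_pos {f : ℕ → List ℕ} {w : ℕ → ℕ} {a kA : ℕ} (hw : Ctx f w a kA) (n : ℕ) :
    1 ≤ (it f n a).length := by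
  induction n with
  | zero => simp [it_zero]
  | succ n ih => exact le_trans ih (pb_L_mono hw n)

theorem pb_im_mem (φ : ℕ → List ℕ) {a : ℕ} {L : List ℕ} (h : a ∈ L) :
    (φ a).length ≤ (im φ L).length := by
  obtain ⟨s, t, rfl⟩ := List.append_of_mem h
  rw [im_append, im_cons, List.length_append, List.length_append]
  omega

theorem pb_cut_le {φ : ℕ → List ℕ} {w : ℕ → ℕ} {B : ℕ} (h : ∀ i, (φ (w i)).length ≤ B)
    (m : ℕ) : cut φ w m ≤ m * B := by
  induction m with
  | zero => simp
  | succ m ih =>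
    rw [cut_succ, Nat.succ_mul]
    have := h m
    omega

/-- linear recurrence -/
theorem pb_rec {f : ℕ → List ℕ} {w : ℕ → ℕ} {a kA : ℕ} (hw : Ctx f w a kA)
    (hs : Synd a w) : ∃ K1, ∀ r, 1 ≤ r → ∀ i, ∃ i2, i2 < K1 * r ∧
      win w i2 (r + 1) = win w i (r + 1) := by
  obtain ⟨C, hC⟩ := mu_bound hw
  obtain ⟨g, hg⟩ := hs
  obtain ⟨N0, hN0⟩ := factors_finite hw.alph (g + 1)
  have hW : ∀ i, (f (w i)).length ≤ C * (f a).length := by
    intro i
    have := hC 1 i
    rwa [it_one, it_one] at this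
  refine ⟨N0 * (C * (C * (f a).length)), ?_⟩
  intro r hr i
  classical
  have hex : ∃ n, r + 1 ≤ (it f n a).length := hw.grow r
  obtain ⟨n, hn⟩ : ∃ n, n = Nat.find hex := ⟨_, rfl⟩
  have hn1 : r + 1 ≤ (it f n a).length := by
    rw [hn]
    exact Nat.find_spec hex
  have hn0 : n ≠ 0 := by
    intro h
    rw [h, it_zero] at hn1
    simp at hn1
    omega
  obtain ⟨m, rfl⟩ := Nat.exists_eq_succ_of_ne_zero hn0
  change r + 1 ≤ (it f (m + 1) a).length at hn1
  have hm : (it f m a).length ≤ r := by
    by_contra hcon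
    have := Nat.find_min' hex (show r + 1 ≤ (it f m a).length by omega)
    omega
  have hLW : (it f (m + 1) a).length ≤ C * (f a).length * r := by
    have h1 : it f m a = win w 0 (it f m a).length := by
      have h2 := (hw.fix.iter m).letter 0
      rwa [hw.w0, cut_zero] at h2
    have h3 : it f (m + 1) a = im f (win w 0 (it f m a).length) := by
      rw [it_succ, ← h1]
    have h4 : (it f (m + 1) a).length = cut f w (it f m a).length := by
      rw [h3]
      rfl
    rw [h4]
    refine le_trans (pb_cut_le hW _) ?_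
    rw [mul_comm]
    exact Nat.mul_le_mul_left _ hm
  have hiter := hw.fix.iter (m + 1)
  have hgap : ∀ j, cut (it f (m + 1)) w j + (it f (m + 1) a).length ≤
      cut (it f (m + 1)) w (j + g) := by
    intro j
    rw [cut_add]
    obtain ⟨t, ht, hta⟩ := hg j
    have := pb_im_mem (it f (m + 1)) (a := a) (L := win w j g) ((mem_win w).2 ⟨t, ht, hta⟩)
    omega
  have hunb : ∀ N, ∃ n, N < cut (it f (m + 1)) w n := by
    intro N
    induction N with
    | zero =>
      have h1 := hgap 0
      have h2 := pb_L_pos hw (m + 1)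
      exact ⟨0 + g, by omega⟩
    | succ N ih =>
      obtain ⟨n, hn⟩ := ih
      have h1 := hgap n
      have h2 := pb_L_pos hw (m + 1)
      exact ⟨n + g, by omega⟩
  obtain ⟨i', hi1, hi2⟩ := exists_block hunb i
  obtain ⟨j', hj1, hj2⟩ := hN0 i'
  have himi := hiter.imWin i' (g + 1)
  have himj := hiter.imWin j' (g + 1)
  rw [hj2] at himj
  have hMlen : cut (it f (m + 1)) w (i' + (g + 1)) = cut (it f (m + 1)) w i' +
      (im (it f (m + 1)) (win w i' (g + 1))).length := cut_add _ _ _ _
  have hagree := win_eq_iff.1 (himi.symm.trans himj)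
  have hgap' := hgap (i' + 1)
  have e1 : i' + 1 + g = i' + (g + 1) := by omega
  rw [e1] at hgap'
  refine ⟨cut (it f (m + 1)) w j' + (i - cut (it f (m + 1)) w i'), ?_, ?_⟩
  · have h1 : w j' = w i' := by
      have := win_eq_iff.1 hj2 0 (by omega)
      simpa using this
    have h2 : cut (it f (m + 1)) w (j' + 1) = cut (it f (m + 1)) w j' +
        (it f (m + 1) (w j')).length := cut_succ _ _ _
    have h3 : cut (it f (m + 1)) w (i' + 1) = cut (it f (m + 1)) w i' +
        (it f (m + 1) (w i')).length := cut_succ _ _ _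
    rw [h1] at h2
    have h4 : cut (it f (m + 1)) w (j' + 1) ≤ cut (it f (m + 1)) w N0 := cut_mono _ _ hj1
    have h5 : cut (it f (m + 1)) w N0 ≤ N0 * (C * (it f (m + 1) a).length) :=
      pb_cut_le (hC (m + 1)) N0
    have h6 : N0 * (C * (it f (m + 1) a).length) ≤ N0 * (C * (C * (f a).length)) * r := by
      calc N0 * (C * (it f (m + 1) a).length) ≤ N0 * (C * (C * (f a).length * r)) :=
            Nat.mul_le_mul_left _ (Nat.mul_le_mul_left _ hLW)
        _ = N0 * (C * (C * (f a).length)) * r := by ring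
    omega
  · rw [win_eq_iff]
    intro t ht
    have h1 := hagree (i - cut (it f (m + 1)) w i' + t) (by omega)
    have e2 : cut (it f (m + 1)) w i' + (i - cut (it f (m + 1)) w i' + t) = i + t := by omega
    rw [e2] at h1
    rw [h1]
    congr 1
    omega

theorem power_bound {f : ℕ → List ℕ} {w : ℕ → ℕ} {a kA : ℕ} (hw : Ctx f w a kA)
    (hs : Synd a w) (hq : ¬ QP w) : ∃ K', ∀ l j r, 1 ≤ r → win w j l = win w 0 l →
      win w (j + r) l = win w 0 l → l ≤ K' * r := by
  obtain ⟨K1, hK1⟩ := pb_rec hw hs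
  refine ⟨K1 + 1, ?_⟩
  intro l j r hr h1 h2
  by_contra hcon
  push Not at hcon
  apply hq
  rw [win_eq_iff] at h1 h2
  have hloc : ∀ t, t + r < l → w t = w (t + r) := by
    intro t ht
    have e1 := h2 t (by omega)
    have e2 := h1 (r + t) (by omega)
    rw [Nat.zero_add] at e1 e2
    rw [← e1, Nat.add_comm t r, ← e2]
    congr 1
    omega
  have hper : ∀ i, w (i + r) = w i := by
    intro i
    obtain ⟨i2, hi2, hwin⟩ := hK1 r hr i
    rw [win_eq_iff] at hwin
    have e1 := hwin 0 (by omega)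
    have e2 := hwin r (by omega)
    have e3 : i2 + r < l := by
      rw [Nat.succ_mul] at hcon
      omega
    have e4 := hloc i2 e3
    simp only [Nat.add_zero] at e1
    rw [← e2, ← e1, e4]
  have hper2 : ∀ q t, w (q * r + t) = w t := by
    intro q t
    induction q with
    | zero => simp
    | succ q ih =>
      rw [Nat.succ_mul]
      have : q * r + r + t = q * r + t + r := by ring
      rw [this, hper, ih]
  refine ⟨r, fun i => ⟨i / r * r, Nat.div_mul_le_self i r, ?_, ?_⟩⟩
  · have h3 := Nat.div_add_mod i r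
    have h4 := Nat.mod_lt i (show 0 < r by omega)
    rw [Nat.mul_comm] at h3
    omega
  · rw [win_eq_iff]
    intro t _
    rw [hper2, Nat.zero_add]

end Pool.Agent.Helper180.QPM
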