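import Mathlib
import Pool.Agent.Helper180.QPM.Base
import Pool.Agent.Helper180.QPM.JBasic2
import Pool.Agent.Helper180.QPM.JPower

set_option autoImplicit false

namespace Pool.Agent.Helper180.QPM


section syncaux

variable {f : ℕ → List ℕ} {w : ℕ → ℕ} {a kA : ℕ}

theorem aux_f_pos (hw : Ctx f w a kA) : 1 ≤ (f a).length := by
  by_contra hcon
  have h0 : f a = [] := List.length_eq_zero_iff.1 (by omega)
  obtain ⟨n, hn⟩ := hw.grow 1
  cases n with
  | zero => simp [it_zero] at hn
  | succ n =>
    rw [it_succ', h0] at hn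
    simp at hn

theorem aux_prefix (hw : Ctx f w a kA) (n : ℕ) :
    it f n a = win w 0 (it f n a).length := by
  have h := (hw.fix.iter n).letter 0
  rw [hw.w0] at h
  simpa using h

theorem aux_L_pos (hw : Ctx f w a kA) (n : ℕ) : 1 ≤ (it f n a).length := by
  induction n with
  | zero => simp [it_zero]
  | succ n ih =>
    rw [it_succ, aux_prefix hw n]
    obtain ⟨k, hk⟩ := Nat.exists_eq_add_of_le ih
    rw [hk, Nat.add_comm 1 k, win_succ', im_cons, hw.w0, List.length_append]
    have := aux_f_pos hw
    omega

theorem aux_cut_succ (hw : Ctx f w a kA) (n i : ℕ) :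
    cut f w (cut (it f n) w i) = cut (it f (n + 1)) w i := by
  have h := cut_it_add hw.fix 1 n i
  have h1 : it f 1 = f := by
    funext c
    exact it_one f c
  rw [Nat.add_comm 1 n, h1] at h
  exact h.symm

theorem aux_step (hw : Ctx f w a kA) (n j : ℕ)
    (h : win w j (it f n a).length = win w 0 (it f n a).length) :
    win w (cut f w j) (it f (n + 1) a).length = win w 0 (it f (n + 1) a).length := by
  have h1 := hw.fix.imWin j (it f n a).length
  rw [h, ← aux_prefix hw n, ← it_succ] at h1
  rw [← h1]
  exact aux_prefix hw (n + 1)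

theorem aux_letter (hw : Ctx f w a kA) (n j : ℕ)
    (h : win w j (it f n a).length = win w 0 (it f n a).length) : w j = a := by
  have h1 := win_eq_iff.1 h 0 (aux_L_pos hw n)
  simpa [hw.w0] using h1

theorem aux_strict (hw : Ctx f w a kA) (n j j' : ℕ)
    (h : win w j (it f n a).length = win w 0 (it f n a).length) (hj : j < j') :
    cut f w j < cut f w j' := by
  have h1 : cut f w (j + 1) ≤ cut f w j' := cut_mono f w hj
  rw [cut_succ, aux_letter hw n j h] at h1
  have := aux_f_pos hw
  omega

theorem aux_max (s : ℕ → ℕ) : ∀ B, (∀ n, s n ≤ B) → ∃ n0, ∀ n, s n ≤ s n0 := by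
  intro B
  induction B with
  | zero => 
    intro h
    exact ⟨0, fun n => by have := h n; omega⟩
  | succ B ih =>
    intro h
    by_cases hex : ∃ n, s n = B + 1
    · obtain ⟨n, hn⟩ := hex
      exact ⟨n, fun m => by rw [hn]; exact h m⟩
    · push Not at hex
      exact ih (fun n => by have h1 := h n; have h2 := hex n; omega)

theorem aux_unbounded (hw : Ctx f w a kA) (hs : Synd a w) (n N : ℕ) :
    ∃ m, N < cut (it f n) w m := by
  obtain ⟨g, hg⟩ := hs
  induction N with
  | zero =>
    obtain ⟨t, _, ht⟩ := hg 0
    refine ⟨0 + t + 1, ?_⟩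
    rw [cut_succ, ht]
    have := aux_L_pos hw n
    omega
  | succ N ih =>
    obtain ⟨m, hm⟩ := ih
    obtain ⟨t, _, ht⟩ := hg m
    refine ⟨m + t + 1, ?_⟩
    rw [cut_succ, ht]
    have h1 := aux_L_pos hw n
    have h2 := cut_mono (it f n) w (show m ≤ m + t by omega)
    omega

/-- transfer between two positions with the same window of length `g+1` -/
theorem aux_transfer (hw : Ctx f w a kA) {g : ℕ} (hg : ∀ i, ∃ t, t < g ∧ w (i + t) = a)
    (n i i2 : ℕ) (h : win w i2 (g + 1) = win w i (g + 1)) :
    ∀ t, t < (it f n (w i)).length + (it f n a).length →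
      w (cut (it f n) w i2 + t) = w (cut (it f n) w i + t) := by
  have h1 := (hw.fix.iter n).imWin i (g + 1)
  have h2 := (hw.fix.iter n).imWin i2 (g + 1)
  rw [h] at h2
  have h3 : win w (cut (it f n) w i2) (im (it f n) (win w i (g + 1))).length =
      win w (cut (it f n) w i) (im (it f n) (win w i (g + 1))).length := by
    rw [← h1, ← h2]
  have h4 := win_eq_iff.1 h3
  intro t ht
  apply h4
  refine lt_of_lt_of_le ht ?_
  rw [win_succ', im_cons, List.length_append]
  apply Nat.add_le_add_left
  obtain ⟨t0, ht0, ht1⟩ := hg (i + 1)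
  obtain ⟨k, hk⟩ := Nat.exists_eq_add_of_lt ht0
  have h5 : win w (i + 1) g = win w (i + 1) t0 ++ (a :: win w (i + 1 + t0 + 1) k) := by
    have h6 : g = t0 + (k + 1) := by omega
    rw [h6, win_add, win_succ', ht1]
  rw [h5, im_append, im_cons, List.length_append, List.length_append]
  omega

end syncaux

theorem sync {f : ℕ → List ℕ} {w : ℕ → ℕ} {a kA : ℕ} (hw : Ctx f w a kA)
    (hs : Synd a w) (hq : ¬ QP w) :
    ∃ n0, ∀ n ≥ n0, Sync w f (it f n a).length (it f (n + 1) a).length := by
  classical
  obtain ⟨C, hC⟩ := mu_bound hw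
  obtain ⟨K', hK'⟩ := power_bound hw hs hq
  have hs' := hs
  obtain ⟨g, hg⟩ := hs
  obtain ⟨N1, hN1⟩ := factors_finite hw.alph (g + 1)
  -- the occurrences inside a block
  let O : ℕ → ℕ → Prop := fun n j => win w j (it f n a).length = win w 0 (it f n a).length
  let B : ℕ → ℕ → Finset ℕ := fun n i =>
    (Finset.Ico (cut (it f n) w i) (cut (it f n) w (i + 1))).filter (O n)
  have hmemB : ∀ n i j, j ∈ B n i ↔
      (cut (it f n) w i ≤ j ∧ j < cut (it f n) w (i + 1)) ∧ O n j := by
    intro n i j
    simp only [B, Finset.mem_filter, Finset.mem_Ico]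
  have hbound : ∀ n i, (B n i).card ≤ K' * C + 1 := by
    intro n i
    have hL := aux_L_pos hw n
    have h1 : (B n i).card ≤ (Finset.range (K' * C + 1)).card := by
      apply Finset.card_le_card_of_injOn
        (fun j => K' * (j - cut (it f n) w i) / (it f n a).length)
      · intro j hj
        have hj' := (hmemB n i j).1 (by simpa using hj)
        simp only [Finset.coe_range, Set.mem_Iio]
        have h2 := hj'.1.2
        rw [cut_succ] at h2
        have h3 := hC n i
        have h4 : K' * (j - cut (it f n) w i) ≤ K' * C * (it f n a).length := by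
          rw [Nat.mul_assoc]
          apply Nat.mul_le_mul_left
          omega
        have h5 := Nat.div_le_div_right (c := (it f n a).length) h4
        rw [Nat.mul_div_cancel _ hL] at h5
        omega
      · have key : ∀ j j', j ∈ B n i → j' ∈ B n i → j < j' →
            K' * (j - cut (it f n) w i) / (it f n a).length ≠
            K' * (j' - cut (it f n) w i) / (it f n a).length := by
          intro j j' hj hj' hlt
          have h2 := (hmemB n i j).1 hj
          have h3 := (hmemB n i j').1 hj'
          obtain ⟨r, hr⟩ := Nat.exists_eq_add_of_lt hlt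
          have h4 := hK' (it f n a).length j (r + 1) (by omega) h2.2 (by
            have := h3.2
            rw [hr] at this
            exact this)
          have h5 : K' * (j - cut (it f n) w i) + (it f n a).length ≤
              K' * (j' - cut (it f n) w i) := by
            have h6 : j' - cut (it f n) w i = (j - cut (it f n) w i) + (r + 1) := by
              have := h2.1.1
              omega
            rw [h6, Nat.mul_add]
            omega
          have h7 := Nat.div_le_div_right (c := (it f n a).length) h5
          rw [Nat.add_div_right _ hL] at h7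
          omega
        intro j hj j' hj' heq
        have hj := (Finset.mem_coe.1 hj)
        have hj' := (Finset.mem_coe.1 hj')
        by_contra hne
        rcases lt_or_gt_of_ne hne with h | h
        · exact key j j' hj hj' h heq
        · exact key j' j hj' hj h heq.symm
    simpa using h1
  have himg : ∀ n i, (B n i).image (cut f w) ⊆ B (n + 1) i := by
    intro n i j hj
    rw [Finset.mem_image] at hj
    obtain ⟨j0, hj0, rfl⟩ := hj
    have h1 := (hmemB n i j0).1 hj0
    rw [hmemB]
    refine ⟨⟨?_, ?_⟩, aux_step hw n j0 h1.2⟩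
    · rw [← aux_cut_succ hw]
      exact cut_mono f w h1.1.1
    · rw [← aux_cut_succ hw]
      exact aux_strict hw n j0 _ h1.2 h1.1.2
  have hinj : ∀ n i, Set.InjOn (cut f w) (B n i : Set ℕ) := by
    intro n i j hj j' hj' heq
    have h1 := (hmemB n i j).1 (Finset.mem_coe.1 hj)
    have h2 := (hmemB n i j').1 (Finset.mem_coe.1 hj')
    by_contra hne
    rcases lt_or_gt_of_ne hne with h | h
    · have := aux_strict hw n j j' h1.2 h
      omega
    · have := aux_strict hw n j' j h2.2 h
      omega
  have hcard : ∀ n i, ((B n i).image (cut f w)).card = (B n i).card := by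
    intro n i
    exact Finset.card_image_of_injOn (hinj n i)
  have hmono : ∀ n i, (B n i).card ≤ (B (n + 1) i).card := by
    intro n i
    rw [← hcard]
    exact Finset.card_le_card (himg n i)
  -- the sum stabilises
  obtain ⟨n0, hn0⟩ := aux_max (fun n => ∑ i ∈ Finset.range N1, (B n i).card)
    (N1 * (K' * C + 1)) (by
      intro n
      calc ∑ i ∈ Finset.range N1, (B n i).card ≤ ∑ _i ∈ Finset.range N1, (K' * C + 1) :=
            Finset.sum_le_sum (fun i _ => hbound n i)
        _ = N1 * (K' * C + 1) := by simp)
  have hsmono : Monotone (fun n => ∑ i ∈ Finset.range N1, (B n i).card) :=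
    monotone_nat_of_le_succ (fun n => Finset.sum_le_sum (fun i _ => hmono n i))
  have hsurj : ∀ n ≥ n0, ∀ i < N1, (B n i).image (cut f w) = B (n + 1) i := by
    intro n hn i hi
    apply Finset.eq_of_subset_of_card_le (himg n i)
    rw [hcard]
    have h1 : ∑ i ∈ Finset.range N1, (B n i).card = ∑ i ∈ Finset.range N1, (B (n + 1) i).card := by
      apply le_antisymm
      · exact hsmono (Nat.le_succ n)
      · exact le_trans (hn0 (n + 1)) (hsmono hn)
    have h2 := (Finset.sum_eq_sum_iff_of_le (fun i _ => hmono n i)).1 h1 i (Finset.mem_range.2 hi)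
    omega
  refine ⟨n0, fun n hn j hj => ?_⟩
  obtain ⟨i, hi1, hi2⟩ := exists_block (aux_unbounded hw hs' (n + 1)) j
  obtain ⟨i2, hi2N, hwin⟩ := hN1 i
  have hwi : w i2 = w i := by
    have := win_eq_iff.1 hwin 0 (by omega)
    simpa using this
  obtain ⟨e1, he1⟩ := Nat.exists_eq_add_of_le hi1
  rw [cut_succ] at hi2
  have tr1 := aux_transfer hw hg (n + 1) i i2 hwin
  have tr0 := aux_transfer hw hg n i i2 hwin
  have hmem : cut (it f (n + 1)) w i2 + e1 ∈ B (n + 1) i2 := by
    rw [hmemB]
    refine ⟨⟨by omega, ?_⟩, ?_⟩
    · rw [cut_succ, hwi]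
      omega
    · show win w _ _ = _
      rw [← hj]
      apply win_eq_iff.2
      intro t ht
      rw [he1, Nat.add_assoc, Nat.add_assoc]
      exact tr1 (e1 + t) (by omega)
  rw [← hsurj n hn i2 hi2N, Finset.mem_image] at hmem
  obtain ⟨j3, hj3, hj3'⟩ := hmem
  have h3 := (hmemB n i2 j3).1 hj3
  obtain ⟨e3, he3⟩ := Nat.exists_eq_add_of_le h3.1.1
  have he3lt : e3 < (it f n (w i)).length := by
    have := h3.1.2
    rw [cut_succ, hwi] at this
    omega
  refine ⟨cut (it f n) w i + e3, ?_, ?_⟩
  · have h4 : win w j3 (it f n a).length = win w 0 (it f n a).length := h3.2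
    rw [← h4]
    apply win_eq_iff.2
    intro t ht
    rw [he3, Nat.add_assoc, Nat.add_assoc]
    exact (tr0 (e3 + t) (by omega)).symm
  · have h5 : win w (cut (it f n) w i) e3 = win w (cut (it f n) w i2) e3 := by
      apply win_eq_iff.2
      intro t ht
      exact (tr0 t (by omega)).symm
    rw [cut_add, aux_cut_succ hw, h5, he1]
    rw [he3, cut_add, aux_cut_succ hw] at hj3'
    omega

end Pool.Agent.Helper180.QPM
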