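import Mathlib
import Pool.Agent.Helper180.QPM.Base
import Pool.Agent.Helper180.QPM.JBasic2
import Pool.Agent.Helper180.QPM.JSync

set_option autoImplicit false

namespace Pool.Agent.Helper180.QPM


theorem st_len {f : ℕ → List ℕ} {w : ℕ → ℕ} {a kA : ℕ} (hw : Ctx f w a kA) (n : ℕ) :
    1 ≤ (it f n a).length := by
  have hfa : f a ≠ [] := by
    intro h
    obtain ⟨n, hn⟩ := hw.grow 1
    cases n with
    | zero => simp [it_zero] at hn
    | succ n =>
      rw [it_succ', h] at hn
      simp at hn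
  have h1 := hw.fix.letter 0
  rw [cut_zero, hw.w0] at h1
  obtain ⟨r, hr⟩ : ∃ r, f a = a :: r := by
    cases hfa' : f a with
    | nil => exact absurd hfa' hfa
    | cons b r =>
      rw [hfa', List.length_cons, win_succ', hw.w0] at h1
      exact ⟨r, by rw [(List.cons.inj h1).1]⟩
  induction n with
  | zero => simp [it_zero]
  | succ n ih =>
    rw [it_succ', hr, im_cons, List.length_append]
    omega

theorem st_pre {f : ℕ → List ℕ} {w : ℕ → ℕ} {a kA : ℕ} (hw : Ctx f w a kA) (n : ℕ) :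
    it f n a = win w 0 (it f n a).length := by
  have h1 := (hw.fix.iter n).letter 0
  rw [cut_zero, hw.w0] at h1
  exact h1

theorem st_a {f : ℕ → List ℕ} {w : ℕ → ℕ} {a kA : ℕ} (hw : Ctx f w a kA) {n j : ℕ}
    (hj : win w j (it f n a).length = win w 0 (it f n a).length) : w j = a := by
  have h1 := win_eq_iff.1 hj 0 (st_len hw n)
  rw [Nat.add_zero, Nat.add_zero, hw.w0] at h1
  exact h1

/-- images of occurrences are occurrences -/
theorem st_occ {f : ℕ → List ℕ} {w : ℕ → ℕ} {a kA : ℕ} (hw : Ctx f w a kA) {n j : ℕ} (m : ℕ)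
    (hj : win w j (it f n a).length = win w 0 (it f n a).length) :
    win w (cut (it f m) w j) (it f (n + m) a).length = win w 0 (it f (n + m) a).length := by
  have h1 := (hw.fix.iter m).imWin j (it f n a).length
  rw [hj, ← st_pre hw n, ← it_add, Nat.add_comm m n] at h1
  rw [← h1]
  exact st_pre hw (n + m)

theorem st_lt {f : ℕ → List ℕ} {w : ℕ → ℕ} {a kA : ℕ} (hw : Ctx f w a kA) {n j j' : ℕ} (m : ℕ)
    (hj : win w j (it f n a).length = win w 0 (it f n a).length) (hjj : j < j') :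
    cut (it f m) w j < cut (it f m) w j' := by
  have h1 := cut_succ (it f m) w j
  rw [st_a hw hj] at h1
  have h2 := st_len hw m
  have h3 := cut_mono (it f m) w (Nat.succ_le_of_lt hjj)
  simp only [Nat.succ_eq_add_one] at h3
  omega

theorem st_sync {f : ℕ → List ℕ} {w : ℕ → ℕ} {a kA : ℕ} (hw : Ctx f w a kA) {n0 : ℕ}
    (h : ∀ n ≥ n0, Sync w f (it f n a).length (it f (n + 1) a).length) {n : ℕ} (hn : n0 ≤ n)
    (m : ℕ) : Sync w (it f m) (it f n a).length (it f (n + m) a).length := by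
  induction m with
  | zero =>
    intro j hj
    refine ⟨j, hj, ?_⟩
    unfold cut
    rw [im_it]
    simp
  | succ m ih =>
    intro j hj
    rw [← Nat.add_assoc] at hj
    obtain ⟨j1, hj1, rfl⟩ := h (n + m) (by omega) j hj
    obtain ⟨j0, hj0, rfl⟩ := ih j1 hj1
    refine ⟨j0, hj0, ?_⟩
    have h1 : it f 1 = f := funext fun c => it_one f c
    rw [Nat.add_comm m 1, cut_it_add hw.fix, h1]

theorem st_surj {f : ℕ → List ℕ} {w : ℕ → ℕ} {a kA : ℕ} (hw : Ctx f w a kA) {n m : ℕ}
    (h : Sync w (it f m) (it f n a).length (it f (n + m) a).length) :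
    Ret w (it f (n + m) a).length ⊆ (fun x => im (it f m) x) '' Ret w (it f n a).length := by
  rintro y ⟨i, i', hii, hi, hi', hcons, rfl⟩
  obtain ⟨j, hj, rfl⟩ := h i hi
  obtain ⟨j', hj', rfl⟩ := h i' hi'
  have hjj : j < j' := by
    by_contra hcon
    have := cut_mono (it f m) w (not_lt.1 hcon)
    omega
  refine ⟨win w j (j' - j), ⟨j, j', hjj, hj, hj', ?_, rfl⟩, ?_⟩
  · intro t h1 h2 ht
    exact hcons _ (st_lt hw m hj h1) (st_lt hw m ht h2) (st_occ hw m ht)
  · have h1 := cut_add (it f m) w j (j' - j)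
    rw [Nat.add_sub_cancel' hjj.le] at h1
    have h2 := (hw.fix.iter m).imWin j (j' - j)
    show im (it f m) (win w j (j' - j)) = _
    rw [h2]
    congr 1
    omega

theorem st_finite {f : ℕ → List ℕ} {w : ℕ → ℕ} {a kA : ℕ} (hw : Ctx f w a kA)
    (hs : Synd a w) (L : ℕ) : (Ret w L).Finite := by
  obtain ⟨G, hG⟩ := synd_win hw hs L
  refine ((List.finite_length_le (Fin kA) G).image (List.map Fin.val)).subset ?_
  rintro x ⟨j, j', hjj, hj, hj', hcons, rfl⟩
  have hlen : j' - j ≤ G := by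
    by_contra hcon
    obtain ⟨t, ht, ht'⟩ := hG (j + 1)
    exact hcons (j + 1 + t) (by omega) (by omega) ht'
  have hlt : ∀ c ∈ win w j (j' - j), c < kA := by
    intro c hc
    obtain ⟨t, _, rfl⟩ := (mem_win w).1 hc
    exact hw.alph _
  refine ⟨(win w j (j' - j)).pmap (fun c hc => (⟨c, hc⟩ : Fin kA)) hlt, ?_, ?_⟩
  · simpa using hlen
  · rw [List.map_pmap]
    simp

theorem stable {f : ℕ → List ℕ} {w : ℕ → ℕ} {a kA : ℕ} (hw : Ctx f w a kA)
    (hs : Synd a w) (hq : ¬ QP w) :
    ∃ n1, (∀ m, Sync w (it f m) (it f n1 a).length (it f (n1 + m) a).length) ∧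
      ∀ m, ∀ x ∈ Ret w (it f n1 a).length, ∀ y ∈ Ret w (it f n1 a).length,
        im (it f m) x = im (it f m) y → x = y := by
  obtain ⟨n0, h0⟩ := sync hw hs hq
  obtain ⟨n1, hn1, hmin⟩ : ∃ n1, n0 ≤ n1 ∧ ∀ n, n0 ≤ n →
      (Ret w (it f n1 a).length).ncard ≤ (Ret w (it f n a).length).ncard := by
    classical
    have h : ∃ c, ∃ n, n0 ≤ n ∧ (Ret w (it f n a).length).ncard = c := ⟨_, n0, le_rfl, rfl⟩
    obtain ⟨n1, h1, h2⟩ := Nat.find_spec h
    exact ⟨n1, h1, fun n hn => by rw [h2]; exact Nat.find_min' h ⟨n, hn, rfl⟩⟩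
  refine ⟨n1, fun m => st_sync hw h0 hn1 m, ?_⟩
  intro m x hx y hy hxy
  have hfin := st_finite hw hs (it f n1 a).length
  have hsub := st_surj hw (st_sync hw h0 hn1 m)
  have h1 : (Ret w (it f (n1 + m) a).length).ncard ≤
      ((fun x => im (it f m) x) '' Ret w (it f n1 a).length).ncard :=
    Set.ncard_le_ncard hsub (hfin.image _)
  have h2 : ((fun x => im (it f m) x) '' Ret w (it f n1 a).length).ncard ≤
      (Ret w (it f n1 a).length).ncard := Set.ncard_image_le hfin
  have h3 := hmin (n1 + m) (by omega)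
  have h4 : ((fun x => im (it f m) x) '' Ret w (it f n1 a).length).ncard =
      (Ret w (it f n1 a).length).ncard := by omega
  exact Set.injOn_of_ncard_image_eq h4 hfin hx hy hxy

end Pool.Agent.Helper180.QPM
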