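import Mathlib
import Pool.Agent.Helper180.QPM.Base
import Pool.Agent.Helper180.QPM.JMarked

set_option autoImplicit false

namespace Pool.Agent.Helper180.QPM


theorem v_rec {w : ℕ → ℕ} {g : ℕ → List ℕ} {L : ℕ} {Θ h : List (List ℕ)} {v : ℕ → ℕ}
    (hc : Coding w g L Θ h v)
    (hs : ∀ M, ∃ G, ∀ i, ∃ t, t < G ∧ win w (i + t) M = win w 0 M) (n : ℕ) :
    ∃ G, ∀ i, ∃ t, t < G ∧ win v (i + t) n = win v 0 n := by
  have hpos : ∀ j, 1 ≤ (mor Θ (v j)).length := fun j => hc.mΘ.pos (v j) (hc.vlt j)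
  have hsm : StrictMono (cut (mor Θ) v) := cut_strictMono hpos
  have hcs : ∀ i s, cut (mor Θ) v i + s ≤ cut (mor Θ) v (i + s) := by
    intro i s
    induction s with
    | zero => simp
    | succ s ih =>
      have h1 : cut (mor Θ) v (i + s) < cut (mor Θ) v (i + (s + 1)) := hsm (by omega)
      omega
  obtain ⟨G, hG⟩ := hs (cut (mor Θ) v n + L)
  refine ⟨G, fun i => ?_⟩
  obtain ⟨t, ht, htw⟩ := hG (cut (mor Θ) v i)
  have hL : win w (cut (mor Θ) v i + t) L = win w 0 L := by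
    have h1 := congrArg (List.take L) htw
    rw [take_win _ _ _ _ (by omega), take_win _ _ _ _ (by omega)] at h1
    exact h1
  obtain ⟨i', hi'⟩ := (hc.occ _).1 hL
  have hii : i ≤ i' := by
    by_contra hcon
    have h1 : cut (mor Θ) v i' < cut (mor Θ) v i := hsm (by omega)
    omega
  obtain ⟨s, rfl⟩ := Nat.exists_eq_add_of_le hii
  have hst : s ≤ t := by
    have := hcs i s
    omega
  refine ⟨s, by omega, ?_⟩
  have hdec := hc.mΘ.decode (x := v) (y := w) (x' := sh v (i + s))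
    (y' := sh w (cut (mor Θ) v (i + s))) hc.vlt hc.imΘ (fun j => hc.vlt _)
    (hc.imΘ.shift (i + s)) n (by
      rw [win_sh, Nat.add_zero, ← hi', htw])
  rw [win_sh, Nat.add_zero] at hdec
  exact hdec.symm

end Pool.Agent.Helper180.QPM
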