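import Mathlib
import Pool.Agent.Helper180.QPM.Base

set_option autoImplicit false

namespace Pool.Agent.Helper180.QPM


theorem mem_words {k n : ℕ} {L : List ℕ} : L ∈ words k n ↔ L.length = n ∧ ∀ c ∈ L, c < k := by
  induction n generalizing L with
  | zero =>
    simp only [words, List.mem_singleton, List.length_eq_zero_iff]
    constructor
    · rintro rfl
      simp
    · exact fun h => h.1
  | succ n ih =>
    simp only [words, List.mem_flatMap, List.mem_map, List.mem_range]
    constructor
    · rintro ⟨M, hM, c, hc, rfl⟩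
      obtain ⟨h1, h2⟩ := ih.1 hM
      refine ⟨by simp [h1], ?_⟩
      intro d hd
      rcases List.mem_cons.1 hd with rfl | hd
      · exact hc
      · exact h2 d hd
    · rintro ⟨h1, h2⟩
      cases L with
      | nil => simp at h1
      | cons c L =>
        refine ⟨L, ih.2 ⟨by simpa using h1, fun d hd => h2 d (List.mem_cons_of_mem _ hd)⟩, c,
          h2 c (by simp), rfl⟩

theorem subs_cons (x : List ℕ) (l : List (List ℕ)) :
    subs (x :: l) = subs l ++ (subs l).map (fun T => x :: T) := rfl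

theorem filter_mem_subs (l : List (List ℕ)) (p : List ℕ → Bool) : l.filter p ∈ subs l := by
  induction l with
  | nil => simp [subs]
  | cons x l ih =>
    rw [subs_cons, List.mem_append]
    by_cases hp : p x = true
    · right
      rw [List.filter_cons_of_pos hp]
      exact List.mem_map.2 ⟨_, ih, rfl⟩
    · left
      rw [List.filter_cons_of_neg hp]
      exact ih

theorem mem_of_mem_subs {l T : List (List ℕ)} (h : T ∈ subs l) : ∀ x ∈ T, x ∈ l := by
  induction l generalizing T with
  | nil =>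
    have h1 : T = [] := by simpa [subs] using h
    subst h1
    simp
  | cons y l ih =>
    rw [subs_cons, List.mem_append] at h
    rcases h with h | h
    · intro x hx
      exact List.mem_cons_of_mem _ (ih h x hx)
    · obtain ⟨T', hT', rfl⟩ := List.mem_map.1 h
      intro x hx
      rcases List.mem_cons.1 hx with rfl | hx
      · simp
      · exact List.mem_cons_of_mem _ (ih hT' x hx)

theorem V_drop_take {v : ℕ → ℕ} {V : List ℕ} (hV : V = win v 0 V.length) {i n : ℕ}
    (h : i + n ≤ V.length) : (V.drop i).take n = win v i n := by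
  have h1 : V.drop i = win v i (V.length - i) := by
    conv_lhs => rw [hV]
    rw [drop_win, Nat.zero_add]
  rw [h1, take_win _ _ _ _ (by omega)]

theorem V_take {v : ℕ → ℕ} {V : List ℕ} (hV : V = win v 0 V.length) {n : ℕ}
    (h : n ≤ V.length) : V.take n = win v 0 n := by
  conv_lhs => rw [hV]
  rw [take_win _ _ _ _ h]

theorem OccV_iff {v : ℕ → ℕ} {V : List ℕ} (hV : V = win v 0 V.length) {l c m : ℕ}
    {T : List (List ℕ)} (h : m + l + c ≤ V.length) :
    OccV V l c T m ↔ OccT v l c (fun x => x ∈ T) m := by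
  unfold OccV OccT
  rw [V_drop_take hV (i := m) (n := l) (by omega), V_take hV (n := l) (by omega),
    V_drop_take hV (i := m + l) (n := c) (by omega)]

theorem gap_of_V {K N r l : ℕ} {v : ℕ → ℕ} {V : List ℕ} {Inv : List (List ℕ × List ℕ)}
    {T : List (List ℕ)} (hV : V = win v 0 V.length) (hlen : N + r + 2 * K ≤ V.length)
    (hl : l < r) (h : GapV K N V Inv l T) : GapOK K v Inv l (fun x => x ∈ T) := by
  obtain ⟨m1, hm1, m2, hm2, h12, ho1, ho2, hno, hg⟩ := h
  refine ⟨m1, m2, h12, (OccV_iff hV (by omega)).1 ho1, (OccV_iff hV (by omega)).1 ho2, ?_, ?_⟩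
  · intro m h1 h2 h3
    exact hno m h2 h1 ((OccV_iff hV (by omega)).2 h3)
  · rcases hg with hg | ⟨x, hx, j, hj, h1, h2⟩
    · exact Or.inl hg
    · right
      refine ⟨x, hx, j, hj, ?_, ?_⟩
      · rwa [V_drop_take hV (by omega)] at h1
      · rwa [V_drop_take hV (by omega)] at h2

theorem V_of_gap {K N r l : ℕ} {v : ℕ → ℕ} {V : List ℕ} {Inv : List (List ℕ × List ℕ)}
    {T : List (List ℕ)} (hV : V = win v 0 V.length) (hlen : N + r + 2 * K ≤ V.length)
    (hl : l < r) (h : ∃ m1 m2, m2 < N ∧ m1 + l < m2 ∧ OccT v l (2 * K) (fun x => x ∈ T) m1 ∧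
      OccT v l (2 * K) (fun x => x ∈ T) m2 ∧
      (∀ m, m1 < m → m < m2 → ¬ OccT v l (2 * K) (fun x => x ∈ T) m) ∧
      (K ≤ m2 - (m1 + l) ∨ ∃ x, x ∈ T ∧ ∃ j < m2 - (m1 + l), win v (m1 + l) j = x.take j ∧
        (win v (m1 + l + j) (m2 - (m1 + l + j)), (x.drop j).take K) ∈ Inv)) :
    GapV K N V Inv l T := by
  obtain ⟨m1, m2, hm2, h12, ho1, ho2, hno, hg⟩ := h
  refine ⟨m1, by omega, m2, hm2, h12, (OccV_iff hV (by omega)).2 ho1,
    (OccV_iff hV (by omega)).2 ho2, ?_, ?_⟩
  · intro m h1 h2 h3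
    exact hno m h2 h1 ((OccV_iff hV (by omega)).1 h3)
  · rcases hg with hg | ⟨x, hx, j, hj, h1, h2⟩
    · exact Or.inl hg
    · right
      refine ⟨x, hx, j, hj, ?_, ?_⟩
      · rwa [V_drop_take hV (by omega)]
      · rwa [V_drop_take hV (by omega)]

end Pool.Agent.Helper180.QPM
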