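import Mathlib
import Pool.Agent.Helper180.QPM.Base
import Pool.Agent.Helper180.QPM.JStable
import Pool.Agent.Helper180.QPM.JCoding
import Pool.Agent.Helper180.QPM.JMsync
import Pool.Agent.Helper180.QPM.JGapc
import Pool.Agent.Helper180.QPM.JVtools
import Pool.Agent.Helper180.QPM.JVrec
import Pool.Agent.Helper180.QPM.JBasic2

set_option autoImplicit false

namespace Pool.Agent.Helper180.QPM



theorem cN_it {f : ℕ → List ℕ} {w : ℕ → ℕ} {a kA : ℕ} (hw : Ctx f w a kA) (n : ℕ) :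
    it f n a = win w 0 (it f n a).length ∧ cut (it f n) w 1 = (it f n a).length := by
  have h1 := (hw.fix.iter n) 1
  have h2 : cut (it f n) w 1 = (it f n a).length := by
    unfold cut
    rw [win_one, im_singleton, hw.w0]
  rw [h2, win_one, im_singleton, hw.w0] at h1
  exact ⟨h1, h2⟩

theorem cN_fa {f : ℕ → List ℕ} {w : ℕ → ℕ} {a kA : ℕ} (hw : Ctx f w a kA) :
    ∃ l, f a = a :: l := by
  have h1 := (cN_it hw 1).1
  rw [it_one] at h1
  rcases hfa : f a with _ | ⟨b, l⟩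
  · exfalso
    obtain ⟨n, hn⟩ := hw.grow 1
    rcases n with _ | n
    · rw [it_zero] at hn
      simp at hn
    · rw [it_succ', hfa] at hn
      simp at hn
  · rw [hfa] at h1
    rw [List.length_cons, win_succ', hw.w0] at h1
    have := (List.cons.inj h1).1
    exact ⟨l, by rw [this]⟩

theorem cN_mono {f : ℕ → List ℕ} {w : ℕ → ℕ} {a kA : ℕ} (hw : Ctx f w a kA) :
    Monotone (fun n => (it f n a).length) := by
  apply monotone_nat_of_le_succ
  intro n
  obtain ⟨l, hl⟩ := cN_fa hw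
  rw [it_succ', hl, im_cons, List.length_append]
  omega

theorem cN_pos {f : ℕ → List ℕ} {w : ℕ → ℕ} {a kA : ℕ} (hw : Ctx f w a kA) (n : ℕ) :
    1 ≤ (it f n a).length := by
  have := cN_mono hw (Nat.zero_le n)
  simpa [it_zero] using this

theorem cN_ret_len {w : ℕ → ℕ} {L G : ℕ} (hG : ∀ i, ∃ t, t < G ∧ win w (i + t) L = win w 0 L)
    {x : List ℕ} (hx : x ∈ Ret w L) : x.length ≤ G := by
  obtain ⟨j, j', hj, h1, h2, h3, rfl⟩ := hx
  rw [win_length]
  obtain ⟨t, ht, ht2⟩ := hG (j + 1)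
  by_contra hcon
  exact h3 (j + 1 + t) (by omega) (by omega) ht2

theorem cN_ret_head {w : ℕ → ℕ} {L : ℕ} (hL : 1 ≤ L) {x : List ℕ} (hx : x ∈ Ret w L) :
    ∃ l, x = w 0 :: l := by
  obtain ⟨j, j', hj, h1, h2, h3, rfl⟩ := hx
  have h4 : w j = w 0 := by
    have := (win_eq_iff.1 h1) 0 (by omega)
    simpa using this
  obtain ⟨n, hn⟩ : ∃ n, j' - j = n + 1 := ⟨j' - j - 1, by omega⟩
  rw [hn, win_succ', h4]
  exact ⟨_, rfl⟩

theorem cN_iterV {H : ℕ → List ℕ} {v : ℕ → ℕ} (hv0 : v 0 = 0) (hvv : IsIm H v v) (n : ℕ) :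
    (im H)^[n] [0] = win v 0 ((im H)^[n] [0]).length := by
  induction n with
  | zero => simp [win_one, hv0]
  | succ n ih =>
    rw [Function.iterate_succ_apply']
    have h1 := hvv ((im H)^[n] [0]).length
    rw [← ih] at h1
    have h2 : (im H ((im H)^[n] [0])).length = cut H v ((im H)^[n] [0]).length := by
      rw [h1, win_length]
    rw [h2]
    exact h1

theorem cN_len2 {H : ℕ → List ℕ} {k : ℕ} (h2 : ∀ b < k, 2 ≤ (H b).length) (L : List ℕ)
    (hL : ∀ c ∈ L, c < k) : 2 * L.length ≤ (im H L).length := by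
  induction L with
  | nil => simp
  | cons c L ih =>
    have h3 := h2 c (hL c (by simp))
    have h4 := ih (fun d hd => hL d (by simp [hd]))
    simp only [im_cons, List.length_append, List.length_cons]
    omega

theorem cN_pow {H : ℕ → List ℕ} {v : ℕ → ℕ} {k : ℕ} (hv0 : v 0 = 0) (hvv : IsIm H v v)
    (hv : ∀ i, v i < k) (h2 : ∀ b < k, 2 ≤ (H b).length) (n : ℕ) :
    2 ^ n ≤ ((im H)^[n] [0]).length := by
  induction n with
  | zero => simp
  | succ n ih =>
    rw [Function.iterate_succ_apply']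
    have h3 : ∀ c ∈ (im H)^[n] [0], c < k := by
      intro c hc
      rw [cN_iterV hv0 hvv n, mem_win] at hc
      obtain ⟨t, _, rfl⟩ := hc
      exact hv _
    have h4 := cN_len2 h2 _ h3
    rw [pow_succ]
    omega

/-- bounded version of `GapOK` -/
def cN_B (K : ℕ) (v : ℕ → ℕ) (Inv : List (List ℕ × List ℕ)) (l : ℕ) (T : List (List ℕ))
    (B : ℕ) : Prop :=
  ∃ m1 m2, m2 < B ∧ m1 + l < m2 ∧ OccT v l (2 * K) (fun x => x ∈ T) m1 ∧
      OccT v l (2 * K) (fun x => x ∈ T) m2 ∧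
      (∀ m, m1 < m → m < m2 → ¬ OccT v l (2 * K) (fun x => x ∈ T) m) ∧
      (K ≤ m2 - (m1 + l) ∨ ∃ x, x ∈ T ∧ ∃ j < m2 - (m1 + l), win v (m1 + l) j = x.take j ∧
        (win v (m1 + l + j) (m2 - (m1 + l + j)), (x.drop j).take K) ∈ Inv)

theorem cN_B_mono {K : ℕ} {v : ℕ → ℕ} {Inv : List (List ℕ × List ℕ)} {l : ℕ}
    {T : List (List ℕ)} {B B' : ℕ} (h : B ≤ B') (hB : cN_B K v Inv l T B) :
    cN_B K v Inv l T B' := by
  obtain ⟨m1, m2, h1, h2⟩ := hB
  exact ⟨m1, m2, by omega, h2⟩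

theorem cN_bound (K : ℕ) (v : ℕ → ℕ) (Inv : List (List ℕ × List ℕ)) (r : ℕ)
    (SS : List (List (List ℕ))) :
    ∃ N0, ∀ l < r, ∀ T ∈ SS, GapOK K v Inv l (fun x => x ∈ T) → cN_B K v Inv l T N0 := by
  classical
  have h1 : ∀ (l : ℕ) (T : List (List ℕ)), ∃ B, GapOK K v Inv l (fun x => x ∈ T) →
      cN_B K v Inv l T B := by
    intro l T
    by_cases h : GapOK K v Inv l (fun x => x ∈ T)
    · obtain ⟨m1, m2, h2, h3, h4, h5, h6⟩ := h
      exact ⟨m2 + 1, fun _ => ⟨m1, m2, by omega, h2, h3, h4, h5, h6⟩⟩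
    · exact ⟨0, fun h' => absurd h' h⟩
  choose B hB using h1
  refine ⟨(Finset.range r ×ˢ SS.toFinset).sup (fun p => B p.1 p.2), fun l hl T hT h => ?_⟩
  refine cN_B_mono ?_ (hB l T h)
  exact Finset.le_sup (f := fun p : ℕ × List (List ℕ) => B p.1 p.2) (b := (l, T))
    (by simp [hl, hT])

theorem complN {f : ℕ → List ℕ} {w : ℕ → ℕ} {a kA : ℕ} (hw : Ctx f w a kA)
    (hs : Synd a w) (hq : ¬ QP w) :
    ∃ m N Θ h p r S K Inv, CertN f a m N Θ h p r S K Inv := by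
  obtain ⟨n1, hsync, hinj⟩ := stable hw hs hq
  obtain ⟨L, hLdef⟩ : ∃ L, L = (it f n1 a).length := ⟨_, rfl⟩
  rw [← hLdef] at hsync hinj
  have hL : 1 ≤ L := by rw [hLdef]; exact cN_pos hw n1
  obtain ⟨G0, hG0⟩ := synd_win hw hs L
  obtain ⟨m0, hm0⟩ := hw.grow G0
  have hmG : G0 < (it f (m0 + 1) a).length :=
    lt_of_lt_of_le hm0 (cN_mono hw (Nat.le_succ m0))
  obtain ⟨m, hm⟩ : ∃ m, m = m0 + 1 := ⟨_, rfl⟩
  rw [← hm] at hmG
  have hm1 : 1 ≤ m := by omega
  have hg : IsIm (it f m) w w := hw.fix.iter m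
  have hwin : win w 0 L = it f n1 a := by rw [hLdef]; exact (cN_it hw n1).1.symm
  have hcut : cut (it f m) w L = (it f (n1 + m) a).length := by
    unfold cut
    rw [hwin, ← it_add, Nat.add_comm]
  have hLg : L ≤ cut (it f m) w L := by
    rw [hcut, hLdef]
    exact cN_mono hw (Nat.le_add_right _ _)
  have hg0 : 1 ≤ (it f m (w 0)).length := by rw [hw.w0]; exact cN_pos hw m
  have hsync' : Sync w (it f m) L (cut (it f m) w L) := by rw [hcut]; exact hsync m
  obtain ⟨Θ, h, v, hc⟩ := coding hw.alph hg hL hLg hg0 ⟨G0, hG0⟩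
  have hinj' : ∀ b < Θ.length, ∀ c < Θ.length,
      im (it f m) (mor Θ b) = im (it f m) (mor Θ c) → b = c := fun b hb c hc' he =>
    hc.mΘ.inj b hb c hc' (hinj m _ (hc.ret b hb) _ (hc.ret c hc') he)
  obtain ⟨r, S, mh⟩ := marked_of_sync hc hg hL hLg hsync' hinj'
  have hbig : ∀ b < Θ.length, G0 < (im (it f m) (mor Θ b)).length := by
    intro b hb
    obtain ⟨l, hl⟩ := cN_ret_head hL (hc.ret b hb)
    rw [hl, im_cons, hw.w0, List.length_append]
    omega
  have htwo : ∀ b < Θ.length, 2 ≤ (mor h b).length := by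
    intro b hb
    by_contra hcon
    have h1 := hc.posh b hb
    have h2 : (mor h b).length = 1 := by omega
    obtain ⟨c, hc'⟩ := List.length_eq_one_iff.1 h2
    have h3 := hc.val b hb c (by rw [hc']; simp)
    have h4 := hbig b hb
    rw [hc.conj b hb, hc', im_singleton] at h4
    have h5 := cN_ret_len hG0 (hc.ret c h3)
    omega
  obtain ⟨K, hK⟩ : ∃ K, K = max (L + 1) (r + 1) := ⟨_, rfl⟩
  have hKL : L + 1 ≤ K := by rw [hK]; exact le_max_left _ _
  have hKr : r + 1 ≤ K := by rw [hK]; exact le_max_right _ _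
  have hnc : ∀ u, ¬ Cov w u := fun u hu => hq ⟨u, hu⟩
  obtain ⟨Inv, hInv, hgap⟩ := gap_complete hc.mΘ mh hc.conj hc.val htwo hKL hKr hc.vlt hc.imh
    hc.imΘ (v_rec hc (synd_win hw hs)) hnc
  obtain ⟨N0, hN0⟩ := cN_bound K v Inv r (subs (words Θ.length (2 * K)))
  obtain ⟨N, hN⟩ : ∃ N, N = N0 + r + 2 * K + 1 := ⟨_, rfl⟩
  obtain ⟨V, hV⟩ : ∃ V, V = (im (mor h))^[N] [0] := ⟨_, rfl⟩
  have hVw : V = win v 0 V.length := by rw [hV]; exact cN_iterV hc.v0 hc.imh N
  have hVlen : N + r + 2 * K ≤ V.length := by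
    have h1 : 2 ^ N ≤ V.length := by
      rw [hV]; exact cN_pow hc.v0 hc.imh hc.vlt htwo N
    have h2 : 2 * N ≤ 2 ^ N := by
      rw [hN, pow_succ]
      have := Nat.lt_two_pow_self (n := N0 + r + 2 * K)
      omega
    omega
  have hhead : ∀ {φ : ℕ → List ℕ} {y : ℕ → ℕ}, IsIm φ v y → 1 ≤ (φ 0).length →
      (φ 0).head? = some (y 0) := by
    intro φ y hφ hpos
    have h1 := hφ.letter 0
    rw [hc.v0, cut_zero] at h1
    obtain ⟨n, hn⟩ : ∃ n, (φ 0).length = n + 1 := ⟨(φ 0).length - 1, by omega⟩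
    rw [hn, win_succ'] at h1
    rw [h1]; rfl
  refine ⟨m, N, Θ, h, win w 0 L, r, S, K, Inv, ?_⟩
  refine
    { mpos := hm1
      kpos := hc.kpos
      hlen := hc.hlen
      conj := fun b hb => by rw [← im_it]; exact hc.conj b hb
      th0 := by rw [hhead hc.imΘ (hc.mΘ.pos 0 hc.kpos), hw.w0]
      h0 := by rw [hhead hc.imh (hc.posh 0 hc.kpos), hc.v0]
      val := hc.val
      mth := by rw [win_length]; exact hc.mΘ
      mh := mh
      two := htwo
      Kp := by rw [win_length]; exact hKL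
      Kr := hKr
      inv := hInv
      long := by rw [← hV]; exact hVlen
      gap := ?_ }
  rw [← hV]
  intro l hl T hT hmem hx
  have hdt : (V.drop l).take (2 * K) = win v l (2 * K) := by
    rw [hVw, drop_win, take_win _ _ _ _ (by omega), Nat.zero_add]
  rw [hdt] at hmem hx
  have hTw : ∀ x, x ∈ T → x.length = 2 * K ∧ ∀ c ∈ x, c < Θ.length := fun x hx' =>
    mem_words.1 (mem_of_mem_subs hT x hx')
  have hG := hgap l hl (fun x => x ∈ T) hTw hmem hx
  exact V_of_gap hVw hVlen hl (cN_B_mono (by omega) (hN0 l hl T hT hG))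

end Pool.Agent.Helper180.QPM
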