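import Mathlib
import Pool.Agent.Helper180.QPM.Base
import Pool.Agent.Helper180.QPM.Extra
import Pool.Agent.Helper180.QPM.JCoding
import Pool.Agent.Helper180.QPM.JBasic2

set_option autoImplicit false

namespace Pool.Agent.Helper180.QPM


theorem J4347_sub (x : ℕ → ℕ) (i n m k : ℕ) (h : m + k ≤ n) :
    ((win x i n).drop m).take k = win x (i + m) k := by
  rw [drop_win, take_win _ _ _ _ (by omega)]

theorem J4347_headI (x : ℕ → ℕ) (i n : ℕ) (h : 1 ≤ n) : (win x i n).headI = x i := by
  obtain ⟨m, rfl⟩ := Nat.exists_eq_add_of_le h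
  rw [Nat.add_comm, win_succ']
  rfl

theorem J4347_head (x : ℕ → ℕ) (i n : ℕ) (h : 1 ≤ n) : (win x i n).head? = some (x i) := by
  obtain ⟨m, rfl⟩ := Nat.exists_eq_add_of_le h
  rw [Nat.add_comm, win_succ']
  rfl

theorem J4347_cut {φ : ℕ → List ℕ} {x : ℕ → ℕ} (h : ∀ i, 1 ≤ (φ (x i)).length)
    (h2 : 2 ≤ (φ (x 0)).length) (l : ℕ) (hl : 1 ≤ l) : l + 1 ≤ cut φ x l := by
  induction l, hl using Nat.le_induction with
  | base =>
    have := cut_succ φ x 0
    rw [cut_zero, Nat.zero_add, Nat.zero_add] at this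
    omega
  | succ l hl ih =>
    have h3 := cut_succ φ x l
    have h4 := h l
    omega

theorem J4347_iter {φ : ℕ → List ℕ} {v : ℕ → ℕ} (hv : IsIm φ v v) (h : ∀ i, 1 ≤ (φ (v i)).length)
    (v0 : v 0 = 0) (h2 : 2 ≤ (φ (v 0)).length) (n : ℕ) :
    ∃ l, n + 1 ≤ l ∧ (im φ)^[n] [0] = win v 0 l := by
  induction n with
  | zero =>
    refine ⟨1, le_rfl, ?_⟩
    rw [win_one, v0]
    rfl
  | succ n ih =>
    obtain ⟨l, hl, he⟩ := ih
    refine ⟨cut φ v l, ?_, ?_⟩
    · have := J4347_cut h h2 l (by omega)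
      omega
    · rw [Function.iterate_succ_apply', he]
      exact hv l

theorem complQ {f : ℕ → List ℕ} {w : ℕ → ℕ} {a kA : ℕ} (hw : Ctx f w a kA) (hq : QP w) :
    ∃ N Θ h u K Fac, CertQ f a N Θ h u K Fac := by
  have hsynd := synd_of_QP hq
  obtain ⟨u, hu⟩ := hq
  have hu1 : 1 ≤ u := by
    obtain ⟨j, h1, h2, -⟩ := hu 0
    omega
  -- `f a` is not empty
  have hfa : 1 ≤ (f (w 0)).length := by
    by_contra hcon
    have h0 : f a = [] := by
      rw [hw.w0] at hcon
      exact List.length_eq_zero_iff.mp (by omega)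
    have h1 : ∀ n, it f (n + 1) a = [] := by
      intro n
      rw [it_succ', h0]
      rfl
    obtain ⟨n, hn⟩ := hw.grow 1
    cases n with
    | zero => rw [it_zero] at hn; simp at hn
    | succ n => rw [h1 n] at hn; simp at hn
  have hcod : ∃ (Θ h : List (List ℕ)) (v : ℕ → ℕ), Coding w f 1 Θ h v := by
    refine coding hw.alph hw.fix le_rfl ?_ hfa ?_
    · have := cut_succ f w 0
      rw [cut_zero, Nat.zero_add, Nat.zero_add] at this
      omega
    · obtain ⟨G, hG⟩ := hsynd
      refine ⟨G, fun i => ?_⟩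
      obtain ⟨t, ht, he⟩ := hG i
      refine ⟨t, ht, ?_⟩
      rw [win_one, win_one, he]
  obtain ⟨Θ, h, v, hC⟩ := hcod
  have hposh : ∀ i, 1 ≤ (mor h (v i)).length := fun i => hC.posh _ (hC.vlt i)
  have hposΘ : ∀ i, 1 ≤ (mor Θ (v i)).length := fun i => hC.mΘ.pos _ (hC.vlt i)
  have hΘ0 : mor Θ 0 = win w 0 (mor Θ 0).length := by
    have := hC.imΘ.letter 0
    rw [hC.v0, cut_zero] at this
    exact this
  have hh0 : mor h 0 = win v 0 (mor h 0).length := by
    have := hC.imh.letter 0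
    rw [hC.v0, cut_zero] at this
    exact this
  have hΘpos : 1 ≤ (mor Θ 0).length := hC.mΘ.pos 0 hC.kpos
  have hhpos : 1 ≤ (mor h 0).length := hC.posh 0 hC.kpos
  have hth0 : (mor Θ 0).head? = some a := by
    rw [hΘ0, J4347_head w 0 _ hΘpos, hw.w0]
  have hhh0 : (mor h 0).head? = some 0 := by
    rw [hh0, J4347_head v 0 _ hhpos, hC.v0]
  have htwo : 2 ≤ (mor h 0).length := by
    by_contra hcon
    have h1 : (mor h 0).length = 1 := by omega
    have h2 : mor h 0 = [0] := by
      rw [hh0, h1, win_one, hC.v0]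
    have h3 : im f (mor Θ 0) = mor Θ 0 := by
      rw [hC.conj 0 hC.kpos, h2, im_singleton]
    have h4 : ∀ n, (im f)^[n] (mor Θ 0) = mor Θ 0 := by
      intro n
      exact Function.iterate_fixed h3 n
    obtain ⟨n, hn⟩ := hw.grow (mor Θ 0).length
    have h5 : [a] <+: mor Θ 0 := by
      rw [hΘ0]
      have h6 := win_prefix w 0 1 (mor Θ 0).length hΘpos
      rw [win_one, hw.w0] at h6
      exact h6
    have h6 := im_prefix (it f n) h5
    rw [im_singleton, im_it, h4] at h6
    have := h6.length_le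
    omega
  set K := 2 * u + 1 with hK
  obtain ⟨M, hM⟩ := factors_finite hC.vlt K
  set Fac := (List.range M).map (fun i => win v i K) with hFac
  have hFin : ∀ i, win v i K ∈ Fac := by
    intro i
    obtain ⟨j, hj, he⟩ := hM i
    rw [hFac, List.mem_map]
    exact ⟨j, List.mem_range.mpr hj, he⟩
  have hFout : ∀ x ∈ Fac, ∃ i, x = win v i K := by
    intro x hx
    rw [hFac, List.mem_map] at hx
    obtain ⟨i, -, he⟩ := hx
    exact ⟨i, he.symm⟩
  obtain ⟨l, hl, hle⟩ := J4347_iter hC.imh hposh hC.v0 (by rw [hC.v0]; exact htwo) K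
  have htake : ((im (mor h))^[K] [0]).take K = win v 0 K := by
    rw [hle, take_win _ _ _ _ (by omega)]
  have hX0 : im (mor Θ) (win v 0 K) = win w 0 (im (mor Θ) (win v 0 K)).length := by
    have := hC.imΘ.imWin 0 K
    rw [cut_zero] at this
    exact this
  have hX0len : K ≤ (im (mor Θ) (win v 0 K)).length := by
    have := length_im_pos (mor Θ) (L := win v 0 K) (fun c hc => by
      obtain ⟨t, -, rfl⟩ := (mem_win v).1 hc
      exact hposΘ _)
    rwa [win_length] at this
  have hX0take : (im (mor Θ) (win v 0 K)).take u = win w 0 u := by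
    rw [hX0, take_win _ _ _ _ (by omega)]
  refine ⟨K, Θ, h, u, K, Fac, ?_⟩
  refine ⟨hC.kpos, hC.hlen, hC.conj, hth0, hhh0, hC.val, hC.mΘ.pos, hC.posh, htwo, le_rfl, ?_, ?_,
    ?_, ?_, ?_⟩
  · rw [hle, win_length]; omega
  · rw [htake]; exact hFin 0
  · intro x hx j hj
    obtain ⟨i, rfl⟩ := hFout x hx
    rw [J4347_headI v i K (by omega)] at hj
    have h1 := hC.imh.imWin i K
    have h2 : (mor h (v i)).length + (K - 1) ≤ (im (mor h) (win v i K)).length := by
      have e : K = (K - 1) + 1 := by omega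
      have h3 : win v i K = v i :: win v (i + 1) (K - 1) := by
        conv_lhs => rw [e]
        rw [win_succ']
      rw [h3, im_cons, List.length_append]
      have := length_im_pos (mor h) (L := win v (i + 1) (K - 1)) (fun c hc => by
        obtain ⟨t, -, rfl⟩ := (mem_win v).1 hc
        exact hposh _)
      rw [win_length] at this
      omega
    rw [h1, J4347_sub _ _ _ _ _ (by omega)]
    exact hFin _
  · intro t ht htu
    rw [htake] at ht htu ⊢
    obtain ⟨j, hj1, hj2, hj3⟩ := hu t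
    refine ⟨j, by omega, hj2, ?_⟩
    rw [hX0take]
    conv_lhs => rw [hX0]
    rw [J4347_sub _ _ _ _ _ (by omega), Nat.zero_add]
    exact hj3
  · intro x hx t ht hut htu
    obtain ⟨i, rfl⟩ := hFout x hx
    rw [htake, hX0take]
    have h1 := hC.imΘ.imWin i K
    obtain ⟨j', hj1, hj2, hj3⟩ := hu (cut (mor Θ) v i + t)
    refine ⟨j' - cut (mor Θ) v i, by omega, by omega, ?_⟩
    rw [h1, J4347_sub _ _ _ _ _ (by omega)]
    have e : cut (mor Θ) v i + (j' - cut (mor Θ) v i) = j' := by omega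
    rw [e]
    exact hj3

end Pool.Agent.Helper180.QPM
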