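import Mathlib
import Pool.Agent.Helper180.QPM.Base

set_option autoImplicit false

namespace Pool.Agent.Helper180.QPM


theorem exists_ctx_aux_mem {F : List (List ℕ)} (h2 : ∀ l ∈ F, ∀ c ∈ l, c < F.length)
    (b c : ℕ) (hc : c ∈ mor F b) : c < F.length := by
  unfold mor at hc
  by_cases hb : b < F.length
  · rw [List.getD_eq_getElem _ _ hb] at hc
    exact h2 _ (List.getElem_mem hb) c hc
  · rw [List.getD_eq_default _ _ (by omega)] at hc
    simp at hc

theorem exists_ctx {F : List (List ℕ)} {a : ℕ} (h1 : a < F.length)
    (h2 : ∀ l ∈ F, ∀ c ∈ l, c < F.length) (h3 : (mor F a).head? = some a)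
    (h4 : ∀ n, (im (mor F))^[n] [a] ≠ (im (mor F))^[n + 1] [a]) :
    ∃ w, Ctx (mor F) w a F.length ∧ ∀ n, it (mor F) n a = win w 0 (it (mor F) n a).length := by
  have hpre : ∀ n, it (mor F) n a <+: it (mor F) (n + 1) a := by
    intro n
    induction n with
    | zero =>
      rw [it_zero, it_one]
      cases hf : mor F a with
      | nil => rw [hf] at h3; simp at h3
      | cons b L =>
        rw [hf] at h3
        simp only [List.head?_cons, Option.some.injEq] at h3
        rw [h3]
        exact ⟨L, rfl⟩
    | succ n ih =>
      rw [it_succ, it_succ]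
      exact im_prefix _ ih
  have hlt : ∀ n, (it (mor F) n a).length < (it (mor F) (n + 1) a).length := by
    intro n
    rcases lt_or_eq_of_le (hpre n).length_le with h | h
    · exact h
    · exact absurd ((hpre n).eq_of_length h) (h4 n)
  have hge : ∀ n, n + 1 ≤ (it (mor F) n a).length := by
    intro n
    induction n with
    | zero => rw [it_zero]; simp
    | succ n ih => have := hlt n; omega
  have hmono : ∀ n m, n ≤ m → it (mor F) n a <+: it (mor F) m a := by
    intro n m h
    induction m, h using Nat.le_induction with
    | base => exact List.prefix_rfl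
    | succ m _ ih => exact ih.trans (hpre m)
  have hmem : ∀ n, ∀ c ∈ it (mor F) n a, c < F.length := by
    intro n
    induction n with
    | zero =>
      intro c hc
      rw [it_zero] at hc
      simp only [List.mem_singleton] at hc
      rw [hc]; exact h1
    | succ n ih =>
      intro c hc
      rw [it_succ, mem_im] at hc
      obtain ⟨b, _, hb⟩ := hc
      exact exists_ctx_aux_mem h2 b c hb
  let w : ℕ → ℕ := fun t => (it (mor F) t a).getD t 0
  have hw : ∀ t, ∃ h : t < (it (mor F) t a).length, w t = (it (mor F) t a)[t] := by
    intro t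
    have h : t < (it (mor F) t a).length := by have := hge t; omega
    exact ⟨h, List.getD_eq_getElem _ _ h⟩
  have hwin : ∀ n, it (mor F) n a = win w 0 (it (mor F) n a).length := by
    intro n
    apply List.ext_getElem
    · simp
    · intro t ht1 ht2
      rw [win_getElem, Nat.zero_add]
      obtain ⟨h, he⟩ := hw t
      rw [he]
      rcases le_total n t with h5 | h5
      · obtain ⟨N, hN⟩ := hmono n t h5
        simp only [← hN]
        rw [List.getElem_append_left ht1]
      · obtain ⟨N, hN⟩ := hmono t n h5
        simp only [← hN]
        rw [List.getElem_append_left h]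
  refine ⟨w, ⟨?_, ?_, ?_, ?_⟩, hwin⟩
  · intro n
    have h5 : win w 0 n <+: it (mor F) n a := by
      rw [hwin n]
      exact win_prefix _ _ _ _ (by have := hge n; omega)
    have h6 := im_prefix (mor F) h5
    rw [← it_succ, hwin (n + 1), prefix_win_iff] at h6
    exact h6.2
  · show (it (mor F) 0 a).getD 0 0 = a
    rw [it_zero]; rfl
  · intro i
    obtain ⟨h, he⟩ := hw i
    rw [he]
    exact hmem i _ (List.getElem_mem h)
  · intro N
    exact ⟨N, by have := hge N; omega⟩

/-! computability -/

end Pool.Agent.Helper180.QPM
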