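import Mathlib
import Pool.Agent.Helper180.QPM.Base

set_option autoImplicit false

namespace Pool.Agent.Helper180.QPM


theorem j4125_cut_pos {f : ℕ → List ℕ} {w : ℕ → ℕ} {a kA : ℕ} (hw : Ctx f w a kA) (n : ℕ) :
    1 ≤ cut (it f n) w 1 := by
  by_contra hcon
  have h0 : cut (it f n) w 1 = 0 := by omega
  have hlen : ∀ i, (it f i a).length = cut (it f i) w 1 := by
    intro i
    unfold cut
    rw [win_one, im_singleton, hw.w0]
  obtain ⟨n', hn'⟩ := hw.grow (∑ i ∈ Finset.range n, cut (it f i) w 1)
  rw [hlen] at hn'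
  rcases Nat.lt_or_ge n' n with h1 | h1
  · have := Finset.single_le_sum (f := fun i => cut (it f i) w 1) (fun i _ => Nat.zero_le _)
      (Finset.mem_range.2 h1)
    omega
  · obtain ⟨m', rfl⟩ := Nat.exists_eq_add_of_le h1
    rw [Nat.add_comm, cut_it_add hw.fix, h0, cut_zero] at hn'
    omega

theorem j4125_unb {f : ℕ → List ℕ} {w : ℕ → ℕ} {a kA m : ℕ} (hw : Ctx f w a kA) (hm : 1 ≤ m)
    (N : ℕ) : ∃ n, N < cut (it f (m * n)) w 1 := by
  have hlen : ∀ i, (it f i a).length = cut (it f i) w 1 := by
    intro i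
    unfold cut
    rw [win_one, im_singleton, hw.w0]
  obtain ⟨n, hn⟩ := hw.grow N
  rw [hlen] at hn
  refine ⟨n, ?_⟩
  have h1 : n ≤ m * n := Nat.le_mul_of_pos_left n hm
  obtain ⟨r, hr⟩ := Nat.exists_eq_add_of_le h1
  rw [hr, cut_it_add hw.fix]
  exact lt_of_lt_of_le hn (cut_mono _ _ (j4125_cut_pos hw r))

theorem exists_fix {k : ℕ} {h : ℕ → List ℕ} (hk : 0 < k) (h0 : (h 0).head? = some 0)
    (h1 : ∀ b < k, 1 ≤ (h b).length) (h2 : 2 ≤ (h 0).length)
    (hval : ∀ b < k, ∀ c ∈ h b, c < k) :
    ∃ v : ℕ → ℕ, v 0 = 0 ∧ (∀ i, v i < k) ∧ IsIm h v v ∧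
      (∀ n, (im h)^[n] [0] = win v 0 ((im h)^[n] [0]).length) ∧
      ∀ n, n + 1 ≤ ((im h)^[n] [0]).length := by
  have hsucc : ∀ n, (im h)^[n + 1] [0] = im h ((im h)^[n] [0]) := by
    intro n; rw [Function.iterate_succ_apply']
  have hA : ∀ n, (im h)^[n] [0] <+: (im h)^[n + 1] [0] := by
    intro n
    induction n with
    | zero =>
      rw [hsucc]
      simp only [Function.iterate_zero, id_eq, im_cons, im_nil, List.append_nil]
      cases hh : h 0 with
      | nil => rw [hh] at h0; simp at h0
      | cons c L =>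
        rw [hh] at h0
        simp only [List.head?_cons, Option.some.injEq] at h0
        subst h0
        exact ⟨L, rfl⟩
    | succ n ih =>
      rw [hsucc n, hsucc (n + 1)]
      exact im_prefix h ih
  have hB : ∀ n r, (im h)^[n] [0] <+: (im h)^[n + r] [0] := by
    intro n r
    induction r with
    | zero => exact List.prefix_refl _
    | succ r ih => exact ih.trans (hA (n + r))
  have hC : ∀ n, ∀ c ∈ (im h)^[n] [0], c < k := by
    intro n
    induction n with
    | zero => intro c hc; simp only [Function.iterate_zero, id_eq, List.mem_singleton] at hc; omega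
    | succ n ih =>
      intro c hc
      rw [hsucc, mem_im] at hc
      obtain ⟨b, hb, hc⟩ := hc
      exact hval b (ih b hb) c hc
  have hD : ∀ n, n + 1 ≤ ((im h)^[n] [0]).length := by
    intro n
    induction n with
    | zero => simp
    | succ n ih =>
      have hp := hB 0 n
      rw [Nat.zero_add] at hp
      obtain ⟨R, hR⟩ := hp
      simp only [Function.iterate_zero, id_eq, List.singleton_append] at hR
      have hCn := hC n
      rw [hsucc]
      rw [← hR] at ih hCn ⊢
      have h3 := length_im_pos h (L := R) (fun c hc => h1 c (hCn c (by simp [hc])))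
      rw [im_cons, List.length_append]
      simp only [List.length_cons] at ih
      omega
  have hE : ∀ n r t (h1 : t < ((im h)^[n] [0]).length),
      ((im h)^[n + r] [0]).getD t 0 = ((im h)^[n] [0])[t] := by
    intro n r t h1
    obtain ⟨R, hR⟩ := hB n r
    rw [← hR, List.getD_eq_getElem _ _ (by rw [List.length_append]; omega), List.getElem_append_left h1]
  have hF : ∀ n, (im h)^[n] [0] = win (fun t => ((im h)^[t] [0]).getD t 0) 0 ((im h)^[n] [0]).length := by
    intro n
    apply List.ext_getElem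
    · simp
    · intro t h3 h4
      rw [win_getElem]
      simp only [Nat.zero_add]
      rcases Nat.le_total n t with h5 | h5
      · obtain ⟨r, rfl⟩ := Nat.exists_eq_add_of_le h5
        rw [hE n r _ h3]
      · obtain ⟨r, rfl⟩ := Nat.exists_eq_add_of_le h5
        have h6 : t < ((im h)^[t] [0]).length := hD t
        rw [List.getD_eq_getElem _ _ h6, ← hE t r t h6, List.getD_eq_getElem _ _ h3]
  refine ⟨fun t => ((im h)^[t] [0]).getD t 0, ?_, ?_, ?_, hF, hD⟩
  · simp
  · intro i
    have h6 : i < ((im h)^[i] [0]).length := hD i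
    show ((im h)^[i] [0]).getD i 0 < k
    rw [List.getD_eq_getElem _ _ h6]
    exact hC i _ (List.getElem_mem h6)
  · intro n
    have h3 := win_prefix (fun t => ((im h)^[t] [0]).getD t 0) 0 n ((im h)^[n] [0]).length
      (by have := hD n; omega)
    rw [← hF n] at h3
    have h4 := im_prefix h h3
    rw [← hsucc, hF (n + 1)] at h4
    exact ((prefix_win_iff _).1 h4).2

theorem conj_im {f : ℕ → List ℕ} {w : ℕ → ℕ} {a kA m k : ℕ} (hw : Ctx f w a kA) (hm : 1 ≤ m)
    {Θ h : ℕ → List ℕ} {v : ℕ → ℕ} (hv0 : v 0 = 0) (hv : ∀ i, v i < k) (hvv : IsIm h v v)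
    (hpos : ∀ b < k, 1 ≤ (Θ b).length) (hconj : ∀ b < k, (im f)^[m] (Θ b) = im Θ (h b))
    (hΘ0 : (Θ 0).head? = some a) : IsIm Θ v w := by
  obtain ⟨y, hy⟩ := exists_isIm (φ := Θ) (x := v) (fun i => hpos _ (hv i))
  -- y is a fixed point of the m-th iterate
  have hfix : IsIm (it f m) y y := by
    intro n
    have h1 : win y 0 n <+: im Θ (win v 0 n) := by
      rw [hy n]
      exact win_prefix _ _ _ _ (le_cut (fun i => hpos _ (hv i)) n)
    have h2 := im_prefix (it f m) h1
    have h3 : im (it f m) (im Θ (win v 0 n)) = im Θ (im h (win v 0 n)) := by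
      rw [im_comp, im_comp]
      apply im_congr
      intro c hc
      obtain ⟨t, _, rfl⟩ := mem_win (x := v).1 hc
      rw [im_it]
      exact hconj _ (hv _)
    rw [h3, hvv n, hy] at h2
    exact ((prefix_win_iff _).1 h2).2
  have hy0 : y 0 = a := by
    have h1 := hy.letter 0
    rw [hv0, cut_zero] at h1
    cases hh : Θ 0 with
    | nil => rw [hh] at hΘ0; simp at hΘ0
    | cons c L =>
      rw [hh, List.length_cons, win_succ'] at h1
      rw [hh] at hΘ0
      simp only [List.head?_cons, Option.some.injEq] at hΘ0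
      have := (List.cons.inj h1).1
      omega
  have hyw : y = w := by
    funext t
    obtain ⟨n, hn⟩ := j4125_unb hw hm t
    have h1 := (hfix.iter n) 1
    have h2 := (hw.fix.iter (m * n)) 1
    have h3 : it (it f m) n = it f (m * n) := by funext c; exact it_it f m n c
    have h4 : cut (it (it f m) n) y 1 = cut (it f (m * n)) w 1 := by
      unfold cut
      rw [h3, win_one, win_one, hy0, hw.w0]
    rw [h4, h3, win_one, hy0] at h1
    rw [win_one, hw.w0, h1] at h2
    have h5 := win_eq_iff.1 h2 t hn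
    simpa using h5
  rw [← hyw]
  exact hy

end Pool.Agent.Helper180.QPM
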