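import Mathlib
import Pool.Agent.Helper180.QPM.Base
import Pool.Agent.Helper180.QPM.JLemC
import Pool.Agent.Helper180.QPM.JList
import Pool.Agent.Helper180.QPM.JMarked

set_option autoImplicit false

namespace Pool.Agent.Helper180.QPM


theorem phi_isIm {Θ h : ℕ → List ℕ} {v w : ℕ → ℕ} (hvv : IsIm h v v) (hvw : IsIm Θ v w) (n : ℕ) :
    IsIm (phi Θ h n) v w := by
  induction n with
  | zero => exact hvw
  | succ n ih => exact hvv.comp ih

theorem phi_pos {k : ℕ} {Θ h : ℕ → List ℕ} (hpos : ∀ b < k, 1 ≤ (Θ b).length)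
    (hval : ∀ b < k, ∀ c ∈ h b, c < k) (h2 : ∀ b < k, 2 ≤ (h b).length) (n : ℕ) :
    ∀ b < k, 1 ≤ (phi Θ h n b).length := by
  induction n with
  | zero => exact hpos
  | succ n ih =>
    intro b hb
    have h3 := length_im_pos (phi Θ h n) (L := h b) (fun c hc => ih c (hval b hb c hc))
    have h4 := h2 b hb
    show 1 ≤ (im (phi Θ h n) (h b)).length
    omega

theorem two_mul_le_cut {h : ℕ → List ℕ} {v : ℕ → ℕ} (h2 : ∀ i, 2 ≤ (h (v i)).length) (i : ℕ) :
    2 * i ≤ cut h v i := by
  induction i with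
  | zero => simp
  | succ i ih =>
    rw [cut_succ]
    have := h2 i
    omega

theorem pow_le_cut {k : ℕ} {Θ h : ℕ → List ℕ} {v : ℕ → ℕ} (hpos : ∀ b < k, 1 ≤ (Θ b).length)
    (h2 : ∀ b < k, 2 ≤ (h b).length) (hv : ∀ i, v i < k)
    (hvv : IsIm h v v) (n : ℕ) : ∀ i, 2 ^ n * i ≤ cut (phi Θ h n) v i := by
  induction n with
  | zero =>
    intro i
    have h3 := le_cut (φ := Θ) (x := v) (fun i => hpos _ (hv i)) i
    show 2 ^ 0 * i ≤ cut Θ v i
    omega
  | succ n ih =>
    intro i
    have h3 : cut (phi Θ h (n + 1)) v i = cut (phi Θ h n) v (cut h v i) := cut_comp hvv i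
    rw [h3]
    have h4 := ih (cut h v i)
    have h5 := two_mul_le_cut (h := h) (v := v) (fun i => h2 _ (hv i)) i
    calc 2 ^ (n + 1) * i = 2 ^ n * (2 * i) := by ring
      _ ≤ 2 ^ n * cut h v i := Nat.mul_le_mul_left _ h5
      _ ≤ _ := h4

theorem not_cov_step {k K r q : ℕ} {Θ h : ℕ → List ℕ} {P S : List (List ℕ)}
    {Inv : List (List ℕ × List ℕ)} {v w : ℕ → ℕ} (hΘ : Marked k Θ q P) (hh : Marked k h r S)
    (hval : ∀ b < k, ∀ c ∈ h b, c < k) (h2 : ∀ b < k, 2 ≤ (h b).length)
    (hq : q + 1 ≤ K) (hr : r + 1 ≤ K) (hInv : InvOK k K Θ h Inv)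
    (hv : ∀ i, v i < k) (hvv : IsIm h v v) (hvw : IsIm Θ v w)
    (gap : ∀ l < r, ∀ T : List ℕ → Prop, (∀ x, T x → x.length = 2 * K ∧ ∀ c ∈ x, c < k) →
      T (win v l (2 * K)) → (∃ x, T x ∧ x.head? ≠ (win v l (2 * K)).head?) →
      GapOK K v Inv l T) {u : ℕ} (hcov : Cov w u) (n : ℕ)
    (ihn : ∀ j, win w j u = win w 0 u → ∃ i, j = cut (phi Θ h n) v i) :
    ∀ j, win w j u = win w 0 u → ∃ i, j = cut (phi Θ h (n + 1)) v i := by
  classical
  intro j0 hj0
  have hF : IsIm (phi Θ h n) v w := phi_isIm hvv hvw n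
  have hpos := phi_pos (k := k) (Θ := Θ) (h := h) hΘ.pos hval h2 n
  have hsucc : ∀ i, cut (phi Θ h (n + 1)) v i = cut (phi Θ h n) v (cut h v i) :=
    fun i => cut_comp hvv i
  generalize hF0 : phi Θ h n = F at *
  -- the occurrences
  by_contra hcon
  obtain ⟨ms, hms⟩ := ihn j0 hj0
  have hms1 : win w (cut F v ms) u = win w 0 u := by rw [← hms]; exact hj0
  have hms2 : ∀ i, ms ≠ cut h v i := by
    intro i hi
    exact hcon ⟨i, by rw [hsucc, ← hi, hms]⟩
  have hms3 : win v ms r ∉ S := by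
    intro hin
    obtain ⟨i, hi⟩ := hh.cuts hv hvv hin
    exact hms2 i hi
  have hms4 : win v 0 r ∈ S := by
    have := hh.start hv hvv 0
    simpa using this
  have hms5 : win v ms r ≠ win v 0 r := fun he => hms3 (he ▸ hms4)
  have hms6 : ∃ t < r, v (ms + t) ≠ v t := by
    by_contra hc
    push Not at hc
    apply hms5
    rw [win_eq_iff]
    intro t ht
    rw [Nat.zero_add]
    exact hc t ht
  obtain ⟨t0, ht0, ht0'⟩ := hms6
  have hex : ∃ t, ∃ m, win w (cut F v m) u = win w 0 u ∧ v (m + t) ≠ v t := ⟨t0, ms, hms1, ht0'⟩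
  obtain ⟨l, ⟨mp, hmp, hmpl⟩, hlmin⟩ :
      ∃ l, (∃ m, win w (cut F v m) u = win w 0 u ∧ v (m + l) ≠ v l) ∧
        ∀ t < l, ¬ ∃ m, win w (cut F v m) u = win w 0 u ∧ v (m + t) ≠ v t :=
    ⟨Nat.find hex, Nat.find_spec hex, fun t ht => Nat.find_min hex ht⟩
  have hlr : l < r := by
    by_contra hc
    exact hlmin t0 (by omega) ⟨ms, hms1, ht0'⟩
  have hwl : ∀ m, win w (cut F v m) u = win w 0 u → win v m l = win v 0 l := by
    intro m hm
    rw [win_eq_iff]
    intro t ht
    rw [Nat.zero_add]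
    by_contra hc
    exact hlmin t ht ⟨m, hm, hc⟩
  -- cut of m + l
  have hcutl : ∀ m, win v m l = win v 0 l → cut F v (m + l) = cut F v m + cut F v l := by
    intro m hm
    rw [cut_add, hm]
    rfl
  have hagree : ∀ m, win v m l = win v 0 l →
      win w (cut F v m) (cut F v l) = win w 0 (cut F v l) := by
    intro m hm
    have h3 := hF.agree (hF.shift m) (n := l) (by rw [win_sh, Nat.add_zero, hm])
    rw [win_sh, Nat.add_zero] at h3
    exact h3.symm
  -- divergence
  have hdiv : ∀ a b, v a ≠ v b → ∃ t < cut F (sh v a) K,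
      w (cut F v a + t) ≠ w (cut F v b + t) := by
    intro a b hab
    have h3 := lemC (k := k) (K := K) (r := r) (q := q) hΘ hh hval h2 hq hr n
      (x := sh v a) (x' := sh v b) (y := sh w (cut F v a)) (y' := sh w (cut F v b))
      (fun i => hv _) (fun i => hv _) (by rw [hF0]; exact hF.shift a) (by rw [hF0]; exact hF.shift b)
      (by simpa [sh] using hab)
    rw [hF0] at h3
    exact h3
  have hex2 : ∃ t, ∃ m, win w (cut F v m) u = win w 0 u ∧ w (cut F v m + t) ≠ w t := by
    obtain ⟨t, ht, ht'⟩ := hdiv (mp + l) l hmpl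
    refine ⟨cut F v l + t, mp, hmp, ?_⟩
    rw [hcutl mp (hwl mp hmp)] at ht'
    rw [← Nat.add_assoc]
    exact ht'
  obtain ⟨u', ⟨mq, hmq, hmqu⟩, humin⟩ :
      ∃ l, (∃ m, win w (cut F v m) u = win w 0 u ∧ w (cut F v m + l) ≠ w l) ∧
        ∀ t < l, ¬ ∃ m, win w (cut F v m) u = win w 0 u ∧ w (cut F v m + t) ≠ w t :=
    ⟨Nat.find hex2, Nat.find_spec hex2, fun t ht => Nat.find_min hex2 ht⟩
  have hwu : ∀ m, win w (cut F v m) u = win w 0 u → ∀ t < u', w (cut F v m + t) = w t := by
    intro m hm t ht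
    by_contra hc
    exact humin t ht ⟨m, hm, hc⟩
  have huu : u ≤ u' := by
    by_contra hc
    push Not at hc
    apply hmqu
    have := (win_eq_iff.1 hmq) u' hc
    rwa [Nat.zero_add] at this
  have hlu : cut F v l ≤ u' := by
    by_contra hc
    push Not at hc
    apply hmqu
    have := (win_eq_iff.1 (hagree mq (hwl mq hmq))) u' hc
    rwa [Nat.zero_add] at this
  obtain ⟨e, he⟩ := Nat.exists_eq_add_of_le hlu
  let E : List ℕ := win w (cut F v l) e
  let T : List ℕ → Prop := fun x => (x.length = 2 * K ∧ ∀ c ∈ x, c < k) ∧ E <+: im F x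
  have hreadE : ∀ m, win w (cut F v m) u = win w 0 u → win w (cut F v (m + l)) e = E := by
    intro m hm
    show _ = win w (cut F v l) e
    rw [win_eq_iff]
    intro t ht
    rw [hcutl m (hwl m hm), Nat.add_assoc]
    exact hwu m hm _ (by omega)
  have hO0 : win w (cut F v 0) u = win w 0 u := by simp
  -- (i')
  have hi' : ∀ m, win w (cut F v m) u = win w 0 u → e < (im F (win v (m + l) K)).length := by
    intro m hm
    obtain ⟨m', hm', hne⟩ : ∃ m', win w (cut F v m') u = win w 0 u ∧ v (m + l) ≠ v (m' + l) := by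
      by_cases hc : v (m + l) = v l
      · exact ⟨mp, hmp, fun h => hmpl (by rw [← h, hc])⟩
      · exact ⟨0, hO0, by rwa [Nat.zero_add]⟩
    obtain ⟨t, ht, ht'⟩ := hdiv _ _ hne
    have h3 : cut F (sh v (m + l)) K = (im F (win v (m + l) K)).length := by
      unfold cut
      rw [win_sh, Nat.add_zero]
    rw [← h3]
    by_contra hc
    push Not at hc
    apply ht'
    have h4 := (win_eq_iff.1 ((hreadE m hm).trans (hreadE m' hm').symm)) t (by omega)
    exact h4
  have himW : ∀ a b, im F (win v a b) = win w (cut F v a) (im F (win v a b)).length :=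
    fun a b => hF.imWin a b
  have hi : ∀ m, win w (cut F v m) u = win w 0 u → T (win v (m + l) (2 * K)) := by
    intro m hm
    refine ⟨⟨by simp, ?_⟩, ?_⟩
    · intro c hc
      obtain ⟨t, _, rfl⟩ := mem_win v |>.1 hc
      exact hv _
    · rw [← hreadE m hm, himW]
      apply win_prefix
      have h3 := hi' m hm
      have h4 := (im_prefix F (win_prefix v (m + l) K (2 * K) (by omega))).length_le
      omega
  have hii : ∀ m, OccT v l (2 * K) T m → win w (cut F v m) u = win w 0 u := by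
    rintro m ⟨hm1, hm2, hm3⟩
    rw [himW, prefix_win_iff] at hm3
    have hm4 : win w (cut F v l) e = win w (cut F v (m + l)) e := by
      have h3 := hm3.2
      have h4 : E.length = e := by simp [E]
      rw [h4] at h3
      exact h3
    have h5 : win w (cut F v m) u' = win w 0 u' := by
      rw [he, win_add, win_add, hagree m hm1, Nat.zero_add, ← hcutl m hm1, hm4]
    have h6 := congrArg (List.take u) h5
    rwa [take_win _ _ _ _ huu, take_win _ _ _ _ huu] at h6
  have hK : 1 ≤ K := by omega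
  have hhead : ∀ a, (win v a (2 * K)).head? = some (v a) := by
    intro a
    obtain ⟨K', hK'⟩ := Nat.exists_eq_add_of_le hK
    have : 2 * K = (2 * K' + 1) + 1 := by omega
    rw [this, win_succ']
    rfl
  obtain ⟨m1, m2, hm12, hocc1, hocc2, hbet, hgap⟩ := gap l hlr T (fun x hx => hx.1)
    (by have := hi 0 hO0; rwa [Nat.zero_add] at this)
    ⟨win v (mp + l) (2 * K), hi mp hmp, by
      rw [hhead, hhead]
      intro h
      exact hmpl (Option.some.inj h)⟩
  have hO1 := hii m1 hocc1
  obtain ⟨d, hd⟩ := Nat.exists_eq_add_of_lt hm12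
  -- claim
  have hclaim : e < (im F (win v (m1 + l) (m2 - (m1 + l)))).length := by
    rcases hgap with hg | ⟨x, hTx, j, hj, hxj, hinv⟩
    · have h3 := hi' m1 hO1
      have h4 := (im_prefix F (win_prefix v (m1 + l) K (m2 - (m1 + l)) hg)).length_le
      omega
    · by_contra hc
      push Not at hc
      obtain ⟨hz1, hx1, hx2, hz2, hhd, -⟩ := hInv _ hinv
      simp only at hz1 hx1 hx2 hz2 hhd
      have himm := imm hΘ hh hval h2 hq hr hInv n _ hinv
      rw [hF0] at himm
      simp only at himm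
      have hsplit : win v (m1 + l) (m2 - (m1 + l)) =
          x.take j ++ win v (m1 + l + j) (m2 - (m1 + l + j)) := by
        rw [← hxj, ← win_add]
        congr 1
        omega
      have h3 : im F (win v (m1 + l) (m2 - (m1 + l))) <+: im F x := by
        refine List.IsPrefix.trans ?_ hTx.2
        rw [← hreadE m1 hO1, himW]
        exact win_prefix _ _ _ _ hc
      have h4 : im F (win v (m1 + l + j) (m2 - (m1 + l + j))) <+: im F (x.drop j) := by
        have h5 : im F x = im F (x.take j) ++ im F (x.drop j) := by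
          rw [← im_append, List.take_append_drop]
        rw [hsplit, im_append, h5] at h3
        exact (List.prefix_append_right_inj _).1 h3
      have hxK : K ≤ (x.drop j).length := by
        rw [List.length_take] at hx2
        omega
      have hhd' : (win v (m1 + l + j) (m2 - (m1 + l + j))).head? ≠ (x.drop j).head? := by
        intro hcc
        apply hhd
        rw [hcc, List.head?_take]
        rw [if_neg (by omega)]
      have h6 := lemC_list hΘ hh hval h2 hq hr n (z := win v (m1 + l + j) (m2 - (m1 + l + j)))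
        (x := x.drop j) (M := im F (win v (m1 + l + j) (m2 - (m1 + l + j)))) hz1
        (fun c hc => hTx.1.2 c (List.mem_of_mem_drop hc)) hz2 hxK hhd'
        (by rw [hF0]) (by rw [hF0]; exact h4)
      rw [hF0] at h6
      apply himm
      exact List.prefix_of_prefix_length_le h4 (im_prefix F (List.take_prefix _ _)) h6.le
  have hcut2 : cut F v m2 = cut F v m1 + cut F v l +
      (im F (win v (m1 + l) (m2 - (m1 + l)))).length := by
    have h3 : m2 = (m1 + l) + (m2 - (m1 + l)) := by omega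
    have h4 := cut_add F v (m1 + l) (m2 - (m1 + l))
    rw [← h3] at h4
    rw [h4, hcutl m1 hocc1.1]
  obtain ⟨j, hj1, hj2, hj3⟩ := hcov (cut F v m2 - 1)
  obtain ⟨m, hm⟩ := ihn j hj3
  rw [hm] at hj1 hj2 hj3
  have hmm2 : m < m2 := by
    by_contra hc
    push Not at hc
    have := cut_mono F v hc
    omega
  have hmm1 : m ≤ m1 := by
    by_contra hc
    push Not at hc
    exact hbet m hc hmm2 ⟨hwl m hj3, hi m hj3⟩
  have := cut_mono F v hmm1
  omega

theorem not_cov {k K r q : ℕ} {Θ h : ℕ → List ℕ} {P S : List (List ℕ)}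
    {Inv : List (List ℕ × List ℕ)} {v w : ℕ → ℕ} (hΘ : Marked k Θ q P) (hh : Marked k h r S)
    (hval : ∀ b < k, ∀ c ∈ h b, c < k) (h2 : ∀ b < k, 2 ≤ (h b).length)
    (hq : q + 1 ≤ K) (hr : r + 1 ≤ K) (hInv : InvOK k K Θ h Inv)
    (hv : ∀ i, v i < k) (hvv : IsIm h v v) (hvw : IsIm Θ v w)
    (gap : ∀ l < r, ∀ T : List ℕ → Prop, (∀ x, T x → x.length = 2 * K ∧ ∀ c ∈ x, c < k) →
      T (win v l (2 * K)) → (∃ x, T x ∧ x.head? ≠ (win v l (2 * K)).head?) →
      GapOK K v Inv l T) {u : ℕ} (hu : q ≤ u) : ¬ Cov w u := by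
  intro hcov
  have hall : ∀ n, ∀ j, win w j u = win w 0 u → ∃ i, j = cut (phi Θ h n) v i := by
    intro n
    induction n with
    | zero =>
      intro j hj
      have h3 : win w j q ∈ P := by
        have h4 := congrArg (List.take q) hj
        rw [take_win _ _ _ _ hu, take_win _ _ _ _ hu] at h4
        rw [h4]
        have := hΘ.start hv hvw 0
        simpa using this
      exact hΘ.cuts hv hvw h3
    | succ n ih =>
      exact not_cov_step hΘ hh hval h2 hq hr hInv hv hvv hvw gap hcov n ih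
  obtain ⟨j, hj1, hj2, hj3⟩ := hcov u
  obtain ⟨i, hi⟩ := hall u j hj3
  have h3 := pow_le_cut (k := k) (Θ := Θ) (h := h) hΘ.pos h2 hv hvv u i
  have hi0 : 1 ≤ i := by
    rcases Nat.eq_zero_or_pos i with h0 | h0
    · rw [h0] at hi
      simp at hi
      omega
    · exact h0
  have h4 : 2 ^ u * 1 ≤ 2 ^ u * i := Nat.mul_le_mul_left _ hi0
  have h5 : u < 2 ^ u := Nat.lt_two_pow_self
  omega

end Pool.Agent.Helper180.QPM
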