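import Mathlib
import Pool.Agent.Helper180.QPM.Base

set_option autoImplicit false

namespace Pool.Agent.Helper180.QPM

/-! ### computability -/

section general

variable {α β γ σ : Type*} [Primcodable α] [Primcodable β] [Primcodable γ] [Primcodable σ]

theorem pp_forall {f : α → List β} {P : α → β → Prop} (hf : Primrec f)
    (hP : PrimrecPred fun p : α × β => P p.1 p.2) : PrimrecPred fun a => ∀ b ∈ f a, P a b := by
  have h1 : PrimrecRel fun (b : β) (a : α) => P a b :=
    PrimrecPred.comp hP (Primrec.pair Primrec.snd Primrec.fst)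
  exact h1.forall_mem_list.comp hf Primrec.id

theorem pp_exists {f : α → List β} {P : α → β → Prop} (hf : Primrec f)
    (hP : PrimrecPred fun p : α × β => P p.1 p.2) : PrimrecPred fun a => ∃ b ∈ f a, P a b := by
  have h1 : PrimrecRel fun (b : β) (a : α) => P a b :=
    PrimrecPred.comp hP (Primrec.pair Primrec.snd Primrec.fst)
  exact h1.exists_mem_list.comp hf Primrec.id

theorem pp_imp {P Q : α → Prop} (hP : PrimrecPred P) (hQ : PrimrecPred Q) :
    PrimrecPred fun a => (P a → Q a) := by
  classical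
  refine (hP.not.or hQ).of_eq fun a => ?_
  tauto

theorem pp_forall_lt {f : α → ℕ} {P : α → ℕ → Prop} (hf : Primrec f)
    (hP : PrimrecPred fun p : α × ℕ => P p.1 p.2) : PrimrecPred fun a => ∀ b < f a, P a b :=
  (pp_forall (Primrec.list_range.comp hf) hP).of_eq (fun a => by simp)

theorem pp_exists_lt {f : α → ℕ} {P : α → ℕ → Prop} (hf : Primrec f)
    (hP : PrimrecPred fun p : α × ℕ => P p.1 p.2) : PrimrecPred fun a => ∃ b < f a, P a b :=
  (pp_exists (Primrec.list_range.comp hf) hP).of_eq (fun a => by simp)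

end general

theorem mor_primrec : Primrec₂ mor := Primrec.list_getD []

/-- invalid input, or bounded orbit -/
def CertI (z : (List (List ℕ) × ℕ) × ℕ) : Prop :=
  ¬ (z.1.2 < z.1.1.length ∧ (∀ l ∈ z.1.1, ∀ c ∈ l, c < z.1.1.length) ∧
    (mor z.1.1 z.1.2).head? = some z.1.2) ∨
  (im (mor z.1.1))^[z.2] [z.1.2] = (im (mor z.1.1))^[z.2 + 1] [z.1.2]

end Pool.Agent.Helper180.QPM
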