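import Mathlib
import Pool.Agent.Helper180.QPM.Base
import Pool.Agent.Helper180.QPM.Prim0

set_option autoImplicit false

namespace Pool.Agent.Helper180.QPM


theorem im_primrec : Primrec (fun z : List (List ℕ) × List ℕ => im (mor z.1) z.2) := by
  unfold im
  exact Primrec.list_flatMap Primrec.snd
    (mor_primrec.comp (Primrec.fst.comp Primrec.fst) Primrec.snd).to₂

theorem iter_primrec : Primrec (fun z : List (List ℕ) × ℕ × List ℕ =>
    (im (mor z.1))^[z.2.1] z.2.2) := by
  refine Primrec.nat_iterate (Primrec.fst.comp Primrec.snd) (Primrec.snd.comp Primrec.snd) ?_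
  exact (im_primrec.comp (Primrec.pair (Primrec.fst.comp Primrec.fst) Primrec.snd)).to₂

theorem words_primrec : Primrec₂ words := by
  have h1 : Primrec₂ fun (k : ℕ) (p : ℕ × List (List ℕ)) =>
      p.2.flatMap fun L => (List.range k).map fun c => c :: L := by
    refine Primrec.list_flatMap (Primrec.snd.comp Primrec.snd) ?_
    refine Primrec.list_map (Primrec.list_range.comp (Primrec.fst.comp Primrec.fst)) ?_
    exact (Primrec.list_cons.comp Primrec.snd (Primrec.snd.comp Primrec.fst)).to₂
  have h2 := Primrec.nat_rec (Primrec.const (α := ℕ) ([[]] : List (List ℕ))) h1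
  refine h2.of_eq fun k n => ?_
  induction n with
  | zero => rfl
  | succ n ih =>
    simp only [words] at ih ⊢
    rw [← ih]

theorem subs_primrec : Primrec subs := by
  have h1 : Primrec₂ fun (_ : List (List ℕ)) (p : List ℕ × List (List (List ℕ))) =>
      p.2 ++ p.2.map (fun T => p.1 :: T) := by
    refine Primrec.list_append.comp (Primrec.snd.comp Primrec.snd) ?_
    refine Primrec.list_map (Primrec.snd.comp Primrec.snd) ?_
    exact (Primrec.list_cons.comp (Primrec.fst.comp (Primrec.snd.comp Primrec.fst))
      Primrec.snd).to₂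
  have h2 := Primrec.list_foldr (Primrec.id (α := List (List ℕ)))
    (Primrec.const ([[]] : List (List (List ℕ)))) h1
  exact h2.of_eq fun l => rfl

theorem prefix_primrec : PrimrecPred (fun z : List ℕ × List ℕ => z.1 <+: z.2) := by
  have h : PrimrecPred (fun z : List ℕ × List ℕ => z.1 = z.2.take z.1.length) :=
    Primrec.eq.comp Primrec.fst
      (Primrec.list_take.comp (Primrec.list_length.comp Primrec.fst) Primrec.snd)
  exact h.of_eq fun z => List.prefix_iff_eq_take.symm

end Pool.Agent.Helper180.QPM
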