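import Mathlib
import Pool.Agent.Helper180.QPM.Base
import Pool.Agent.Helper180.QPM.Prim0
import Pool.Agent.Helper180.QPM.JPrim1

set_option autoImplicit false

namespace Pool.Agent.Helper180.QPM


theorem pp_mem {α β : Type*} [Primcodable α] [Primcodable β] {f : α → β} {g : α → List β}
    (hf : Primrec f) (hg : Primrec g) : PrimrecPred fun a => f a ∈ g a := by
  have h1 : PrimrecPred fun a => ∃ t ∈ g a, t = f a :=
    pp_exists (P := fun a t => t = f a) hg (Primrec.eq.comp Primrec.snd (hf.comp Primrec.fst))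
  exact h1.of_eq fun a => by simp

theorem mk_ne : PrimrecPred (fun z : List (List ℕ) × ℕ × List (List ℕ) => z.2.2 ≠ []) := by
  have hS : Primrec fun z : List (List ℕ) × ℕ × List (List ℕ) => z.2.2 :=
    Primrec.snd.comp Primrec.snd
  have h := (PrimrecRel.comp Primrec.eq hS (Primrec.const ([] : List (List ℕ)))).not
  exact h

theorem mk_len : PrimrecPred (fun z : List (List ℕ) × ℕ × List (List ℕ) =>
    ∀ s ∈ z.2.2, s.length = z.2.1) := by
  have hS : Primrec fun z : List (List ℕ) × ℕ × List (List ℕ) => z.2.2 :=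
    Primrec.snd.comp Primrec.snd
  have hr : Primrec fun z : List (List ℕ) × ℕ × List (List ℕ) => z.2.1 :=
    Primrec.fst.comp Primrec.snd
  have h1 : Primrec fun q : (List (List ℕ) × ℕ × List (List ℕ)) × List ℕ => q.2.length :=
    Primrec.list_length.comp Primrec.snd
  have h2 : Primrec fun q : (List (List ℕ) × ℕ × List (List ℕ)) × List ℕ => q.1.2.1 :=
    hr.comp Primrec.fst
  exact pp_forall (P := fun z s => s.length = z.2.1) hS (PrimrecRel.comp Primrec.eq h1 h2)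

theorem mk_pos : PrimrecPred (fun z : List (List ℕ) × ℕ × List (List ℕ) =>
    ∀ b < z.1.length, 1 ≤ (mor z.1 b).length) := by
  have hk : Primrec fun z : List (List ℕ) × ℕ × List (List ℕ) => z.1.length :=
    Primrec.list_length.comp Primrec.fst
  have hF : Primrec fun q : (List (List ℕ) × ℕ × List (List ℕ)) × ℕ => q.1.1 :=
    Primrec.fst.comp Primrec.fst
  have h1 : Primrec fun q : (List (List ℕ) × ℕ × List (List ℕ)) × ℕ => mor q.1.1 q.2 :=
    Primrec₂.comp mor_primrec hF Primrec.snd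
  have h2 : Primrec fun q : (List (List ℕ) × ℕ × List (List ℕ)) × ℕ => (mor q.1.1 q.2).length :=
    Primrec.list_length.comp h1
  exact pp_forall_lt (P := fun z b => 1 ≤ (mor z.1 b).length) hk
    (PrimrecRel.comp Primrec.nat_le (Primrec.const 1) h2)

theorem mk_head : PrimrecPred (fun z : List (List ℕ) × ℕ × List (List ℕ) =>
    ∀ b < z.1.length, ∀ s ∈ z.2.2, (mor z.1 b ++ s).take z.2.1 ∈ z.2.2) := by
  have hk : Primrec fun z : List (List ℕ) × ℕ × List (List ℕ) => z.1.length :=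
    Primrec.list_length.comp Primrec.fst
  have hS : Primrec fun z : List (List ℕ) × ℕ × List (List ℕ) => z.2.2 :=
    Primrec.snd.comp Primrec.snd
  have hr : Primrec fun z : List (List ℕ) × ℕ × List (List ℕ) => z.2.1 :=
    Primrec.fst.comp Primrec.snd
  have hF : Primrec fun q : (List (List ℕ) × ℕ × List (List ℕ)) × ℕ => q.1.1 :=
    Primrec.fst.comp Primrec.fst
  have h1 : Primrec fun q : (List (List ℕ) × ℕ × List (List ℕ)) × ℕ => mor q.1.1 q.2 :=
    Primrec₂.comp mor_primrec hF Primrec.snd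
  have h2 : Primrec fun q : ((List (List ℕ) × ℕ × List (List ℕ)) × ℕ) × List ℕ =>
      mor q.1.1.1 q.1.2 := h1.comp Primrec.fst
  have h3 : Primrec fun q : ((List (List ℕ) × ℕ × List (List ℕ)) × ℕ) × List ℕ =>
      mor q.1.1.1 q.1.2 ++ q.2 := Primrec₂.comp Primrec.list_append h2 Primrec.snd
  have h4 : Primrec fun q : ((List (List ℕ) × ℕ × List (List ℕ)) × ℕ) × List ℕ => q.1.1.2.1 :=
    hr.comp (Primrec.fst.comp Primrec.fst)
  have h5 : Primrec fun q : ((List (List ℕ) × ℕ × List (List ℕ)) × ℕ) × List ℕ =>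
      (mor q.1.1.1 q.1.2 ++ q.2).take q.1.1.2.1 := Primrec₂.comp Primrec.list_take h4 h3
  have h6 : Primrec fun q : ((List (List ℕ) × ℕ × List (List ℕ)) × ℕ) × List ℕ => q.1.1.2.2 :=
    hS.comp (Primrec.fst.comp Primrec.fst)
  have h7 : Primrec fun q : (List (List ℕ) × ℕ × List (List ℕ)) × ℕ => q.1.2.2 :=
    hS.comp Primrec.fst
  have h8 : PrimrecPred fun q : (List (List ℕ) × ℕ × List (List ℕ)) × ℕ =>
      ∀ s ∈ q.1.2.2, (mor q.1.1 q.2 ++ s).take q.1.2.1 ∈ q.1.2.2 :=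
    pp_forall (P := fun (q : (List (List ℕ) × ℕ × List (List ℕ)) × ℕ) (s : List ℕ) =>
      (mor q.1.1 q.2 ++ s).take q.1.2.1 ∈ q.1.2.2) h7 (pp_mem h5 h6)
  exact pp_forall_lt (P := fun (z : List (List ℕ) × ℕ × List (List ℕ)) (b : ℕ) =>
    ∀ s ∈ z.2.2, (mor z.1 b ++ s).take z.2.1 ∈ z.2.2) hk h8

theorem mk_inner : PrimrecPred (fun z : List (List ℕ) × ℕ × List (List ℕ) =>
    ∀ b < z.1.length, ∀ s ∈ z.2.2, ∀ j < (mor z.1 b).length, 0 < j →
      ((mor z.1 b ++ s).drop j).take z.2.1 ∉ z.2.2) := by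
  have hk : Primrec fun z : List (List ℕ) × ℕ × List (List ℕ) => z.1.length :=
    Primrec.list_length.comp Primrec.fst
  have hS : Primrec fun z : List (List ℕ) × ℕ × List (List ℕ) => z.2.2 :=
    Primrec.snd.comp Primrec.snd
  have hr : Primrec fun z : List (List ℕ) × ℕ × List (List ℕ) => z.2.1 :=
    Primrec.fst.comp Primrec.snd
  have hF : Primrec fun q : (List (List ℕ) × ℕ × List (List ℕ)) × ℕ => q.1.1 :=
    Primrec.fst.comp Primrec.fst
  have h1 : Primrec fun q : (List (List ℕ) × ℕ × List (List ℕ)) × ℕ => mor q.1.1 q.2 :=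
    Primrec₂.comp mor_primrec hF Primrec.snd
  have h2 : Primrec fun q : ((List (List ℕ) × ℕ × List (List ℕ)) × ℕ) × List ℕ =>
      mor q.1.1.1 q.1.2 := h1.comp Primrec.fst
  have h2l : Primrec fun q : ((List (List ℕ) × ℕ × List (List ℕ)) × ℕ) × List ℕ =>
      (mor q.1.1.1 q.1.2).length := Primrec.list_length.comp h2
  have h3 : Primrec fun q : ((List (List ℕ) × ℕ × List (List ℕ)) × ℕ) × List ℕ =>
      mor q.1.1.1 q.1.2 ++ q.2 := Primrec₂.comp Primrec.list_append h2 Primrec.snd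
  have h4 : Primrec fun q : ((List (List ℕ) × ℕ × List (List ℕ)) × ℕ) × List ℕ => q.1.1.2.1 :=
    hr.comp (Primrec.fst.comp Primrec.fst)
  have h6 : Primrec fun q : ((List (List ℕ) × ℕ × List (List ℕ)) × ℕ) × List ℕ => q.1.1.2.2 :=
    hS.comp (Primrec.fst.comp Primrec.fst)
  have g3 : Primrec fun q : (((List (List ℕ) × ℕ × List (List ℕ)) × ℕ) × List ℕ) × ℕ =>
      mor q.1.1.1.1 q.1.1.2 ++ q.1.2 := h3.comp Primrec.fst
  have g4 : Primrec fun q : (((List (List ℕ) × ℕ × List (List ℕ)) × ℕ) × List ℕ) × ℕ =>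
      q.1.1.1.2.1 := h4.comp Primrec.fst
  have g6 : Primrec fun q : (((List (List ℕ) × ℕ × List (List ℕ)) × ℕ) × List ℕ) × ℕ =>
      q.1.1.1.2.2 := h6.comp Primrec.fst
  have g7 : Primrec fun q : (((List (List ℕ) × ℕ × List (List ℕ)) × ℕ) × List ℕ) × ℕ =>
      (mor q.1.1.1.1 q.1.1.2 ++ q.1.2).drop q.2 := Primrec₂.comp Primrec.list_drop Primrec.snd g3
  have g8 : Primrec fun q : (((List (List ℕ) × ℕ × List (List ℕ)) × ℕ) × List ℕ) × ℕ =>
      ((mor q.1.1.1.1 q.1.1.2 ++ q.1.2).drop q.2).take q.1.1.1.2.1 :=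
    Primrec₂.comp Primrec.list_take g4 g7
  have g9 : PrimrecPred fun q : (((List (List ℕ) × ℕ × List (List ℕ)) × ℕ) × List ℕ) × ℕ =>
      ((mor q.1.1.1.1 q.1.1.2 ++ q.1.2).drop q.2).take q.1.1.1.2.1 ∉ q.1.1.1.2.2 :=
    (pp_mem g8 g6).not
  have g10 : PrimrecPred fun q : (((List (List ℕ) × ℕ × List (List ℕ)) × ℕ) × List ℕ) × ℕ =>
      0 < q.2 := PrimrecRel.comp Primrec.nat_lt (Primrec.const 0) Primrec.snd
  have g11 : PrimrecPred fun q : (((List (List ℕ) × ℕ × List (List ℕ)) × ℕ) × List ℕ) × ℕ =>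
      (0 < q.2 → ((mor q.1.1.1.1 q.1.1.2 ++ q.1.2).drop q.2).take q.1.1.1.2.1 ∉ q.1.1.1.2.2) :=
    pp_imp g10 g9
  have g12 : PrimrecPred fun q : ((List (List ℕ) × ℕ × List (List ℕ)) × ℕ) × List ℕ =>
      ∀ j < (mor q.1.1.1 q.1.2).length, (0 < j →
        ((mor q.1.1.1 q.1.2 ++ q.2).drop j).take q.1.1.2.1 ∉ q.1.1.2.2) :=
    pp_forall_lt (P := fun (q : ((List (List ℕ) × ℕ × List (List ℕ)) × ℕ) × List ℕ) (j : ℕ) =>
      (0 < j → ((mor q.1.1.1 q.1.2 ++ q.2).drop j).take q.1.1.2.1 ∉ q.1.1.2.2)) h2l g11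
  have h7 : Primrec fun q : (List (List ℕ) × ℕ × List (List ℕ)) × ℕ => q.1.2.2 :=
    hS.comp Primrec.fst
  have g13 : PrimrecPred fun q : (List (List ℕ) × ℕ × List (List ℕ)) × ℕ =>
      ∀ s ∈ q.1.2.2, ∀ j < (mor q.1.1 q.2).length, (0 < j →
        ((mor q.1.1 q.2 ++ s).drop j).take q.1.2.1 ∉ q.1.2.2) :=
    pp_forall (P := fun (q : (List (List ℕ) × ℕ × List (List ℕ)) × ℕ) (s : List ℕ) =>
      ∀ j < (mor q.1.1 q.2).length, (0 < j →
        ((mor q.1.1 q.2 ++ s).drop j).take q.1.2.1 ∉ q.1.2.2)) h7 g12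
  exact pp_forall_lt (P := fun (z : List (List ℕ) × ℕ × List (List ℕ)) (b : ℕ) =>
    ∀ s ∈ z.2.2, ∀ j < (mor z.1 b).length, 0 < j →
      ((mor z.1 b ++ s).drop j).take z.2.1 ∉ z.2.2) hk g13

theorem mk_inj : PrimrecPred (fun z : List (List ℕ) × ℕ × List (List ℕ) =>
    ∀ b < z.1.length, ∀ c < z.1.length, mor z.1 b = mor z.1 c → b = c) := by
  have hk : Primrec fun z : List (List ℕ) × ℕ × List (List ℕ) => z.1.length :=
    Primrec.list_length.comp Primrec.fst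
  have hF : Primrec fun q : (List (List ℕ) × ℕ × List (List ℕ)) × ℕ => q.1.1 :=
    Primrec.fst.comp Primrec.fst
  have h1 : Primrec fun q : (List (List ℕ) × ℕ × List (List ℕ)) × ℕ => mor q.1.1 q.2 :=
    Primrec₂.comp mor_primrec hF Primrec.snd
  have h2 : Primrec fun q : ((List (List ℕ) × ℕ × List (List ℕ)) × ℕ) × ℕ =>
      mor q.1.1.1 q.1.2 := h1.comp Primrec.fst
  have h3 : Primrec fun q : ((List (List ℕ) × ℕ × List (List ℕ)) × ℕ) × ℕ => q.1.1.1 :=
    hF.comp Primrec.fst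
  have h4 : Primrec fun q : ((List (List ℕ) × ℕ × List (List ℕ)) × ℕ) × ℕ =>
      mor q.1.1.1 q.2 := Primrec₂.comp mor_primrec h3 Primrec.snd
  have h5 : PrimrecPred fun q : ((List (List ℕ) × ℕ × List (List ℕ)) × ℕ) × ℕ =>
      mor q.1.1.1 q.1.2 = mor q.1.1.1 q.2 := PrimrecRel.comp Primrec.eq h2 h4
  have h6 : Primrec fun q : ((List (List ℕ) × ℕ × List (List ℕ)) × ℕ) × ℕ => q.1.2 :=
    Primrec.snd.comp Primrec.fst
  have h7 : PrimrecPred fun q : ((List (List ℕ) × ℕ × List (List ℕ)) × ℕ) × ℕ => q.1.2 = q.2 :=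
    PrimrecRel.comp Primrec.eq h6 Primrec.snd
  have h8 : PrimrecPred fun q : ((List (List ℕ) × ℕ × List (List ℕ)) × ℕ) × ℕ =>
      (mor q.1.1.1 q.1.2 = mor q.1.1.1 q.2 → q.1.2 = q.2) := pp_imp h5 h7
  have h9 : Primrec fun q : (List (List ℕ) × ℕ × List (List ℕ)) × ℕ => q.1.1.length :=
    hk.comp Primrec.fst
  have h10 : PrimrecPred fun q : (List (List ℕ) × ℕ × List (List ℕ)) × ℕ =>
      ∀ c < q.1.1.length, mor q.1.1 q.2 = mor q.1.1 c → q.2 = c :=
    pp_forall_lt (P := fun (q : (List (List ℕ) × ℕ × List (List ℕ)) × ℕ) (c : ℕ) =>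
      mor q.1.1 q.2 = mor q.1.1 c → q.2 = c) h9 h8
  exact pp_forall_lt (P := fun (z : List (List ℕ) × ℕ × List (List ℕ)) (b : ℕ) =>
    ∀ c < z.1.length, mor z.1 b = mor z.1 c → b = c) hk h10

theorem marked_primrec : PrimrecPred (fun z : List (List ℕ) × ℕ × List (List ℕ) =>
    Marked z.1.length (mor z.1) z.2.1 z.2.2) := by
  have h := ((((mk_ne.and mk_len).and mk_pos).and mk_head).and mk_inner).and mk_inj
  refine h.of_eq ?_
  intro z
  constructor
  · rintro ⟨⟨⟨⟨⟨h1, h2⟩, h3⟩, h4⟩, h5⟩, h6⟩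
    exact ⟨h1, h2, h3, h4, h5, h6⟩
  · intro h
    exact ⟨⟨⟨⟨⟨h.ne, h.len⟩, h.pos⟩, h.head⟩, h.inner⟩, h.inj⟩

end Pool.Agent.Helper180.QPM
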