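import Mathlib
import Pool.Agent.Helper180.QPM.Base
import Pool.Agent.Helper180.QPM.Prim0
import Pool.Agent.Helper180.QPM.JPrim1

set_option autoImplicit false

namespace Pool.Agent.Helper180.QPM


theorem aux23_drop {α : Type*} [Primcodable α] :
    Primrec₂ (fun (n : ℕ) (l : List α) => l.drop n) := by
  have h1 : Primrec (fun p : ℕ × List α => (List.tail)^[p.1] p.2) :=
    Primrec.nat_iterate Primrec.fst Primrec.snd (Primrec.list_tail.comp Primrec.snd).to₂
  refine (h1.of_eq fun p => ?_ : Primrec (fun p : ℕ × List α => p.2.drop p.1))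
  obtain ⟨n, l⟩ := p
  show (List.tail)^[n] l = l.drop n
  induction n generalizing l with
  | zero => rfl
  | succ n ih =>
    rw [Function.iterate_succ_apply, ih]
    cases l <;> simp

theorem aux23_take {α : Type*} [Primcodable α] :
    Primrec₂ (fun (n : ℕ) (l : List α) => l.take n) := by
  have hl : Primrec (fun p : ℕ × List α => p.2.length - p.1) :=
    Primrec.nat_sub.comp (Primrec.list_length.comp Primrec.snd) Primrec.fst
  have hr : Primrec (fun p : ℕ × List α => p.2.reverse) := Primrec.list_reverse.comp Primrec.snd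
  have hd : Primrec (fun p : ℕ × List α => p.2.reverse.drop (p.2.length - p.1)) :=
    aux23_drop.comp hl hr
  have h1 : Primrec (fun p : ℕ × List α => (p.2.reverse.drop (p.2.length - p.1)).reverse) :=
    Primrec.list_reverse.comp hd
  refine (h1.of_eq fun p => ?_ : Primrec (fun p : ℕ × List α => p.2.take p.1))
  obtain ⟨n, l⟩ := p
  show (l.reverse.drop (l.length - n)).reverse = l.take n
  have h2 := List.take_reverse (xs := l.reverse) (i := n)
  rw [List.reverse_reverse, List.length_reverse] at h2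
  exact h2.symm

theorem aux23_mem {α β : Type*} [Primcodable α] [Primcodable β] [DecidableEq β] {f : α → β}
    {g : α → List β} (hf : Primrec f) (hg : Primrec g) : PrimrecPred fun a => f a ∈ g a := by
  have h1 : PrimrecPred fun p : α × β => p.2 = f p.1 :=
    Primrec.eq.comp Primrec.snd (hf.comp Primrec.fst)
  have h2 := pp_exists (P := fun a b => b = f a) hg h1
  refine h2.of_eq fun a => ?_
  simp

theorem inv_primrec : PrimrecPred (fun z : ℕ × List (List ℕ) × List (List ℕ) ×
    List (List ℕ × List ℕ) => InvOK z.2.1.length z.1 (mor z.2.1) (mor z.2.2.1) z.2.2.2) := by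
  unfold InvOK
  -- first level
  have hInv : Primrec (fun z : ℕ × List (List ℕ) × List (List ℕ) × List (List ℕ × List ℕ) =>
      z.2.2.2) := Primrec.snd.comp (Primrec.snd.comp Primrec.snd)
  refine pp_forall hInv ?_
  -- projections of the second level
  have z1 : Primrec (fun p : (ℕ × List (List ℕ) × List (List ℕ) × List (List ℕ × List ℕ)) ×
      (List ℕ × List ℕ) => p.1) := Primrec.fst
  have hK : Primrec (fun p : (ℕ × List (List ℕ) × List (List ℕ) × List (List ℕ × List ℕ)) ×
      (List ℕ × List ℕ) => p.1.1) := Primrec.fst.comp z1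
  have z2 : Primrec (fun p : (ℕ × List (List ℕ) × List (List ℕ) × List (List ℕ × List ℕ)) ×
      (List ℕ × List ℕ) => p.1.2) := Primrec.snd.comp z1
  have hΘ : Primrec (fun p : (ℕ × List (List ℕ) × List (List ℕ) × List (List ℕ × List ℕ)) ×
      (List ℕ × List ℕ) => p.1.2.1) := Primrec.fst.comp z2
  have z3 : Primrec (fun p : (ℕ × List (List ℕ) × List (List ℕ) × List (List ℕ × List ℕ)) ×
      (List ℕ × List ℕ) => p.1.2.2) := Primrec.snd.comp z2
  have hh : Primrec (fun p : (ℕ × List (List ℕ) × List (List ℕ) × List (List ℕ × List ℕ)) ×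
      (List ℕ × List ℕ) => p.1.2.2.1) := Primrec.fst.comp z3
  have hI : Primrec (fun p : (ℕ × List (List ℕ) × List (List ℕ) × List (List ℕ × List ℕ)) ×
      (List ℕ × List ℕ) => p.1.2.2.2) := Primrec.snd.comp z3
  have hk : Primrec (fun p : (ℕ × List (List ℕ) × List (List ℕ) × List (List ℕ × List ℕ)) ×
      (List ℕ × List ℕ) => p.1.2.1.length) := Primrec.list_length.comp hΘ
  have w : Primrec (fun p : (ℕ × List (List ℕ) × List (List ℕ) × List (List ℕ × List ℕ)) ×
      (List ℕ × List ℕ) => p.2) := Primrec.snd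
  have hx : Primrec (fun p : (ℕ × List (List ℕ) × List (List ℕ) × List (List ℕ × List ℕ)) ×
      (List ℕ × List ℕ) => p.2.1) := Primrec.fst.comp w
  have hy : Primrec (fun p : (ℕ × List (List ℕ) × List (List ℕ) × List (List ℕ × List ℕ)) ×
      (List ℕ × List ℕ) => p.2.2) := Primrec.snd.comp w
  have hΘx : Primrec (fun p : (ℕ × List (List ℕ) × List (List ℕ) × List (List ℕ × List ℕ)) ×
      (List ℕ × List ℕ) => im (mor p.1.2.1) p.2.1) := im_primrec.comp (hΘ.pair hx)
  have hΘy : Primrec (fun p : (ℕ × List (List ℕ) × List (List ℕ) × List (List ℕ × List ℕ)) ×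
      (List ℕ × List ℕ) => im (mor p.1.2.1) p.2.2) := im_primrec.comp (hΘ.pair hy)
  have hA : Primrec (fun p : (ℕ × List (List ℕ) × List (List ℕ) × List (List ℕ × List ℕ)) ×
      (List ℕ × List ℕ) => im (mor p.1.2.2.1) p.2.1) := im_primrec.comp (hh.pair hx)
  have hB : Primrec (fun p : (ℕ × List (List ℕ) × List (List ℕ) × List (List ℕ × List ℕ)) ×
      (List ℕ × List ℕ) => im (mor p.1.2.2.1) p.2.2) := im_primrec.comp (hh.pair hy)
  have c1 : PrimrecPred (fun p : (ℕ × List (List ℕ) × List (List ℕ) × List (List ℕ × List ℕ)) ×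
      (List ℕ × List ℕ) => ∀ c ∈ p.2.1, c < p.1.2.1.length) :=
    pp_forall hx (Primrec.nat_lt.comp Primrec.snd (hk.comp Primrec.fst))
  have c2 : PrimrecPred (fun p : (ℕ × List (List ℕ) × List (List ℕ) × List (List ℕ × List ℕ)) ×
      (List ℕ × List ℕ) => ∀ c ∈ p.2.2, c < p.1.2.1.length) :=
    pp_forall hy (Primrec.nat_lt.comp Primrec.snd (hk.comp Primrec.fst))
  have c3 : PrimrecPred (fun p : (ℕ × List (List ℕ) × List (List ℕ) × List (List ℕ × List ℕ)) ×
      (List ℕ × List ℕ) => p.2.2.length = p.1.1) :=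
    Primrec.eq.comp (Primrec.list_length.comp hy) hK
  have c4 : PrimrecPred (fun p : (ℕ × List (List ℕ) × List (List ℕ) × List (List ℕ × List ℕ)) ×
      (List ℕ × List ℕ) => p.2.1 ≠ []) :=
    (Primrec.eq.comp hx (Primrec.const [])).not
  have c5 : PrimrecPred (fun p : (ℕ × List (List ℕ) × List (List ℕ) × List (List ℕ × List ℕ)) ×
      (List ℕ × List ℕ) => p.2.1.head? ≠ p.2.2.head?) :=
    (Primrec.eq.comp (Primrec.list_head?.comp hx) (Primrec.list_head?.comp hy)).not
  have c6 : PrimrecPred (fun p : (ℕ × List (List ℕ) × List (List ℕ) × List (List ℕ × List ℕ)) ×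
      (List ℕ × List ℕ) => ¬ (im (mor p.1.2.1) p.2.1 <+: im (mor p.1.2.1) p.2.2)) :=
    (PrimrecPred.comp prefix_primrec (hΘx.pair hΘy)).not
  refine c1.and (c2.and (c3.and (c4.and (c5.and (c6.and ?_)))))
  refine pp_exists_lt (Primrec.list_length.comp hA) ?_
  -- third level
  have q1 : Primrec (fun q : ((ℕ × List (List ℕ) × List (List ℕ) × List (List ℕ × List ℕ)) ×
      (List ℕ × List ℕ)) × ℕ => q.1) := Primrec.fst
  have hj : Primrec (fun q : ((ℕ × List (List ℕ) × List (List ℕ) × List (List ℕ × List ℕ)) ×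
      (List ℕ × List ℕ)) × ℕ => q.2) := Primrec.snd
  have hA' : Primrec (fun q : ((ℕ × List (List ℕ) × List (List ℕ) × List (List ℕ × List ℕ)) ×
      (List ℕ × List ℕ)) × ℕ => im (mor q.1.1.2.2.1) q.1.2.1) := hA.comp q1
  have hB' : Primrec (fun q : ((ℕ × List (List ℕ) × List (List ℕ) × List (List ℕ × List ℕ)) ×
      (List ℕ × List ℕ)) × ℕ => im (mor q.1.1.2.2.1) q.1.2.2) := hB.comp q1
  have hK' : Primrec (fun q : ((ℕ × List (List ℕ) × List (List ℕ) × List (List ℕ × List ℕ)) ×
      (List ℕ × List ℕ)) × ℕ => q.1.1.1) := hK.comp q1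
  have hI' : Primrec (fun q : ((ℕ × List (List ℕ) × List (List ℕ) × List (List ℕ × List ℕ)) ×
      (List ℕ × List ℕ)) × ℕ => q.1.1.2.2.2) := hI.comp q1
  have hAt : Primrec (fun q : ((ℕ × List (List ℕ) × List (List ℕ) × List (List ℕ × List ℕ)) ×
      (List ℕ × List ℕ)) × ℕ => (im (mor q.1.1.2.2.1) q.1.2.1).take q.2) :=
    aux23_take.comp hj hA'
  have hBt : Primrec (fun q : ((ℕ × List (List ℕ) × List (List ℕ) × List (List ℕ × List ℕ)) ×
      (List ℕ × List ℕ)) × ℕ => (im (mor q.1.1.2.2.1) q.1.2.2).take q.2) :=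
    aux23_take.comp hj hB'
  have hAd : Primrec (fun q : ((ℕ × List (List ℕ) × List (List ℕ) × List (List ℕ × List ℕ)) ×
      (List ℕ × List ℕ)) × ℕ => (im (mor q.1.1.2.2.1) q.1.2.1).drop q.2) :=
    aux23_drop.comp hj hA'
  have hBd : Primrec (fun q : ((ℕ × List (List ℕ) × List (List ℕ) × List (List ℕ × List ℕ)) ×
      (List ℕ × List ℕ)) × ℕ => (im (mor q.1.1.2.2.1) q.1.2.2).drop q.2) :=
    aux23_drop.comp hj hB'
  have hBdt : Primrec (fun q : ((ℕ × List (List ℕ) × List (List ℕ) × List (List ℕ × List ℕ)) ×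
      (List ℕ × List ℕ)) × ℕ => ((im (mor q.1.1.2.2.1) q.1.2.2).drop q.2).take q.1.1.1) :=
    aux23_take.comp hK' hBd
  have d1 : PrimrecPred (fun q : ((ℕ × List (List ℕ) × List (List ℕ) × List (List ℕ × List ℕ)) ×
      (List ℕ × List ℕ)) × ℕ => (im (mor q.1.1.2.2.1) q.1.2.1).take q.2 =
      (im (mor q.1.1.2.2.1) q.1.2.2).take q.2) := Primrec.eq.comp hAt hBt
  have d2 : PrimrecPred (fun q : ((ℕ × List (List ℕ) × List (List ℕ) × List (List ℕ × List ℕ)) ×
      (List ℕ × List ℕ)) × ℕ => q.2 + q.1.1.1 ≤ (im (mor q.1.1.2.2.1) q.1.2.2).length) :=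
    Primrec.nat_le.comp (Primrec.nat_add.comp hj hK') (Primrec.list_length.comp hB')
  have d3 : PrimrecPred (fun q : ((ℕ × List (List ℕ) × List (List ℕ) × List (List ℕ × List ℕ)) ×
      (List ℕ × List ℕ)) × ℕ => ((im (mor q.1.1.2.2.1) q.1.2.1).drop q.2).head? ≠
      ((im (mor q.1.1.2.2.1) q.1.2.2).drop q.2).head?) :=
    (Primrec.eq.comp (Primrec.list_head?.comp hAd) (Primrec.list_head?.comp hBd)).not
  have d4 : PrimrecPred (fun q : ((ℕ × List (List ℕ) × List (List ℕ) × List (List ℕ × List ℕ)) ×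
      (List ℕ × List ℕ)) × ℕ => q.1.1.1 ≤ ((im (mor q.1.1.2.2.1) q.1.2.1).drop q.2).length) :=
    Primrec.nat_le.comp hK' (Primrec.list_length.comp hAd)
  have d5 : PrimrecPred (fun q : ((ℕ × List (List ℕ) × List (List ℕ) × List (List ℕ × List ℕ)) ×
      (List ℕ × List ℕ)) × ℕ => ((im (mor q.1.1.2.2.1) q.1.2.1).drop q.2,
      ((im (mor q.1.1.2.2.1) q.1.2.2).drop q.2).take q.1.1.1) ∈ q.1.1.2.2.2) :=
    aux23_mem (hAd.pair hBdt) hI'
  exact d1.and (d2.and (d3.and (d4.or d5)))

end Pool.Agent.Helper180.QPM
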