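import Mathlib
import Pool.Agent.Helper180.QPM.Base
import Pool.Agent.Helper180.QPM.Prim0

set_option autoImplicit false

namespace Pool.Agent.Helper180.QPM


theorem pp_mem_aux {α β : Type*} [Primcodable α] [Primcodable β] {x : α → β} {T : α → List β}
    (hx : Primrec x) (hT : Primrec T) : PrimrecPred fun a => x a ∈ T a := by
  have h1 : PrimrecPred fun p : α × β => p.2 = x p.1 :=
    PrimrecRel.comp Primrec.eq Primrec.snd (Primrec.comp hx Primrec.fst)
  refine (pp_exists (P := fun a b => b = x a) hT h1).of_eq fun a => ?_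
  simp

theorem pr_drop_take_aux {α : Type*} [Primcodable α] {V : α → List ℕ} {m l : α → ℕ}
    (hV : Primrec V) (hm : Primrec m) (hl : Primrec l) :
    Primrec fun a => ((V a).drop (m a)).take (l a) := by
  have h1 : Primrec fun a => (V a).drop (m a) := Primrec₂.comp Primrec.list_drop hm hV
  exact Primrec₂.comp Primrec.list_take hl h1

theorem pr_add_aux {α : Type*} [Primcodable α] {m l : α → ℕ}
    (hm : Primrec m) (hl : Primrec l) : Primrec fun a => m a + l a :=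
  Primrec₂.comp Primrec.nat_add hm hl

theorem pr_sub_aux {α : Type*} [Primcodable α] {m l : α → ℕ}
    (hm : Primrec m) (hl : Primrec l) : Primrec fun a => m a - l a :=
  Primrec₂.comp Primrec.nat_sub hm hl

theorem occV_comp {α : Type*} [Primcodable α] {V : α → List ℕ} {l c : α → ℕ}
    {T : α → List (List ℕ)} {m : α → ℕ} (hV : Primrec V) (hl : Primrec l) (hc : Primrec c)
    (hT : Primrec T) (hm : Primrec m) :
    PrimrecPred fun a => OccV (V a) (l a) (c a) (T a) (m a) := by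
  have h1 : Primrec fun a => ((V a).drop (m a)).take (l a) := pr_drop_take_aux hV hm hl
  have h2 : Primrec fun a => (V a).take (l a) := Primrec₂.comp Primrec.list_take hl hV
  have h3 : Primrec fun a => ((V a).drop (m a + l a)).take (c a) :=
    pr_drop_take_aux hV (pr_add_aux hm hl) hc
  have h4 : PrimrecPred fun a => ((V a).drop (m a)).take (l a) = (V a).take (l a) :=
    PrimrecRel.comp Primrec.eq h1 h2
  have h5 := pp_mem_aux h3 hT
  exact h4.and h5

theorem core_aux {α : Type*} [Primcodable α] {K : α → ℕ} {V : α → List ℕ}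
    {Inv : α → List (List ℕ × List ℕ)} {l m1 m2 : α → ℕ} {x : α → List ℕ} {j : α → ℕ}
    (hK : Primrec K) (hV : Primrec V) (hI : Primrec Inv) (hl : Primrec l) (h1 : Primrec m1)
    (h2 : Primrec m2) (hx : Primrec x) (hj : Primrec j) :
    PrimrecPred fun a => ((V a).drop (m1 a + l a)).take (j a) = (x a).take (j a) ∧
      (((V a).drop (m1 a + l a + j a)).take (m2 a - (m1 a + l a + j a)),
        ((x a).drop (j a)).take (K a)) ∈ Inv a := by
  have e1 := pr_add_aux h1 hl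
  have e2 := pr_add_aux e1 hj
  have e3 : Primrec fun a => ((V a).drop (m1 a + l a)).take (j a) := pr_drop_take_aux hV e1 hj
  have e4 : Primrec fun a => (x a).take (j a) := Primrec₂.comp Primrec.list_take hj hx
  have e5 : Primrec fun a => ((V a).drop (m1 a + l a + j a)).take (m2 a - (m1 a + l a + j a)) :=
    pr_drop_take_aux hV e2 (pr_sub_aux h2 e2)
  have e6 : Primrec fun a => ((x a).drop (j a)).take (K a) := pr_drop_take_aux hx hj hK
  have e7 : PrimrecPred fun a => ((V a).drop (m1 a + l a)).take (j a) = (x a).take (j a) :=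
    PrimrecRel.comp Primrec.eq e3 e4
  have e8 := pp_mem_aux (Primrec.pair e5 e6) hI
  exact e7.and e8

theorem gap_core_aux {α : Type*} [Primcodable α] {K : α → ℕ} {V : α → List ℕ}
    {Inv : α → List (List ℕ × List ℕ)} {l : α → ℕ} {T : α → List (List ℕ)} {m1 m2 : α → ℕ}
    (hK : Primrec K) (hV : Primrec V) (hI : Primrec Inv) (hl : Primrec l) (hT : Primrec T)
    (h1 : Primrec m1) (h2 : Primrec m2) :
    PrimrecPred fun a => m1 a + l a < m2 a ∧ OccV (V a) (l a) (2 * K a) (T a) (m1 a) ∧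
      OccV (V a) (l a) (2 * K a) (T a) (m2 a) ∧
      (∀ m < m2 a, m1 a < m → ¬ OccV (V a) (l a) (2 * K a) (T a) m) ∧
      (K a ≤ m2 a - (m1 a + l a) ∨ ∃ x ∈ T a, ∃ j < m2 a - (m1 a + l a),
        ((V a).drop (m1 a + l a)).take j = x.take j ∧
        (((V a).drop (m1 a + l a + j)).take (m2 a - (m1 a + l a + j)),
          (x.drop j).take (K a)) ∈ Inv a) := by
  have hK2 : Primrec fun a => 2 * K a := Primrec₂.comp Primrec.nat_mul (Primrec.const 2) hK
  have e1 := pr_add_aux h1 hl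
  have c1 : PrimrecPred fun a => m1 a + l a < m2 a := PrimrecRel.comp Primrec.nat_lt e1 h2
  have c2 := occV_comp hV hl hK2 hT h1
  have c3 := occV_comp hV hl hK2 hT h2
  have c4 : PrimrecPred fun a => ∀ m < m2 a, m1 a < m → ¬ OccV (V a) (l a) (2 * K a) (T a) m := by
    refine pp_forall_lt (P := fun a m => m1 a < m → ¬ OccV (V a) (l a) (2 * K a) (T a) m) h2 ?_
    have d1 : PrimrecPred fun p : α × ℕ => m1 p.1 < p.2 :=
      PrimrecRel.comp Primrec.nat_lt (Primrec.comp h1 Primrec.fst) Primrec.snd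
    have hK2' : Primrec fun p : α × ℕ => 2 * K p.1 :=
      Primrec.comp (f := fun a => 2 * K a) hK2 Primrec.fst
    have d2 : PrimrecPred fun p : α × ℕ => OccV (V p.1) (l p.1) (2 * K p.1) (T p.1) p.2 :=
      occV_comp (Primrec.comp hV Primrec.fst) (Primrec.comp hl Primrec.fst)
        hK2' (Primrec.comp hT Primrec.fst) Primrec.snd
    exact pp_imp d1 d2.not
  have e2 : Primrec fun a => m2 a - (m1 a + l a) := pr_sub_aux h2 e1
  have c5 : PrimrecPred fun a => K a ≤ m2 a - (m1 a + l a) := PrimrecRel.comp Primrec.nat_le hK e2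
  have c6 : PrimrecPred fun a => ∃ x ∈ T a, ∃ j < m2 a - (m1 a + l a),
        ((V a).drop (m1 a + l a)).take j = x.take j ∧
        (((V a).drop (m1 a + l a + j)).take (m2 a - (m1 a + l a + j)),
          (x.drop j).take (K a)) ∈ Inv a := by
    refine pp_exists (P := fun a x => ∃ j < m2 a - (m1 a + l a),
        ((V a).drop (m1 a + l a)).take j = x.take j ∧
        (((V a).drop (m1 a + l a + j)).take (m2 a - (m1 a + l a + j)),
          (x.drop j).take (K a)) ∈ Inv a) hT ?_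
    have f1 : Primrec fun p : α × List ℕ => m2 p.1 - (m1 p.1 + l p.1) := Primrec.comp e2 Primrec.fst
    refine pp_exists_lt (P := fun (p : α × List ℕ) j =>
        ((V p.1).drop (m1 p.1 + l p.1)).take j = p.2.take j ∧
        (((V p.1).drop (m1 p.1 + l p.1 + j)).take (m2 p.1 - (m1 p.1 + l p.1 + j)),
          (p.2.drop j).take (K p.1)) ∈ Inv p.1) f1 ?_
    have g : Primrec fun q : (α × List ℕ) × ℕ => q.1.1 := Primrec.comp Primrec.fst Primrec.fst
    have gx : Primrec fun q : (α × List ℕ) × ℕ => q.1.2 := Primrec.comp Primrec.snd Primrec.fst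
    exact core_aux (Primrec.comp hK g) (Primrec.comp hV g) (Primrec.comp hI g) (Primrec.comp hl g)
      (Primrec.comp h1 g) (Primrec.comp h2 g) gx Primrec.snd
  exact c1.and (c2.and (c3.and (c4.and (c5.or c6))))

theorem occV_primrec : PrimrecPred (fun z : List ℕ × ℕ × ℕ × List (List ℕ) × ℕ =>
    OccV z.1 z.2.1 z.2.2.1 z.2.2.2.1 z.2.2.2.2) := by
  have p1 : Primrec fun z : List ℕ × ℕ × ℕ × List (List ℕ) × ℕ => z.1 := Primrec.fst
  have q1 : Primrec fun z : List ℕ × ℕ × ℕ × List (List ℕ) × ℕ => z.2 := Primrec.snd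
  have p2 : Primrec fun z : List ℕ × ℕ × ℕ × List (List ℕ) × ℕ => z.2.1 :=
    Primrec.comp Primrec.fst q1
  have q2 : Primrec fun z : List ℕ × ℕ × ℕ × List (List ℕ) × ℕ => z.2.2 :=
    Primrec.comp Primrec.snd q1
  have p3 : Primrec fun z : List ℕ × ℕ × ℕ × List (List ℕ) × ℕ => z.2.2.1 :=
    Primrec.comp Primrec.fst q2
  have q3 : Primrec fun z : List ℕ × ℕ × ℕ × List (List ℕ) × ℕ => z.2.2.2 :=
    Primrec.comp Primrec.snd q2
  have p4 : Primrec fun z : List ℕ × ℕ × ℕ × List (List ℕ) × ℕ => z.2.2.2.1 :=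
    Primrec.comp Primrec.fst q3
  have p5 : Primrec fun z : List ℕ × ℕ × ℕ × List (List ℕ) × ℕ => z.2.2.2.2 :=
    Primrec.comp Primrec.snd q3
  exact occV_comp p1 p2 p3 p4 p5

theorem gapV_primrec : PrimrecPred (fun z : (ℕ × ℕ × List ℕ) × List (List ℕ × List ℕ) × ℕ ×
    List (List ℕ) => GapV z.1.1 z.1.2.1 z.1.2.2 z.2.1 z.2.2.1 z.2.2.2) := by
  let Z := (ℕ × ℕ × List ℕ) × List (List ℕ × List ℕ) × ℕ × List (List ℕ)
  have a1 : Primrec fun z : Z => z.1 := Primrec.fst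
  have a2 : Primrec fun z : Z => z.2 := Primrec.snd
  have a12 : Primrec fun z : Z => z.1.2 := Primrec.comp Primrec.snd a1
  have a22 : Primrec fun z : Z => z.2.2 := Primrec.comp Primrec.snd a2
  have pK : Primrec fun z : Z => z.1.1 := Primrec.comp Primrec.fst a1
  have pN : Primrec fun z : Z => z.1.2.1 := Primrec.comp Primrec.fst a12
  have pV : Primrec fun z : Z => z.1.2.2 := Primrec.comp Primrec.snd a12
  have pI : Primrec fun z : Z => z.2.1 := Primrec.comp Primrec.fst a2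
  have pl : Primrec fun z : Z => z.2.2.1 := Primrec.comp Primrec.fst a22
  have pT : Primrec fun z : Z => z.2.2.2 := Primrec.comp Primrec.snd a22
  unfold GapV
  refine pp_exists_lt (α := Z) (P := fun z m1 => ∃ m2 < z.1.2.1, m1 + z.2.2.1 < m2 ∧
    OccV z.1.2.2 z.2.2.1 (2 * z.1.1) z.2.2.2 m1 ∧ OccV z.1.2.2 z.2.2.1 (2 * z.1.1) z.2.2.2 m2 ∧
    (∀ m < m2, m1 < m → ¬ OccV z.1.2.2 z.2.2.1 (2 * z.1.1) z.2.2.2 m) ∧
    (z.1.1 ≤ m2 - (m1 + z.2.2.1) ∨ ∃ x ∈ z.2.2.2, ∃ j < m2 - (m1 + z.2.2.1),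
      (z.1.2.2.drop (m1 + z.2.2.1)).take j = x.take j ∧
      ((z.1.2.2.drop (m1 + z.2.2.1 + j)).take (m2 - (m1 + z.2.2.1 + j)),
        (x.drop j).take z.1.1) ∈ z.2.1)) pN ?_
  have g1 : Primrec fun p : Z × ℕ => p.1 := Primrec.fst
  refine pp_exists_lt (α := Z × ℕ) (P := fun p m2 => p.2 + p.1.2.2.1 < m2 ∧
    OccV p.1.1.2.2 p.1.2.2.1 (2 * p.1.1.1) p.1.2.2.2 p.2 ∧
    OccV p.1.1.2.2 p.1.2.2.1 (2 * p.1.1.1) p.1.2.2.2 m2 ∧
    (∀ m < m2, p.2 < m → ¬ OccV p.1.1.2.2 p.1.2.2.1 (2 * p.1.1.1) p.1.2.2.2 m) ∧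
    (p.1.1.1 ≤ m2 - (p.2 + p.1.2.2.1) ∨ ∃ x ∈ p.1.2.2.2, ∃ j < m2 - (p.2 + p.1.2.2.1),
      (p.1.1.2.2.drop (p.2 + p.1.2.2.1)).take j = x.take j ∧
      ((p.1.1.2.2.drop (p.2 + p.1.2.2.1 + j)).take (m2 - (p.2 + p.1.2.2.1 + j)),
        (x.drop j).take p.1.1.1) ∈ p.1.2.1)) (Primrec.comp (f := fun z : Z => z.1.2.1) pN g1) ?_
  have g2 : Primrec fun q : (Z × ℕ) × ℕ => q.1.1 := Primrec.comp Primrec.fst Primrec.fst
  have g3 : Primrec fun q : (Z × ℕ) × ℕ => q.1.2 := Primrec.comp Primrec.snd Primrec.fst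
  have k1 : Primrec fun q : (Z × ℕ) × ℕ => q.1.1.1.1 := Primrec.comp (f := fun z : Z => z.1.1) pK g2
  have k2 : Primrec fun q : (Z × ℕ) × ℕ => q.1.1.1.2.2 :=
    Primrec.comp (f := fun z : Z => z.1.2.2) pV g2
  have k3 : Primrec fun q : (Z × ℕ) × ℕ => q.1.1.2.1 := Primrec.comp (f := fun z : Z => z.2.1) pI g2
  have k4 : Primrec fun q : (Z × ℕ) × ℕ => q.1.1.2.2.1 :=
    Primrec.comp (f := fun z : Z => z.2.2.1) pl g2
  have k5 : Primrec fun q : (Z × ℕ) × ℕ => q.1.1.2.2.2 :=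
    Primrec.comp (f := fun z : Z => z.2.2.2) pT g2
  have k6 : Primrec fun q : (Z × ℕ) × ℕ => q.2 := Primrec.snd
  have := gap_core_aux (α := (Z × ℕ) × ℕ) (K := fun q => q.1.1.1.1) (V := fun q => q.1.1.1.2.2)
    (Inv := fun q => q.1.1.2.1) (l := fun q => q.1.1.2.2.1) (T := fun q => q.1.1.2.2.2)
    (m1 := fun q => q.1.2) (m2 := fun q => q.2) k1 k2 k3 k4 k5 g3 k6
  exact this

end Pool.Agent.Helper180.QPM
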