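import Mathlib
import Pool.Agent.Helper180.QPM.Base
import Pool.Agent.Helper180.QPM.Prim0
import Pool.Agent.Helper180.QPM.JPrim1

set_option autoImplicit false

namespace Pool.Agent.Helper180.QPM


section auxQ833

variable {α : Type*} [Primcodable α]

theorem auxQ_mor {F : α → List (List ℕ)} {b : α → ℕ} (hF : Primrec F) (hb : Primrec b) :
    Primrec (fun z => mor (F z) (b z)) := mor_primrec.comp hF hb

theorem auxQ_im {F : α → List (List ℕ)} {L : α → List ℕ} (hF : Primrec F) (hL : Primrec L) :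
    Primrec (fun z => im (mor (F z)) (L z)) := im_primrec.comp (hF.pair hL)

theorem auxQ_iter {F : α → List (List ℕ)} {N : α → ℕ} {L : α → List ℕ} (hF : Primrec F)
    (hN : Primrec N) (hL : Primrec L) :
    Primrec (fun z => (im (mor (F z)))^[N z] (L z)) :=
  iter_primrec.comp (hF.pair (hN.pair hL))

theorem auxQ_mem {x : α → List ℕ} {S : α → List (List ℕ)} (hx : Primrec x) (hS : Primrec S) :
    PrimrecPred (fun z => x z ∈ S z) := by
  have h1 : PrimrecPred (fun p : α × List ℕ => p.2 = x p.1) :=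
    Primrec.eq.comp Primrec.snd (hx.comp Primrec.fst)
  have h2 : PrimrecPred (fun z => ∃ y ∈ S z, y = x z) := pp_exists (P := fun z y => y = x z) hS h1
  exact h2.of_eq (fun z => by simp)

theorem auxQ_dt {x : α → List ℕ} {n m : α → ℕ} (hx : Primrec x) (hn : Primrec n)
    (hm : Primrec m) : Primrec (fun z => ((x z).drop (n z)).take (m z)) :=
  Primrec.list_take.comp hm (Primrec.list_drop.comp hn hx)

theorem auxQ_take {x : α → List ℕ} {m : α → ℕ} (hx : Primrec x)
    (hm : Primrec m) : Primrec (fun z => (x z).take (m z)) :=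
  Primrec.list_take.comp hm hx

theorem auxQ_len {x : α → List ℕ} (hx : Primrec x) : Primrec (fun z => (x z).length) :=
  Primrec.list_length.comp hx

theorem auxQ_hd {x : α → List ℕ} {a : α → ℕ} (hx : Primrec x) (ha : Primrec a) :
    PrimrecPred (fun z => (x z).head? = some (a z)) :=
  Primrec.eq.comp (Primrec.list_head?.comp hx) (Primrec.option_some.comp ha)

variable {F Θ h Fac : α → List (List ℕ)} {a N u K : α → ℕ}

theorem auxQ_conj (hF : Primrec F) (hΘ : Primrec Θ) (hh : Primrec h) :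
    PrimrecPred (fun z => ∀ b < (Θ z).length,
      im (mor (F z)) (mor (Θ z) b) = im (mor (Θ z)) (mor (h z) b)) := by
  have hl : Primrec (fun z => (Θ z).length) := Primrec.list_length.comp hΘ
  have hΘ1 : Primrec (fun p : α × ℕ => Θ p.1) := hΘ.comp Primrec.fst
  have hF1 : Primrec (fun p : α × ℕ => F p.1) := hF.comp Primrec.fst
  have hh1 : Primrec (fun p : α × ℕ => h p.1) := hh.comp Primrec.fst
  have hb : Primrec (fun p : α × ℕ => p.2) := Primrec.snd
  have h1 := auxQ_im hF1 (auxQ_mor hΘ1 hb)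
  have h2 := auxQ_im hΘ1 (auxQ_mor hh1 hb)
  have h3 : PrimrecPred (fun p : α × ℕ => im (mor (F p.1)) (mor (Θ p.1) p.2)
      = im (mor (Θ p.1)) (mor (h p.1) p.2)) := Primrec.eq.comp h1 h2
  exact pp_forall_lt (P := fun z b => im (mor (F z)) (mor (Θ z) b)
      = im (mor (Θ z)) (mor (h z) b)) hl h3

theorem auxQ_val (hΘ : Primrec Θ) (hh : Primrec h) :
    PrimrecPred (fun z => ∀ b < (Θ z).length, ∀ c ∈ mor (h z) b, c < (Θ z).length) := by
  have hl : Primrec (fun z => (Θ z).length) := Primrec.list_length.comp hΘ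
  have hh1 : Primrec (fun p : α × ℕ => h p.1) := hh.comp Primrec.fst
  have hb : Primrec (fun p : α × ℕ => p.2) := Primrec.snd
  have h1 := auxQ_mor hh1 hb
  have hl2 : Primrec (fun q : (α × ℕ) × ℕ => (Θ q.1.1).length) :=
    hl.comp (Primrec.fst.comp Primrec.fst)
  have h2 : PrimrecPred (fun q : (α × ℕ) × ℕ => q.2 < (Θ q.1.1).length) :=
    Primrec.nat_lt.comp Primrec.snd hl2
  have h3 : PrimrecPred (fun p : α × ℕ => ∀ c ∈ mor (h p.1) p.2, c < (Θ p.1).length) :=
    pp_forall (P := fun (p : α × ℕ) c => c < (Θ p.1).length) h1 h2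
  exact pp_forall_lt (P := fun z b => ∀ c ∈ mor (h z) b, c < (Θ z).length) hl h3

theorem auxQ_pos (hΘ : Primrec Θ) (hh : Primrec h) :
    PrimrecPred (fun z => ∀ b < (Θ z).length, 1 ≤ (mor (h z) b).length) := by
  have hl : Primrec (fun z => (Θ z).length) := Primrec.list_length.comp hΘ
  have hh1 : Primrec (fun p : α × ℕ => h p.1) := hh.comp Primrec.fst
  have hb : Primrec (fun p : α × ℕ => p.2) := Primrec.snd
  have h1 := auxQ_len (auxQ_mor hh1 hb)
  have h3 : PrimrecPred (fun p : α × ℕ => 1 ≤ (mor (h p.1) p.2).length) :=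
    Primrec.nat_le.comp (Primrec.const 1) h1
  exact pp_forall_lt (P := fun z b => 1 ≤ (mor (h z) b).length) hl h3

theorem auxQ_closed (hh : Primrec h) (hFac : Primrec Fac) (hK : Primrec K) :
    PrimrecPred (fun z => ∀ x ∈ Fac z, ∀ j < (mor (h z) x.headI).length,
      ((im (mor (h z)) x).drop j).take (K z) ∈ Fac z) := by
  -- context ((z, x), j)
  have hz : Primrec (fun q : (α × List ℕ) × ℕ => q.1.1) := Primrec.fst.comp Primrec.fst
  have hx : Primrec (fun q : (α × List ℕ) × ℕ => q.1.2) := Primrec.snd.comp Primrec.fst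
  have hj : Primrec (fun q : (α × List ℕ) × ℕ => q.2) := Primrec.snd
  have hh2 : Primrec (fun q : (α × List ℕ) × ℕ => h q.1.1) := hh.comp hz
  have hF2 : Primrec (fun q : (α × List ℕ) × ℕ => Fac q.1.1) := hFac.comp hz
  have hK2 : Primrec (fun q : (α × List ℕ) × ℕ => K q.1.1) := hK.comp hz
  have h1 := auxQ_mem (auxQ_dt (auxQ_im hh2 hx) hj hK2) hF2
  have hh1 : Primrec (fun p : α × List ℕ => h p.1) := hh.comp Primrec.fst
  have hI : Primrec (fun p : α × List ℕ => p.2.headI) := Primrec.list_headI.comp Primrec.snd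
  have h2 := auxQ_len (auxQ_mor hh1 hI)
  have h3 : PrimrecPred (fun p : α × List ℕ => ∀ j < (mor (h p.1) p.2.headI).length,
      ((im (mor (h p.1)) p.2).drop j).take (K p.1) ∈ Fac p.1) :=
    pp_forall_lt (P := fun (p : α × List ℕ) j =>
      ((im (mor (h p.1)) p.2).drop j).take (K p.1) ∈ Fac p.1) h2 h1
  exact pp_forall (P := fun z x => ∀ j < (mor (h z) x.headI).length,
      ((im (mor (h z)) x).drop j).take (K z) ∈ Fac z) hFac h3

/-- the core existential for covers: `X`, `Y` words -/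
theorem auxQ_ex {X Y : α → List ℕ} {t : α → ℕ} (hX : Primrec X) (hY : Primrec Y)
    (ht : Primrec t) (hu : Primrec u) :
    PrimrecPred (fun z => ∃ j < t z + 1, t z < j + u z ∧
      ((X z).drop j).take (u z) = (Y z).take (u z)) := by
  have hz : Primrec (fun q : α × ℕ => q.1) := Primrec.fst
  have hj : Primrec (fun q : α × ℕ => q.2) := Primrec.snd
  have hX1 : Primrec (fun q : α × ℕ => X q.1) := hX.comp hz
  have hY1 : Primrec (fun q : α × ℕ => Y q.1) := hY.comp hz
  have ht1 : Primrec (fun q : α × ℕ => t q.1) := ht.comp hz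
  have hu1 : Primrec (fun q : α × ℕ => u q.1) := hu.comp hz
  have h1 : PrimrecPred (fun q : α × ℕ => t q.1 < q.2 + u q.1) :=
    Primrec.nat_lt.comp ht1 (Primrec.nat_add.comp hj hu1)
  have h2 : PrimrecPred (fun q : α × ℕ => ((X q.1).drop q.2).take (u q.1) = (Y q.1).take (u q.1)) :=
    Primrec.eq.comp (auxQ_dt hX1 hj hu1) (auxQ_take hY1 hu1)
  exact pp_exists_lt (P := fun z j => t z < j + u z ∧
      ((X z).drop j).take (u z) = (Y z).take (u z)) (Primrec.succ.comp ht) (h1.and h2)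

/-- first cover field with the word `Y` -/
theorem auxQ_cov0 {Y : α → List ℕ} (hY : Primrec Y) (hu : Primrec u) :
    PrimrecPred (fun z => ∀ t < (Y z).length, t + u z ≤ (Y z).length →
      ∃ j < t + 1, t < j + u z ∧ ((Y z).drop j).take (u z) = (Y z).take (u z)) := by
  have hz : Primrec (fun q : α × ℕ => q.1) := Primrec.fst
  have ht : Primrec (fun q : α × ℕ => q.2) := Primrec.snd
  have hY1 : Primrec (fun q : α × ℕ => Y q.1) := hY.comp hz
  have hu1 : Primrec (fun q : α × ℕ => u q.1) := hu.comp hz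
  have h1 := auxQ_ex (u := fun q : α × ℕ => u q.1) hY1 hY1 ht hu1
  have h2 : PrimrecPred (fun q : α × ℕ => q.2 + u q.1 ≤ (Y q.1).length) :=
    Primrec.nat_le.comp (Primrec.nat_add.comp ht hu1) (auxQ_len hY1)
  exact pp_forall_lt (P := fun z t => t + u z ≤ (Y z).length →
      ∃ j < t + 1, t < j + u z ∧ ((Y z).drop j).take (u z) = (Y z).take (u z))
    (auxQ_len hY) (pp_imp h2 h1)

/-- second cover field -/
theorem auxQ_cov {Y : α → List ℕ} (hΘ : Primrec Θ) (hFac : Primrec Fac) (hY : Primrec Y)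
    (hu : Primrec u) :
    PrimrecPred (fun z => ∀ x ∈ Fac z, ∀ t < (im (mor (Θ z)) x).length, u z ≤ t →
      t + u z ≤ (im (mor (Θ z)) x).length →
      ∃ j < t + 1, t < j + u z ∧ ((im (mor (Θ z)) x).drop j).take (u z) = (Y z).take (u z)) := by
  have hz : Primrec (fun q : (α × List ℕ) × ℕ => q.1.1) := Primrec.fst.comp Primrec.fst
  have hx : Primrec (fun q : (α × List ℕ) × ℕ => q.1.2) := Primrec.snd.comp Primrec.fst
  have ht : Primrec (fun q : (α × List ℕ) × ℕ => q.2) := Primrec.snd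
  have hΘ2 : Primrec (fun q : (α × List ℕ) × ℕ => Θ q.1.1) := hΘ.comp hz
  have hY2 : Primrec (fun q : (α × List ℕ) × ℕ => Y q.1.1) := hY.comp hz
  have hu2 : Primrec (fun q : (α × List ℕ) × ℕ => u q.1.1) := hu.comp hz
  have hX2 := auxQ_im hΘ2 hx
  have h1 := auxQ_ex (u := fun q : (α × List ℕ) × ℕ => u q.1.1) hX2 hY2 ht hu2
  have h2 : PrimrecPred (fun q : (α × List ℕ) × ℕ =>
      q.2 + u q.1.1 ≤ (im (mor (Θ q.1.1)) q.1.2).length) :=
    Primrec.nat_le.comp (Primrec.nat_add.comp ht hu2) (auxQ_len hX2)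
  have h3 : PrimrecPred (fun q : (α × List ℕ) × ℕ => u q.1.1 ≤ q.2) :=
    Primrec.nat_le.comp hu2 ht
  have hΘ1 : Primrec (fun p : α × List ℕ => Θ p.1) := hΘ.comp Primrec.fst
  have hX1 := auxQ_im hΘ1 (Primrec.snd (α := α) (β := List ℕ))
  have h4 : PrimrecPred (fun p : α × List ℕ => ∀ t < (im (mor (Θ p.1)) p.2).length, u p.1 ≤ t →
      t + u p.1 ≤ (im (mor (Θ p.1)) p.2).length →
      ∃ j < t + 1, t < j + u p.1 ∧
        ((im (mor (Θ p.1)) p.2).drop j).take (u p.1) = (Y p.1).take (u p.1)) :=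
    pp_forall_lt (P := fun (p : α × List ℕ) t => u p.1 ≤ t →
      t + u p.1 ≤ (im (mor (Θ p.1)) p.2).length →
      ∃ j < t + 1, t < j + u p.1 ∧
        ((im (mor (Θ p.1)) p.2).drop j).take (u p.1) = (Y p.1).take (u p.1))
      (auxQ_len hX1) (pp_imp h3 (pp_imp h2 h1))
  exact pp_forall (P := fun z x => ∀ t < (im (mor (Θ z)) x).length, u z ≤ t →
      t + u z ≤ (im (mor (Θ z)) x).length →
      ∃ j < t + 1, t < j + u z ∧ ((im (mor (Θ z)) x).drop j).take (u z) = (Y z).take (u z))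
    hFac h4

theorem auxQ_all (hF : Primrec F) (ha : Primrec a) (hN : Primrec N) (hΘ : Primrec Θ)
    (hh : Primrec h) (hu : Primrec u) (hK : Primrec K) (hFac : Primrec Fac) :
    PrimrecPred (fun z => CertQ (mor (F z)) (a z) (N z) (Θ z) (h z) (u z) (K z) (Fac z)) := by
  have hl : Primrec (fun z => (Θ z).length) := Primrec.list_length.comp hΘ
  have hlh : Primrec (fun z => (h z).length) := Primrec.list_length.comp hh
  have h0 : Primrec (fun _ : α => (0 : ℕ)) := Primrec.const 0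
  have hV : Primrec (fun z => (im (mor (h z)))^[N z] [0]) := auxQ_iter hh hN (Primrec.const [0])
  have hVK : Primrec (fun z => ((im (mor (h z)))^[N z] [0]).take (K z)) := auxQ_take hV hK
  have hX0 : Primrec (fun z => im (mor (Θ z)) (((im (mor (h z)))^[N z] [0]).take (K z))) :=
    auxQ_im hΘ hVK
  have c1 : PrimrecPred (fun z => 0 < (Θ z).length) := Primrec.nat_lt.comp h0 hl
  have c2 : PrimrecPred (fun z => (h z).length = (Θ z).length) := Primrec.eq.comp hlh hl
  have c3 := auxQ_conj hF hΘ hh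
  have c4 := auxQ_hd (auxQ_mor hΘ h0) ha
  have c5 := auxQ_hd (auxQ_mor hh h0) h0
  have c6 := auxQ_val hΘ hh
  have c7 := auxQ_pos hΘ hΘ
  have c8 := auxQ_pos hΘ hh
  have c9 : PrimrecPred (fun z => 2 ≤ (mor (h z) 0).length) :=
    Primrec.nat_le.comp (Primrec.const 2) (auxQ_len (auxQ_mor hh h0))
  have c10 : PrimrecPred (fun z => 2 * u z + 1 ≤ K z) :=
    Primrec.nat_le.comp (Primrec.succ.comp (Primrec.nat_mul.comp (Primrec.const 2) hu)) hK
  have c11 : PrimrecPred (fun z => K z ≤ ((im (mor (h z)))^[N z] [0]).length) :=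
    Primrec.nat_le.comp hK (auxQ_len hV)
  have c12 := auxQ_mem hVK hFac
  have c13 := auxQ_closed hh hFac hK
  have c14 := auxQ_cov0 hX0 hu
  have c15 := auxQ_cov hΘ hFac hX0 hu
  have hall := c1.and (c2.and (c3.and (c4.and (c5.and (c6.and (c7.and (c8.and (c9.and (c10.and
    (c11.and (c12.and (c13.and (c14.and c15)))))))))))))
  refine hall.of_eq (fun z => ⟨?_, ?_⟩)
  · rintro ⟨h1, h2, h3, h4, h5, h6, h7, h8, h9, h10, h11, h12, h13, h14, h15⟩
    exact ⟨h1, h2, h3, h4, h5, h6, h7, h8, h9, h10, h11, h12, h13, h14, h15⟩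
  · rintro ⟨h1, h2, h3, h4, h5, h6, h7, h8, h9, h10, h11, h12, h13, h14, h15⟩
    exact ⟨h1, h2, h3, h4, h5, h6, h7, h8, h9, h10, h11, h12, h13, h14, h15⟩

end auxQ833

theorem certQ_primrec : PrimrecPred (fun z : (List (List ℕ) × ℕ) ×
    (ℕ × List (List ℕ) × List (List ℕ) × ℕ × ℕ × List (List ℕ)) =>
    CertQ (mor z.1.1) z.1.2 z.2.1 z.2.2.1 z.2.2.2.1 z.2.2.2.2.1 z.2.2.2.2.2.1
      z.2.2.2.2.2.2) := by
  have p1 : Primrec (fun z : (List (List ℕ) × ℕ) ×
    (ℕ × List (List ℕ) × List (List ℕ) × ℕ × ℕ × List (List ℕ)) => z.1) := Primrec.fst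
  have p2 : Primrec (fun z : (List (List ℕ) × ℕ) ×
    (ℕ × List (List ℕ) × List (List ℕ) × ℕ × ℕ × List (List ℕ)) => z.2) := Primrec.snd
  have p11 := Primrec.fst.comp p1
  have p12 := Primrec.snd.comp p1
  have p21 := Primrec.fst.comp p2
  have p22 := Primrec.snd.comp p2
  have p221 := Primrec.fst.comp p22
  have p222 := Primrec.snd.comp p22
  have p2221 := Primrec.fst.comp p222
  have p2222 := Primrec.snd.comp p222
  have p22221 := Primrec.fst.comp p2222
  have p22222 := Primrec.snd.comp p2222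
  have p222221 := Primrec.fst.comp p22222
  have p222222 := Primrec.snd.comp p22222
  exact auxQ_all p11 p12 p21 p221 p2221 p22221 p222221 p222222

end Pool.Agent.Helper180.QPM
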