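import Mathlib
import Pool.Agent.Helper180.QPM.Base
import Pool.Agent.Helper180.QPM.Prim0
import Pool.Agent.Helper180.QPM.JPrim1

set_option autoImplicit false

namespace Pool.Agent.Helper180.QPM


theorem pp_mem_prim6 {α β : Type*} [Primcodable α] [Primcodable β] {f : α → β} {L : α → List β}
    (hf : Primrec f) (hL : Primrec L) : PrimrecPred fun a => f a ∈ L a := by
  have h1 : PrimrecPred fun p : α × β => p.2 = f p.1 :=
    Primrec.eq.comp Primrec.snd (hf.comp Primrec.fst)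
  have h2 : PrimrecPred fun a => ∃ b ∈ L a, b = f a := pp_exists (P := fun a b => b = f a) hL h1
  refine h2.of_eq fun a => ?_
  constructor
  · rintro ⟨b, hb, rfl⟩
    exact hb
  · intro h
    exact ⟨f a, h, rfl⟩

section certA

variable {α : Type*} [Primcodable α]

theorem ca_closed {F : α → List (List ℕ)} {D : α → List ℕ} (hF : Primrec F) (hD : Primrec D) :
    PrimrecPred fun a => ∀ b ∈ D a, ∀ e ∈ mor (F a) b, e ∈ D a := by
  apply pp_forall (P := fun a b => ∀ e ∈ mor (F a) b, e ∈ D a) hD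
  have h1 : Primrec (fun p : α × ℕ => mor (F p.1) p.2) :=
    mor_primrec.comp (hF.comp Primrec.fst) Primrec.snd
  apply pp_forall (P := fun (p : α × ℕ) e => e ∈ D p.1) h1
  have h2 : Primrec (fun p : (α × ℕ) × ℕ => D p.1.1) :=
    hD.comp (Primrec.fst.comp Primrec.fst)
  exact pp_mem_prim6 Primrec.snd h2

theorem ca_imm {F : α → List (List ℕ)} {D : α → List ℕ} (hF : Primrec F) (hD : Primrec D) :
    PrimrecPred fun a => ∀ b ∈ D a, ∃ e ∈ mor (F a) b, e ∈ D a := by
  apply pp_forall (P := fun a b => ∃ e ∈ mor (F a) b, e ∈ D a) hD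
  have h1 : Primrec (fun p : α × ℕ => mor (F p.1) p.2) :=
    mor_primrec.comp (hF.comp Primrec.fst) Primrec.snd
  apply pp_exists (P := fun (p : α × ℕ) e => e ∈ D p.1) h1
  have h2 : Primrec (fun p : (α × ℕ) × ℕ => D p.1.1) :=
    hD.comp (Primrec.fst.comp Primrec.fst)
  exact pp_mem_prim6 Primrec.snd h2

theorem ca_all {s D : α → List ℕ} (hs : Primrec s) (hD : Primrec D) :
    PrimrecPred fun a => ∀ e ∈ s a, e ∈ D a := by
  apply pp_forall (P := fun a e => e ∈ D a) hs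
  have h2 : Primrec (fun p : α × ℕ => D p.1) := hD.comp Primrec.fst
  exact pp_mem_prim6 Primrec.snd h2

theorem ca_ex {s D : α → List ℕ} (hs : Primrec s) (hD : Primrec D) :
    PrimrecPred fun a => ∃ e ∈ s a, e ∈ D a := by
  apply pp_exists (P := fun a e => e ∈ D a) hs
  have h2 : Primrec (fun p : α × ℕ => D p.1) := hD.comp Primrec.fst
  exact pp_mem_prim6 Primrec.snd h2

theorem ca_iter {F : α → List (List ℕ)} {N c : α → ℕ} (hF : Primrec F) (hN : Primrec N)
    (hc : Primrec c) : Primrec fun a => (im (mor (F a)))^[N a] [c a] := by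
  have h1 : Primrec (fun a => [c a]) := Primrec.list_cons.comp hc (Primrec.const [])
  have h2 : Primrec (fun a => (F a, N a, [c a])) := Primrec.pair hF (Primrec.pair hN h1)
  exact iter_primrec.comp h2

theorem ca_main {F : α → List (List ℕ)} {a N c m : α → ℕ} {x s D I : α → List ℕ}
    (hF : Primrec F) (ha : Primrec a) (hN : Primrec N) (hc : Primrec c) (hm : Primrec m)
    (hx : Primrec x) (hs : Primrec s) (hD : Primrec D) (hI : Primrec I) :
    PrimrecPred fun z => CertA (mor (F z)) (a z) (N z) (c z) (m z) (x z) (s z) (D z) (I z) := by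
  have h1 : PrimrecPred fun z => c z ∈ (im (mor (F z)))^[N z] [a z] :=
    pp_mem_prim6 hc (ca_iter hF hN ha)
  have h2 : PrimrecPred fun z => 1 ≤ m z := Primrec.nat_le.comp (Primrec.const 1) hm
  have h3' : Primrec fun z => x z ++ c z :: s z :=
    Primrec.list_append.comp hx (Primrec.list_cons.comp hc hs)
  have h3 : PrimrecPred fun z => (im (mor (F z)))^[m z] [c z] = x z ++ c z :: s z :=
    Primrec.eq.comp (ca_iter hF hm hc) h3'
  have h4 : PrimrecPred fun z => ¬ (a z ∈ D z) := (pp_mem_prim6 ha hD).not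
  have h5 := ca_closed hF hD
  have h6 := ca_imm hF hI
  have h7 := ((ca_all hs hD).and (ca_ex hs hI)).or ((ca_all hx hD).and (ca_ex hx hI))
  refine (h1.and (h2.and (h3.and (h4.and (h5.and (h6.and h7)))))).of_eq fun z => ?_
  constructor
  · rintro ⟨e1, e2, e3, e4, e5, e6, e7⟩
    exact ⟨e1, e2, e3, e4, e5, e6, e7⟩
  · rintro ⟨e1, e2, e3, e4, e5, e6, e7⟩
    exact ⟨e1, e2, e3, e4, e5, e6, e7⟩

end certA

theorem certA_primrec : PrimrecPred (fun z : (List (List ℕ) × ℕ) ×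
    (ℕ × ℕ × ℕ × List ℕ × List ℕ × List ℕ × List ℕ) =>
    CertA (mor z.1.1) z.1.2 z.2.1 z.2.2.1 z.2.2.2.1 z.2.2.2.2.1 z.2.2.2.2.2.1
      z.2.2.2.2.2.2.1 z.2.2.2.2.2.2.2) := by
  have p1 : Primrec (fun z : (List (List ℕ) × ℕ) ×
    (ℕ × ℕ × ℕ × List ℕ × List ℕ × List ℕ × List ℕ) => z.2.2) := Primrec.snd.comp Primrec.snd
  have p2 : Primrec (fun z : (List (List ℕ) × ℕ) ×
    (ℕ × ℕ × ℕ × List ℕ × List ℕ × List ℕ × List ℕ) => z.2.2.2) := Primrec.snd.comp p1
  have p3 : Primrec (fun z : (List (List ℕ) × ℕ) ×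
    (ℕ × ℕ × ℕ × List ℕ × List ℕ × List ℕ × List ℕ) => z.2.2.2.2) := Primrec.snd.comp p2
  have p4 : Primrec (fun z : (List (List ℕ) × ℕ) ×
    (ℕ × ℕ × ℕ × List ℕ × List ℕ × List ℕ × List ℕ) => z.2.2.2.2.2) := Primrec.snd.comp p3
  have p5 : Primrec (fun z : (List (List ℕ) × ℕ) ×
    (ℕ × ℕ × ℕ × List ℕ × List ℕ × List ℕ × List ℕ) => z.2.2.2.2.2.2) := Primrec.snd.comp p4
  exact ca_main (Primrec.fst.comp Primrec.fst) (Primrec.snd.comp Primrec.fst)
    (Primrec.fst.comp Primrec.snd) (Primrec.fst.comp p1) (Primrec.fst.comp p2)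
    (Primrec.fst.comp p3) (Primrec.fst.comp p4) (Primrec.fst.comp p5) (Primrec.snd.comp p5)

theorem certI_primrec : PrimrecPred CertI := by
  have hF : Primrec (fun z : (List (List ℕ) × ℕ) × ℕ => z.1.1) := Primrec.fst.comp Primrec.fst
  have ha : Primrec (fun z : (List (List ℕ) × ℕ) × ℕ => z.1.2) := Primrec.snd.comp Primrec.fst
  have hn : Primrec (fun z : (List (List ℕ) × ℕ) × ℕ => z.2) := Primrec.snd
  have hn1 : Primrec (fun z : (List (List ℕ) × ℕ) × ℕ => z.2 + 1) := Primrec.succ.comp hn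
  have hlen : Primrec (fun z : (List (List ℕ) × ℕ) × ℕ => z.1.1.length) :=
    Primrec.list_length.comp hF
  have h1 : PrimrecPred (fun z : (List (List ℕ) × ℕ) × ℕ => z.1.2 < z.1.1.length) :=
    Primrec.nat_lt.comp ha hlen
  have h2 : PrimrecPred (fun z : (List (List ℕ) × ℕ) × ℕ =>
      ∀ l ∈ z.1.1, ∀ c ∈ l, c < z.1.1.length) := by
    apply pp_forall (P := fun (z : (List (List ℕ) × ℕ) × ℕ) l => ∀ c ∈ l, c < z.1.1.length) hF
    have h3 : Primrec (fun p : ((List (List ℕ) × ℕ) × ℕ) × List ℕ => p.2) := Primrec.snd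
    apply pp_forall (P := fun (p : ((List (List ℕ) × ℕ) × ℕ) × List ℕ) c => c < p.1.1.1.length) h3
    have h4 : Primrec (fun p : (((List (List ℕ) × ℕ) × ℕ) × List ℕ) × ℕ =>
      p.1.1.1.1.length) := hlen.comp (Primrec.fst.comp Primrec.fst)
    exact Primrec.nat_lt.comp Primrec.snd h4
  have h3' : Primrec (fun z : (List (List ℕ) × ℕ) × ℕ => (mor z.1.1 z.1.2).head?) := by
    have h := mor_primrec.comp hF ha
    exact Primrec.list_head?.comp h
  have h3 : PrimrecPred (fun z : (List (List ℕ) × ℕ) × ℕ =>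
      (mor z.1.1 z.1.2).head? = some z.1.2) :=
    Primrec.eq.comp h3' (Primrec.option_some.comp ha)
  have h4 : PrimrecPred (fun z : (List (List ℕ) × ℕ) × ℕ =>
      (im (mor z.1.1))^[z.2] [z.1.2] = (im (mor z.1.1))^[z.2 + 1] [z.1.2]) :=
    Primrec.eq.comp (ca_iter hF hn ha) (ca_iter hF hn1 ha)
  exact ((h1.and (h2.and h3)).not.or h4).of_eq fun z => Iff.rfl

end Pool.Agent.Helper180.QPM
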