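import Mathlib
import Pool.Agent.Helper180.QPM.Base
import Pool.Agent.Helper180.QPM.Prim0
import Pool.Agent.Helper180.QPM.JPrim1
import Pool.Agent.Helper180.QPM.JPrim2
import Pool.Agent.Helper180.QPM.JPrim3
import Pool.Agent.Helper180.QPM.JPrim4

set_option autoImplicit false

namespace Pool.Agent.Helper180.QPM


section auxCertN

variable {α : Type} [Primcodable α]

theorem auxCertN_mem {β : Type} [Primcodable β] {f : α → β} {g : α → List β} (hf : Primrec f)
    (hg : Primrec g) : PrimrecPred (fun z : α => f z ∈ g z) := by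
  have h1 : PrimrecPred (fun p : α × β => p.2 = f p.1) :=
    PrimrecRel.comp Primrec.eq Primrec.snd (hf.comp Primrec.fst)
  have h2 : PrimrecPred (fun z : α => ∃ b ∈ g z, b = f z) := pp_exists hg h1
  exact h2.of_eq (fun z => by simp)

theorem auxCertN_marked {Θ : α → List (List ℕ)} {r : α → ℕ} {S : α → List (List ℕ)}
    (hΘ : Primrec Θ) (hr : Primrec r) (hS : Primrec S) :
    PrimrecPred (fun z : α => Marked (Θ z).length (mor (Θ z)) (r z) (S z)) := by
  have h1 : Primrec (fun z : α => ((Θ z, r z, S z) : List (List ℕ) × ℕ × List (List ℕ))) :=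
    Primrec.pair hΘ (Primrec.pair hr hS)
  have h2 := PrimrecPred.comp marked_primrec h1
  exact h2

theorem auxCertN_inv {K : α → ℕ} {Θ h : α → List (List ℕ)} {Inv : α → List (List ℕ × List ℕ)}
    (hK : Primrec K) (hΘ : Primrec Θ) (hh : Primrec h) (hI : Primrec Inv) :
    PrimrecPred (fun z : α => InvOK (Θ z).length (K z) (mor (Θ z)) (mor (h z)) (Inv z)) := by
  have h1 : Primrec (fun z : α => ((K z, Θ z, h z, Inv z) :
      ℕ × List (List ℕ) × List (List ℕ) × List (List ℕ × List ℕ))) :=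
    Primrec.pair hK (Primrec.pair hΘ (Primrec.pair hh hI))
  have h2 := PrimrecPred.comp inv_primrec h1
  exact h2

theorem auxCertN_gap {K N : α → ℕ} {V : α → List ℕ} {Inv : α → List (List ℕ × List ℕ)}
    {l : α → ℕ} {T : α → List (List ℕ)}
    (hK : Primrec K) (hN : Primrec N) (hV : Primrec V) (hI : Primrec Inv) (hl : Primrec l)
    (hT : Primrec T) :
    PrimrecPred (fun z : α => GapV (K z) (N z) (V z) (Inv z) (l z) (T z)) := by
  have h1 : Primrec (fun z : α => (((K z, N z, V z), Inv z, l z, T z) :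
      (ℕ × ℕ × List ℕ) × List (List ℕ × List ℕ) × ℕ × List (List ℕ))) :=
    Primrec.pair (Primrec.pair hK (Primrec.pair hN hV)) (Primrec.pair hI (Primrec.pair hl hT))
  have h2 := PrimrecPred.comp gapV_primrec h1
  exact h2

theorem auxCertN_iter {F : α → List (List ℕ)} {m : α → ℕ} {L : α → List ℕ}
    (hF : Primrec F) (hm : Primrec m) (hL : Primrec L) :
    Primrec (fun z : α => (im (mor (F z)))^[m z] (L z)) := by
  have h1 : Primrec (fun z : α => ((F z, m z, L z) : List (List ℕ) × ℕ × List ℕ)) :=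
    Primrec.pair hF (Primrec.pair hm hL)
  exact iter_primrec.comp h1

theorem auxCertN_im {F : α → List (List ℕ)} {L : α → List ℕ}
    (hF : Primrec F) (hL : Primrec L) :
    Primrec (fun z : α => im (mor (F z)) (L z)) := by
  have h1 : Primrec (fun z : α => ((F z, L z) : List (List ℕ) × List ℕ)) :=
    Primrec.pair hF hL
  exact im_primrec.comp h1

theorem auxCertN_mor {F : α → List (List ℕ)} {b : α → ℕ}
    (hF : Primrec F) (hb : Primrec b) :
    Primrec (fun z : α => mor (F z) (b z)) := Primrec₂.comp mor_primrec hF hb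

theorem auxCertN_len {β : Type} [Primcodable β] {F : α → List β} (hF : Primrec F) :
    Primrec (fun z : α => (F z).length) := Primrec.list_length.comp hF

theorem auxCertN_head {F : α → List ℕ} (hF : Primrec F) :
    Primrec (fun z : α => (F z).head?) := Primrec.list_head?.comp hF

theorem auxCertN_take {n : α → ℕ} {F : α → List ℕ} (hn : Primrec n) (hF : Primrec F) :
    Primrec (fun z : α => (F z).take (n z)) := Primrec₂.comp Primrec.list_take hn hF

theorem auxCertN_drop {n : α → ℕ} {F : α → List ℕ} (hn : Primrec n) (hF : Primrec F) :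
    Primrec (fun z : α => (F z).drop (n z)) := Primrec₂.comp Primrec.list_drop hn hF

theorem auxCertN_add {a b : α → ℕ} (ha : Primrec a) (hb : Primrec b) :
    Primrec (fun z : α => a z + b z) := Primrec₂.comp Primrec.nat_add ha hb

theorem auxCertN_mul {a b : α → ℕ} (ha : Primrec a) (hb : Primrec b) :
    Primrec (fun z : α => a z * b z) := Primrec₂.comp Primrec.nat_mul ha hb

theorem auxCertN_le {a b : α → ℕ} (ha : Primrec a) (hb : Primrec b) :
    PrimrecPred (fun z : α => a z ≤ b z) := PrimrecRel.comp Primrec.nat_le ha hb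

theorem auxCertN_lt {a b : α → ℕ} (ha : Primrec a) (hb : Primrec b) :
    PrimrecPred (fun z : α => a z < b z) := PrimrecRel.comp Primrec.nat_lt ha hb

theorem auxCertN_eq {β : Type} [Primcodable β] {a b : α → β} (ha : Primrec a) (hb : Primrec b) :
    PrimrecPred (fun z : α => a z = b z) := PrimrecRel.comp Primrec.eq ha hb

theorem auxCertN_words {k n : α → ℕ} (hk : Primrec k) (hn : Primrec n) :
    Primrec (fun z : α => words (k z) (n z)) := Primrec₂.comp words_primrec hk hn

theorem auxCertN_subs {F : α → List (List ℕ)} (hF : Primrec F) :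
    Primrec (fun z : α => subs (F z)) := subs_primrec.comp hF

theorem auxCertN {F : α → List (List ℕ)} {a m N : α → ℕ} {Θ h : α → List (List ℕ)}
    {p : α → List ℕ} {r : α → ℕ} {S : α → List (List ℕ)} {K : α → ℕ}
    {Inv : α → List (List ℕ × List ℕ)}
    (hF : Primrec F) (ha : Primrec a) (hm : Primrec m) (hN : Primrec N) (hΘ : Primrec Θ)
    (hh : Primrec h) (hp : Primrec p) (hr : Primrec r) (hS : Primrec S) (hK : Primrec K)
    (hI : Primrec Inv) :
    PrimrecPred (fun z : α => CertN (mor (F z)) (a z) (m z) (N z) (Θ z) (h z) (p z) (r z) (S z)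
      (K z) (Inv z)) := by
  have hlenΘ : Primrec (fun z : α => (Θ z).length) := auxCertN_len hΘ
  have h2K : Primrec (fun z : α => 2 * K z) := auxCertN_mul (Primrec.const 2) hK
  have hV : Primrec (fun z : α => (im (mor (h z)))^[N z] [0]) :=
    auxCertN_iter hh hN (Primrec.const [0])
  -- the conjuncts
  have c1 : PrimrecPred (fun z : α => 1 ≤ m z) := auxCertN_le (Primrec.const 1) hm
  have c2 : PrimrecPred (fun z : α => 0 < (Θ z).length) := auxCertN_lt (Primrec.const 0) hlenΘ
  have c3 : PrimrecPred (fun z : α => (h z).length = (Θ z).length) :=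
    auxCertN_eq (auxCertN_len hh) hlenΘ
  have c4 : PrimrecPred (fun z : α => ∀ b < (Θ z).length,
      (im (mor (F z)))^[m z] (mor (Θ z) b) = im (mor (Θ z)) (mor (h z) b)) := by
    refine pp_forall_lt hlenΘ ?_
    have e1 : Primrec (fun q : α × ℕ => (im (mor (F q.1)))^[m q.1] (mor (Θ q.1) q.2)) :=
      auxCertN_iter (hF.comp Primrec.fst) (hm.comp Primrec.fst)
        (auxCertN_mor (hΘ.comp Primrec.fst) Primrec.snd)
    have e2 : Primrec (fun q : α × ℕ => im (mor (Θ q.1)) (mor (h q.1) q.2)) :=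
      auxCertN_im (hΘ.comp Primrec.fst) (auxCertN_mor (hh.comp Primrec.fst) Primrec.snd)
    exact auxCertN_eq e1 e2
  have c5 : PrimrecPred (fun z : α => (mor (Θ z) 0).head? = some (a z)) :=
    auxCertN_eq (auxCertN_head (auxCertN_mor hΘ (Primrec.const 0))) (Primrec.option_some.comp ha)
  have c6 : PrimrecPred (fun z : α => (mor (h z) 0).head? = some 0) :=
    auxCertN_eq (auxCertN_head (auxCertN_mor hh (Primrec.const 0))) (Primrec.const (some 0))
  have c7 : PrimrecPred (fun z : α => ∀ b < (Θ z).length, ∀ c ∈ mor (h z) b, c < (Θ z).length) := by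
    refine pp_forall_lt hlenΘ ?_
    have e1 : Primrec (fun q : α × ℕ => mor (h q.1) q.2) :=
      auxCertN_mor (hh.comp Primrec.fst) Primrec.snd
    refine pp_forall (P := fun (q : α × ℕ) (c : ℕ) => c < (Θ q.1).length) e1 ?_
    exact auxCertN_lt Primrec.snd (hlenΘ.comp (Primrec.fst.comp Primrec.fst))
  have c8 : PrimrecPred (fun z : α => Marked (Θ z).length (mor (Θ z)) (p z).length [p z]) := by
    refine auxCertN_marked hΘ (auxCertN_len hp) ?_
    exact Primrec₂.comp Primrec.list_cons hp (Primrec.const [])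
  have c9 : PrimrecPred (fun z : α => Marked (h z).length (mor (h z)) (r z) (S z)) :=
    auxCertN_marked hh hr hS
  have c10 : PrimrecPred (fun z : α => ∀ b < (Θ z).length, 2 ≤ (mor (h z) b).length) := by
    refine pp_forall_lt hlenΘ ?_
    have e1 : Primrec (fun q : α × ℕ => (mor (h q.1) q.2).length) :=
      auxCertN_len (auxCertN_mor (hh.comp Primrec.fst) Primrec.snd)
    exact auxCertN_le (Primrec.const 2) e1
  have c11 : PrimrecPred (fun z : α => (p z).length + 1 ≤ K z) :=
    auxCertN_le (auxCertN_add (auxCertN_len hp) (Primrec.const 1)) hK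
  have c12 : PrimrecPred (fun z : α => r z + 1 ≤ K z) :=
    auxCertN_le (auxCertN_add hr (Primrec.const 1)) hK
  have c13 : PrimrecPred (fun z : α =>
      InvOK (Θ z).length (K z) (mor (Θ z)) (mor (h z)) (Inv z)) := auxCertN_inv hK hΘ hh hI
  have c14 : PrimrecPred (fun z : α =>
      N z + r z + 2 * K z ≤ ((im (mor (h z)))^[N z] [0]).length) :=
    auxCertN_le (auxCertN_add (auxCertN_add hN hr) h2K) (auxCertN_len hV)
  have c15 : PrimrecPred (fun z : α => ∀ l < r z, ∀ T ∈ subs (words (Θ z).length (2 * K z)),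
      (((im (mor (h z)))^[N z] [0]).drop l).take (2 * K z) ∈ T →
      (∃ x ∈ T, x.head? ≠ ((((im (mor (h z)))^[N z] [0]).drop l).take (2 * K z)).head?) →
      GapV (K z) (N z) ((im (mor (h z)))^[N z] [0]) (Inv z) l T) := by
    refine pp_forall_lt hr ?_
    have e1 : Primrec (fun q : α × ℕ => subs (words (Θ q.1).length (2 * K q.1))) :=
      auxCertN_subs (auxCertN_words (hlenΘ.comp Primrec.fst) (h2K.comp Primrec.fst))
    refine pp_forall (P := fun (q : α × ℕ) (T : List (List ℕ)) =>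
      (((im (mor (h q.1)))^[N q.1] [0]).drop q.2).take (2 * K q.1) ∈ T →
      (∃ x ∈ T, x.head? ≠ ((((im (mor (h q.1)))^[N q.1] [0]).drop q.2).take (2 * K q.1)).head?) →
      GapV (K q.1) (N q.1) ((im (mor (h q.1)))^[N q.1] [0]) (Inv q.1) q.2 T) e1 ?_
    have g1 : Primrec (fun q : (α × ℕ) × List (List ℕ) => q.1.1) :=
      Primrec.fst.comp Primrec.fst
    have g2 : Primrec (fun q : (α × ℕ) × List (List ℕ) => q.1.2) :=
      Primrec.snd.comp Primrec.fst
    have g3 : Primrec (fun q : (α × ℕ) × List (List ℕ) => q.2) := Primrec.snd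
    have hVq : Primrec (fun q : (α × ℕ) × List (List ℕ) =>
        (im (mor (h q.1.1)))^[N q.1.1] [0]) := hV.comp g1
    have h2Kq : Primrec (fun q : (α × ℕ) × List (List ℕ) => 2 * K q.1.1) := h2K.comp g1
    have hW : Primrec (fun q : (α × ℕ) × List (List ℕ) =>
        (((im (mor (h q.1.1)))^[N q.1.1] [0]).drop q.1.2).take (2 * K q.1.1)) :=
      auxCertN_take h2Kq (auxCertN_drop g2 hVq)
    refine pp_imp (auxCertN_mem hW g3) (pp_imp ?_ ?_)
    · refine pp_exists (P := fun (q : (α × ℕ) × List (List ℕ)) (x : List ℕ) =>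
        x.head? ≠ ((((im (mor (h q.1.1)))^[N q.1.1] [0]).drop q.1.2).take (2 * K q.1.1)).head?)
        g3 ?_
      have f1 : Primrec (fun q : ((α × ℕ) × List (List ℕ)) × List ℕ => q.2.head?) :=
        auxCertN_head Primrec.snd
      have f2 : Primrec (fun q : ((α × ℕ) × List (List ℕ)) × List ℕ =>
          ((((im (mor (h q.1.1.1)))^[N q.1.1.1] [0]).drop q.1.1.2).take (2 * K q.1.1.1)).head?) :=
        (auxCertN_head hW).comp Primrec.fst
      exact (auxCertN_eq f1 f2).not
    · exact auxCertN_gap (hK.comp g1) (hN.comp g1) hVq (hI.comp g1) g2 g3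
  refine ((((((((((((((c1.and c2).and c3).and c4).and c5).and c6).and c7).and c8).and c9).and
    c10).and c11).and c12).and c13).and c14).and c15).of_eq ?_
  intro z
  constructor
  · rintro ⟨⟨⟨⟨⟨⟨⟨⟨⟨⟨⟨⟨⟨⟨d1, d2⟩, d3⟩, d4⟩, d5⟩, d6⟩, d7⟩, d8⟩, d9⟩, d10⟩, d11⟩, d12⟩, d13⟩,
      d14⟩, d15⟩
    rw [d3] at d9
    exact ⟨d1, d2, d3, d4, d5, d6, d7, d8, d9, d10, d11, d12, d13, d14, d15⟩
  · rintro ⟨d1, d2, d3, d4, d5, d6, d7, d8, d9, d10, d11, d12, d13, d14, d15⟩
    rw [← d3] at d9
    exact ⟨⟨⟨⟨⟨⟨⟨⟨⟨⟨⟨⟨⟨⟨d1, d2⟩, d3⟩, d4⟩, d5⟩, d6⟩, d7⟩, d8⟩, d9⟩, d10⟩, d11⟩, d12⟩, d13⟩,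
      d14⟩, d15⟩

end auxCertN

theorem certN_primrec : PrimrecPred (fun z : (List (List ℕ) × ℕ) ×
    (ℕ × ℕ × List (List ℕ) × List (List ℕ) × List ℕ × ℕ × List (List ℕ) × ℕ ×
      List (List ℕ × List ℕ)) =>
    CertN (mor z.1.1) z.1.2 z.2.1 z.2.2.1 z.2.2.2.1 z.2.2.2.2.1 z.2.2.2.2.2.1 z.2.2.2.2.2.2.1
      z.2.2.2.2.2.2.2.1 z.2.2.2.2.2.2.2.2.1 z.2.2.2.2.2.2.2.2.2) := by
  have s2 := Primrec.snd (α := List (List ℕ) × ℕ) (β := ℕ × ℕ × List (List ℕ) × List (List ℕ) ×
    List ℕ × ℕ × List (List ℕ) × ℕ × List (List ℕ × List ℕ))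
  have s1 := Primrec.fst (α := List (List ℕ) × ℕ) (β := ℕ × ℕ × List (List ℕ) × List (List ℕ) ×
    List ℕ × ℕ × List (List ℕ) × ℕ × List (List ℕ × List ℕ))
  have t1 := Primrec.snd.comp s2
  have t2 := Primrec.snd.comp t1
  have t3 := Primrec.snd.comp t2
  have t4 := Primrec.snd.comp t3
  have t5 := Primrec.snd.comp t4
  have t6 := Primrec.snd.comp t5
  have t7 := Primrec.snd.comp t6
  have t8 := Primrec.snd.comp t7
  exact auxCertN (Primrec.fst.comp s1) (Primrec.snd.comp s1) (Primrec.fst.comp s2)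
    (Primrec.fst.comp t1) (Primrec.fst.comp t2) (Primrec.fst.comp t3) (Primrec.fst.comp t4)
    (Primrec.fst.comp t5) (Primrec.fst.comp t6) (Primrec.fst.comp t7) t8

end Pool.Agent.Helper180.QPM
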