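import Mathlib
import Pool.Agent.Helper180.QPM.Base

set_option autoImplicit false

namespace Pool.Agent.Helper180.QPM


theorem found_primrec {α β : Type} [Primcodable α] [Primcodable β] {A : α × β → Prop}
    (hA : PrimrecPred A) : ∃ F : α → ℕ → Bool, Primrec₂ F ∧
      ∀ z n, F z n = true ↔ ∃ b, (Encodable.decode n : Option β) = some b ∧ A (z, b) := by
  obtain ⟨hdec, hA'⟩ := hA
  refine ⟨fun z n => (Encodable.decode n : Option β).casesOn false (fun b => decide (A (z, b))), ?_, ?_⟩
  · refine Primrec.option_casesOn (β := β) ?_ (Primrec.const false) ?_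
    · exact Primrec.decode.comp Primrec.snd
    · exact hA'.comp (Primrec.pair (Primrec.fst.comp Primrec.fst) Primrec.snd)
  · intro z n
    rcases h : (Encodable.decode n : Option β) with _ | b
    · simp only [h]
      simp
    · simp only [h]
      simp

theorem search {α β γ δ ι : Type} [Primcodable α] [Primcodable β] [Primcodable γ] [Primcodable δ]
    [Primcodable ι] {A : α × β → Prop} {B : α × γ → Prop} {C : α × δ → Prop} {D : α × ι → Prop}
    (hA : PrimrecPred A) (hB : PrimrecPred B) (hC : PrimrecPred C) (hD : PrimrecPred D)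
    (htot : ∀ z, (∃ b, A (z, b)) ∨ (∃ b, B (z, b)) ∨ (∃ b, C (z, b)) ∨ ∃ b, D (z, b)) :
    ∃ P : α → Prop, ComputablePred P ∧
      ∀ z, (¬ ∃ b, D (z, b)) → ((∃ b, A (z, b)) → (¬ ∃ b, B (z, b)) ∧ (¬ ∃ b, C (z, b))) →
        (P z ↔ ∃ b, A (z, b)) := by
  classical
  obtain ⟨FA, pA, eA⟩ := found_primrec hA
  obtain ⟨FB, pB, eB⟩ := found_primrec hB
  obtain ⟨FC, pC, eC⟩ := found_primrec hC
  obtain ⟨FD, pD, eD⟩ := found_primrec hD
  let F : α → ℕ → Bool := fun z n => (FA z n || FB z n) || (FC z n || FD z n)
  have pF : Primrec₂ F := by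
    have h1 : Primrec₂ (fun z n => FA z n || FB z n) := Primrec.or.comp₂ pA pB
    have h2 : Primrec₂ (fun z n => FC z n || FD z n) := Primrec.or.comp₂ pC pD
    exact Primrec.or.comp₂ h1 h2
  have hex : ∀ z, ∃ n, F z n = true := by
    intro z
    have aux : ∀ {σ : Type} [Primcodable σ] (E : α × σ → Prop) (FE : α → ℕ → Bool)
        (hE : ∀ z n, FE z n = true ↔ ∃ b, (Encodable.decode n : Option σ) = some b ∧ E (z, b)),
        (∃ b, E (z, b)) → ∃ n, FE z n = true := by
      intro σ _ E FE hE hb
      obtain ⟨b, hb⟩ := hb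
      exact ⟨Encodable.encode b, (hE _ _).2 ⟨b, Encodable.encodek b, hb⟩⟩
    rcases htot z with h | h | h | h
    · obtain ⟨n, hn⟩ := aux A FA eA h
      exact ⟨n, by simp [F, hn]⟩
    · obtain ⟨n, hn⟩ := aux B FB eB h
      exact ⟨n, by simp [F, hn]⟩
    · obtain ⟨n, hn⟩ := aux C FC eC h
      exact ⟨n, by simp [F, hn]⟩
    · obtain ⟨n, hn⟩ := aux D FD eD h
      exact ⟨n, by simp [F, hn]⟩
  let nn : α → ℕ := fun z => Nat.find (hex z)
  have hnn : Computable nn := by
    have h1 : Partrec (fun z => Nat.rfind (fun n => Part.some (F z n))) :=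
      Partrec.rfind (Primrec₂.to_comp pF).partrec₂
    refine Partrec.of_eq h1 ?_
    intro z
    refine Part.eq_some_iff.2 ?_
    refine Nat.mem_rfind.2 ⟨?_, ?_⟩
    · have : F z (nn z) = true := Nat.find_spec (hex z)
      rw [this]
      exact Part.mem_some _
    · intro m hm
      have : ¬ F z m = true := Nat.find_min (hex z) hm
      have h2 : F z m = false := by simpa using this
      rw [h2]
      exact Part.mem_some _
  refine ⟨fun z => FA z (nn z) = true, ?_, ?_⟩
  · refine ⟨inferInstance, ?_⟩
    have h1 : Computable (fun z => FA z (nn z)) :=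
      (Primrec₂.to_comp pA).comp Computable.id hnn
    refine h1.of_eq ?_
    intro z
    simp
  · intro z hDz hAz
    constructor
    · intro h
      obtain ⟨b, _, hb⟩ := (eA _ _).1 h
      exact ⟨b, hb⟩
    · intro h
      obtain ⟨hBz, hCz⟩ := hAz h
      have h1 : F z (nn z) = true := Nat.find_spec (hex z)
      have hfB : FB z (nn z) = false := by
        by_contra hcon
        have : FB z (nn z) = true := by simpa using hcon
        obtain ⟨b, _, hb⟩ := (eB _ _).1 this
        exact hBz ⟨b, hb⟩
      have hfC : FC z (nn z) = false := by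
        by_contra hcon
        have : FC z (nn z) = true := by simpa using hcon
        obtain ⟨b, _, hb⟩ := (eC _ _).1 this
        exact hCz ⟨b, hb⟩
      have hfD : FD z (nn z) = false := by
        by_contra hcon
        have : FD z (nn z) = true := by simpa using hcon
        obtain ⟨b, _, hb⟩ := (eD _ _).1 this
        exact hDz ⟨b, hb⟩
      simpa [F, hfB, hfC, hfD] using h1

end Pool.Agent.Helper180.QPM
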