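import Mathlib
import Pool.Agent.Helper180.QPM.Base
import Pool.Agent.Helper180.QPM.Extra

set_option autoImplicit false

namespace Pool.Agent.Helper180.QPM


theorem sA_iter_append (f : ℕ → List ℕ) (j : ℕ) (L M : List ℕ) :
    (im f)^[j] (L ++ M) = (im f)^[j] L ++ (im f)^[j] M := by
  rw [← im_it, ← im_it, ← im_it, im_append]

theorem sA_closed {f : ℕ → List ℕ} {D : List ℕ} (closed : ∀ b ∈ D, ∀ e ∈ f b, e ∈ D) (j : ℕ) :
    ∀ L : List ℕ, (∀ e ∈ L, e ∈ D) → ∀ e ∈ (im f)^[j] L, e ∈ D := by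
  induction j with
  | zero => exact fun L h => h
  | succ j ih =>
    intro L hL
    rw [Function.iterate_succ_apply]
    apply ih
    intro e he
    obtain ⟨b, hb, heb⟩ := (mem_im f).1 he
    exact closed b (hL b hb) e heb

theorem sA_imm {f : ℕ → List ℕ} {I : List ℕ} (imm : ∀ b ∈ I, ∃ e ∈ f b, e ∈ I) (j : ℕ) :
    ∀ L : List ℕ, (∃ e ∈ L, e ∈ I) → ∃ e ∈ (im f)^[j] L, e ∈ I := by
  induction j with
  | zero => exact fun L h => h
  | succ j ih =>
    rintro L ⟨b, hb, hbI⟩
    rw [Function.iterate_succ_apply]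
    apply ih
    obtain ⟨e, he, heI⟩ := imm b hbI
    exact ⟨e, (mem_im f).2 ⟨b, hb, he⟩, heI⟩

theorem sA_length {f : ℕ → List ℕ} {I : List ℕ} (imm : ∀ b ∈ I, ∃ e ∈ f b, e ∈ I) (j : ℕ)
    (L : List ℕ) (h : ∃ e ∈ L, e ∈ I) : 1 ≤ ((im f)^[j] L).length := by
  obtain ⟨e, he, _⟩ := sA_imm imm j L h
  exact List.length_pos_of_mem he

theorem sA_factor {f : ℕ → List ℕ} {a N c m : ℕ} {x s D I : List ℕ}
    (hc : CertA f a N c m x s D I) (j : ℕ) :
    ∃ X S Y : List ℕ, (im f)^[j * m] [c] = X ++ (S ++ Y) ∧ (∀ e ∈ S, e ∈ D) ∧ j ≤ S.length := by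
  have hstep : ∀ j : ℕ, (im f)^[(j + 1) * m] [c] =
      (im f)^[j * m] x ++ ((im f)^[j * m] [c] ++ (im f)^[j * m] s) := by
    intro j
    rw [Nat.succ_mul, Function.iterate_add_apply, hc.eq, sA_iter_append,
      show c :: s = [c] ++ s from rfl, sA_iter_append]
  rcases hc.side with ⟨h1, h2⟩ | ⟨h1, h2⟩
  · have key : ∀ j : ℕ, ∃ X S : List ℕ, (im f)^[j * m] [c] = X ++ S ∧ (∀ e ∈ S, e ∈ D) ∧
        j ≤ S.length := by
      intro j
      induction j with
      | zero =>
        refine ⟨(im f)^[0 * m] [c], [], by simp, by simp, by simp⟩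
      | succ j ih =>
        obtain ⟨X, S, hXS, hS, hlen⟩ := ih
        refine ⟨(im f)^[j * m] x ++ X, S ++ (im f)^[j * m] s, ?_, ?_, ?_⟩
        · rw [hstep, hXS]; simp
        · intro e he
          rcases List.mem_append.1 he with he | he
          · exact hS e he
          · exact sA_closed hc.closed (j * m) s h1 e he
        · have := sA_length hc.imm (j * m) s h2
          rw [List.length_append]
          omega
    obtain ⟨X, S, hXS, hS, hlen⟩ := key j
    exact ⟨X, S, [], by simpa using hXS, hS, hlen⟩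
  · have key : ∀ j : ℕ, ∃ S X : List ℕ, (im f)^[j * m] [c] = S ++ X ∧ (∀ e ∈ S, e ∈ D) ∧
        j ≤ S.length := by
      intro j
      induction j with
      | zero =>
        refine ⟨[], (im f)^[0 * m] [c], by simp, by simp, by simp⟩
      | succ j ih =>
        obtain ⟨S, X, hXS, hS, hlen⟩ := ih
        refine ⟨(im f)^[j * m] x ++ S, X ++ (im f)^[j * m] s, ?_, ?_, ?_⟩
        · rw [hstep, hXS]; simp
        · intro e he
          rcases List.mem_append.1 he with he | he
          · exact sA_closed hc.closed (j * m) x h1 e he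
          · exact hS e he
        · have := sA_length hc.imm (j * m) x h2
          rw [List.length_append]
          omega
    obtain ⟨S, X, hXS, hS, hlen⟩ := key j
    exact ⟨[], S, X, by simpa using hXS, hS, hlen⟩

theorem soundA {f : ℕ → List ℕ} {w : ℕ → ℕ} {a kA N c m : ℕ} {x s D I : List ℕ}
    (hw : Ctx f w a kA) (hc : CertA f a N c m x s D I) : ¬ QP w := by
  intro hq
  obtain ⟨g, hg⟩ := synd_of_QP hq
  rw [hw.w0] at hg
  -- `c` occurs in `w`
  obtain ⟨i, hi⟩ : ∃ i, w i = c := by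
    have h1 := (hw.fix.iter N).imWin 0 1
    rw [win_one, hw.w0, im_it] at h1
    have h2 := hc.mem
    rw [h1] at h2
    obtain ⟨t, _, ht⟩ := (mem_win w).1 h2
    exact ⟨_, ht⟩
  obtain ⟨X, S, Y, hXS, hS, hlen⟩ := sA_factor hc g
  have h1 := (hw.fix.iter (g * m)).letter i
  rw [hi] at h1
  set p := cut (it f (g * m)) w i with hp
  have h2 : it f (g * m) c = X ++ (S ++ Y) := hXS
  rw [h2] at h1
  obtain ⟨t, ht, hta⟩ := hg (p + X.length)
  have h3 : (X ++ (S ++ Y)).getD (X.length + t) 0 = w (p + (X.length + t)) := by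
    conv_lhs => rw [h1]
    apply win_getD
    simp only [List.length_append]
    omega
  have h4 : (X ++ (S ++ Y)).getD (X.length + t) 0 = S[t]'(by omega) := by
    rw [List.getD_eq_getElem _ _ (by simp only [List.length_append]; omega),
      List.getElem_append_right (by omega)]
    simp only [Nat.add_sub_cancel_left]
    rw [List.getElem_append_left (by omega)]
  rw [h4, ← Nat.add_assoc, hta] at h3
  exact hc.aD (h3 ▸ hS _ (List.getElem_mem _))

end Pool.Agent.Helper180.QPM
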