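import Mathlib
import Pool.Agent.Helper180.QPM.Base
import Pool.Agent.Helper180.QPM.JNotcov
import Pool.Agent.Helper180.QPM.JFix
import Pool.Agent.Helper180.QPM.JVtools

set_option autoImplicit false

namespace Pool.Agent.Helper180.QPM


theorem cov_im {w : ℕ → ℕ} {G : ℕ → List ℕ} (hG : IsIm G w w) (hpos : 1 ≤ (G (w 0)).length)
    {u : ℕ} (hu : Cov w u) : Cov w (cut G w u) := by
  have hu1 : 1 ≤ u := by
    obtain ⟨j, h1, h2, _⟩ := hu 0
    omega
  have hunb : ∀ N, ∃ n, N < cut G w n := by
    intro N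
    induction N with
    | zero =>
      refine ⟨1, ?_⟩
      have h1 := cut_succ G w 0
      rw [cut_zero] at h1
      simp only [Nat.zero_add] at h1
      omega
    | succ N ih =>
      obtain ⟨M, hM⟩ := ih
      obtain ⟨j, h1, h2, h3⟩ := hu (M + u)
      have h4 : w j = w 0 := by
        have h5 := (win_eq_iff.1 h3) 0 (by omega)
        simpa using h5
      refine ⟨j + 1, ?_⟩
      have h6 := cut_succ G w j
      rw [h4] at h6
      have h7 : cut G w M ≤ cut G w j := cut_mono G w (by omega)
      omega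
  intro i
  obtain ⟨i', h1, h2⟩ := exists_block hunb i
  obtain ⟨j', h3, h4, h5⟩ := hu i'
  have h6 : cut G w (j' + u) = cut G w j' + cut G w u := by
    rw [cut_add, h5]
    rfl
  refine ⟨cut G w j', le_trans (cut_mono G w h3) h1, ?_, ?_⟩
  · rw [← h6]
    exact lt_of_lt_of_le h2 (cut_mono G w (by omega))
  · have h7 := hG.imWin j' u
    rw [h5, hG u] at h7
    simp only [win_length] at h7
    exact h7.symm

theorem soundN {f : ℕ → List ℕ} {w : ℕ → ℕ} {a kA m N r K : ℕ} {Θ h : List (List ℕ)}
    {p : List ℕ} {S : List (List ℕ)} {Inv : List (List ℕ × List ℕ)} (hw : Ctx f w a kA)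
    (hc : CertN f a m N Θ h p r S K Inv) : ¬ QP w := by
  classical
  obtain ⟨v, hv0, hvlt, hvv, hV, _⟩ := exists_fix (h := mor h) hc.kpos hc.h0
    (fun b hb => hc.mh.pos b hb) (hc.two 0 hc.kpos) hc.val
  have hvw : IsIm (mor Θ) v w := conj_im hw hc.mpos hv0 hvlt hvv hc.mth.pos hc.conj hc.th0
  have hwin : ∀ l < r, (((im (mor h))^[N] [0]).drop l).take (2 * K) = win v l (2 * K) := by
    intro l hl
    have h1 := hV N
    have h2 := hc.long
    rw [h1, drop_win, take_win _ _ _ _ (by omega), Nat.zero_add]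
  have hnc : ∀ {u : ℕ}, p.length ≤ u → ¬ Cov w u := by
    intro u hu
    refine not_cov hc.mth hc.mh hc.val hc.two hc.Kp hc.Kr hc.inv hvlt hvv hvw ?_ hu
    intro l hl T hT hTw hTx
    set T' : List (List ℕ) := (words Θ.length (2 * K)).filter (fun x => decide (T x)) with hT'
    have hmem : ∀ x, x ∈ T' ↔ T x := by
      intro x
      rw [hT', List.mem_filter, mem_words]
      constructor
      · rintro ⟨_, h2⟩
        exact of_decide_eq_true h2
      · intro h1
        exact ⟨hT x h1, decide_eq_true h1⟩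
    have hg := hc.gap l hl T' (filter_mem_subs _ _) (by rw [hwin l hl, hmem]; exact hTw) (by
      obtain ⟨x, hx1, hx2⟩ := hTx
      refine ⟨x, (hmem x).2 hx1, ?_⟩
      rw [hwin l hl]
      exact hx2)
    have hg2 := gap_of_V (hV N) hc.long hl hg
    have hfun : (fun x => x ∈ T') = T := by
      funext x
      exact propext (hmem x)
    rw [hfun] at hg2
    exact hg2
  rintro ⟨u, hu⟩
  obtain ⟨n, hn⟩ := hw.grow p.length
  have hG : IsIm (it f n) w w := hw.fix.iter n
  have hu1 : 1 ≤ u := by
    obtain ⟨j, h1, h2, _⟩ := hu 0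
    omega
  have h0 : (it f n (w 0)).length = (it f n a).length := by rw [hw.w0]
  have hcov : Cov w (cut (it f n) w u) := cov_im hG (by omega) hu
  refine hnc ?_ hcov
  have h1 : cut (it f n) w 1 ≤ cut (it f n) w u := cut_mono _ _ hu1
  have h2 := cut_succ (it f n) w 0
  rw [cut_zero] at h2
  simp only [Nat.zero_add] at h2
  omega

end Pool.Agent.Helper180.QPM
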