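import Mathlib
import Pool.Agent.Helper180.QPM.Base
import Pool.Agent.Helper180.QPM.JFix

set_option autoImplicit false

namespace Pool.Agent.Helper180.QPM


theorem soundQ {f : ℕ → List ℕ} {w : ℕ → ℕ} {a kA N u K : ℕ} {Θ h Fac : List (List ℕ)}
    (hw : Ctx f w a kA) (hc : CertQ f a N Θ h u K Fac) : QP w := by
  obtain ⟨v, hv0, hvlt, hvv, hvpre, -⟩ := exists_fix (k := Θ.length) (h := mor h) hc.kpos
    hc.h0 hc.posh hc.two hc.val
  have hIm : IsIm (mor Θ) v w := conj_im (m := 1) hw le_rfl hv0 hvlt hvv hc.posΘ
    (fun b hb => by rw [Function.iterate_one]; exact hc.conj b hb) hc.th0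
  have hposH : ∀ i, 1 ≤ (mor h (v i)).length := fun i => hc.posh _ (hvlt i)
  have hposT : ∀ i, 1 ≤ (mor Θ (v i)).length := fun i => hc.posΘ _ (hvlt i)
  have hKu := hc.Ku
  have hK1 : 1 ≤ K := by omega
  have hlong := hc.long
  -- lengths of images of windows
  have hlenH : ∀ i n, n ≤ (im (mor h) (win v i n)).length := by
    intro i n
    have h1 := length_im_pos (mor h) (L := win v i n) (by
      intro c hcm
      obtain ⟨t, _, rfl⟩ := (mem_win v).1 hcm
      exact hposH _)
    simpa using h1
  have hlenT : ∀ i n, n ≤ (im (mor Θ) (win v i n)).length := by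
    intro i n
    have h1 := length_im_pos (mor Θ) (L := win v i n) (by
      intro c hcm
      obtain ⟨t, _, rfl⟩ := (mem_win v).1 hcm
      exact hposT _)
    simpa using h1
  have hgrow : ∀ i, i + 2 ≤ cut (mor h) v (i + 1) := by
    intro i
    have h1 := cut_add (mor h) v 1 i
    have h2 := cut_succ (mor h) v 0
    have h3 := hlenH 1 i
    have h4 := hc.two
    rw [hv0] at h2
    rw [Nat.add_comm 1 i] at h1
    simp only [Nat.zero_add, cut_zero] at h2
    omega
  have hV0 : ((im (mor h))^[N] [0]).take K = win v 0 K := by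
    rw [hvpre N, take_win _ _ _ _ hlong]
  have hFac : ∀ i, win v i K ∈ Fac := by
    intro i
    induction i using Nat.strong_induction_on with
    | _ i ih =>
      rcases Nat.eq_zero_or_pos i with rfl | hi
      · have h1 := hc.start
        rw [hV0] at h1
        exact h1
      · obtain ⟨i', h1, h2⟩ := exists_block (cut_unbounded hposH) i
        have hlt : i' < i := by
          by_contra hcon
          obtain ⟨e, rfl⟩ := Nat.exists_eq_add_of_le' (show 1 ≤ i' by omega)
          have := hgrow e
          omega
        have hx := ih i' hlt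
        have hhead : (win v i' K).headI = v i' := by
          obtain ⟨K', rfl⟩ := Nat.exists_eq_add_of_le' hK1
          rw [win_succ']; rfl
        have h2' := h2
        rw [cut_succ] at h2'
        have h3 := hc.closed _ hx (i - cut (mor h) v i') (by rw [hhead]; omega)
        have h4 := cut_add (mor h) v i' K
        have h5 := cut_add (mor h) v (i' + 1) (K - 1)
        rw [show i' + 1 + (K - 1) = i' + K by omega] at h5
        have h6 := hlenH (i' + 1) (K - 1)
        rw [hvv.imWin i' K, drop_win, take_win _ _ _ _ (by omega),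
          show cut (mor h) v i' + (i - cut (mor h) v i') = i by omega] at h3
        exact h3
  -- the image of the first window
  have hX0 : im (mor Θ) (((im (mor h))^[N] [0]).take K) = win w 0 (cut (mor Θ) v K) := by
    rw [hV0, hIm K]
  have hKcut : K ≤ cut (mor Θ) v K := le_cut hposT K
  have hU : (im (mor Θ) (((im (mor h))^[N] [0]).take K)).take u = win w 0 u := by
    rw [hX0, take_win _ _ _ _ (by omega)]
  have hcutle : ∀ i n, cut (mor Θ) v i + n ≤ cut (mor Θ) v (i + n) := by
    intro i n
    have h1 := cut_add (mor Θ) v i n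
    have h2 := hlenT i n
    omega
  refine ⟨u, ?_⟩
  intro i
  obtain ⟨i', h1, h2⟩ := exists_block (cut_unbounded hposT) i
  rcases Nat.lt_or_ge i' u with hlt | hge
  · have h3 := hcutle (i' + 1) (K - (i' + 1))
    rw [show i' + 1 + (K - (i' + 1)) = K by omega] at h3
    have h4 : (im (mor Θ) (((im (mor h))^[N] [0]).take K)).length = cut (mor Θ) v K := by
      rw [hX0, win_length]
    obtain ⟨j, hj1, hj2, hj3⟩ := hc.cov0 i (by rw [h4]; omega) (by rw [h4]; omega)
    rw [hU, hX0, drop_win, Nat.zero_add] at hj3
    have h5 : u ≤ cut (mor Θ) v K - j := by omega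
    rw [take_win _ _ _ _ h5] at hj3
    exact ⟨j, by omega, hj2, hj3⟩
  · set c := cut (mor Θ) v (i' - u) with hcdef
    have h3 := hcutle (i' - u) u
    rw [show i' - u + u = i' by omega, ← hcdef] at h3
    have h4 := hcutle (i' + 1) (K - (u + 1))
    rw [show i' + 1 + (K - (u + 1)) = (i' - u) + K by omega] at h4
    have h5 := cut_add (mor Θ) v (i' - u) K
    have h6 : im (mor Θ) (win v (i' - u) K) = win w c (im (mor Θ) (win v (i' - u) K)).length :=
      hIm.imWin (i' - u) K
    obtain ⟨j, hj1, hj2, hj3⟩ := hc.cov _ (hFac (i' - u)) (i - c) (by omega) (by omega) (by omega)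
    rw [hU, h6, drop_win] at hj3
    rw [take_win _ _ _ _ (by omega)] at hj3
    exact ⟨c + j, by omega, by omega, hj3⟩

end Pool.Agent.Helper180.QPM
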