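import Pool.Agent.Helper180.QPM.JPrim5
import Pool.Agent.Helper180.QPM.JPrim6
import Pool.Agent.Helper180.QPM.JPrim7
import Pool.Agent.Helper180.QPM.JSearch
import Pool.Agent.Helper180.QPM.JCtx
import Pool.Agent.Helper180.QPM.JComplA
import Pool.Agent.Helper180.QPM.JComplN
import Pool.Agent.Helper180.QPM.JComplQ
import Pool.Agent.Helper180.QPM.JSoundA
import Pool.Agent.Helper180.QPM.JSoundN
import Pool.Agent.Helper180.QPM.JSoundQ

set_option autoImplicit false

namespace Pool.Agent.Helper180.QPM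

theorem ctx_of_not_certI {F : List (List ℕ)} {a : ℕ} (h : ¬ ∃ b, CertI ((F, a), b)) :
    ∃ w, Ctx (mor F) w a F.length ∧
      ∀ n, it (mor F) n a = win w 0 (it (mor F) n a).length := by
  unfold CertI at h
  push Not at h
  have h1 := (h 0).1
  exact exists_ctx h1.1 h1.2.1 h1.2.2 (fun n => (h n).2)

theorem not_certI {F : List (List ℕ)} {a : ℕ} (h1 : a < F.length)
    (h2 : ∀ l ∈ F, ∀ c ∈ l, c < F.length) (h3 : (mor F a).head? = some a)
    (h4 : ∀ m, ∃ n, m < ((im (mor F))^[n] [a]).length) : ¬ ∃ b, CertI ((F, a), b) := by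
  rintro ⟨b, hb | hb⟩
  · exact hb ⟨h1, h2, h3⟩
  · have hb' : (im (mor F))^[b] [a] = (im (mor F))^[b + 1] [a] := hb
    have hk : ∀ k, (im (mor F))^[b + k] [a] = (im (mor F))^[b] [a] := by
      intro k
      induction k with
      | zero => rfl
      | succ k ih =>
        have h8 : (im (mor F))^[b] [a] = im (mor F) ((im (mor F))^[b] [a]) := by
          rw [← Function.iterate_succ_apply' (im (mor F)) b [a]]
          exact hb'
        rw [← Nat.add_assoc, Function.iterate_succ_apply', ih]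
        exact h8.symm
    obtain ⟨n, hn⟩ := h4 (∑ i ∈ Finset.range (b + 1), ((im (mor F))^[i] [a]).length)
    have hle : ∀ i ∈ Finset.range (b + 1), ((im (mor F))^[i] [a]).length ≤
        ∑ i ∈ Finset.range (b + 1), ((im (mor F))^[i] [a]).length := by
      intro i hi
      exact Finset.single_le_sum (f := fun i => ((im (mor F))^[i] [a]).length)
        (fun _ _ => Nat.zero_le _) hi
    rcases Nat.lt_or_ge b n with hbn | hbn
    · have h5 := hk (n - b)
      have h6 : b + (n - b) = n := by omega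
      rw [h6] at h5
      have h7 := hle b (Finset.mem_range.2 (by omega))
      rw [h5] at hn
      omega
    · have h7 := hle n (Finset.mem_range.2 (by omega))
      omega

theorem certQ_iff {F : List (List ℕ)} {a : ℕ} {w : ℕ → ℕ} (hw : Ctx (mor F) w a F.length) :
    (∃ b : ℕ × List (List ℕ) × List (List ℕ) × ℕ × ℕ × List (List ℕ),
      CertQ (mor F) a b.1 b.2.1 b.2.2.1 b.2.2.2.1 b.2.2.2.2.1 b.2.2.2.2.2) ↔ QP w := by
  constructor
  · rintro ⟨b, hb⟩
    exact soundQ hw hb
  · intro h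
    obtain ⟨N, Θ, g, u, K, Fac, hc⟩ := complQ hw h
    exact ⟨(N, Θ, g, u, K, Fac), hc⟩

theorem getD_win (w : ℕ → ℕ) {n i : ℕ} (h : i < n) : (win w 0 n).getD i 0 = w i := by
  unfold win
  simp [List.getD, h]

theorem qp_iff {F : List (List ℕ)} {a : ℕ} {w : ℕ → ℕ}
    (hw : ∀ n, it (mor F) n a = win w 0 (it (mor F) n a).length)
    (h4 : ∀ m, ∃ n, m < (it (mor F) n a).length) :
    QP w ↔ ∃ w : ℕ → ℕ,
      (∀ n i : ℕ, i < (it (mor F) n a).length → w i = (it (mor F) n a).getD i 0) ∧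
      ∃ x : List ℕ, ∀ i : ℕ, ∃ j : ℕ, j ≤ i ∧ i < j + x.length ∧
        ∀ t : ℕ, t < x.length → w (j + t) = x.getD t 0 := by
  have hwi : ∀ n i, i < (it (mor F) n a).length → w i = (it (mor F) n a).getD i 0 := by
    intro n i hi
    rw [hw n, getD_win w hi]
  constructor
  · rintro ⟨u, hu⟩
    refine ⟨w, hwi, win w 0 u, fun i => ?_⟩
    obtain ⟨j, hj1, hj2, hj3⟩ := hu i
    refine ⟨j, hj1, by simpa [win] using hj2, fun t ht => ?_⟩
    have ht' : t < u := by simpa [win] using ht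
    rw [getD_win w ht']
    have := win_eq_iff.1 hj3 t ht'
    simpa using this
  · rintro ⟨w', hw', x, hx⟩
    have hww : w' = w := by
      funext i
      obtain ⟨n, hn⟩ := h4 i
      rw [hw' n i hn, hwi n i hn]
    subst hww
    obtain ⟨j0, hj0, hj0', hx0⟩ := hx 0
    have hj : j0 = 0 := by omega
    subst hj
    refine ⟨x.length, fun i => ?_⟩
    obtain ⟨j, hj1, hj2, hj3⟩ := hx i
    refine ⟨j, hj1, hj2, win_eq_iff.2 fun t ht => ?_⟩
    rw [hj3 t ht, ← hx0 t ht]

theorem main :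
    ∃ P : List (List ℕ) × ℕ → Prop, ComputablePred P ∧
      ∀ F : List (List ℕ), ∀ a : ℕ,
        a < F.length →
        (∀ l ∈ F, ∀ c ∈ l, c < F.length) →
        (F.getD a []).head? = some a →
        (∀ m : ℕ, ∃ n : ℕ,
          m < ((fun L : List ℕ => L.flatMap (fun c => F.getD c []))^[n] [a]).length) →
        (P (F, a) ↔
          ∃ w : ℕ → ℕ,
            (∀ n i : ℕ,
              i < ((fun L : List ℕ => L.flatMap (fun c => F.getD c []))^[n] [a]).length →
              w i = ((fun L : List ℕ => L.flatMap (fun c => F.getD c []))^[n] [a]).getD i 0) ∧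
            ∃ x : List ℕ, ∀ i : ℕ, ∃ j : ℕ, j ≤ i ∧ i < j + x.length ∧
              ∀ t : ℕ, t < x.length → w (j + t) = x.getD t 0) := by
  obtain ⟨P, hP, hspec⟩ := search certQ_primrec certN_primrec certA_primrec certI_primrec (by
    rintro ⟨F, a⟩
    by_cases hI : ∃ b, CertI ((F, a), b)
    · exact Or.inr (Or.inr (Or.inr hI))
    · obtain ⟨w, hw, -⟩ := ctx_of_not_certI hI
      by_cases hq : QP w
      · exact Or.inl ((certQ_iff hw).2 hq)
      · by_cases hs : Synd a w
        · obtain ⟨m, N, Θ, g, p, r, S, K, Inv, hc⟩ := complN hw hs hq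
          exact Or.inr (Or.inl ⟨(m, N, Θ, g, p, r, S, K, Inv), hc⟩)
        · obtain ⟨N, c, m, x, s, D, I, hc⟩ := complA hw hs
          exact Or.inr (Or.inr (Or.inl ⟨(N, c, m, x, s, D, I), hc⟩)))
  refine ⟨P, hP, fun F a h1 h2 h3 h4 => ?_⟩
  have hI : ¬ ∃ b, CertI ((F, a), b) := not_certI h1 h2 h3 h4
  obtain ⟨w, hw, hw'⟩ := ctx_of_not_certI hI
  rw [hspec (F, a) hI ?_]
  · exact (certQ_iff hw).trans (qp_iff hw' h4)
  · intro hq
    have hq' := (certQ_iff hw).1 hq
    exact ⟨fun ⟨b, hb⟩ => soundN hw hb hq', fun ⟨b, hb⟩ => soundA hw hb hq'⟩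

end Pool.Agent.Helper180.QPM
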